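import Mathlib
import Pool.Agent.H75.Perc.Hopf
import Pool.Agent.H33.Q1.Prim

set_option autoImplicit false
open Set Filter Topology

/-! Module M4: polyomino domains. A finite set `Q` of cells `(i,k)` and grid lines `x i`, `y k`
give the open set `Om Q x y`, the interior of the union of the closed rectangles
`[x i, x (i+1)] × [y k, y (k+1)]`. Boundary sides are given by a cell `c ∈ Q` and a lifted
direction `k : ℤ` (the side is traversed in the direction `dir k`, the cell `c` is on its left,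
the cell `c + dir (k-1)` on its right is not in `Q`). -/

namespace Pool.Agent.Q1.M4

open Pool.Agent.H75.Perc (dir dir_cases)

/-- A cell of the grid. -/
abbrev Cell := ℤ × ℤ

/-- The closed rectangle of the cell `c`. -/
def rect (x y : ℤ → ℝ) (c : Cell) : Set ℂ :=
  {z | (x c.1 ≤ z.re ∧ z.re ≤ x (c.1 + 1)) ∧ (y c.2 ≤ z.im ∧ z.im ≤ y (c.2 + 1))}

/-- The closed region of `Q`. -/
def Reg (Q : Finset Cell) (x y : ℤ → ℝ) : Set ℂ := {z | ∃ c ∈ Q, z ∈ rect x y c}

/-- The open domain of `Q`. -/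
def Om (Q : Finset Cell) (x y : ℤ → ℝ) : Set ℂ := interior (Reg Q x y)

lemma mem_rect {x y : ℤ → ℝ} {c : Cell} {z : ℂ} : z ∈ rect x y c ↔
    (x c.1 ≤ z.re ∧ z.re ≤ x (c.1 + 1)) ∧ (y c.2 ≤ z.im ∧ z.im ≤ y (c.2 + 1)) := Iff.rfl

/-! ### One coordinate -/

/-- Near a point of a grid interval only the grid intervals containing it matter. -/
lemma line_near {x : ℤ → ℝ} (hx : StrictMono x) {i : ℤ} {s : ℝ} (h1 : x i ≤ s)
    (h2 : s ≤ x (i + 1)) : ∃ r > 0, ∀ s', |s' - s| < r →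
      ∃ j, (x j ≤ s ∧ s ≤ x (j + 1)) ∧ (x j ≤ s' ∧ s' ≤ x (j + 1)) := by
  have hi0 : x (i - 1) < x i := hx (by omega)
  have hi1 : x i < x (i + 1) := hx (by omega)
  have hi2 : x (i + 1) < x (i + 1 + 1) := hx (by omega)
  rcases eq_or_lt_of_le h1 with e1 | e1
  · refine ⟨min (x i - x (i - 1)) (x (i + 1) - x i), lt_min (by linarith) (by linarith), ?_⟩
    intro s' hs'
    rw [lt_min_iff, abs_lt, abs_lt] at hs'
    rcases le_total s s' with h | h
    · exact ⟨i, ⟨h1, h2⟩, by linarith, by linarith [hs'.2.2]⟩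
    · refine ⟨i - 1, ⟨by linarith, ?_⟩, by linarith [hs'.1.1], ?_⟩
      · rw [sub_add_cancel]; linarith
      · rw [sub_add_cancel]; linarith
  · rcases eq_or_lt_of_le h2 with e2 | e2
    · refine ⟨min (s - x i) (x (i + 1 + 1) - x (i + 1)), lt_min (by linarith) (by linarith), ?_⟩
      intro s' hs'
      rw [lt_min_iff, abs_lt, abs_lt] at hs'
      rcases le_total s' s with h | h
      · exact ⟨i, ⟨h1, h2⟩, by linarith [hs'.1.1], by linarith⟩
      · exact ⟨i + 1, ⟨by linarith, by linarith⟩, by linarith, by linarith [hs'.2.2]⟩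
    · refine ⟨min (s - x i) (x (i + 1) - s), lt_min (by linarith) (by linarith), ?_⟩
      intro s' hs'
      rw [lt_min_iff, abs_lt, abs_lt] at hs'
      exact ⟨i, ⟨h1, h2⟩, by linarith [hs'.1.1], by linarith [hs'.2.2]⟩

/-- Near a point of a grid interval there are points of its interior. -/
lemma line_inner {x : ℤ → ℝ} (hx : StrictMono x) {i : ℤ} {s : ℝ} (h1 : x i ≤ s)
    (h2 : s ≤ x (i + 1)) {r : ℝ} (hr : 0 < r) : ∃ s', |s' - s| < r ∧ x i < s' ∧ s' < x (i + 1) := by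
  have hi1 : x i < x (i + 1) := hx (by omega)
  set d := x (i + 1) - x i with hd
  set m := (x i + x (i + 1)) / 2 with hm
  set t := min 1 (r / (2 * (d + 1))) / 2 with ht
  have hd0 : 0 < d := by simp only [hd]; linarith
  have h3 : 0 < r / (2 * (d + 1)) := by positivity
  have ht0 : 0 < t := by
    simp only [ht]
    have := lt_min one_pos h3
    linarith
  have ht1 : t ≤ 1 / 2 := by
    simp only [ht]
    have := min_le_left (1 : ℝ) (r / (2 * (d + 1)))
    linarith
  have ht2 : t ≤ r / (2 * (d + 1)) := by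
    simp only [ht]
    have := min_le_right (1 : ℝ) (r / (2 * (d + 1)))
    linarith
  refine ⟨s + t * (m - s), ?_, ?_, ?_⟩
  · have : |s + t * (m - s) - s| = t * |m - s| := by
      rw [add_sub_cancel_left, abs_mul, abs_of_pos ht0]
    rw [this]
    have h4 : |m - s| ≤ d := by
      rw [abs_le]; simp only [hm, hd]; constructor <;> linarith
    calc t * |m - s| ≤ (r / (2 * (d + 1))) * d := mul_le_mul ht2 h4 (abs_nonneg _) h3.le
      _ < r := by
        rw [div_mul_eq_mul_div, div_lt_iff₀ (by positivity)]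
        nlinarith
  · have : s + t * (m - s) = (1 - t) * s + t * m := by ring
    rw [this]
    have : x i < m := by simp only [hm]; linarith
    nlinarith
  · have : s + t * (m - s) = (1 - t) * s + t * m := by ring
    rw [this]
    have : m < x (i + 1) := by simp only [hm]; linarith
    nlinarith

lemma line_uniq {x : ℤ → ℝ} (hx : StrictMono x) {i j : ℤ} {s : ℝ} (h1 : x i < s)
    (h2 : s < x (i + 1)) (h3 : x j ≤ s) (h4 : s ≤ x (j + 1)) : j = i := by
  have a : x i < x (j + 1) := lt_of_lt_of_le h1 h4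
  have b : x j < x (i + 1) := lt_of_le_of_lt h3 h2
  rw [hx.lt_iff_lt] at a b
  omega

lemma line_grid {x : ℤ → ℝ} (hx : StrictMono x) {i j : ℤ} (h3 : x j ≤ x i)
    (h4 : x i ≤ x (j + 1)) : j = i ∨ j = i - 1 := by
  rw [hx.le_iff_le] at h3 h4
  omega

/-! ### The domain -/

lemma isOpen_Om (Q : Finset Cell) (x y : ℤ → ℝ) : IsOpen (Om Q x y) := isOpen_interior

lemma isClosed_rect (x y : ℤ → ℝ) (c : Cell) : IsClosed (rect x y c) := by
  have : rect x y c = Complex.re ⁻¹' Icc (x c.1) (x (c.1 + 1)) ∩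
      Complex.im ⁻¹' Icc (y c.2) (y (c.2 + 1)) := by
    ext z; simp [rect, Set.mem_Icc]
  rw [this]
  exact (isClosed_Icc.preimage Complex.continuous_re).inter
    (isClosed_Icc.preimage Complex.continuous_im)

lemma Reg_eq (Q : Finset Cell) (x y : ℤ → ℝ) : Reg Q x y = ⋃ c ∈ Q, rect x y c := by
  ext z; simp [Reg]

lemma isClosed_Reg (Q : Finset Cell) (x y : ℤ → ℝ) : IsClosed (Reg Q x y) := by
  rw [Reg_eq]
  exact Q.finite_toSet.isClosed_biUnion (fun c _ => isClosed_rect x y c)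

lemma Om_subset (Q : Finset Cell) (x y : ℤ → ℝ) : Om Q x y ⊆ Reg Q x y := interior_subset

lemma isBounded_rect (x y : ℤ → ℝ) (c : Cell) : Bornology.IsBounded (rect x y c) := by
  rw [Metric.isBounded_iff_subset_closedBall 0]
  refine ⟨(|x c.1| + |x (c.1 + 1)|) + (|y c.2| + |y (c.2 + 1)|), ?_⟩
  intro z hz
  obtain ⟨⟨a, b⟩, c', d⟩ := hz
  rw [mem_closedBall_zero_iff]
  refine (Complex.norm_le_abs_re_add_abs_im z).trans (add_le_add ?_ ?_)
  · rw [abs_le]
    have := neg_abs_le (x c.1)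
    have := le_abs_self (x (c.1 + 1))
    have := abs_nonneg (x c.1)
    have := abs_nonneg (x (c.1 + 1))
    constructor <;> linarith
  · rw [abs_le]
    have := neg_abs_le (y c.2)
    have := le_abs_self (y (c.2 + 1))
    have := abs_nonneg (y c.2)
    have := abs_nonneg (y (c.2 + 1))
    constructor <;> linarith

lemma isBounded_Reg (Q : Finset Cell) (x y : ℤ → ℝ) : Bornology.IsBounded (Reg Q x y) := by
  rw [Reg_eq]
  exact (Bornology.isBounded_biUnion_finset Q).2 (fun c _ => isBounded_rect x y c)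

lemma isBounded_Om (Q : Finset Cell) (x y : ℤ → ℝ) : Bornology.IsBounded (Om Q x y) :=
  (isBounded_Reg Q x y).subset (Om_subset Q x y)

/-- Membership in the open domain: all cells containing the point belong to `Q`. -/
lemma mem_Om {Q : Finset Cell} {x y : ℤ → ℝ} (hx : StrictMono x) (hy : StrictMono y) {z : ℂ} :
    z ∈ Om Q x y ↔ z ∈ Reg Q x y ∧ ∀ c, z ∈ rect x y c → c ∈ Q := by
  constructor
  · intro h
    refine ⟨Om_subset _ _ _ h, ?_⟩
    intro c hc
    rw [Om, mem_interior_iff_mem_nhds, Metric.mem_nhds_iff] at h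
    obtain ⟨r, hr, hsub⟩ := h
    obtain ⟨s, hs, hs1, hs2⟩ := line_inner hx hc.1.1 hc.1.2 (half_pos hr)
    obtain ⟨t, ht, ht1, ht2⟩ := line_inner hy hc.2.1 hc.2.2 (half_pos hr)
    have hmem : (⟨s, t⟩ : ℂ) ∈ Metric.ball z r := by
      rw [Metric.mem_ball, dist_eq_norm]
      refine (Complex.norm_le_abs_re_add_abs_im _).trans_lt ?_
      simp only [Complex.sub_re, Complex.sub_im]
      linarith
    obtain ⟨d, hd, hd1, hd2⟩ := hsub hmem
    have e1 := line_uniq hx hs1 hs2 hd1.1 hd1.2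
    have e2 := line_uniq hy ht1 ht2 hd2.1 hd2.2
    have : d = c := Prod.ext e1 e2
    rwa [← this]
  · rintro ⟨⟨c, hc, hzc⟩, h⟩
    obtain ⟨r1, hr1, h1⟩ := line_near hx hzc.1.1 hzc.1.2
    obtain ⟨r2, hr2, h2⟩ := line_near hy hzc.2.1 hzc.2.2
    rw [Om, mem_interior_iff_mem_nhds, Metric.mem_nhds_iff]
    refine ⟨min r1 r2, lt_min hr1 hr2, ?_⟩
    intro w hw
    rw [Metric.mem_ball, dist_eq_norm, lt_min_iff] at hw
    obtain ⟨i, hi, hi'⟩ := h1 w.re (by
      have := Complex.abs_re_le_norm (w - z)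
      rw [Complex.sub_re] at this; linarith [hw.1])
    obtain ⟨k, hk, hk'⟩ := h2 w.im (by
      have := Complex.abs_im_le_norm (w - z)
      rw [Complex.sub_im] at this; linarith [hw.2])
    exact ⟨(i, k), h (i, k) ⟨hi, hk⟩, hi', hk'⟩

/-- The closure of the domain is the closed region. -/
lemma closure_Om {Q : Finset Cell} {x y : ℤ → ℝ} (hx : StrictMono x) (hy : StrictMono y) :
    closure (Om Q x y) = Reg Q x y := by
  apply Subset.antisymm
  · exact closure_minimal (Om_subset _ _ _) (isClosed_Reg _ _ _)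
  · rintro z ⟨c, hc, hz⟩
    rw [Metric.mem_closure_iff]
    intro r hr
    obtain ⟨s, hs, hs1, hs2⟩ := line_inner hx hz.1.1 hz.1.2 (half_pos hr)
    obtain ⟨t, ht, ht1, ht2⟩ := line_inner hy hz.2.1 hz.2.2 (half_pos hr)
    refine ⟨⟨s, t⟩, ?_, ?_⟩
    · rw [mem_Om hx hy]
      refine ⟨⟨c, hc, ⟨hs1.le, hs2.le⟩, ht1.le, ht2.le⟩, ?_⟩
      intro d hd
      have e1 := line_uniq hx hs1 hs2 hd.1.1 hd.1.2
      have e2 := line_uniq hy ht1 ht2 hd.2.1 hd.2.2
      have : d = c := Prod.ext e1 e2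
      rwa [this]
    · rw [dist_comm, dist_eq_norm]
      refine (Complex.norm_le_abs_re_add_abs_im _).trans_lt ?_
      simp only [Complex.sub_re, Complex.sub_im]
      linarith

lemma frontier_Om {Q : Finset Cell} {x y : ℤ → ℝ} (hx : StrictMono x) (hy : StrictMono y) :
    frontier (Om Q x y) = Reg Q x y \ Om Q x y := by
  rw [frontier, closure_Om hx hy, (isOpen_Om _ _ _).interior_eq]

/-- The same domain in the notation of `H33/Q1/Prim.lean`. -/
lemma Om_eq (Q : Finset Cell) (x y : ℤ → ℝ) : H33.Q1.Omega Q x y = Om Q x y := by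
  unfold H33.Q1.Omega Om Reg
  congr 1
  ext z
  simp only [mem_iUnion, exists_prop, H33.Q1.cell, Complex.mem_reProdIm, Set.mem_Icc,
    mem_setOf_eq, rect]

/-! ### Good sets of cells and the boundary walk -/

/-- Cells with a common side. -/
def Adj4 (c d : Cell) : Prop := ∃ k : ℤ, d = c + dir k

/-- `Q` is connected through sides. -/
def Conn4 (S : Set Cell) : Prop :=
  ∀ c ∈ S, ∀ d ∈ S, Relation.ReflTransGen (fun a b => Adj4 a b ∧ b ∈ S) c d

/-- A good polyomino: nonempty, connected through sides, complement connected through sides, no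
grid vertex with exactly two diagonal cells. -/
structure Good (Q : Finset Cell) : Prop where
  ne : Q.Nonempty
  conn : Conn4 (Q : Set Cell)
  conn_compl : Conn4 ((Q : Set Cell)ᶜ)
  diag1 : ∀ c : Cell, c ∈ Q → c + (1, 1) ∈ Q → c + (1, 0) ∈ Q ∨ c + (0, 1) ∈ Q
  diag2 : ∀ c : Cell, c + (1, 0) ∈ Q → c + (0, 1) ∈ Q → c ∈ Q ∨ c + (1, 1) ∈ Q

/-- A boundary side with a lifted direction: the cell `s.1` lies on the left, the cell
`s.1 + dir (s.2 - 1)` on the right is not in `Q`. -/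
def IsSide (Q : Finset Cell) (s : Cell × ℤ) : Prop := s.1 ∈ Q ∧ s.1 + dir (s.2 - 1) ∉ Q

/-- The next boundary side (domain on the left), with lifted direction. -/
def nextSide (Q : Finset Cell) (s : Cell × ℤ) : Cell × ℤ :=
  if s.1 + dir s.2 + dir (s.2 - 1) ∈ Q then (s.1 + dir s.2 + dir (s.2 - 1), s.2 - 1)
  else if s.1 + dir s.2 ∈ Q then (s.1 + dir s.2, s.2) else (s.1, s.2 + 1)

/-- Grid vertex at the beginning of a side: the lower left, lower right, upper right, upper left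
corner of the cell for the directions `0, 1, 2, 3`. -/
def tail (s : Cell × ℤ) : ℤ × ℤ :=
  if s.2 % 4 = 0 then s.1 else if s.2 % 4 = 1 then s.1 + (1, 0)
  else if s.2 % 4 = 2 then s.1 + (1, 1) else s.1 + (0, 1)

/-- Grid vertex at the end of a side. -/
def head (s : Cell × ℤ) : ℤ × ℤ := tail s + dir s.2

/-- A good polyomino with a marked boundary arc: `N` sides, the walk starts at the mark `a` (tail
of the side `s₀`), the free arc `S` consists of the first `m` sides, then comes the mark `b` and the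
wired arc `T` with the remaining `N - m` sides. -/
structure PType where
  Q : Finset Cell
  good : Good Q
  s0 : Cell × ℤ
  N : ℕ
  m : ℕ
  hm0 : 0 < m
  hmN : m < N
  side0 : IsSide Q s0
  period : (nextSide Q)^[N] s0 = (s0.1, s0.2 + 4)
  all : ∀ s : Cell × ℤ, IsSide Q s → ∃ n < N, ((nextSide Q)^[n] s0).1 = s.1 ∧
    (((nextSide Q)^[n] s0).2 - s.2) % 4 = 0
  inj : ∀ n < N, ∀ n' < N, ((nextSide Q)^[n] s0).1 = ((nextSide Q)^[n'] s0).1 →
    (((nextSide Q)^[n] s0).2 - ((nextSide Q)^[n'] s0).2) % 4 = 0 → n = n'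

/-- The `n`-th side of the boundary walk. -/
def PType.side (P : PType) (n : ℕ) : Cell × ℤ := (nextSide P.Q)^[n] P.s0

/-- The `n`-th grid vertex of the boundary. -/
def PType.vert (P : PType) (n : ℕ) : ℤ × ℤ := tail (P.side n)

/-- Position of a grid vertex in the plane. -/
def pt (x y : ℤ → ℝ) (p : ℤ × ℤ) : ℂ := ⟨x p.1, y p.2⟩

lemma dir_add_four (k : ℤ) : dir (k + 4) = dir k := by
  rcases dir_cases k with ⟨h, e⟩ | ⟨h, e⟩ | ⟨h, e⟩ | ⟨h, e⟩ <;>
  rcases dir_cases (k + 4) with ⟨h', e'⟩ | ⟨h', e'⟩ | ⟨h', e'⟩ | ⟨h', e'⟩ <;>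
  first | (exfalso; omega) | rw [e, e']

lemma isSide_next {Q : Finset Cell} {s : Cell × ℤ} (h : IsSide Q s) :
    IsSide Q (nextSide Q s) := by
  obtain ⟨⟨i, j⟩, k⟩ := s
  obtain ⟨h1, h2⟩ := h
  unfold nextSide IsSide
  simp only at h1 h2 ⊢
  by_cases ha : (i, j) + dir k + dir (k - 1) ∈ Q
  · rw [if_pos ha]
    refine ⟨ha, ?_⟩
    simp only
    rcases dir_cases k with ⟨a, e⟩ | ⟨a, e⟩ | ⟨a, e⟩ | ⟨a, e⟩ <;>
    rcases dir_cases (k - 1) with ⟨b, f⟩ | ⟨b, f⟩ | ⟨b, f⟩ | ⟨b, f⟩ <;>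
    rcases dir_cases (k - 1 - 1) with ⟨c, g⟩ | ⟨c, g⟩ | ⟨c, g⟩ | ⟨c, g⟩ <;>
    first | (exfalso; omega) | (rw [e, f, g]; rw [f] at h2; simpa using h2)
  · rw [if_neg ha]
    by_cases hb : (i, j) + dir k ∈ Q
    · rw [if_pos hb]
      exact ⟨hb, by simpa [add_assoc] using ha⟩
    · rw [if_neg hb]
      exact ⟨h1, by simpa using hb⟩

lemma head_eq_tail_next {Q : Finset Cell} (s : Cell × ℤ) : tail (nextSide Q s) = head s := by
  obtain ⟨⟨i, j⟩, k⟩ := s
  unfold nextSide head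
  simp only
  split_ifs with ha hb
  · rcases dir_cases k with ⟨a, e⟩ | ⟨a, e⟩ | ⟨a, e⟩ | ⟨a, e⟩ <;>
    rcases dir_cases (k - 1) with ⟨b, f⟩ | ⟨b, f⟩ | ⟨b, f⟩ | ⟨b, f⟩ <;>
    first | (exfalso; omega) | (rw [e, f]; simp [tail, a, b])
  · rcases dir_cases k with ⟨a, e⟩ | ⟨a, e⟩ | ⟨a, e⟩ | ⟨a, e⟩ <;> rw [e] <;>
      simp [tail, a, add_comm]
  · rcases dir_cases k with ⟨a, e⟩ | ⟨a, e⟩ | ⟨a, e⟩ | ⟨a, e⟩ <;>
    rcases dir_cases (k + 1) with ⟨b, f⟩ | ⟨b, f⟩ | ⟨b, f⟩ | ⟨b, f⟩ <;>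
    first | (exfalso; omega) | (rw [e]; simp [tail, a, b])

end Pool.Agent.Q1.M4
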