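import Pool.Agent.Q1.M4.Prim
import Pool.Agent.Q1.Prim

set_option autoImplicit false

/-! Module M4: the global primitive `Hv` (vertices), `Hf` (faces) of a closed function `g` of the
corners on a region of faces with connected complement and without pinch points. The face `(a,b)` is
the unit square with the upper right corner `(a,b)`. -/

namespace Pool.Agent.Q1.M4

open Pool.Agent.H75.Perc Pool.Agent.H75.TwoArm

/-- No vertex with exactly two diagonal faces. -/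
structure NoPinch (F : Finset (ℤ × ℤ)) : Prop where
  diag1 : ∀ a b, (a, b) ∈ F → (a + 1, b + 1) ∈ F → (a + 1, b) ∈ F ∨ (a, b + 1) ∈ F
  diag2 : ∀ a b, (a + 1, b) ∈ F → (a, b + 1) ∈ F → (a, b) ∈ F ∨ (a + 1, b + 1) ∈ F

/-- **Global primitive.** -/
theorem exists_global {A : Type*} [AddCommGroup A] (F : Finset (ℤ × ℤ))
    (hF : _root_.Q1.CellConn ((F : Set (ℤ × ℤ))ᶜ)) (hP : NoPinch F) (g : ℤ × ℤ → A)
    (hh : ∀ a b, (a, b) ∈ F → (a + 1, b) ∈ F → ClosedAt g (2 * a, 2 * b - 1))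
    (hv : ∀ a b, (a, b) ∈ F → (a, b + 1) ∈ F → ClosedAt g (2 * a - 1, 2 * b)) :
    ∃ Hv Hf : ℤ × ℤ → A, ∀ c, fi c ∈ F → Hv (vx c) - Hf (fi c) = g c := by
  classical
  have hh' : ∀ a b, (a, b) ∈ F → (a + 1, b) ∈ F →
      g (2 * a, 2 * b) + g (2 * a + 1, 2 * b - 1) = g (2 * a + 1, 2 * b) + g (2 * a, 2 * b - 1) := by
    intro a b h1 h2
    have h3 := hh a b h1 h2
    unfold ClosedAt at h3
    obtain ⟨e1, e2, e3, e4⟩ := corners_v a (b - 1)
    have e5 : 2 * (b - 1) + 1 = 2 * b - 1 := by ring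
    have e6 : 2 * (b - 1) + 2 = 2 * b := by ring
    rw [e5] at e1 e2 e4
    rw [e6] at e1 e3
    rw [e1, e2, e3, e4] at h3
    exact h3
  have hv' : ∀ a b, (a, b) ∈ F → (a, b + 1) ∈ F →
      g (2 * a - 1, 2 * b) + g (2 * a, 2 * b + 1) = g (2 * a - 1, 2 * b + 1) + g (2 * a, 2 * b) := by
    intro a b h1 h2
    have h3 := hv a b h1 h2
    unfold ClosedAt at h3
    obtain ⟨e1, e2, e3, e4⟩ := corners_h (a - 1) b
    have e5 : 2 * (a - 1) + 1 = 2 * a - 1 := by ring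
    have e6 : 2 * (a - 1) + 2 = 2 * a := by ring
    rw [e5] at e1 e2 e3
    rw [e6] at e2 e4
    rw [e1, e2, e3, e4] at h3
    exact h3
  obtain ⟨Hf, hf1, hf2⟩ := _root_.Q1.exact_of_closed F hF
    (fun p => g (2 * p.1, 2 * p.2) - g (2 * p.1 + 1, 2 * p.2))
    (fun p => g (2 * p.1, 2 * p.2) - g (2 * p.1, 2 * p.2 + 1)) (by
      intro a b h1 h2 h3 h4
      simp only
      have k1 := hv' (a + 1) b h2 h4
      have k2 := hh' a (b + 1) h3 h4
      have e1 : 2 * (a + 1) - 1 = 2 * a + 1 := by ring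
      have e2 : 2 * (b + 1) - 1 = 2 * b + 1 := by ring
      rw [e1] at k1
      rw [e2] at k2
      have k1' : g (2 * (a + 1), 2 * b) = g (2 * a + 1, 2 * b) + g (2 * (a + 1), 2 * b + 1) -
        g (2 * a + 1, 2 * b + 1) := by rw [k1]; abel
      have k2' : g (2 * a, 2 * (b + 1)) = g (2 * a + 1, 2 * (b + 1)) + g (2 * a, 2 * b + 1) -
        g (2 * a + 1, 2 * b + 1) := by rw [← k2]; abel
      rw [k1', k2']
      abel)
  simp only at hf1 hf2
  -- the four neighbours around the vertex (a, b)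
  have n1 : ∀ a b, (a, b) ∈ F → (a + 1, b) ∈ F →
      Hf (a, b) + g (2 * a, 2 * b) = Hf (a + 1, b) + g (2 * a + 1, 2 * b) := by
    intro a b h1 h2
    rw [eq_add_of_sub_eq (hf1 a b h1 h2)]; abel
  have n2 : ∀ a b, (a, b) ∈ F → (a, b + 1) ∈ F →
      Hf (a, b) + g (2 * a, 2 * b) = Hf (a, b + 1) + g (2 * a, 2 * b + 1) := by
    intro a b h1 h2
    rw [eq_add_of_sub_eq (hf2 a b h1 h2)]; abel
  have n3 : ∀ a b, (a + 1, b) ∈ F → (a + 1, b + 1) ∈ F →
      Hf (a + 1, b) + g (2 * a + 1, 2 * b) = Hf (a + 1, b + 1) + g (2 * a + 1, 2 * b + 1) := by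
    intro a b h1 h2
    have k1 := hv' (a + 1) b h1 h2
    have e1 : 2 * (a + 1) - 1 = 2 * a + 1 := by ring
    rw [e1] at k1
    have k1' : g (2 * (a + 1), 2 * b) = g (2 * a + 1, 2 * b) + g (2 * (a + 1), 2 * b + 1) -
      g (2 * a + 1, 2 * b + 1) := by rw [k1]; abel
    rw [eq_add_of_sub_eq (hf2 (a + 1) b h1 h2), k1']; abel
  have n4 : ∀ a b, (a, b + 1) ∈ F → (a + 1, b + 1) ∈ F →
      Hf (a, b + 1) + g (2 * a, 2 * b + 1) = Hf (a + 1, b + 1) + g (2 * a + 1, 2 * b + 1) := by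
    intro a b h1 h2
    have k2 := hh' a (b + 1) h1 h2
    have e2 : 2 * (b + 1) - 1 = 2 * b + 1 := by ring
    rw [e2] at k2
    have k2' : g (2 * a, 2 * (b + 1)) = g (2 * a + 1, 2 * (b + 1)) + g (2 * a, 2 * b + 1) -
      g (2 * a + 1, 2 * b + 1) := by rw [← k2]; abel
    rw [eq_add_of_sub_eq (hf1 a (b + 1) h1 h2), k2']; abel
  set Hv : ℤ × ℤ → A := fun p =>
    if (p.1, p.2) ∈ F then Hf (p.1, p.2) + g (2 * p.1, 2 * p.2)
    else if (p.1 + 1, p.2) ∈ F then Hf (p.1 + 1, p.2) + g (2 * p.1 + 1, 2 * p.2)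
    else if (p.1, p.2 + 1) ∈ F then Hf (p.1, p.2 + 1) + g (2 * p.1, 2 * p.2 + 1)
    else Hf (p.1 + 1, p.2 + 1) + g (2 * p.1 + 1, 2 * p.2 + 1) with hHv
  refine ⟨Hv, Hf, ?_⟩
  rintro ⟨p, q⟩ hc
  rcases Int.even_or_odd' p with ⟨a, ha | ha⟩ <;> rcases Int.even_or_odd' q with ⟨b, hb | hb⟩ <;>
    subst ha <;> subst hb
  · have e1 : fi (2 * a, 2 * b) = (a, b) := by unfold fi; ext <;> simp only <;> omega
    have e2 : vx (2 * a, 2 * b) = (a, b) := by unfold vx; ext <;> simp only <;> omega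
    rw [e1] at hc ⊢
    rw [e2]
    simp only [hHv, hc, if_true]
    abel
  · have e1 : fi (2 * a, 2 * b + 1) = (a, b + 1) := by unfold fi; ext <;> simp only <;> omega
    have e2 : vx (2 * a, 2 * b + 1) = (a, b) := by unfold vx; ext <;> simp only <;> omega
    rw [e1] at hc ⊢
    rw [e2]
    have : Hv (a, b) = Hf (a, b + 1) + g (2 * a, 2 * b + 1) := by
      simp only [hHv]
      by_cases h1 : (a, b) ∈ F
      · rw [if_pos h1, n2 a b h1 hc]
      · rw [if_neg h1]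
        by_cases h2 : (a + 1, b) ∈ F
        · rw [if_pos h2]
          have h4 := (hP.diag2 a b h2 hc).resolve_left h1
          rw [n3 a b h2 h4, n4 a b hc h4]
        · rw [if_neg h2, if_pos hc]
    rw [this]; abel
  · have e1 : fi (2 * a + 1, 2 * b) = (a + 1, b) := by unfold fi; ext <;> simp only <;> omega
    have e2 : vx (2 * a + 1, 2 * b) = (a, b) := by unfold vx; ext <;> simp only <;> omega
    rw [e1] at hc ⊢
    rw [e2]
    have : Hv (a, b) = Hf (a + 1, b) + g (2 * a + 1, 2 * b) := by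
      simp only [hHv]
      by_cases h1 : (a, b) ∈ F
      · rw [if_pos h1, n1 a b h1 hc]
      · rw [if_neg h1, if_pos hc]
    rw [this]; abel
  · have e1 : fi (2 * a + 1, 2 * b + 1) = (a + 1, b + 1) := by
      unfold fi; ext <;> simp only <;> omega
    have e2 : vx (2 * a + 1, 2 * b + 1) = (a, b) := by unfold vx; ext <;> simp only <;> omega
    rw [e1] at hc ⊢
    rw [e2]
    have : Hv (a, b) = Hf (a + 1, b + 1) + g (2 * a + 1, 2 * b + 1) := by
      simp only [hHv]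
      by_cases h1 : (a, b) ∈ F
      · rw [if_pos h1]
        rcases hP.diag1 a b h1 hc with h2 | h2
        · rw [n1 a b h1 h2, n3 a b h2 hc]
        · rw [n2 a b h1 h2, n4 a b h2 hc]
      · rw [if_neg h1]
        by_cases h2 : (a + 1, b) ∈ F
        · rw [if_pos h2, n3 a b h2 hc]
        · rw [if_neg h2]
          by_cases h3 : (a, b + 1) ∈ F
          · rw [if_pos h3, n4 a b h3 hc]
          · rw [if_neg h3]
    rw [this]; abel

/-! ### The faces of a lattice polygon -/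

/-- Faces of the lattice rectangle of the cell `c`. -/
def RC (X Y : ℤ → ℤ) (c : ℤ × ℤ) (p : ℤ × ℤ) : Prop :=
  (X c.1 < p.1 ∧ p.1 ≤ X (c.1 + 1)) ∧ (Y c.2 < p.2 ∧ p.2 ≤ Y (c.2 + 1))

/-- The finite set of the faces of the lattice polygon of `Q`. -/
noncomputable def FQ (Q : Finset (ℤ × ℤ)) (X Y : ℤ → ℤ) : Finset (ℤ × ℤ) :=
  Q.biUnion fun c => Finset.Ioc (X c.1) (X (c.1 + 1)) ×ˢ Finset.Ioc (Y c.2) (Y (c.2 + 1))

lemma mem_FQ {Q : Finset (ℤ × ℤ)} {X Y : ℤ → ℤ} {p : ℤ × ℤ} :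
    p ∈ FQ Q X Y ↔ ∃ c ∈ Q, RC X Y c p := by
  simp [FQ, RC]

lemma strictMono_exists {X : ℤ → ℤ} (hX : StrictMono X) (a : ℤ) :
    ∃ i, X i < a ∧ a ≤ X (i + 1) := by
  have h1 : ∀ n : ℕ, X 0 + n ≤ X n ∧ X (-n) ≤ X 0 - n := by
    intro n
    induction n with
    | zero => simp
    | succ n ih =>
      have e1 := hX (show (n : ℤ) < (n + 1 : ℕ) by push_cast; omega)
      have e2 := hX (show -((n + 1 : ℕ) : ℤ) < -(n : ℤ) by push_cast; omega)
      push_cast at e1 e2 ⊢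
      omega
  obtain ⟨i, hi, hmax⟩ := Int.exists_greatest_of_bdd (P := fun i => X i < a)
    ⟨((a - X 0).toNat : ℤ), fun z hz => by
      by_contra hlt
      have := (h1 (a - X 0).toNat).1
      have h3 := hX (not_le.1 hlt)
      omega⟩
    ⟨-(((X 0 - a).toNat + 1 : ℕ) : ℤ), by
      have := (h1 ((X 0 - a).toNat + 1)).2
      omega⟩
  refine ⟨i, hi, ?_⟩
  by_contra hlt
  have := hmax (i + 1) (not_le.1 hlt)
  omega

lemma strictMono_unique {X : ℤ → ℤ} (hX : StrictMono X) {a i j : ℤ} (h1 : X i < a)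
    (h2 : a ≤ X (i + 1)) (h3 : X j < a) (h4 : a ≤ X (j + 1)) : i = j := by
  have e1 : X i < X (j + 1) := lt_of_lt_of_le h1 h4
  have e2 : X j < X (i + 1) := lt_of_lt_of_le h3 h2
  rw [hX.lt_iff_lt] at e1 e2
  omega

lemma RC_exists {X Y : ℤ → ℤ} (hX : StrictMono X) (hY : StrictMono Y) (p : ℤ × ℤ) :
    ∃ c, RC X Y c p := by
  obtain ⟨i, hi⟩ := strictMono_exists hX p.1
  obtain ⟨k, hk⟩ := strictMono_exists hY p.2
  exact ⟨(i, k), hi, hk⟩

lemma RC_unique {X Y : ℤ → ℤ} (hX : StrictMono X) (hY : StrictMono Y) {c d p : ℤ × ℤ}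
    (h1 : RC X Y c p) (h2 : RC X Y d p) : c = d :=
  Prod.ext (strictMono_unique hX h1.1.1 h1.1.2 h2.1.1 h2.1.2)
    (strictMono_unique hY h1.2.1 h1.2.2 h2.2.1 h2.2.2)

lemma mem_FQ_iff {Q : Finset (ℤ × ℤ)} {X Y : ℤ → ℤ} (hX : StrictMono X) (hY : StrictMono Y)
    {c p : ℤ × ℤ} (h : RC X Y c p) : p ∈ FQ Q X Y ↔ c ∈ Q := by
  rw [mem_FQ]
  constructor
  · rintro ⟨d, hd, hp⟩
    rwa [RC_unique hX hY h hp]
  · exact fun hc => ⟨c, hc, h⟩

/-- A rectangle of faces is connected. -/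
lemma rect_conn {a b c d : ℤ} {S : Set (ℤ × ℤ)}
    (hS : ∀ p : ℤ × ℤ, (a < p.1 ∧ p.1 ≤ b) → (c < p.2 ∧ p.2 ≤ d) → p ∈ S) {p q : ℤ × ℤ}
    (hp : (a < p.1 ∧ p.1 ≤ b) ∧ (c < p.2 ∧ p.2 ≤ d))
    (hq : (a < q.1 ∧ q.1 ≤ b) ∧ (c < q.2 ∧ q.2 ≤ d)) :
    Relation.ReflTransGen (fun u v => _root_.Q1.Adj4 u v ∧ u ∈ S ∧ v ∈ S) p q := by
  -- measure: distance
  have key : ∀ n : ℕ, ∀ p : ℤ × ℤ, ((a < p.1 ∧ p.1 ≤ b) ∧ (c < p.2 ∧ p.2 ≤ d)) →
      (p.1 - q.1).natAbs + (p.2 - q.2).natAbs = n →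
      Relation.ReflTransGen (fun u v => _root_.Q1.Adj4 u v ∧ u ∈ S ∧ v ∈ S) p q := by
    intro n
    induction n with
    | zero =>
      intro p hp h
      have : p = q := by ext <;> omega
      rw [this]
    | succ n ih =>
      intro p hp h
      have hstep : ∃ p' : ℤ × ℤ, _root_.Q1.Adj4 p p' ∧ ((a < p'.1 ∧ p'.1 ≤ b) ∧
          (c < p'.2 ∧ p'.2 ≤ d)) ∧ (p'.1 - q.1).natAbs + (p'.2 - q.2).natAbs = n := by
        rcases lt_trichotomy p.1 q.1 with h1 | h1 | h1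
        · exact ⟨(p.1 + 1, p.2), Or.inl rfl, by simp only; omega, by simp only; omega⟩
        · rcases lt_trichotomy p.2 q.2 with h2 | h2 | h2
          · exact ⟨(p.1, p.2 + 1), Or.inr (Or.inr (Or.inl rfl)), by simp only; omega,
              by simp only; omega⟩
          · omega
          · exact ⟨(p.1, p.2 - 1), Or.inr (Or.inr (Or.inr (by simp))), by simp only; omega,
              by simp only; omega⟩
        · exact ⟨(p.1 - 1, p.2), Or.inr (Or.inl (by simp)), by simp only; omega,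
            by simp only; omega⟩
      obtain ⟨p', h1, h2, h3⟩ := hstep
      exact Relation.ReflTransGen.head ⟨h1, hS p hp.1 hp.2, hS p' h2.1 h2.2⟩ (ih p' h2 h3)
  exact key _ p hp rfl

/-- The complement of the lattice polygon is connected. -/
theorem conn_compl_FQ {Q : Finset (ℤ × ℤ)} {X Y : ℤ → ℤ} (hX : StrictMono X)
    (hY : StrictMono Y) (hQ : _root_.Q1.CellConn ((Q : Set (ℤ × ℤ))ᶜ)) :
    _root_.Q1.CellConn ((FQ Q X Y : Set (ℤ × ℤ))ᶜ) := by
  set S : Set (ℤ × ℤ) := (FQ Q X Y : Set (ℤ × ℤ))ᶜ with hS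
  have hin : ∀ c ∉ Q, ∀ p, RC X Y c p → p ∈ S := by
    intro c hc p hp
    rw [hS, Set.mem_compl_iff, Finset.mem_coe, mem_FQ_iff hX hY hp]
    exact hc
  have hcell : ∀ c ∉ Q, ∀ p q, RC X Y c p → RC X Y c q →
      Relation.ReflTransGen (fun u v => _root_.Q1.Adj4 u v ∧ u ∈ S ∧ v ∈ S) p q := by
    intro c hc p q hp hq
    exact rect_conn (fun r h1 h2 => hin c hc r ⟨h1, h2⟩) hp hq
  have hXi : ∀ i, X i + 1 ≤ X (i + 1) := fun i => hX (show i < i + 1 by omega)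
  have hYi : ∀ i, Y i + 1 ≤ Y (i + 1) := fun i => hY (show i < i + 1 by omega)
  -- neighbouring cells
  have hadj1 : ∀ i k : ℤ, (i, k) ∉ Q → (i + 1, k) ∉ Q → ∃ p q, RC X Y (i, k) p ∧
      RC X Y (i + 1, k) q ∧ _root_.Q1.Adj4 p q := by
    intro i k _ _
    refine ⟨(X (i + 1), Y k + 1), (X (i + 1) + 1, Y k + 1), ?_, ?_, Or.inl rfl⟩
    · have := hXi i
      have := hYi k
      unfold RC; simp only; omega
    · have := hXi (i + 1)
      have := hYi k
      unfold RC; simp only; omega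
  have hadj2 : ∀ i k : ℤ, (i, k) ∉ Q → (i, k + 1) ∉ Q → ∃ p q, RC X Y (i, k) p ∧
      RC X Y (i, k + 1) q ∧ _root_.Q1.Adj4 p q := by
    intro i k _ _
    refine ⟨(X i + 1, Y (k + 1)), (X i + 1, Y (k + 1) + 1), ?_, ?_, Or.inr (Or.inr (Or.inl rfl))⟩
    · have := hXi i
      have := hYi k
      unfold RC; simp only; omega
    · have := hXi i
      have := hYi (k + 1)
      unfold RC; simp only; omega
  have hsymm : ∀ {p q : ℤ × ℤ}, _root_.Q1.Adj4 p q → _root_.Q1.Adj4 q p := by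
    rintro p q (h | h | h | h)
    · exact Or.inr (Or.inl h)
    · exact Or.inl h
    · exact Or.inr (Or.inr (Or.inr h))
    · exact Or.inr (Or.inr (Or.inl h))
  have hadj : ∀ c d, c ∉ Q → d ∉ Q → _root_.Q1.Adj4 c d → ∃ p q, RC X Y c p ∧ RC X Y d q ∧
      _root_.Q1.Adj4 p q := by
    rintro ⟨i, k⟩ ⟨i', k'⟩ hc hd (h | h | h | h) <;> simp only [Prod.mk.injEq] at h <;>
      obtain ⟨rfl, rfl⟩ := h
    · exact hadj1 _ _ hc hd
    · obtain ⟨p, q, h1, h2, h3⟩ := hadj1 _ _ hd hc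
      exact ⟨q, p, h2, h1, hsymm h3⟩
    · exact hadj2 _ _ hc hd
    · obtain ⟨p, q, h1, h2, h3⟩ := hadj2 _ _ hd hc
      exact ⟨q, p, h2, h1, hsymm h3⟩
  intro p hp q hq
  obtain ⟨c, hc⟩ := RC_exists hX hY p
  obtain ⟨d, hd⟩ := RC_exists hX hY q
  have hcQ : c ∉ Q := by
    rw [hS, Set.mem_compl_iff, Finset.mem_coe, mem_FQ_iff hX hY hc] at hp
    exact hp
  have hdQ : d ∉ Q := by
    rw [hS, Set.mem_compl_iff, Finset.mem_coe, mem_FQ_iff hX hY hd] at hq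
    exact hq
  have hchain := hQ c (by simpa using hcQ) d (by simpa using hdQ)
  clear hq
  induction hchain generalizing q with
  | refl => exact hcell c hcQ p q hc hd
  | @tail e d _ hed ih =>
    obtain ⟨h1, h2, h3⟩ := hed
    have heQ : e ∉ Q := by simpa using h2
    obtain ⟨u, v, hu, hv, huv⟩ := hadj e d heQ hdQ h1
    exact ((ih u hu heQ).tail ⟨huv, hin e heQ u hu, hin d hdQ v hv⟩).trans
      (hcell d hdQ v q hv hd)

/-- The lattice polygon of a set of cells without pinch points has no pinch points. -/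
theorem noPinch_FQ {Q : Finset (ℤ × ℤ)} {X Y : ℤ → ℤ} (hX : StrictMono X)
    (hY : StrictMono Y) (hQ : NoPinch Q) : NoPinch (FQ Q X Y) := by
  -- columns of `a` and `a + 1`
  have hcol : ∀ {X : ℤ → ℤ}, StrictMono X → ∀ a i, X i < a → a ≤ X (i + 1) →
      (X i < a + 1 ∧ a + 1 ≤ X (i + 1)) ∨ (X (i + 1) < a + 1 ∧ a + 1 ≤ X (i + 1 + 1)) := by
    intro X hX a i h1 h2
    have := hX (show i + 1 < i + 1 + 1 by omega)
    omega
  constructor
  · intro a b h1 h2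
    obtain ⟨⟨i, k⟩, hc, h1⟩ := mem_FQ.1 h1
    have hx := h1.1
    have hy := h1.2
    simp only at hx hy
    rcases hcol hX a i hx.1 hx.2 with hx' | hx' <;> rcases hcol hY b k hy.1 hy.2 with hy' | hy'
    · left
      exact mem_FQ.2 ⟨(i, k), hc, hx', hy⟩
    · left
      exact mem_FQ.2 ⟨(i, k), hc, hx', hy⟩
    · right
      exact mem_FQ.2 ⟨(i, k), hc, hx, hy'⟩
    · have hd : (i + 1, k + 1) ∈ Q :=
        (mem_FQ_iff (c := (i + 1, k + 1)) (p := (a + 1, b + 1)) hX hY ⟨hx', hy'⟩).1 h2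
      rcases hQ.diag1 i k hc hd with h | h
      · left
        exact mem_FQ.2 ⟨(i + 1, k), h, hx', hy⟩
      · right
        exact mem_FQ.2 ⟨(i, k + 1), h, hx, hy'⟩
  · intro a b h1 h2
    obtain ⟨⟨i, k⟩, hc⟩ := RC_exists hX hY (a, b)
    have hx := hc.1
    have hy := hc.2
    simp only at hx hy
    rcases hcol hX a i hx.1 hx.2 with hx' | hx' <;> rcases hcol hY b k hy.1 hy.2 with hy' | hy'
    · left
      have : (i, k) ∈ Q := (mem_FQ_iff (c := (i, k)) (p := (a + 1, b)) hX hY ⟨hx', hy⟩).1 h1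
      exact mem_FQ.2 ⟨(i, k), this, hc⟩
    · left
      have : (i, k) ∈ Q := (mem_FQ_iff (c := (i, k)) (p := (a + 1, b)) hX hY ⟨hx', hy⟩).1 h1
      exact mem_FQ.2 ⟨(i, k), this, hc⟩
    · left
      have : (i, k) ∈ Q := (mem_FQ_iff (c := (i, k)) (p := (a, b + 1)) hX hY ⟨hx, hy'⟩).1 h2
      exact mem_FQ.2 ⟨(i, k), this, hc⟩
    · have e1 : (i + 1, k) ∈ Q :=
        (mem_FQ_iff (c := (i + 1, k)) (p := (a + 1, b)) hX hY ⟨hx', hy⟩).1 h1
      have e2 : (i, k + 1) ∈ Q :=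
        (mem_FQ_iff (c := (i, k + 1)) (p := (a, b + 1)) hX hY ⟨hx, hy'⟩).1 h2
      rcases hQ.diag2 i k e1 e2 with h | h
      · left
        exact mem_FQ.2 ⟨(i, k), h, hc⟩
      · right
        exact mem_FQ.2 ⟨(i + 1, k + 1), h, hx', hy'⟩

lemma Good.noPinch {Q : Finset Cell} (hQ : Good Q) : NoPinch Q := by
  constructor
  · intro a b h1 h2
    have := hQ.diag1 (a, b) h1 (by simpa using h2)
    simpa using this
  · intro a b h1 h2
    have := hQ.diag2 (a, b) (by simpa using h1) (by simpa using h2)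
    simpa using this

/-- **Global primitive on the lattice polygon of a good set of cells.** `g` is a function of the
corners, closed at all labels between two faces of the polygon. -/
theorem Good.exists_global {Q : Finset Cell} (hQ : Good Q) {X Y : ℤ → ℤ} (hX : StrictMono X)
    (hY : StrictMono Y) {A : Type*} [AddCommGroup A] (g : ℤ × ℤ → A)
    (hh : ∀ a b, (a, b) ∈ FQ Q X Y → (a + 1, b) ∈ FQ Q X Y → ClosedAt g (2 * a, 2 * b - 1))
    (hv : ∀ a b, (a, b) ∈ FQ Q X Y → (a, b + 1) ∈ FQ Q X Y → ClosedAt g (2 * a - 1, 2 * b)) :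
    ∃ Hv Hf : ℤ × ℤ → A, ∀ c, fi c ∈ FQ Q X Y → Hv (vx c) - Hf (fi c) = g c :=
  M4.exists_global _ (conn_compl_FQ hX hY (cellConn_of_conn4 hQ.conn_compl))
    (noPinch_FQ hX hY hQ.noPinch) g hh hv

end Pool.Agent.Q1.M4
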