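import Mathlib
import Pool.Agent.Q1.Outer

set_option autoImplicit false
open Finset

/-! Deterministic indices on the loop of an outer corner.

`Tot D c`: in every configuration `ω ⊆ D` the loop of the corner `c` has total turning `4` (true when
the face of `c` is joined to infinity off `D`, `total_outer`). For two such corners `c0`, `c` the
index of `c` on the loop of `c0` does not depend on the configuration. At the inner side of an always
open boundary edge the index is the one of the outer side minus `2`. -/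

namespace Pool.Agent.Q1.M4

open Pool.Agent.H75.Perc
open Pool.Agent.H69.Q1 (exists_orb_nx inOrb_symm inOrb_trans)

/-- The loop of `c` has total turning `4` in all configurations inside `D`. -/
def Tot (D : Finset (ℤ × ℤ)) (c : ℤ × ℤ) : Prop :=
  ∀ ω ⊆ D, ∀ L, Orb (nx ω) c L → ∀ k, KK (nx ω) (del ω) c k L = k + 4

section index

variable {D : Finset (ℤ × ℤ)}

/-- One edge: an outer corner stays on the loop, with the same index, when an edge is added. -/
lemma Tot.step (hodd : ∀ e ∈ D, (e.1 + e.2) % 2 = 1) {c0 c : ℤ × ℤ} (h0 : Tot D c0) (hc : Tot D c)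
    {ω : Finset (ℤ × ℤ)} (hω : ω ⊆ D) {e : ℤ × ℤ} (heE : e ∈ D) (hen : e ∉ ω) {L L' : ℕ} (k0 : ℤ)
    (hO : Orb (nx ω) c0 L) (hO' : Orb (nx (insert e ω)) c0 L') {i : ℕ} (hi : i < L)
    (hic : (nx ω)^[i] c0 = c) : ∃ j < L', (nx (insert e ω))^[j] c0 = c ∧
      KK (nx (insert e ω)) (del (insert e ω)) c0 k0 j = KK (nx ω) (del ω) c0 k0 i := by
  classical
  have hodd := hodd e heE
  have hω' : insert e ω ⊆ D := insert_subset heE hω
  have hsw := swapped_insert ω e hodd hen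
  have d1 : del ω (in1 e) = 1 := by unfold del; rw [lab_in1 e hodd, if_neg hen]
  have d2 : del ω (in2 e) = 1 := by unfold del; rw [lab_in2 e hodd, if_neg hen]
  have d3 : del (insert e ω) (in1 e) = -1 := by
    unfold del; rw [lab_in1 e hodd, if_pos (mem_insert_self _ _)]
  have d4 : del (insert e ω) (in2 e) = -1 := by
    unfold del; rw [lab_in2 e hodd, if_pos (mem_insert_self _ _)]
  obtain ⟨Mp, hMp⟩ := exists_orb_nx ω (in1 e)
  obtain ⟨Mq, hMq⟩ := exists_orb_nx ω (in2 e)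
  have hoff' : ∀ x, x ≠ in1 e → x ≠ in2 e → del ω x = del (insert e ω) x :=
    fun x h1 h2 => (del_off ω e hodd x h1 h2).symm
  have hT := h0 ω hω L hO k0
  have hT' := h0 (insert e ω) hω' L' hO' k0
  have caseB : InOrb (nx (insert e ω)) c0 (in1 e) → InOrb (nx (insert e ω)) c0 (in2 e) →
      ∃ j < L', (nx (insert e ω))^[j] c0 = c ∧
      KK (nx (insert e ω)) (del (insert e ω)) c0 k0 j = KK (nx ω) (del ω) c0 k0 i := by
    intro hp hq
    obtain ⟨-, h2⟩ := hsw.symm.keep_idx (nx_injective _) (in1_ne_in2 e) (e := -1) hoff' d3 d4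
      (by rw [d1]; norm_num) (by rw [d2]; norm_num) k0 hO' hO hT' hT hp hq
    obtain ⟨m, hm, hm1, hm2⟩ := h2 i hi
    exact ⟨m, hm, by rw [hm1, hic], hm2⟩
  by_cases hp : InOrb (nx ω) c0 (in1 e) <;> by_cases hq : InOrb (nx ω) c0 (in2 e)
  · obtain ⟨h1, -⟩ := hsw.keep_idx (nx_injective _) (in1_ne_in2 e) (e := 1) (del_off ω e hodd) d1
      d2 d3 d4 k0 hO hO' hT hT' hp hq
    rcases h1 i hi with ⟨m, hm, hm1, hm2⟩ | ⟨M, hM, hM2⟩
    · exact ⟨m, hm, by rw [hm1, hic], hm2⟩
    · exfalso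
      rw [hic] at hM hM2
      have h5 := hc (insert e ω) hω' M hM 0
      have h6 := hM2 0
      omega
  · obtain ⟨m1, m2, -, -⟩ := hsw.merge hO hMq hp hq
    exact caseB m1 m2
  · obtain ⟨m1, m2, -, -⟩ := hsw.comm.merge hO hMp hq hp
    exact caseB m2 m1
  · have hag : ∀ i, (nx (insert e ω))^[i] c0 = (nx ω)^[i] c0 := fun i =>
      hsw.agree c0 i (fun j _ => ⟨fun h => hp ⟨j, h⟩, fun h => hq ⟨j, h⟩⟩) i le_rfl
    have hO2 : Orb (nx (insert e ω)) c0 L := by
      refine ⟨hO.pos, by rw [hag, hO.per], ?_⟩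
      intro i j hij hj
      rw [hag, hag]; exact hO.inj i j hij hj
    have := hO'.unique hO2
    subst this
    refine ⟨i, hi, by rw [hag, hic], ?_⟩
    unfold KK
    congr 1
    apply Finset.sum_congr rfl
    intro j _
    rw [hag]
    symm
    apply hoff'
    · intro h; exact hp ⟨j, h⟩
    · intro h; exact hq ⟨j, h⟩

/-- **Indices of outer corners do not depend on the configuration.** -/
theorem Tot.index (hodd : ∀ e ∈ D, (e.1 + e.2) % 2 = 1) {c0 c : ℤ × ℤ} (h0 : Tot D c0)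
    (hc : Tot D c) (k0 : ℤ) {ω' : Finset (ℤ × ℤ)} (hω' : ω' ⊆ D) {LE : ℕ}
    (hE : Orb (nx ω') c0 LE) : ∀ (n : ℕ) (ω : Finset (ℤ × ℤ)),
    ω ⊆ ω' → (ω' \ ω).card = n → ∀ L, Orb (nx ω) c0 L → ∀ i < L, (nx ω)^[i] c0 = c → ∃ j < LE,
      (nx ω')^[j] c0 = c ∧ KK (nx ω') (del ω') c0 k0 j = KK (nx ω) (del ω) c0 k0 i := by
  classical
  intro n
  induction n with
  | zero =>
    intro ω hω hn L hO i hi hic
    have hE' : ω = ω' := by
      apply subset_antisymm hω
      exact sdiff_eq_empty_iff_subset.1 (card_eq_zero.1 hn)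
    subst hE'
    have := hO.unique hE
    subst this
    exact ⟨i, hi, hic, rfl⟩
  | succ n ih =>
    intro ω hω hn L hO i hi hic
    obtain ⟨e, he⟩ : (ω' \ ω).Nonempty := by
      rw [← card_pos]; omega
    rw [mem_sdiff] at he
    have hsub : insert e ω ⊆ ω' := insert_subset he.1 hω
    have hcard : (ω' \ insert e ω).card = n := by
      rw [sdiff_insert, card_erase_of_mem (mem_sdiff.2 he)]; omega
    obtain ⟨L', hO'⟩ := exists_orb_nx (insert e ω) c0
    obtain ⟨j, hj, hj1, hj2⟩ := Tot.step hodd h0 hc (hω.trans hω') (hω' he.1) he.2 k0 hO hO' hi hic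
    obtain ⟨k, hk, hk1, hk2⟩ := ih (insert e ω) hsub hcard L' hO' j hj hj1
    exact ⟨k, hk, hk1, by rw [hk2, hj2]⟩

/-- The index of an outer corner is its index in the full configuration. -/
theorem Tot.index_full (hodd : ∀ e ∈ D, (e.1 + e.2) % 2 = 1) {c0 c : ℤ × ℤ} (h0 : Tot D c0)
    (hc : Tot D c) (k0 : ℤ) {LD : ℕ} (hOD : Orb (nx D) c0 LD) {j : ℕ} (hj : j < LD)
    (hjc : (nx D)^[j] c0 = c) {ω : Finset (ℤ × ℤ)} (hω : ω ⊆ D) {L : ℕ} (hO : Orb (nx ω) c0 L)
    {i : ℕ} (hi : i < L) (hic : (nx ω)^[i] c0 = c) :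
    KK (nx ω) (del ω) c0 k0 i = KK (nx D) (del D) c0 k0 j := by
  obtain ⟨j', hj', h1, h2⟩ := Tot.index hodd h0 hc k0 (subset_refl D) hOD _ ω hω rfl L hO i hi hic
  have : j' = j := by
    rcases lt_trichotomy j' j with h | h | h
    · exact absurd (h1.trans hjc.symm) (hOD.inj _ _ h hj)
    · exact h
    · exact absurd (hjc.trans h1.symm) (hOD.inj _ _ h hj')
  rw [← h2, this]

end index

/-- The two corners in front of an open label on the same loop: the index increases by `2`. -/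
theorem wired_index {D ω : Finset (ℤ × ℤ)} (hodd : ∀ e ∈ D, (e.1 + e.2) % 2 = 1) (hω : ω ⊆ D)
    {c0 : ℤ × ℤ} (h0 : Tot D c0) (k0 : ℤ) {L : ℕ} (hO : Orb (nx ω) c0 L) {e : ℤ × ℤ} (he : e ∈ ω)
    {p q : ℤ × ℤ} (hpq : (p = in1 e ∧ q = in2 e) ∨ (p = in2 e ∧ q = in1 e)) {a b : ℕ} (hab : a < b)
    (hb : b < L) (hap : (nx ω)^[a] c0 = p) (hbq : (nx ω)^[b] c0 = q) :
    KK (nx ω) (del ω) c0 k0 b = KK (nx ω) (del ω) c0 k0 a + 2 := by
  classical
  have hodd := hodd e (hω he)
  have hins : insert e (ω.erase e) = ω := insert_erase he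
  have hsw : Swapped (nx (ω.erase e)) (nx ω) (in1 e) (in2 e) := by
    have := swapped_insert (ω.erase e) e hodd (notMem_erase e ω)
    rwa [hins] at this
  have hoff : ∀ x, x ≠ in1 e → x ≠ in2 e → del (ω.erase e) x = del ω x := by
    intro x h1 h2
    have := del_off (ω.erase e) e hodd x h1 h2
    rw [hins] at this
    exact this.symm
  have d1 : del (ω.erase e) (in1 e) = 1 := by
    unfold del; rw [lab_in1 e hodd, if_neg (notMem_erase e ω)]
  have d2 : del (ω.erase e) (in2 e) = 1 := by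
    unfold del; rw [lab_in2 e hodd, if_neg (notMem_erase e ω)]
  have d3 : del ω (in1 e) = -1 := by unfold del; rw [lab_in1 e hodd, if_pos he]
  have d4 : del ω (in2 e) = -1 := by unfold del; rw [lab_in2 e hodd, if_pos he]
  have hsub : ω.erase e ⊆ D := (erase_subset _ _).trans hω
  obtain ⟨L', hO'⟩ := exists_orb_nx (ω.erase e) c0
  have hT := h0 ω hω L hO k0
  have hT' := h0 _ hsub L' hO' k0
  have main : ∀ p q : ℤ × ℤ, Swapped (nx ω) (nx (ω.erase e)) p q →
      (∀ x, x ≠ p → x ≠ q → del (ω.erase e) x = del ω x) → del ω q = -1 →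
      del (ω.erase e) p = 1 → (nx ω)^[a] c0 = p → (nx ω)^[b] c0 = q →
      KK (nx ω) (del ω) c0 k0 b = KK (nx ω) (del ω) c0 k0 a + 2 := by
    intro p q h hδ h1 h2 ha' hb'
    obtain ⟨-, g2⟩ := h.split_KK (e := -1) hδ h1 (by rw [h2]; norm_num) k0 hO hab hb ha' hb'
    obtain ⟨-, -, g3⟩ := h.split hO hab hb ha' hb'
    have hu := hO'.unique g3
    rw [← hu, hT', hT] at g2
    linarith
  rcases hpq with ⟨rfl, rfl⟩ | ⟨rfl, rfl⟩
  · exact main _ _ hsw.symm hoff d4 d1 hap hbq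
  · exact main _ _ hsw.comm.symm (fun x h1 h2 => hoff x h2 h1) d3 d2 hap hbq

section Stretch

variable {D W ω : Finset (ℤ × ℤ)} {c0 : ℤ × ℤ}

lemma nx_same (hW : W ⊆ ω) (hω : ω ⊆ D) {c : ℤ × ℤ} (h : lab c ∈ W ∨ lab c ∉ D) :
    nx ω c = nx D c := by
  rcases h with h | h
  · unfold nx; rw [if_pos (hW h), if_pos (hω (hW h))]
  · unfold nx; rw [if_neg h, if_neg (fun h' => h (hω h'))]

lemma del_same (hW : W ⊆ ω) (hω : ω ⊆ D) {c : ℤ × ℤ} (h : lab c ∈ W ∨ lab c ∉ D) :
    del ω c = del D c := by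
  rcases h with h | h
  · unfold del; rw [if_pos (hW h), if_pos (hω (hW h))]
  · unfold del; rw [if_neg h, if_neg (fun h' => h (hω h'))]

/-- Along a stretch of labels in `W` or outside `D` all configurations agree. -/
lemma stretch_agree (hW : W ⊆ ω) (hω : ω ⊆ D) {i LD : ℕ}
    (hst : ∀ i', i ≤ i' → i' < LD → lab ((nx D)^[i'] c0) ∈ W ∨ lab ((nx D)^[i'] c0) ∉ D) :
    ∀ j, i + j ≤ LD → (nx ω)^[j] ((nx D)^[i] c0) = (nx D)^[i + j] c0 := by
  intro j
  induction j with
  | zero => intro _; rfl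
  | succ j ih =>
    intro hj
    rw [Function.iterate_succ_apply', ih (by omega), show i + (j + 1) = i + j + 1 by ring,
      Function.iterate_succ_apply']
    exact nx_same hW hω (hst (i + j) (by omega) (by omega))

lemma stretch_KK (hW : W ⊆ ω) (hω : ω ⊆ D) (k1 : ℤ) {i LD : ℕ}
    (hst : ∀ i', i ≤ i' → i' < LD → lab ((nx D)^[i'] c0) ∈ W ∨ lab ((nx D)^[i'] c0) ∉ D) :
    ∀ j, i + j ≤ LD → KK (nx ω) (del ω) ((nx D)^[i] c0) k1 j =
      k1 + (KK (nx D) (del D) c0 0 (i + j) - KK (nx D) (del D) c0 0 i) := by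
  intro j
  induction j with
  | zero => intro _; simp [KK]
  | succ j ih =>
    intro hj
    rw [KK_succ, ih (by omega), stretch_agree hW hω hst j (by omega),
      show i + (j + 1) = i + j + 1 by ring, KK_succ]
    rw [del_same hW hω (hst (i + j) (by omega) (by omega))]; ring

/-- Position and index of a corner of the stretch. -/
lemma stretch_pos (h0 : Tot D c0) (hW : W ⊆ ω) (hω : ω ⊆ D) (k0 : ℤ) {LD L : ℕ}
    (hOD : Orb (nx D) c0 LD) (hO : Orb (nx ω) c0 L) {i : ℕ} (hi0 : 0 < i) (hi : i < LD)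
    (hst : ∀ i', i ≤ i' → i' < LD → lab ((nx D)^[i'] c0) ∈ W ∨ lab ((nx D)^[i'] c0) ∉ D) :
    ∃ b, b < L ∧ (nx ω)^[b] c0 = (nx D)^[i] c0 ∧ b + (LD - i) = L ∧
      KK (nx ω) (del ω) c0 k0 b = KK (nx D) (del D) c0 k0 i := by
  set q := (nx D)^[i] c0 with hq
  have hret : (nx ω)^[LD - i] q = c0 := by
    rw [hq, stretch_agree hW hω hst (LD - i) (by omega), show i + (LD - i) = LD by omega, hOD.per]
  have hin : InOrb (nx ω) c0 q := inOrb_symm ⟨LD - i, hret⟩
  obtain ⟨b, hb, hbq⟩ := (hO.inOrb_iff q).1 hin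
  have hmin : ∀ j, 0 < j → j < LD - i → (nx ω)^[j] q ≠ c0 := by
    intro j hj hj2 h
    rw [hq, stretch_agree hW hω hst j (by omega)] at h
    exact hOD.inj 0 (i + j) (by omega) (by omega) h.symm
  have hq0 : q ≠ c0 := fun h => hOD.inj 0 i hi0 hi (by rw [← hq, h]; rfl)
  have hb0 : 0 < b := by
    rcases Nat.eq_zero_or_pos b with h | h
    · subst h; exact absurd hbq.symm hq0
    · exact h
  have e1 : b + (LD - i) = L := by
    rcases lt_trichotomy (b + (LD - i)) L with h | h | h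
    · exfalso
      have : (nx ω)^[b + (LD - i)] c0 = c0 := by
        rw [add_comm, Function.iterate_add_apply, hbq, hret]
      exact hO.inj 0 _ (by omega) h this.symm
    · exact h
    · exfalso
      apply hmin (L - b) (by omega) (by omega)
      rw [← hbq, ← Function.iterate_add_apply, Nat.sub_add_cancel hb.le, hO.per]
  refine ⟨b, hb, hbq, e1, ?_⟩
  have hT := h0 ω hω L hO k0
  have hTD := h0 D (subset_refl D) LD hOD k0
  have hadd : ∀ j, KK (nx ω) (del ω) c0 k0 (b + j) =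
      KK (nx ω) (del ω) q (KK (nx ω) (del ω) c0 k0 b) j := by
    intro j
    induction j with
    | zero => simp [KK]
    | succ j ih =>
      rw [show b + (j + 1) = b + j + 1 by ring, KK_succ, ih, KK_succ]
      congr 2
      rw [add_comm, Function.iterate_add_apply, hbq]
  have h1 := hadd (LD - i)
  rw [e1, hT, stretch_KK hW hω _ hst (LD - i) (by omega), show i + (LD - i) = LD by omega] at h1
  have s1 := KK_shift (nx D) (del D) c0 0 k0 LD
  have s2 := KK_shift (nx D) (del D) c0 0 k0 i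
  linarith

/-- **Index at the inner corner of a wired boundary edge.** -/
theorem inner_index (hodd : ∀ e ∈ D, (e.1 + e.2) % 2 = 1) (h0 : Tot D c0) (hW : W ⊆ ω)
    (hω : ω ⊆ D) (k0 : ℤ) {LD L : ℕ} (hOD : Orb (nx D) c0 LD) (hO : Orb (nx ω) c0 L) {e p : ℤ × ℤ}
    (he : e ∈ W) {i : ℕ} (hi0 : 0 < i) (hi : i < LD)
    (hpq : (p = in1 e ∧ (nx D)^[i] c0 = in2 e) ∨ (p = in2 e ∧ (nx D)^[i] c0 = in1 e))
    (hp : ¬ InOrb (nx D) c0 p)
    (hst : ∀ i', i ≤ i' → i' < LD → lab ((nx D)^[i'] c0) ∈ W ∨ lab ((nx D)^[i'] c0) ∉ D)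
    {a : ℕ} (ha : a < L) (hap : (nx ω)^[a] c0 = p) :
    KK (nx ω) (del ω) c0 k0 a = KK (nx D) (del D) c0 k0 i - 2 := by
  obtain ⟨b, hb, hbq, h2, h3⟩ := stretch_pos h0 hW hω k0 hOD hO hi0 hi hst
  have hab : a < b := by
    rcases lt_trichotomy a b with h | h | h
    · exact h
    · exfalso
      subst h
      apply hp
      rw [← hap, hbq]
      exact ⟨i, rfl⟩
    · exfalso
      apply hp
      refine ⟨i + (a - b), ?_⟩
      rw [← stretch_agree hW hω hst (a - b) (by omega), ← hbq, ← Function.iterate_add_apply,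
        Nat.sub_add_cancel h.le, hap]
  have := wired_index hodd hω h0 k0 hO (hW he) (p := p) (q := (nx D)^[i] c0) hpq hab hb hap hbq
  rw [h3] at this
  linarith

end Stretch

end Pool.Agent.Q1.M4
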