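import Mathlib
import Pool.Agent.Q1.M4.Poly

set_option autoImplicit false
open Set Filter Topology

/-! Module M4: what the (sub)sequential limits of `H` satisfy (`LimitData`), and the uniform
discrete statements from which this follows (`DiscData`). -/

namespace Pool.Agent.Q1.M4

open Pool.Agent.H75.Perc (dir dir_cases)

/-- The lattice point as a complex number. -/
def lat (v : ℤ × ℤ) : ℂ := ⟨v.1, v.2⟩

/-- Phase of the increments of `H` along a side with lifted direction `k`, in the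
counterclockwise direction; `e = 0` on the free arc, `e = 1` on the wired arc. -/
noncomputable def phase (k : ℤ) (e : ℤ) : ℂ :=
  Complex.exp (((Real.pi * ((k : ℝ) + (e : ℝ)) / 3 : ℝ) : ℂ) * Complex.I)

/-- Phase of the `n`-th side of the boundary walk. -/
noncomputable def PType.ph (P : PType) (n : ℕ) : ℂ :=
  phase (P.side n).2 (if n < P.m then 0 else 1)

/-- Point of the side `n` at the parameter `t ∈ [0,1]` (counterclockwise). -/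
noncomputable def PType.sidePt (P : PType) (x y : ℤ → ℝ) (n : ℕ) (t : ℝ) : ℂ :=
  pt x y (P.vert n) + t * (pt x y (P.vert (n + 1)) - pt x y (P.vert n))

/-- Properties of the limits of the (normalised) primitive of the parafermion. -/
structure LimitData (P : PType) (x y : ℤ → ℝ) (h : ℂ → ℂ) : Prop where
  cont : ContinuousOn h (Reg P.Q x y)
  holo : DifferentiableOn ℂ h (Om P.Q x y)
  side : ∀ n < P.N, ∀ t t' : ℝ, 0 ≤ t → t ≤ t' → t' ≤ 1 →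
    ∃ s : ℝ, 0 ≤ s ∧ h (P.sidePt x y n t') - h (P.sidePt x y n t) = s * P.ph n
  hold : ∃ C > 0, ∃ r > 0, ∀ z ∈ Reg P.Q x y, ∀ z' ∈ Reg P.Q x y, ‖z - z'‖ ≤ r →
    ‖h z - h z'‖ ≤ C * ‖z - z'‖ ^ (2 / 3 : ℝ)
  corner : ∃ C > 0, ∃ c > 0, ∃ r > 0, ∀ n < P.N, n ≠ 0 → n ≠ P.m → ∀ z ∈ Reg P.Q x y,
    ‖z - pt x y (P.vert n)‖ ≤ r →
    ‖h z - h (pt x y (P.vert n))‖ ≤ C * ‖z - pt x y (P.vert n)‖ ^ (2 / 3 + c : ℝ)

/-- Lattice points of the closed lattice rectangle of a cell. -/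
def inRect (X Y : ℤ → ℤ) (c : Cell) (v : ℤ × ℤ) : Prop :=
  (X c.1 ≤ v.1 ∧ v.1 ≤ X (c.1 + 1)) ∧ (Y c.2 ≤ v.2 ∧ v.2 ≤ Y (c.2 + 1))

/-- Lattice points of the closed lattice region. -/
def inV (Q : Finset Cell) (X Y : ℤ → ℤ) (v : ℤ × ℤ) : Prop := ∃ c ∈ Q, inRect X Y c v

/-- Lattice position of a grid vertex. -/
def lpt (X Y : ℤ → ℤ) (p : ℤ × ℤ) : ℤ × ℤ := (X p.1, Y p.2)

/-- `v` is the lattice point of the side `n` at distance `l` from its beginning. -/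
def PType.onSide (P : PType) (X Y : ℤ → ℤ) (n : ℕ) (l : ℕ) (v : ℤ × ℤ) : Prop :=
  v = lpt X Y (P.vert n) + (l : ℤ) • dir (P.side n).2 ∧
    (l : ℤ) ≤ |(lpt X Y (P.vert (n + 1)) - lpt X Y (P.vert n)).1| +
      |(lpt X Y (P.vert (n + 1)) - lpt X Y (P.vert n)).2|

/-- Approximation of the grid `x, y` by lattice grids. -/
structure Approx (x y : ℤ → ℝ) (R : ℕ → ℝ) (X Y : ℕ → ℤ → ℤ) : Prop where
  R_top : Tendsto R atTop atTop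
  X_lim : ∀ i, Tendsto (fun j => (X j i : ℝ) / R j) atTop (𝓝 (x i))
  Y_lim : ∀ k, Tendsto (fun j => (Y j k : ℝ) / R j) atTop (𝓝 (y k))

/-- Near `z0` (radius `r`, scale `R`, along the filter `F`) the functions `G j` are Hoelder and
satisfy the weak Cauchy-Riemann relation for diagonal displacements of macroscopic size. -/
structure LocHol (R : ℕ → ℝ) (F : Filter ℕ) (G : ℕ → ℤ × ℤ → ℂ) (z0 : ℂ) (r : ℝ) : Prop where
  hold : ∃ C > 0, ∀ᶠ j in F, ∀ v w : ℤ × ℤ, ‖lat v / (R j : ℂ) - z0‖ < r →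
    ‖lat w / (R j : ℂ) - z0‖ < r → ‖G j v - G j w‖ ≤ C * (‖lat v - lat w‖ / R j) ^ (2 / 3 : ℝ)
  cr : ∀ ε > 0, ∃ ρ0 > 0, ∀ ρ : ℝ, 0 < ρ → ρ < ρ0 → ∀ᶠ j in F, ∀ v : ℤ × ℤ,
    ‖lat v / (R j : ℂ) - z0‖ < r →
    ‖(G j (v.1 + ⌊ρ * R j⌋₊, v.2 + ⌊ρ * R j⌋₊) - G j v) -
      Complex.I * (G j (v.1 + ⌊ρ * R j⌋₊, v.2 - ⌊ρ * R j⌋₊) - G j v)‖ ≤ ε * ρ

/-- The lattice point with coordinates `⌊R z⌋`. -/
noncomputable def fl (R : ℕ → ℝ) (z : ℂ) (j : ℕ) : ℤ × ℤ := (⌊R j * z.re⌋, ⌊R j * z.im⌋)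

/-- `g` is the limit of the functions `G j - G j (z0)` on the ball of radius `r` around `z0`. -/
def GLim (R : ℕ → ℝ) (F : Filter ℕ) (G : ℕ → ℤ × ℤ → ℂ) (z0 : ℂ) (r : ℝ) (g : ℂ → ℂ) : Prop :=
  ∀ z ∈ Metric.ball z0 r, ∀ v : ℕ → ℤ × ℤ, Tendsto (fun j => lat (v j) / (R j : ℂ)) F (𝓝 z) →
    Tendsto (fun j => G j (v j) - G j (fl R z0 j)) F (𝓝 (g z))

/-- Near `z0` the functions `G j` are Hoelder and their limit is holomorphic. -/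
structure LocLim (R : ℕ → ℝ) (F : Filter ℕ) (G : ℕ → ℤ × ℤ → ℂ) (z0 : ℂ) (r : ℝ) : Prop where
  hold : ∃ C > 0, ∀ᶠ j in F, ∀ v w : ℤ × ℤ, ‖lat v / (R j : ℂ) - z0‖ < r →
    ‖lat w / (R j : ℂ) - z0‖ < r → ‖G j v - G j w‖ ≤ C * (‖lat v - lat w‖ / R j) ^ (2 / 3 : ℝ)
  hol : ∀ g : ℂ → ℂ, GLim R F G z0 r g → DifferentiableOn ℂ g (Metric.ball z0 r)

/-- At every interior point and for every error the functions `H j` are approximated, up to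
constants, by functions with the property `LocLim`. -/
def CRA (P : PType) (x y : ℤ → ℝ) (R : ℕ → ℝ) (H : ℕ → ℤ × ℤ → ℂ) : Prop :=
  ∀ U : Ultrafilter ℕ, (U : Filter ℕ) ≤ atTop → ∀ z ∈ Om P.Q x y, ∃ r > 0, ∀ ε > 0,
    ∃ G : ℕ → ℤ × ℤ → ℂ, LocLim R U G z r ∧ ∀ᶠ j in (U : Filter ℕ), ∀ v w : ℤ × ℤ,
      ‖lat v / (R j : ℂ) - z‖ < r → ‖lat w / (R j : ℂ) - z‖ < r →
      ‖(H j v - H j w) - (G j v - G j w)‖ ≤ ε

/-- Uniform discrete properties of the normalised primitives `H j` (on the vertices of the lattice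
region). -/
structure DiscData (P : PType) (x y : ℤ → ℝ) (R : ℕ → ℝ) (X Y : ℕ → ℤ → ℤ)
    (H : ℕ → ℤ × ℤ → ℂ) : Prop where
  approx : Approx x y R X Y
  base : ∀ j, H j (lpt (X j) (Y j) (P.vert 0)) = 0
  hold : ∃ C > 0, ∃ δ > 0, ∀ᶠ j in atTop, ∀ v v', inV P.Q (X j) (Y j) v →
    inV P.Q (X j) (Y j) v' → ‖lat v - lat v'‖ ≤ δ * R j →
    ‖H j v - H j v'‖ ≤ C * (‖lat v - lat v'‖ / R j) ^ (2 / 3 : ℝ)
  cr : CRA P x y R H
  side : ∀ n < P.N, ∀ ε > 0, ∀ᶠ j in atTop, ∀ l l' : ℕ, l ≤ l' → ∀ v v',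
    P.onSide (X j) (Y j) n l v → P.onSide (X j) (Y j) n l' v' →
    ∃ s : ℝ, 0 ≤ s ∧ ‖H j v' - H j v - s * P.ph n‖ ≤ ε
  corner : ∃ C > 0, ∃ c > 0, ∃ r > 0, ∀ n < P.N, n ≠ 0 → n ≠ P.m → ∀ ρ > 0, ρ ≤ r →
    ∀ᶠ j in atTop, ∀ v, inV P.Q (X j) (Y j) v →
    ‖lat v - lat (lpt (X j) (Y j) (P.vert n))‖ ≤ ρ * R j →
    ‖H j v - H j (lpt (X j) (Y j) (P.vert n))‖ ≤ C * ρ ^ (2 / 3 + c : ℝ)

end Pool.Agent.Q1.M4
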