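import Pool.Agent.Q1.M4.Poly
import Pool.Agent.H75.Four.Piv

set_option autoImplicit false
open Finset

/-! The boundary walk of a good polyomino is a single cycle with total turning `4`. -/

namespace Pool.Agent.Q1.M4

open Pool.Agent.H75.Perc (dir dir_cases IsUnit4 isUnit4_dir IsPath closed_turning GG GG_row_window
  window_N cl)
open Pool.Agent.H75.Four (even_faces)

/-- Same side, directions equal modulo 4. -/
def Eqv (s t : Cell × ℤ) : Prop := s.1 = t.1 ∧ (s.2 - t.2) % 4 = 0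

lemma Eqv.refl (s : Cell × ℤ) : Eqv s s := ⟨rfl, by simp⟩

lemma Eqv.symm {s t : Cell × ℤ} (h : Eqv s t) : Eqv t s := ⟨h.1.symm, by have := h.2; omega⟩

lemma Eqv.trans {s t u : Cell × ℤ} (h : Eqv s t) (h' : Eqv t u) : Eqv s u :=
  ⟨h.1.trans h'.1, by have := h.2; have := h'.2; omega⟩

lemma dir_congr {k k' : ℤ} (h : (k - k') % 4 = 0) : dir k = dir k' := by
  rcases dir_cases k with ⟨a, e⟩ | ⟨a, e⟩ | ⟨a, e⟩ | ⟨a, e⟩ <;>
  rcases dir_cases k' with ⟨b, f⟩ | ⟨b, f⟩ | ⟨b, f⟩ | ⟨b, f⟩ <;>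
  first | (exfalso; omega) | rw [e, f]

lemma dir_inj {k k' : ℤ} (h : dir k = dir k') : (k - k') % 4 = 0 := by
  rcases dir_cases k with ⟨a, e⟩ | ⟨a, e⟩ | ⟨a, e⟩ | ⟨a, e⟩ <;>
  rcases dir_cases k' with ⟨b, f⟩ | ⟨b, f⟩ | ⟨b, f⟩ | ⟨b, f⟩ <;>
  rw [e, f] at h <;> simp at h <;> omega

lemma dir_neg (k : ℤ) : dir (k + 2) = - dir k := by
  rcases dir_cases k with ⟨a, e⟩ | ⟨a, e⟩ | ⟨a, e⟩ | ⟨a, e⟩ <;>
  rcases dir_cases (k + 2) with ⟨b, f⟩ | ⟨b, f⟩ | ⟨b, f⟩ | ⟨b, f⟩ <;>
  first | (exfalso; omega) | (rw [e, f]; simp)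

variable {Q : Finset Cell} {s t : Cell × ℤ}

lemma Eqv.isSide (h : Eqv s t) (hs : IsSide Q s) : IsSide Q t := by
  obtain ⟨h1, h2⟩ := h
  obtain ⟨a, b⟩ := hs
  have : dir (s.2 - 1) = dir (t.2 - 1) := dir_congr (by omega)
  exact ⟨by rw [← h1]; exact a, by rw [← h1, ← this]; exact b⟩

lemma Eqv.next (h : Eqv s t) : (nextSide Q s).1 = (nextSide Q t).1 ∧
    (nextSide Q s).2 - s.2 = (nextSide Q t).2 - t.2 := by
  obtain ⟨h1, h2⟩ := h
  have e1 : dir (s.2 - 1) = dir (t.2 - 1) := dir_congr (by omega)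
  have e2 : dir s.2 = dir t.2 := dir_congr (by omega)
  unfold nextSide
  rw [h1, e1, e2]
  split_ifs <;> simp

lemma Eqv.next' (h : Eqv s t) : Eqv (nextSide Q s) (nextSide Q t) := by
  have := h.next (Q := Q)
  exact ⟨this.1, by have := h.2; omega⟩

lemma Eqv.iter (h : Eqv s t) (n : ℕ) : ((nextSide Q)^[n] s).1 = ((nextSide Q)^[n] t).1 ∧
    ((nextSide Q)^[n] s).2 - s.2 = ((nextSide Q)^[n] t).2 - t.2 := by
  induction n with
  | zero => exact ⟨h.1, by simp⟩
  | succ n ih =>
    rw [Function.iterate_succ_apply', Function.iterate_succ_apply']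
    have h' : Eqv ((nextSide Q)^[n] s) ((nextSide Q)^[n] t) :=
      ⟨ih.1, by have := h.2; have := ih.2; omega⟩
    have := h'.next (Q := Q)
    exact ⟨this.1, by have := ih.2; omega⟩

lemma Eqv.iter' (h : Eqv s t) (n : ℕ) : Eqv ((nextSide Q)^[n] s) ((nextSide Q)^[n] t) := by
  have := h.iter (Q := Q) n
  exact ⟨this.1, by have := h.2; omega⟩

lemma isSide_iter (h : IsSide Q s) (n : ℕ) : IsSide Q ((nextSide Q)^[n] s) := by
  induction n with
  | zero => exact h
  | succ n ih => rw [Function.iterate_succ_apply']; exact isSide_next ih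

lemma next_turn (Q : Finset Cell) (s : Cell × ℤ) :
    -1 ≤ (nextSide Q s).2 - s.2 ∧ (nextSide Q s).2 - s.2 ≤ 1 := by
  unfold nextSide
  split_ifs <;> simp

lemma crossAB {c d : Cell} {k l : ℤ} (hc : c ∈ Q) (hd : d + dir (l - 1) ∉ Q)
    (h : c + dir k + dir (k - 1) = d + dir l) (hk : (k - 1 - l) % 4 = 0) : False := by
  have n1 : dir (k + 2) = - dir k := dir_neg k
  have e1 : dir l = dir (k - 1) := dir_congr (by omega)
  have e2 : dir (l - 1) = - dir k := by rw [← n1]; exact dir_congr (by omega)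
  rw [e1] at h
  have : d = c + dir k := (add_right_cancel h).symm
  apply hd
  rw [this, e2]
  simpa using hc

lemma crossAC {c d : Cell} {k l : ℤ} (hc : c ∈ Q) (hd : d + dir l + dir (l - 1) ∉ Q)
    (h : c + dir k + dir (k - 1) = d) (hk : (k - 1 - (l + 1)) % 4 = 0) : False := by
  have n1 : dir (k + 2) = - dir k := dir_neg k
  have n3 : dir (k - 1 + 2) = - dir (k - 1) := dir_neg (k - 1)
  have e1 : dir l = - dir k := by rw [← n1]; exact dir_congr (by omega)
  have e2 : dir (l - 1) = - dir (k - 1) := by rw [← n3]; exact dir_congr (by omega)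
  apply hd
  rw [← h, e1, e2]
  have : c + dir k + dir (k - 1) + -dir k + -dir (k - 1) = c := by abel
  rw [this]; exact hc

lemma crossBC {c d : Cell} {k l : ℤ} (hc : c ∈ Q) (hd : d + dir (l - 1) ∉ Q)
    (h : c + dir k = d) (hk : (k - (l + 1)) % 4 = 0) : False := by
  have n1 : dir (k + 2) = - dir k := dir_neg k
  have e2 : dir (l - 1) = - dir k := by rw [← n1]; exact dir_congr (by omega)
  apply hd
  rw [← h, e2]
  simpa using hc

lemma next_inj (hs : IsSide Q s) (ht : IsSide Q t) (h : Eqv (nextSide Q s) (nextSide Q t)) :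
    Eqv s t := by
  obtain ⟨c, k⟩ := s
  obtain ⟨d, l⟩ := t
  obtain ⟨hs1, hs2⟩ := hs
  obtain ⟨ht1, ht2⟩ := ht
  obtain ⟨h1, h2⟩ := h
  unfold nextSide at h1 h2
  simp only at hs1 hs2 ht1 ht2 h1 h2
  unfold Eqv
  simp only
  split_ifs at h1 h2 with a1 b1 b2 a2 b3 b4 b5 b6
  all_goals simp only at h1 h2
  · -- A A
    have e1 : dir k = dir l := dir_congr (by omega)
    have e2 : dir (k - 1) = dir (l - 1) := dir_congr (by omega)
    rw [e1, e2] at h1
    exact ⟨by simpa using h1, by omega⟩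
  · exact (crossAB hs1 ht2 h1 h2).elim
  · exact (crossAC hs1 b1 h1 h2).elim
  · exact (crossAB ht1 hs2 h1.symm (by omega)).elim
  · have e1 : dir k = dir l := dir_congr (by omega)
    rw [e1] at h1
    exact ⟨by simpa using h1, by omega⟩
  · exact (crossBC hs1 ht2 h1 h2).elim
  · exact (crossAC ht1 (by assumption) h1.symm (by omega)).elim
  · exact (crossBC ht1 hs2 h1.symm (by omega)).elim
  · exact ⟨h1, by omega⟩

/-! ### Labels -/

/-- The label (midpoint in doubled coordinates) of a side. -/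
def lab (s : Cell × ℤ) : ℤ × ℤ := s.1 + s.1 + (1, 1) + dir (s.2 - 1)

lemma lab_eq_tail (s : Cell × ℤ) : lab s = tail s + tail s + dir s.2 := by
  obtain ⟨⟨i, j⟩, k⟩ := s
  unfold lab tail
  simp only
  rcases dir_cases k with ⟨a, e⟩ | ⟨a, e⟩ | ⟨a, e⟩ | ⟨a, e⟩ <;>
  rcases dir_cases (k - 1) with ⟨b, f⟩ | ⟨b, f⟩ | ⟨b, f⟩ | ⟨b, f⟩ <;>
  first
  | (exfalso; omega)
  | (rw [e, f]; simp only [a]; ext <;> simp <;> ring)

/-- An edge between two cells determines the cells. -/
lemma edge_cells {c d : Cell} {k l : ℤ}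
    (h : c + c + (1, 1) + dir k = d + d + (1, 1) + dir l) :
    (c = d ∧ (k - l) % 4 = 0) ∨ (c = d + dir l ∧ d = c + dir k) := by
  obtain ⟨i, j⟩ := c
  obtain ⟨i', j'⟩ := d
  rcases dir_cases k with ⟨a, e⟩ | ⟨a, e⟩ | ⟨a, e⟩ | ⟨a, e⟩ <;>
  rcases dir_cases l with ⟨b, f⟩ | ⟨b, f⟩ | ⟨b, f⟩ | ⟨b, f⟩ <;>
  (rw [e, f] at h
   rw [e, f]
   simp only [Prod.mk_add_mk, Prod.mk.injEq] at h ⊢
   omega)

lemma lab_inj (hs : IsSide Q s) (ht : IsSide Q t) (h : lab s = lab t) : Eqv s t := by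
  unfold lab at h
  rcases edge_cells h with h1 | h1
  · exact ⟨h1.1, by have := h1.2; omega⟩
  · exfalso
    apply ht.2
    rw [← h1.1]; exact hs.1

/-- The edge between two cells of the same type is not the label of a side. -/
lemma lab_ne {c : Cell} {j : ℤ} (hs : IsSide Q s) (h : c ∈ Q ↔ c + dir j ∈ Q) :
    lab s ≠ c + c + (1, 1) + dir j := by
  intro h1
  unfold lab at h1
  rcases edge_cells h1 with h2 | h2
  · apply hs.2
    rw [h2.1]
    have : dir (s.2 - 1) = dir j := dir_congr h2.2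
    rw [this]
    exact h.1 (h2.1 ▸ hs.1)
  · apply hs.2
    rw [← h2.2]
    exact h.2 (h2.1 ▸ hs.1)

/-! ### The orbit -/

lemma exists_period (h : IsSide Q s) : ∃ L : ℕ, 0 < L ∧ Eqv ((nextSide Q)^[L] s) s := by
  classical
  let f : ℕ → Cell × ℤ := fun n => (((nextSide Q)^[n] s).1, ((nextSide Q)^[n] s).2 % 4)
  have hf : ∀ n, f n ∈ Q ×ˢ Finset.Icc (0 : ℤ) 3 := by
    intro n
    simp only [f, Finset.mem_product, Finset.mem_Icc]
    exact ⟨(isSide_iter h n).1, by omega, by omega⟩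
  obtain ⟨a, -, b, -, hab, he⟩ := Finset.exists_ne_map_eq_of_card_lt_of_maps_to
    (s := Finset.range ((Q ×ˢ Finset.Icc (0 : ℤ) 3).card + 1)) (t := Q ×ˢ Finset.Icc (0 : ℤ) 3)
    (by simp) (f := f) (fun n _ => hf n)
  have key : ∀ a b : ℕ, a < b → f a = f b → ∃ L : ℕ, 0 < L ∧ Eqv ((nextSide Q)^[L] s) s := by
    intro a
    induction a with
    | zero =>
      intro b hb he
      simp only [f, Prod.mk.injEq, Function.iterate_zero, id] at he
      exact ⟨b, hb, he.1.symm, by omega⟩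
    | succ a ih =>
      intro b hb he
      obtain ⟨b, rfl⟩ : ∃ b', b = b' + 1 := ⟨b - 1, by omega⟩
      refine ih b (by omega) ?_
      simp only [f, Prod.mk.injEq, Function.iterate_succ_apply'] at he
      have := next_inj (isSide_iter h a) (isSide_iter h b) ⟨he.1, by omega⟩
      simp only [f, Prod.mk.injEq]
      exact ⟨this.1, by have := this.2; omega⟩
  rcases lt_or_gt_of_ne hab with h1 | h1
  · exact key a b h1 he
  · exact key b a h1 he.symm

/-- The (minimal) period modulo 4. -/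
lemma exists_min_period (h : IsSide Q s) : ∃ L : ℕ, 0 < L ∧ Eqv ((nextSide Q)^[L] s) s ∧
    ∀ a b : ℕ, a < b → b < L → ¬ Eqv ((nextSide Q)^[a] s) ((nextSide Q)^[b] s) := by
  classical
  have hex := exists_period h
  refine ⟨Nat.find hex, (Nat.find_spec hex).1, (Nat.find_spec hex).2, ?_⟩
  intro a
  induction a with
  | zero =>
    intro b h1 h2 h3
    exact Nat.find_min hex h2 ⟨h1, h3.symm⟩
  | succ a ih =>
    intro b h1 h2 h3
    obtain ⟨b, rfl⟩ : ∃ b', b = b' + 1 := ⟨b - 1, by omega⟩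
    rw [Function.iterate_succ_apply', Function.iterate_succ_apply'] at h3
    exact ih b (by omega) (by omega) (next_inj (isSide_iter h a) (isSide_iter h b) h3)

/-- One side meets a vertex at its tail and at its head. -/
lemma lab_vertex (t v : ℤ × ℤ) (k : ℤ) :
    ((if (t + t + dir k) = (2 * v.1 + 1, 2 * v.2) then (1 : ZMod 2) else 0) +
      (if (t + t + dir k) = (2 * v.1 - 1, 2 * v.2) then 1 else 0) +
      (if (t + t + dir k) = (2 * v.1, 2 * v.2 + 1) then 1 else 0) +
      (if (t + t + dir k) = (2 * v.1, 2 * v.2 - 1) then 1 else 0)) =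
    (if t = v then 1 else 0) + (if t + dir k = v then 1 else 0) := by
  obtain ⟨t1, t2⟩ := t
  obtain ⟨v1, v2⟩ := v
  rcases dir_cases k with ⟨a, e⟩ | ⟨a, e⟩ | ⟨a, e⟩ | ⟨a, e⟩ <;>
  (rw [e]
   simp only [Prod.mk_add_mk, Prod.mk.injEq]
   split_ifs <;> first | (exfalso; omega) | simp)

/-- Every boundary side belongs to the orbit. -/
lemma orbit_all (hQ : Good Q) (hs : IsSide Q s) {L : ℕ}
    (hper : Eqv ((nextSide Q)^[L] s) s)
    (hinj : ∀ a b : ℕ, a < b → b < L → ¬ Eqv ((nextSide Q)^[a] s) ((nextSide Q)^[b] s))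
    (hL : 0 < L) (ht : IsSide Q t) : ∃ n < L, Eqv ((nextSide Q)^[n] s) t := by
  classical
  let sd : ℕ → Cell × ℤ := fun n => (nextSide Q)^[n] s
  have hsd : ∀ n, IsSide Q (sd n) := fun n => isSide_iter hs n
  have hsucc : ∀ n, sd (n + 1) = nextSide Q (sd n) := fun n => Function.iterate_succ_apply' _ _ _
  let n : ℤ × ℤ → ZMod 2 := fun a => ∑ i ∈ range L, if lab (sd i) = a then 1 else 0
  -- finitely many labels
  have hfin : {a : ℤ × ℤ | n a ≠ 0}.Finite := by
    refine ((range L).image (fun i => lab (sd i))).finite_toSet.subset ?_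
    intro a ha
    by_contra hna
    apply ha
    refine Finset.sum_eq_zero fun i hi => ?_
    rw [if_neg]
    intro h
    apply hna
    simp only [Finset.coe_image, Set.mem_image, Finset.mem_coe]
    exact ⟨i, hi, h⟩
  -- even degree
  have hdeg : ∀ v : ℤ × ℤ, n (2 * v.1 + 1, 2 * v.2) + n (2 * v.1 - 1, 2 * v.2) +
      n (2 * v.1, 2 * v.2 + 1) + n (2 * v.1, 2 * v.2 - 1) = 0 := by
    intro v
    simp only [n]
    rw [← Finset.sum_add_distrib, ← Finset.sum_add_distrib, ← Finset.sum_add_distrib]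
    have h1 : ∀ i ∈ range L,
        (((if lab (sd i) = (2 * v.1 + 1, 2 * v.2) then (1 : ZMod 2) else 0) +
        (if lab (sd i) = (2 * v.1 - 1, 2 * v.2) then 1 else 0) +
        (if lab (sd i) = (2 * v.1, 2 * v.2 + 1) then 1 else 0)) +
        (if lab (sd i) = (2 * v.1, 2 * v.2 - 1) then 1 else 0)) =
        (if tail (sd i) = v then 1 else 0) + (if tail (sd (i + 1)) = v then 1 else 0) := by
      intro i _
      rw [lab_eq_tail, lab_vertex, hsucc, head_eq_tail_next]
      rfl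
    rw [Finset.sum_congr rfl h1, Finset.sum_add_distrib]
    have h2 : ∑ i ∈ range L, (if tail (sd (i + 1)) = v then (1 : ZMod 2) else 0) =
        ∑ i ∈ range L, (if tail (sd i) = v then 1 else 0) := by
      have a1 := Finset.sum_range_succ' (fun i => if tail (sd i) = v then (1 : ZMod 2) else 0) L
      have a2 := Finset.sum_range_succ (fun i => if tail (sd i) = v then (1 : ZMod 2) else 0) L
      have a3 : tail (sd L) = tail (sd 0) := by
        have hh : Eqv (sd L) (sd 0) := hper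
        unfold tail
        rw [hh.1]
        have h5 := hh.2
        have : (sd L).2 % 4 = (sd 0).2 % 4 := by omega
        rw [this]
      rw [a2, a3] at a1
      exact (add_right_cancel a1).symm
    rw [h2]
    generalize (∑ i ∈ range L, (if tail (sd i) = v then (1 : ZMod 2) else 0)) = w
    revert w; decide
  obtain ⟨S, hS⟩ := even_faces n hfin hdeg
  -- colours of cells
  let χ : Cell → ZMod 2 := fun c => S (c + (1, 1))
  have hχ : ∀ (c : Cell) (j : ℤ), χ c + χ (c + dir j) = n (c + c + (1, 1) + dir j) := by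
    intro c j
    have h := hS (c + (1, 1)) (c + dir j + (1, 1)) (by
      have : c + dir j + (1, 1) - (c + (1, 1)) = dir j := by abel
      rw [this]; exact isUnit4_dir j)
    simp only [χ]
    rw [h]
    congr 1
    have : ((1, 1) : ℤ × ℤ) = (1, 1) := rfl
    abel
  have hzero : ∀ (c : Cell) (j : ℤ), (c ∈ Q ↔ c + dir j ∈ Q) → χ (c + dir j) = χ c := by
    intro c j hc
    have h := hχ c j
    have h0 : n (c + c + (1, 1) + dir j) = 0 := by
      refine Finset.sum_eq_zero fun i _ => ?_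
      rw [if_neg]
      exact lab_ne (hsd i) hc
    rw [h0] at h
    generalize χ (c + dir j) = a at h ⊢
    generalize χ c = b at h ⊢
    revert a b; decide
  have hin : ∀ c ∈ Q, ∀ d ∈ Q, χ d = χ c := by
    intro c hc d hd
    have hcd := hQ.conn c hc d hd
    have : d ∈ Q ∧ χ d = χ c := by
      clear hd
      induction hcd with
      | refl => exact ⟨hc, rfl⟩
      | tail _ hbc ih =>
        rename_i b e _
        obtain ⟨⟨k, hk⟩, he⟩ := hbc
        refine ⟨he, ?_⟩
        rw [hk] at he ⊢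
        rw [hzero b k ⟨fun _ => he, fun _ => ih.1⟩]
        exact ih.2
    exact this.2
  have hout : ∀ c, c ∉ Q → ∀ d, d ∉ Q → χ d = χ c := by
    intro c hc d hd
    have hcd := hQ.conn_compl c hc d hd
    have : d ∉ Q ∧ χ d = χ c := by
      clear hd
      induction hcd with
      | refl => exact ⟨hc, rfl⟩
      | tail _ hbc ih =>
        rename_i b e _
        obtain ⟨⟨k, hk⟩, he⟩ := hbc
        have he' : e ∉ Q := he
        refine ⟨he', ?_⟩
        rw [hk] at he' ⊢
        rw [hzero b k ⟨fun h => (ih.1 h).elim, fun h => (he' h).elim⟩]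
        exact ih.2
    exact this.2
  -- the side `s` itself
  have h0 : n (lab s) = 1 := by
    simp only [n]
    rw [Finset.sum_eq_single 0]
    · simp [sd]
    · intro i hi hi0
      rw [if_neg]
      intro h
      have h1 := lab_inj (hsd i) hs h
      exact hinj 0 i (by omega) (Finset.mem_range.1 hi) h1.symm
    · intro h; exact absurd (Finset.mem_range.2 hL) h
  have h1 : χ s.1 + χ (s.1 + dir (s.2 - 1)) = 1 := by
    rw [hχ]; exact h0
  have h2 : χ t.1 + χ (t.1 + dir (t.2 - 1)) = 1 := by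
    rw [hin s.1 hs.1 t.1 ht.1, hout _ hs.2 _ ht.2]
    exact h1
  rw [hχ] at h2
  have h3 : n (lab t) = 1 := h2
  by_contra hne
  push Not at hne
  have h4 : n (lab t) = 0 := by
    refine Finset.sum_eq_zero fun i hi => ?_
    rw [if_neg]
    intro h
    exact hne i (Finset.mem_range.1 hi) (lab_inj (hsd i) ht h)
  rw [h3] at h4
  exact one_ne_zero h4

/-- The cells around the tail of a side. -/
lemma side_cells (hs : IsSide Q s) {a b : ℤ} (h : tail s = (a, b)) :
    (s.2 % 4 = 0 ∧ s.1 = (a, b) ∧ (a, b) ∈ Q ∧ (a, b - 1) ∉ Q) ∨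
    (s.2 % 4 = 1 ∧ s.1 = (a - 1, b) ∧ (a - 1, b) ∈ Q ∧ (a, b) ∉ Q) ∨
    (s.2 % 4 = 2 ∧ s.1 = (a - 1, b - 1) ∧ (a - 1, b - 1) ∈ Q ∧ (a - 1, b) ∉ Q) ∨
    (s.2 % 4 = 3 ∧ s.1 = (a, b - 1) ∧ (a, b - 1) ∈ Q ∧ (a - 1, b - 1) ∉ Q) := by
  obtain ⟨⟨i, j⟩, k⟩ := s
  obtain ⟨hs1, hs2⟩ := hs
  unfold tail at h
  simp only at hs1 hs2 h ⊢
  rcases dir_cases k with ⟨e, -⟩ | ⟨e, -⟩ | ⟨e, -⟩ | ⟨e, -⟩ <;>
  rcases dir_cases (k - 1) with ⟨f, g⟩ | ⟨f, g⟩ | ⟨f, g⟩ | ⟨f, g⟩ <;>
  first
  | (exfalso; omega)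
  | (rw [g] at hs2
     simp only [e, Prod.mk_add_mk] at h hs2
     norm_num at h
     obtain ⟨rfl, rfl⟩ := h
     simp only [e, true_and]
     norm_num
     constructor
     · simpa using hs1
     · simpa [sub_eq_add_neg, add_assoc] using hs2)

/-- Two boundary sides of a good polyomino with the same tail are equal. -/
lemma tail_inj (hQ : Good Q) (hs : IsSide Q s) (ht : IsSide Q t) (h : tail s = tail t) :
    Eqv s t := by
  obtain ⟨⟨a, b⟩, hab⟩ : ∃ v : ℤ × ℤ, tail s = v := ⟨_, rfl⟩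
  have c1 := side_cells hs hab
  have c2 := side_cells ht (h ▸ hab)
  have d1 := hQ.diag1 (a - 1, b - 1)
  have d2 := hQ.diag2 (a - 1, b - 1)
  simp only [Prod.mk_add_mk, sub_add_cancel, add_zero] at d1 d2
  rcases c1 with ⟨k1, e1, p1, q1⟩ | ⟨k1, e1, p1, q1⟩ | ⟨k1, e1, p1, q1⟩ | ⟨k1, e1, p1, q1⟩ <;>
  rcases c2 with ⟨k2, e2, p2, q2⟩ | ⟨k2, e2, p2, q2⟩ | ⟨k2, e2, p2, q2⟩ | ⟨k2, e2, p2, q2⟩ <;>
  first
  | exact ⟨e1.trans e2.symm, by omega⟩
  | (exfalso; tauto)

/-- The boundary walk of a good polyomino, started at any side, is a single cycle with total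
turning `4`. -/
theorem walk (hQ : Good Q) (hs : IsSide Q s) : ∃ N : ℕ, 3 ≤ N ∧
    (nextSide Q)^[N] s = (s.1, s.2 + 4) ∧
    (∀ t : Cell × ℤ, IsSide Q t → ∃ n < N, ((nextSide Q)^[n] s).1 = t.1 ∧
      (((nextSide Q)^[n] s).2 - t.2) % 4 = 0) ∧
    (∀ n < N, ∀ n' < N, ((nextSide Q)^[n] s).1 = ((nextSide Q)^[n'] s).1 →
      (((nextSide Q)^[n] s).2 - ((nextSide Q)^[n'] s).2) % 4 = 0 → n = n') := by
  obtain ⟨L, hL, hper, hinj⟩ := exists_min_period hs
  have hall : ∀ t : Cell × ℤ, IsSide Q t → ∃ n < L, Eqv ((nextSide Q)^[n] s) t :=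
    fun t ht => orbit_all hQ hs hper hinj hL ht
  -- the lowest row and its leftmost cell
  obtain ⟨c, hc, hmin, hleft⟩ : ∃ c ∈ Q, (∀ d ∈ Q, c.2 ≤ d.2) ∧ (c.1 - 1, c.2) ∉ Q := by
    obtain ⟨c0, hc0, hm0⟩ := Q.exists_min_image (fun c => c.2) hQ.ne
    have hne : (Q.filter (fun c => c.2 = c0.2)).Nonempty := ⟨c0, by simp [hc0]⟩
    obtain ⟨c, hc, hm⟩ := (Q.filter (fun c => c.2 = c0.2)).exists_min_image (fun c => c.1) hne
    rw [Finset.mem_filter] at hc
    refine ⟨c, hc.1, fun d hd => by rw [hc.2]; exact hm0 d hd, ?_⟩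
    intro h
    have := hm (c.1 - 1, c.2) (by rw [Finset.mem_filter]; exact ⟨h, hc.2⟩)
    simp only at this
    omega
  obtain ⟨i, j⟩ := c
  simp only at hmin hleft
  have hbelow : ∀ x, (x, j - 1) ∉ Q := fun x hx => by have := hmin _ hx; simp only at this; omega
  have hs0 : IsSide Q ((i, j), 0) := by
    refine ⟨hc, ?_⟩
    have : dir (0 - 1) = (0, -1) := by decide
    simp only [this, Prod.mk_add_mk, add_zero]
    exact hbelow i
  have hs3 : IsSide Q ((i, j), 3) := by
    refine ⟨hc, ?_⟩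
    have : dir (3 - 1) = (-1, 0) := by decide
    simp only [this, Prod.mk_add_mk, add_zero]
    exact hleft
  have hn3 : nextSide Q ((i, j), 3) = ((i, j), 3 + 1) := by
    have h3 : dir 3 = (0, -1) := by decide
    have h2 : dir (3 - 1) = (-1, 0) := by decide
    unfold nextSide
    simp only [h3, h2, Prod.mk_add_mk, add_zero]
    rw [if_neg (by simpa [sub_eq_add_neg] using hbelow (i + -1)),
      if_neg (by simpa [sub_eq_add_neg] using hbelow i)]
  obtain ⟨m, hm, hme⟩ := hall _ hs0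
  -- the walk started at the lowest side
  let sd : ℕ → Cell × ℤ := fun n => (nextSide Q)^[m + n] s
  have hsd : ∀ n, IsSide Q (sd n) := fun n => isSide_iter hs _
  have hsucc : ∀ n, sd (n + 1) = nextSide Q (sd n) := fun n => by
    simp only [sd]; rw [← add_assoc, Function.iterate_succ_apply']
  have hperm : ∀ n, ((nextSide Q)^[n + L] s).1 = ((nextSide Q)^[n] s).1 ∧
      ((nextSide Q)^[n + L] s).2 - ((nextSide Q)^[n] s).2 = ((nextSide Q)^[L] s).2 - s.2 := by
    intro n
    rw [Function.iterate_add_apply]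
    have := hper.iter (Q := Q) n
    exact ⟨this.1, by have := this.2; omega⟩
  have hL4 : (((nextSide Q)^[L] s).2 - s.2) % 4 = 0 := hper.2
  -- distinct vertices
  have hne : ∀ a b, a < b → b < L → tail (sd a) ≠ tail (sd b) := by
    intro a b hab hb h
    have h1 := tail_inj hQ (hsd a) (hsd b) h
    -- move into the first period
    have red : ∀ n < L, ∃ n' < L, Eqv (sd n) ((nextSide Q)^[n'] s) ∧
        (n' = m + n ∨ n' + L = m + n) := by
      intro n hn
      rcases lt_or_ge (m + n) L with h2 | h2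
      · exact ⟨m + n, h2, Eqv.refl _, Or.inl rfl⟩
      · obtain ⟨n', hn'⟩ : ∃ n', m + n = n' + L := ⟨m + n - L, by omega⟩
        refine ⟨n', by omega, ?_, Or.inr hn'.symm⟩
        have h3 := hperm n'
        simp only [sd]
        rw [hn']
        exact ⟨h3.1, by have := h3.2; omega⟩
    obtain ⟨a', ha', ea, ra⟩ := red a (by omega)
    obtain ⟨b', hb', eb, rb⟩ := red b hb
    have h2 : Eqv ((nextSide Q)^[a'] s) ((nextSide Q)^[b'] s) := ea.symm.trans (h1.trans eb)
    rcases lt_trichotomy a' b' with h3 | h3 | h3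
    · exact hinj _ _ h3 hb' h2
    · omega
    · exact hinj _ _ h3 ha' h2.symm
  have hpath : IsPath (fun n => tail (sd n)) (fun n => (sd n).2) := by
    refine ⟨fun n => ?_, fun n => ?_⟩
    · rw [hsucc, head_eq_tail_next]
      rfl
    · rw [hsucc]
      exact next_turn Q (sd n)
  have htp : ∀ n, tail (sd (n + L)) = tail (sd n) := by
    intro n
    have h3 := hperm (m + n)
    have h4 : sd (n + L) = (nextSide Q)^[m + n + L] s := by simp only [sd]; rw [add_assoc]
    unfold tail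
    rw [h4, h3.1]
    have : ((nextSide Q)^[m + n + L] s).2 % 4 = (sd n).2 % 4 := by
      have := h3.2
      simp only [sd]
      omega
    rw [this]
  have hL3 : 3 ≤ L := by
    by_contra hlt
    have h12 : L = 1 ∨ L = 2 := by omega
    rcases h12 with h12 | h12
    · have h1 := htp 0
      rw [h12, zero_add, hpath.step 0] at h1
      rcases isUnit4_dir (sd 0).2 with h | h | h | h <;> rw [h] at h1 <;>
        simp [Prod.ext_iff] at h1
    · have h1 : tail (sd 2) = tail (sd 0) := by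
        have := htp 0
        rw [h12] at this
        exact this
      have h2 : tail (sd 2) = tail (sd 1) + dir (sd 1).2 := hpath.step 1
      have h3 : tail (sd 1) = tail (sd 0) + dir (sd 0).2 := hpath.step 0
      have h4 := hpath.turn 0
      simp only [zero_add] at h4
      have h5 : dir (sd 0).2 + dir (sd 1).2 = 0 := by
        rw [h2, h3, add_assoc] at h1
        exact add_eq_left.1 h1
      rcases dir_cases (sd 0).2 with ⟨a, e⟩ | ⟨a, e⟩ | ⟨a, e⟩ | ⟨a, e⟩ <;>
      rcases dir_cases (sd 1).2 with ⟨b, f⟩ | ⟨b, f⟩ | ⟨b, f⟩ | ⟨b, f⟩ <;>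
      first
      | (exfalso; omega)
      | (rw [e, f] at h5; simp [Prod.ext_iff] at h5; done)
  -- the last side
  obtain ⟨M, rfl⟩ : ∃ M, L = M + 1 := ⟨L - 1, by omega⟩
  have hsM : Eqv (sd M) ((i, j), 3) := by
    refine next_inj (hsd M) hs3 ?_
    rw [hn3, ← hsucc]
    have h1 : Eqv (sd (M + 1)) ((i, j), 0) := by
      have h3 := hperm m
      refine Eqv.trans ⟨?_, ?_⟩ hme
      · exact h3.1
      · have := h3.2
        simp only [sd]
        omega
    exact h1.trans ⟨rfl, by norm_num⟩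
  have hs00 : Eqv (sd 0) ((i, j), 0) := hme
  have hdir : dir (sd (M + 1)).2 = dir (sd 0).2 := by
    apply dir_congr
    have h3 := hperm m
    have h4 : sd (M + 1) = (nextSide Q)^[m + (M + 1)] s := rfl
    have h5 : sd 0 = (nextSide Q)^[m] s := rfl
    rw [h4, h5]
    have := h3.2
    omega
  have hct := closed_turning (fun n => tail (sd n)) (fun n => (sd n).2) hpath (M + 1) hL3 htp
    hne hdir
  simp only [Nat.add_sub_cancel] at hct
  have t0 : tail (sd 0) = (i, j) := by
    unfold tail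
    rw [hs00.1]
    have h5 := hs00.2
    simp only at h5
    rw [if_pos (by omega)]
  have hwin := GG_row_window (fun n => tail (sd n)) (fun n => (sd n).2) hpath
    (fun z => 0 ≤ z.2) cl window_N.toA 0 M (by omega)
    (fun b h1 h2 => hne 0 b h1 (by omega))
    (fun b _ _ => by
      simp only [t0, Prod.snd_sub]
      have h1 := hmin _ (hsd b).1
      have h2 : (sd b).1.2 ≤ (tail (sd b)).2 := by
        unfold tail
        split_ifs <;> simp
      omega)
  simp only [zero_add] at hwin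
  have v1 : tail (sd 1) - tail (sd 0) = (1, 0) := by
    have h1 := hpath.step 0
    simp only [zero_add] at h1
    rw [h1, add_sub_cancel_left]
    have : dir (sd 0).2 = dir 0 := dir_congr hs00.2
    rw [this]; decide
  have vM : tail (sd M) - tail (sd 0) = (0, 1) := by
    have h1 := hpath.step M
    have h2 := htp 0
    simp only [zero_add] at h1 h2
    rw [h2] at h1
    rw [h1]
    have : dir (sd M).2 = dir 3 := dir_congr hsM.2
    rw [this]
    have : dir 3 = (0, -1) := by decide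
    rw [this]
    ext <;> simp
  rw [v1, vM] at hwin
  have c1 : cl (1, 0) = 0 := by decide
  have c2 : cl (0, 1) = 2 := by decide
  rw [c1, c2] at hwin
  have hturn := hpath.turn M
  have hlast : (sd (M + 1)).2 - (sd M).2 = 1 := by
    have h1 := hsM.2
    have h2 := hs00.2
    have h3 := dir_inj hdir
    simp only at h1 h2 h3 hturn
    omega
  have htot : (sd (M + 1)).2 - (sd 0).2 = 4 := by
    rw [hct]
    linarith
  have hfin : ((nextSide Q)^[M + 1] s).2 - s.2 = 4 := by
    have h3 := (hperm m).2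
    have h4 : sd (M + 1) = (nextSide Q)^[m + (M + 1)] s := rfl
    have h5 : sd 0 = (nextSide Q)^[m] s := rfl
    rw [h4, h5] at htot
    omega
  refine ⟨M + 1, hL3, ?_, ?_, ?_⟩
  · exact Prod.ext hper.1 (by simp only; omega)
  · intro t ht
    obtain ⟨n, hn, h⟩ := hall t ht
    exact ⟨n, hn, h.1, h.2⟩
  · intro n hn n' hn' h1 h2
    rcases lt_trichotomy n n' with h3 | h3 | h3
    · exact (hinj n n' h3 hn' ⟨h1, h2⟩).elim
    · exact h3
    · exact (hinj n' n h3 hn (Eqv.symm ⟨h1, h2⟩)).elim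

/-- Every good polyomino with a boundary side as a domain type: `N` is the number of sides, the
mark `b` may be put anywhere. -/
theorem exists_PType (hQ : Good Q) (hs : IsSide Q s) : ∃ N : ℕ, 3 ≤ N ∧ ∀ m, 0 < m → m < N →
    ∃ P : PType, P.Q = Q ∧ P.s0 = s ∧ P.N = N ∧ P.m = m := by
  obtain ⟨N, hN, h1, h2, h3⟩ := walk hQ hs
  exact ⟨N, hN, fun m hm0 hmN => ⟨⟨Q, hQ, s, N, m, hm0, hmN, hs, h1, h2, h3⟩, rfl, rfl, rfl, rfl⟩⟩

end Pool.Agent.Q1.M4
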