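import Mathlib
import Pool.Agent.H5.Q1.Index
import Pool.Agent.Q1.M4.Tot
import Pool.Agent.Q1.M4.Global
import Pool.Agent.Q1.M5.Defs
import Pool.Agent.Q1.Plane

set_option autoImplicit false
open Finset

/-! Module M4, [D]: geometry of the lattice domain of a type: labels of the sides, the wired labels
`WL`, the labels `gs = EF (LF Q)`, the wired part of the boundary walk. -/

namespace Pool.Agent.Q1.Dob

open Pool.Agent.H75.Perc hiding WL
open Pool.Agent.H75.TwoArm Pool.Agent.H5.Q1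
open Pool.Agent.H69.Q1 (exists_orb_nx inOrb_symm inOrb_trans inOrb_of_co co_orb du_anti)
open Pool.Agent.Q1.M4 (Cell Good IsSide nextSide tail head PType FQ mem_FQ RC head_eq_tail_next
  Tot inner_index dir_inj)
open Pool.Agent.Q1.M5 (sL sV WL EL TV CT)
open Pool.Agent.H49.Q1 (gs gcell mem_gs CJ onCell)

/-! ### Labels and corners -/

lemma lab_oc (p : ℤ × ℤ) (k : ℤ) : lab (oc p k) = p + p + dir (k - 1) := by
  obtain ⟨x, y⟩ := p
  rcases oc_cases (x, y) k with ⟨a, h⟩ | ⟨a, h⟩ | ⟨a, h⟩ | ⟨a, h⟩ <;>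
  rcases dir_cases (k - 1) with ⟨b, g⟩ | ⟨b, g⟩ | ⟨b, g⟩ | ⟨b, g⟩ <;>
  first
  | (exfalso; omega)
  | (rw [h, g]
     rcases ty_cases (oc (x, y) k) with ⟨h0, h1, h2, h3, h4, h5⟩ | ⟨h0, h1, h2, h3, h4, h5⟩ |
       ⟨h0, h1, h2, h3, h4, h5⟩ | ⟨h0, h1, h2, h3, h4, h5⟩ <;> rw [h] at h1 h2 h3 <;>
       simp only at h1 h2 <;> first
     | (exfalso; omega)
     | (rw [h3]
        refine Prod.ext ?_ ?_ <;> simp <;> omega))

/-- The label of the `j`-th unit edge of a side. -/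
def sl (X Y : ℤ → ℤ) (s : Cell × ℤ) (j : ℕ) : ℤ × ℤ := sp X Y s j + sp X Y s (j + 1)

lemma lab_second (X Y : ℤ → ℤ) (s : Cell × ℤ) (j : ℕ) :
    lab (oc (sp X Y s j) (s.2 + 1)) = sl X Y s j := by
  unfold sl
  rw [lab_oc, sp_succ, add_sub_cancel_right, add_assoc]

lemma dir_opp (k : ℤ) : dir (k + 2) = - dir k := M4.dir_neg k

lemma lab_inner (X Y : ℤ → ℤ) (s : Cell × ℤ) (j : ℕ) :
    lab (oc (sp X Y s (j + 1)) (s.2 + 3)) = sl X Y s j := by
  unfold sl
  rw [lab_oc, sp_succ, show s.2 + 3 - 1 = s.2 + 2 by ring, dir_opp]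
  abel

lemma nxO_second (X Y : ℤ → ℤ) (s : Cell × ℤ) (j : ℕ) :
    nxO (oc (sp X Y s j) (s.2 + 1)) = oc (sp X Y s (j + 1)) s.2 := by
  rw [nxO_oc, add_sub_cancel_right, ← sp_succ]

lemma nxO_inner (X Y : ℤ → ℤ) (s : Cell × ℤ) (j : ℕ) :
    nxO (oc (sp X Y s (j + 1)) (s.2 + 3)) = oc (sp X Y s j) (s.2 + 2) := by
  rw [nxO_oc, show s.2 + 3 - 1 = s.2 + 2 by ring, dir_opp, sp_succ]
  congr 1
  abel

variable {Q : Finset Cell} {X Y : ℤ → ℤ}

/-- the labels of a side -/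
lemma mem_sL (hX : StrictMono X) (hY : StrictMono Y) {s : Cell × ℤ} {e : ℤ × ℤ} :
    e ∈ sL X Y s ↔ ∃ j < slen X Y s, e = sl X Y s j := by
  obtain ⟨⟨a, b⟩, k⟩ := s
  unfold sL gcell sl sp gp
  rw [mem_filter, mem_Bx]
  have hX1 : X a < X (a + 1) := hX (by omega)
  have hY1 : Y b < Y (b + 1) := hY (by omega)
  simp only
  rcases side_cases hX hY a b k with ⟨e1, h1, h2, h3, h4⟩ | ⟨e1, h1, h2, h3, h4⟩ |
    ⟨e1, h1, h2, h3, h4⟩ | ⟨e1, h1, h2, h3, h4⟩ <;> rw [h1, h3] <;> simp only [e1] <;>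
    constructor
  · rintro ⟨⟨⟨g1, g2⟩, ⟨g3, g4⟩, g5⟩, g6⟩
    have g7 := g6.1 trivial
    refine ⟨((e.1 - 2 * X a) / 2).toNat, by omega, ?_⟩
    refine Prod.ext ?_ ?_ <;> simp <;> omega
  · rintro ⟨j, hj, rfl⟩
    simp
    omega
  · rintro ⟨⟨⟨g1, g2⟩, ⟨g3, g4⟩, g5⟩, g6⟩
    have g7 := g6.2.1 trivial
    refine ⟨((e.2 - 2 * Y b) / 2).toNat, by omega, ?_⟩
    refine Prod.ext ?_ ?_ <;> simp <;> omega
  · rintro ⟨j, hj, rfl⟩
    simp
    omega
  · rintro ⟨⟨⟨g1, g2⟩, ⟨g3, g4⟩, g5⟩, g6⟩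
    have g7 := g6.2.2.1 trivial
    refine ⟨((2 * X (a + 1) - e.1) / 2).toNat, by omega, ?_⟩
    refine Prod.ext ?_ ?_ <;> simp <;> omega
  · rintro ⟨j, hj, rfl⟩
    simp
    omega
  · rintro ⟨⟨⟨g1, g2⟩, ⟨g3, g4⟩, g5⟩, g6⟩
    have g7 := g6.2.2.2 trivial
    refine ⟨((2 * Y (b + 1) - e.2) / 2).toNat, by omega, ?_⟩
    refine Prod.ext ?_ ?_ <;> simp <;> omega
  · rintro ⟨j, hj, rfl⟩
    simp
    omega

/-- the vertices of a side -/
lemma mem_sV (hX : StrictMono X) (hY : StrictMono Y) {s : Cell × ℤ} {v : ℤ × ℤ} :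
    sV X Y s v ↔ ∃ j ≤ slen X Y s, v = sp X Y s j := by
  obtain ⟨⟨a, b⟩, k⟩ := s
  unfold sV onCell inB sp gp
  have hX1 : X a < X (a + 1) := hX (by omega)
  have hY1 : Y b < Y (b + 1) := hY (by omega)
  simp only
  rcases side_cases hX hY a b k with ⟨e1, h1, h2, h3, h4⟩ | ⟨e1, h1, h2, h3, h4⟩ |
    ⟨e1, h1, h2, h3, h4⟩ | ⟨e1, h1, h2, h3, h4⟩ <;> rw [h1, h3] <;> simp only [e1] <;>
    constructor
  · rintro ⟨⟨⟨g1, g2⟩, g3, g4⟩, g6⟩
    have g7 := g6.1 trivial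
    refine ⟨(v.1 - X a).toNat, by omega, ?_⟩
    refine Prod.ext ?_ ?_ <;> simp <;> omega
  · rintro ⟨j, hj, rfl⟩
    simp
    omega
  · rintro ⟨⟨⟨g1, g2⟩, g3, g4⟩, g6⟩
    have g7 := g6.2.1 trivial
    refine ⟨(v.2 - Y b).toNat, by omega, ?_⟩
    refine Prod.ext ?_ ?_ <;> simp <;> omega
  · rintro ⟨j, hj, rfl⟩
    simp
    omega
  · rintro ⟨⟨⟨g1, g2⟩, g3, g4⟩, g6⟩
    have g7 := g6.2.2.1 trivial
    refine ⟨(X (a + 1) - v.1).toNat, by omega, ?_⟩
    refine Prod.ext ?_ ?_ <;> simp <;> omega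
  · rintro ⟨j, hj, rfl⟩
    simp
    omega
  · rintro ⟨⟨⟨g1, g2⟩, g3, g4⟩, g6⟩
    have g7 := g6.2.2.2 trivial
    refine ⟨(Y (b + 1) - v.2).toNat, by omega, ?_⟩
    refine Prod.ext ?_ ?_ <;> simp <;> omega
  · rintro ⟨j, hj, rfl⟩
    simp
    omega

/-- the labels of the closed region -/
lemma gs_eq (hX : StrictMono X) (hY : StrictMono Y) : gs X Y Q = EF (LF Q X Y) := by
  ext e
  rw [mem_gs, mem_EF]
  constructor
  · rintro ⟨c, hc, he⟩
    unfold gcell at he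
    rw [mem_Bx] at he
    have hX1 : X c.1 < X (c.1 + 1) := hX (by omega)
    have hY1 : Y c.2 < Y (c.2 + 1) := hY (by omega)
    obtain ⟨⟨h1, h2⟩, ⟨h3, h4⟩, h5⟩ := he
    by_cases hpar : e.1 % 2 = 1
    · -- horizontal edge
      by_cases hlow : e.2 = 2 * Y c.2
      · refine ⟨((e.1 + 1) / 2, e.2 / 2 + 1), mem_LF.2 ⟨c, hc, ?_, ?_⟩, ?_⟩
        · simp only; omega
        · simp only; omega
        · rw [mem_lf]; simp only; omega
      · refine ⟨((e.1 + 1) / 2, e.2 / 2), mem_LF.2 ⟨c, hc, ?_, ?_⟩, ?_⟩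
        · simp only; omega
        · simp only; omega
        · rw [mem_lf]; simp only; omega
    · by_cases hlow : e.1 = 2 * X c.1
      · refine ⟨(e.1 / 2 + 1, (e.2 + 1) / 2), mem_LF.2 ⟨c, hc, ?_, ?_⟩, ?_⟩
        · simp only; omega
        · simp only; omega
        · rw [mem_lf]; simp only; omega
      · refine ⟨(e.1 / 2, (e.2 + 1) / 2), mem_LF.2 ⟨c, hc, ?_, ?_⟩, ?_⟩
        · simp only; omega
        · simp only; omega
        · rw [mem_lf]; simp only; omega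
  · rintro ⟨f, hf, he⟩
    obtain ⟨c, hc, h1, h2⟩ := mem_LF.1 hf
    refine ⟨c, hc, ?_⟩
    unfold gcell
    rw [mem_Bx]
    rw [mem_lf] at he
    omega

lemma FQ_eq : FQ Q X Y = LF Q X Y := by
  ext f
  rw [mem_FQ, mem_LF]
  unfold RC
  rfl

/-- The faces at the unit edge of a side. -/
lemma face_out (hX : StrictMono X) (hY : StrictMono Y) {s : Cell × ℤ} (hs : IsSide Q s) {j : ℕ}
    (hj : j < slen X Y s) : fi (oc (sp X Y s j) (s.2 + 1)) ∉ LF Q X Y := by
  rw [mem_LF_iff hX hY, ((cell_side hX hY s (j := j)).1 hj).1]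
  exact hs.2

lemma face_in (hX : StrictMono X) (hY : StrictMono Y) {s : Cell × ℤ} (hs : IsSide Q s) {j : ℕ}
    (hj : j < slen X Y s) : fi (oc (sp X Y s j) (s.2 + 2)) ∈ LF Q X Y := by
  rw [mem_LF_iff hX hY, ((cell_side hX hY s (j := j)).1 hj).2]
  exact hs.1

lemma fi_inner (X Y : ℤ → ℤ) (s : Cell × ℤ) (j : ℕ) :
    fi (oc (sp X Y s (j + 1)) (s.2 + 3)) = fi (oc (sp X Y s j) (s.2 + 2)) := by
  rw [← nxO_inner, Pool.Agent.H75.TwoArm.StrandAux.fi_nxO]

lemma fi_first (X Y : ℤ → ℤ) (s : Cell × ℤ) (j : ℕ) :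
    fi (oc (sp X Y s (j + 1)) s.2) = fi (oc (sp X Y s j) (s.2 + 1)) := by
  rw [← nxO_second, Pool.Agent.H75.TwoArm.StrandAux.fi_nxO]

lemma sl_mem (hX : StrictMono X) (hY : StrictMono Y) {s : Cell × ℤ} (hs : IsSide Q s) {j : ℕ}
    (hj : j < slen X Y s) : sl X Y s j ∈ EF (LF Q X Y) := by
  rw [← lab_second, lab_mem_EF]
  right
  rw [nxC_oc, add_assoc, one_add_one_eq_two]
  exact face_in hX hY hs hj

/-- The unit edges of different sides are different. -/
lemma sl_inj (hX : StrictMono X) (hY : StrictMono Y) {s s' : Cell × ℤ} (hs : IsSide Q s)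
    (hs' : IsSide Q s') {j j' : ℕ} (hj : j < slen X Y s) (hj' : j' < slen X Y s')
    (h : sl X Y s j = sl X Y s' j') : s.1 = s'.1 ∧ (s.2 - s'.2) % 4 = 0 := by
  have key : ∀ f, f = fi (oc (sp X Y s j) (s.2 + 1)) ∨ f = fi (oc (sp X Y s j) (s.2 + 2)) ↔
      f = fi (oc (sp X Y s' j') (s'.2 + 1)) ∨ f = fi (oc (sp X Y s' j') (s'.2 + 2)) := by
    intro f
    have h1 := lab_mem_lf (z := oc (sp X Y s j) (s.2 + 1)) (f := f)
    have h2 := lab_mem_lf (z := oc (sp X Y s' j') (s'.2 + 1)) (f := f)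
    rw [nxC_oc, add_assoc, one_add_one_eq_two] at h1 h2
    rw [← h1, ← h2, lab_second, lab_second, h]
  have o1 := face_out hX hY hs hj
  have o2 := face_out hX hY hs' hj'
  have i1 := face_in hX hY hs hj
  have i2 := face_in hX hY hs' hj'
  have e1 : fi (oc (sp X Y s j) (s.2 + 2)) = fi (oc (sp X Y s' j') (s'.2 + 2)) := by
    rcases (key _).1 (Or.inr rfl) with h1 | h1
    · rw [h1] at i1; exact absurd i1 o2
    · exact h1
  have e2 : fi (oc (sp X Y s j) (s.2 + 1)) = fi (oc (sp X Y s' j') (s'.2 + 1)) := by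
    rcases (key _).1 (Or.inl rfl) with h1 | h1
    · exact h1
    · rw [h1] at o1; exact absurd i2 o1
  have c1 := (cell_side hX hY s (j := j)).1 hj
  have c2 := (cell_side hX hY s' (j := j')).1 hj'
  rw [e1, c2.2, e2, c2.1] at c1
  refine ⟨c1.2.symm, ?_⟩
  have h3 := c1.1
  rw [c1.2] at h3
  have h4 := dir_inj (add_left_cancel h3)
  omega

/-! ### The wired labels -/

variable (P : PType)

lemma isSide_side (n : ℕ) : IsSide P.Q (P.side n) := isSide_iter P.side0 n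

lemma side_succ (n : ℕ) : P.side (n + 1) = nextSide P.Q (P.side n) := by
  unfold PType.side; rw [Function.iterate_succ_apply']

variable {P}

lemma mem_WL (hX : StrictMono X) (hY : StrictMono Y) {e : ℤ × ℤ} :
    e ∈ WL P X Y ↔ ∃ n, P.m ≤ n ∧ n < P.N ∧ ∃ j < slen X Y (P.side n), e = sl X Y (P.side n) j := by
  unfold WL
  rw [mem_biUnion]
  simp only [mem_Ico, mem_sL hX hY]
  constructor
  · rintro ⟨n, ⟨h1, h2⟩, h3⟩; exact ⟨n, h1, h2, h3⟩
  · rintro ⟨n, h1, h2, h3⟩; exact ⟨n, ⟨h1, h2⟩, h3⟩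

lemma WL_sub (hX : StrictMono X) (hY : StrictMono Y) : WL P X Y ⊆ EF (LF P.Q X Y) := by
  intro e he
  obtain ⟨n, h1, h2, j, hj, rfl⟩ := (mem_WL hX hY).1 he
  exact sl_mem hX hY (isSide_side P n) hj

lemma EL_eq (hX : StrictMono X) (hY : StrictMono Y) :
    EL P X Y = EF (LF P.Q X Y) \ WL P X Y := by
  unfold EL; rw [gs_eq hX hY]

lemma EL_union (hX : StrictMono X) (hY : StrictMono Y) :
    EL P X Y ∪ WL P X Y = EF (LF P.Q X Y) := by
  rw [EL_eq hX hY, sdiff_union_of_subset (WL_sub hX hY)]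

lemma EL_disj : Disjoint (EL P X Y) (WL P X Y) := by
  unfold EL; exact sdiff_disjoint

lemma EL_odd (hX : StrictMono X) (hY : StrictMono Y) : ∀ e ∈ EL P X Y, (e.1 + e.2) % 2 = 1 := by
  intro e he
  rw [EL_eq hX hY, mem_sdiff] at he
  exact odd_EF he.1

/-- the unit edges of the free sides are random -/
lemma free_mem (hX : StrictMono X) (hY : StrictMono Y) {n : ℕ} (hn : n < P.m) {j : ℕ}
    (hj : j < slen X Y (P.side n)) : sl X Y (P.side n) j ∈ EL P X Y := by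
  rw [EL_eq hX hY, mem_sdiff]
  refine ⟨sl_mem hX hY (isSide_side P n) hj, fun h => ?_⟩
  obtain ⟨n', h1, h2, j', hj', he⟩ := (mem_WL hX hY).1 h
  obtain ⟨g1, g2⟩ := sl_inj hX hY (isSide_side P n) (isSide_side P n') hj hj' he
  have := P.inj n (hn.trans P.hmN) n' h2 g1 g2
  omega

/-- the labels between two faces of the region are random -/
lemma inner_mem (hX : StrictMono X) (hY : StrictMono Y) {z : ℤ × ℤ} (h1 : fi z ∈ LF P.Q X Y)
    (h2 : fi (nxC z) ∈ LF P.Q X Y) : lab z ∈ EL P X Y := by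
  rw [EL_eq hX hY, mem_sdiff]
  refine ⟨lab_mem_EF.2 (Or.inl h1), fun h => ?_⟩
  obtain ⟨n, g1, g2, j, hj, he⟩ := (mem_WL hX hY).1 h
  have h3 := (lab_mem_lf (z := oc (sp X Y (P.side n) j) ((P.side n).2 + 1))
    (f := fi (oc (sp X Y (P.side n) j) ((P.side n).2 + 1)))).2 (Or.inl rfl)
  rw [lab_second, ← he, lab_mem_lf] at h3
  have h4 := face_out hX hY (isSide_side P n) hj
  rcases h3 with h3 | h3
  · rw [h3] at h4; exact h4 h1
  · rw [h3] at h4; exact h4 h2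

/-! ### The wired part of the boundary walk -/

lemma lab_first_notMem (hX : StrictMono X) (hY : StrictMono Y) {s : Cell × ℤ} (hs : IsSide Q s)
    {j : ℕ} (hj1 : 1 ≤ j) (hj : j < slen X Y s) : lab (oc (sp X Y s j) s.2) ∉ EF (LF Q X Y) := by
  have h1 := ((cell_side hX hY s (j := j)).1 hj).1
  have h1' := (cell_side hX hY s (j := j)).2 hj1 hj.le
  rw [lab_oc_mem hX hY, h1, h1']
  exact fun h => hs.2 (h.elim id id)

/-- Every corner of the wired part of the walk meets a wired label or a label outside. -/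
lemma stretch (hX : StrictMono X) (hY : StrictMono Y) {i : ℕ}
    (h1 : SS P.Q X Y P.s0 P.m ≤ i) (h2 : i < SS P.Q X Y P.s0 P.N) :
    lab ((nx (EF (LF P.Q X Y)))^[i] (sc X Y P.s0)) ∈ WL P X Y ∨
      lab ((nx (EF (LF P.Q X Y)))^[i] (sc X Y P.s0)) ∉ EF (LF P.Q X Y) := by
  -- the side
  have key : ∀ M : ℕ, P.m ≤ M → i < SS P.Q X Y P.s0 M →
      ∃ n, P.m ≤ n ∧ n < M ∧ SS P.Q X Y P.s0 n ≤ i ∧ i < SS P.Q X Y P.s0 (n + 1) := by
    intro M hM
    induction M, hM using Nat.le_induction with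
    | base => intro h; omega
    | succ M hM ih =>
      intro h
      by_cases h3 : i < SS P.Q X Y P.s0 M
      · obtain ⟨n, g1, g2, g3⟩ := ih h3
        exact ⟨n, g1, by omega, g3⟩
      · exact ⟨M, hM, by omega, by omega, h⟩
  obtain ⟨n, hn1, hn2, h3, h4⟩ := key P.N P.hmN.le h2
  have hs := isSide_side P n
  have hps : P.side n = (nextSide P.Q)^[n] P.s0 := rfl
  rw [SS_succ, ← hps] at h4
  have hp := slen_pos hX hY (P.side n)
  have ht := tn_cast (Q := P.Q) (P.side n)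
  unfold H5.Q1.stp at h4
  by_cases h5 : i - SS P.Q X Y P.s0 n < 2 * slen X Y (P.side n)
  · by_cases h6 : (i - SS P.Q X Y P.s0 n) % 2 = 0
    · left
      have h7 := (walk_second hX hY P.side0 n
        (j := (i - SS P.Q X Y P.s0 n) / 2) (by rw [← hps]; omega)).1
      rw [← hps] at h7
      have e : SS P.Q X Y P.s0 n + 2 * ((i - SS P.Q X Y P.s0 n) / 2) = i := by omega
      rw [e] at h7
      rw [h7, lab_second, mem_WL hX hY]
      exact ⟨n, hn1, hn2, _, by omega, rfl⟩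
    · right
      have h7 := (walk_first hX hY P.side0 n
        (j := (i - SS P.Q X Y P.s0 n) / 2) (by rw [← hps]; omega)).1
      rw [← hps] at h7
      have e : SS P.Q X Y P.s0 n + (2 * ((i - SS P.Q X Y P.s0 n) / 2) + 1) = i := by omega
      rw [e] at h7
      rw [h7]
      by_cases h8 : (i - SS P.Q X Y P.s0 n) / 2 + 1 < slen X Y (P.side n)
      · exact lab_first_notMem hX hY hs (by omega) h8
      · have h9 : (i - SS P.Q X Y P.s0 n) / 2 + 1 = slen X Y (P.side n) := by omega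
        rw [h9, sp_len hX hY]
        have ha : (P.side n).1 + dir (P.side n).2 + dir ((P.side n).2 - 1) ∉ P.Q := by
          intro ha
          have e : nextSide P.Q (P.side n) =
              ((P.side n).1 + dir (P.side n).2 + dir ((P.side n).2 - 1), (P.side n).2 - 1) := by
            unfold nextSide; rw [if_pos ha]
          rw [e] at ht
          simp only at ht
          omega
        have h0 := (cell_side hX hY (P.side n) (j := slen X Y (P.side n))).2 hp le_rfl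
        rw [sp_len hX hY] at h0
        rw [lab_oc_mem hX hY, h0, (cell_head hX hY (P.side n)).1]
        exact fun h => h.elim hs.2 ha
  · right
    rcases nextSide_snd (Q := P.Q) (P.side n) with h6 | h6 | h6
    · omega
    · omega
    · have h7 := (walk_middle hX hY P.side0 n (by rw [← hps]; exact h6)).1
      rw [← hps] at h7
      have e : SS P.Q X Y P.s0 n + 2 * slen X Y (P.side n) = i := by omega
      rw [e] at h7
      rw [h7]
      have hb : (P.side n).1 + dir (P.side n).2 + dir ((P.side n).2 - 1) ∉ P.Q ∧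
          (P.side n).1 + dir (P.side n).2 ∉ P.Q := by
        unfold nextSide at h6
        split_ifs at h6 with g1 g2
        · simp only at h6; omega
        · simp only at h6; omega
        · exact ⟨g1, g2⟩
      obtain ⟨c1, c2⟩ := cell_head hX hY (P.side n)
      rw [lab_oc_mem hX hY, c1, add_assoc (P.side n).2, one_add_one_eq_two, c2]
      exact fun h => h.elim hb.1 hb.2

lemma SS_pos (hX : StrictMono X) (hY : StrictMono Y) {n : ℕ} (hn : 0 < n) :
    0 < SS P.Q X Y P.s0 n := by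
  have h1 := SS_mono (Q := P.Q) (X := X) (Y := Y) P.s0 (show 1 ≤ n from hn)
  have h2 := SS_succ (Q := P.Q) (X := X) (Y := Y) P.s0 0
  have h3 := stp_pos (Q := P.Q) hX hY ((nextSide P.Q)^[0] P.s0)
  rw [zero_add] at h2
  omega

lemma orb_walk (hX : StrictMono X) (hY : StrictMono Y) (P : PType) :
    Orb (nx (EF (LF P.Q X Y))) (sc X Y P.s0) (SS P.Q X Y P.s0 P.N) :=
  orb_SS P.good hX hY P.side0 P.period

/-- the label before the root corner is not random -/
lemma root_plab (hX : StrictMono X) (hY : StrictMono Y) : plab (sc X Y P.s0) ∉ EL P X Y := by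
  have hO := orb_walk hX hY P
  have hm := SS_mono (Q := P.Q) (X := X) (Y := Y) P.s0 (show P.m ≤ P.N - 1 by have := P.hmN; omega)
  have hN := SS_succ (Q := P.Q) (X := X) (Y := Y) P.s0 (P.N - 1)
  have hs := stp_pos (Q := P.Q) hX hY ((nextSide P.Q)^[P.N - 1] P.s0)
  have e : P.N - 1 + 1 = P.N := by have := P.hmN; omega
  rw [e] at hN
  have h1 := stretch (P := P) hX hY (i := SS P.Q X Y P.s0 P.N - 1) (by omega) (by omega)
  have h2 : nx (EF (LF P.Q X Y)) ((nx (EF (LF P.Q X Y)))^[SS P.Q X Y P.s0 P.N - 1] (sc X Y P.s0)) =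
      sc X Y P.s0 := by
    rw [← Function.iterate_succ_apply' (nx _), Nat.succ_eq_add_one, Nat.sub_add_cancel hO.pos]
    exact hO.per
  have h3 := Pool.Agent.H75.TwoArm.plab_nx (EF (LF P.Q X Y))
    ((nx (EF (LF P.Q X Y)))^[SS P.Q X Y P.s0 P.N - 1] (sc X Y P.s0))
  rw [h2] at h3
  rw [h3, EL_eq hX hY, mem_sdiff]
  rintro ⟨h4, h5⟩
  rcases h1 with h1 | h1
  · exact h5 h1
  · exact h1 h4

end Pool.Agent.Q1.Dob
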