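import Mathlib
import Pool.Agent.Q1.M4.DobG
import Pool.Agent.Q1.Closed

set_option autoImplicit false
open Finset

/-! Module M4, [D]: the environment `dob P hX hY` of the lattice domain of a type (random labels
`EL P X Y`, wired labels `WL P X Y`, root corner `sc X Y P.s0`), its increments at the boundary corners,
the global primitive and its increments along the sides. -/

namespace Pool.Agent.Q1.Dob

open Pool.Agent.H75.Perc hiding WL CT hh
open Pool.Agent.H75.TwoArm Pool.Agent.H5.Q1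
open Pool.Agent.H69.Q1 (exists_orb_nx inOrb_symm inOrb_trans inOrb_of_co co_orb du_anti)
open Pool.Agent.Q1.M4 (Cell Good IsSide nextSide tail head PType FQ mem_FQ RC head_eq_tail_next
  Tot inner_index dir_inj)
open Pool.Agent.Q1.M5 (sL sV WL EL TV CT hh)
open Pool.Agent.H49.Q1 (gs gcell mem_gs CJ onCell)
open Pool.Agent.H75.Four (eu ev)

variable {P : PType} {X Y : ℤ → ℤ}

/-! ### The environment -/

lemma fi_sc (P : PType) (hX : StrictMono X) (hY : StrictMono Y) :
    fi (sc X Y P.s0) ∉ LF P.Q X Y := by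
  have h := (out_grid_iff P.good hX hY).1 (out_sc P.good hX hY P.side0)
  rw [mem_LF_iff hX hY]; exact h.2

lemma dco_out (P : PType) (hX : StrictMono X) (hY : StrictMono Y) {f g : ℤ × ℤ}
    (hf : f ∉ LF P.Q X Y) (hg : g ∉ LF P.Q X Y) : DCo (EF (LF P.Q X Y)) f g := by
  have h2 : M4.Conn4 ((LF P.Q X Y : Set (ℤ × ℤ))ᶜ) := by
    rw [coe_LF_compl hX hY]; exact conn4_FS hX hY P.good.conn_compl
  exact (dual_faces hf (h2 f hf g hg)).2

lemma exists_low (P : PType) (hX : StrictMono X) (hY : StrictMono Y) : ∃ g : ℤ × ℤ,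
    DCo (EF (LF P.Q X Y)) (fi (sc X Y P.s0)) g ∧
    ∀ v, Co (EF (LF P.Q X Y)) (vx (sc X Y P.s0)) v → g.2 < v.2 := by
  classical
  set D := EF (LF P.Q X Y) with hD
  set A : Finset (ℤ × ℤ) := insert (vx (sc X Y P.s0)) (D.image eu ∪ D.image ev) with hA
  obtain ⟨M, hM⟩ := (A.image (fun v => - v.2) ∪ (LF P.Q X Y).image (fun v => - v.2)).exists_le
  refine ⟨(0, - M - 1), dco_out P hX hY (fi_sc P hX hY) ?_, ?_⟩
  · intro h
    have := hM _ (mem_union_right _ (mem_image.2 ⟨_, h, rfl⟩))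
    simp only at this
    omega
  · intro v hv
    have hvA : v ∈ A := by
      rcases Relation.ReflTransGen.cases_tail hv with h | ⟨u, -, h⟩
      · rw [h]; exact mem_insert_self _ _
      · rw [hA, mem_insert, mem_union, mem_image, mem_image]
        rcases H69.Q1.ends_of_add h.1 rfl with h1 | h1
        · exact Or.inr (Or.inr ⟨_, h.2, h1.2.symm⟩)
        · exact Or.inr (Or.inl ⟨_, h.2, h1.2.symm⟩)
    have := hM _ (mem_union_left _ (mem_image.2 ⟨_, hvA, rfl⟩))
    show - M - 1 < v.2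
    omega

/-- **The environment of the lattice domain of a type.** -/
noncomputable def dob (P : PType) {X Y : ℤ → ℤ} (hX : StrictMono X) (hY : StrictMono Y) : Env :=
  Env.plane (EL P X Y) (WL P X Y) (sc X Y P.s0) (P.s0.2 + 1) (exists_low P hX hY).choose
    (EL_odd hX hY) EL_disj (by unfold sc; rw [ty_oc]) (root_plab hX hY)
    (by rw [EL_union hX hY]; exact (exists_low P hX hY).choose_spec.1)
    (by rw [EL_union hX hY]; exact (exists_low P hX hY).choose_spec.2)

variable {hX : StrictMono X} {hY : StrictMono Y}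

@[simp] lemma dob_E : (dob P hX hY).E = EL P X Y := rfl
@[simp] lemma dob_c0 : (dob P hX hY).c0 = sc X Y P.s0 := rfl
@[simp] lemma dob_k0 : (dob P hX hY).k0 = P.s0.2 + 1 := rfl
@[simp] lemma dob_T : (dob P hX hY).T = 4 := rfl

lemma dob_z {ω : Finset (ℤ × ℤ)} (hω : ω ⊆ EL P X Y) (i : ℕ) :
    (dob P hX hY).z ω i = (nx (ω ∪ WL P X Y))^[i] (sc X Y P.s0) := plane_z hω i

lemma dob_K {ω : Finset (ℤ × ℤ)} (hω : ω ⊆ EL P X Y) (i : ℕ) :
    (dob P hX hY).K ω i =
      KK (nx (ω ∪ WL P X Y)) (del (ω ∪ WL P X Y)) (sc X Y P.s0) (P.s0.2 + 1) i :=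
  plane_K hω i

lemma dob_orb {ω : Finset (ℤ × ℤ)} (hω : ω ⊆ EL P X Y) :
    Orb (nx (ω ∪ WL P X Y)) (sc X Y P.s0) ((dob P hX hY).len ω) := plane_orb hω

lemma sub_D (hX : StrictMono X) (hY : StrictMono Y) {ω : Finset (ℤ × ℤ)} (hω : ω ⊆ EL P X Y) :
    ω ∪ WL P X Y ⊆ EF (LF P.Q X Y) := by
  rw [← EL_union hX hY]
  exact union_subset_union_left hω

variable (P X Y) in
/-- the corner `z` is on the loop of the root -/
def On (z : ℤ × ℤ) (ω : Finset (ℤ × ℤ)) : Prop := InOrb (nx (ω ∪ WL P X Y)) (sc X Y P.s0) z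

lemma on_iff {ω : Finset (ℤ × ℤ)} (hω : ω ⊆ EL P X Y) (z : ℤ × ℤ) :
    On P X Y z ω ↔ ∃ i < (dob P hX hY).len ω, (dob P hX hY).z ω i = z := by
  unfold On
  rw [(dob_orb (hX := hX) (hY := hY) hω).inOrb_iff]
  simp only [dob_z hω]

/-- Increment at a corner with deterministic index. -/
lemma inc_const {z : ℤ × ℤ} {κ : ℤ} (h : ∀ ω ⊆ EL P X Y, ∀ i < (dob P hX hY).len ω,
    (dob P hX hY).z ω i = z → (dob P hX hY).K ω i = κ) :
    (dob P hX hY).inc z = ph κ * (Pr (EL P X Y) (On P X Y z) : ℂ) := by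
  classical
  have h1 : ∀ ω ∈ (EL P X Y).powerset, (dob P hX hY).incO ω z =
      if On P X Y z ω then ph κ else 0 := by
    intro ω hω
    rw [mem_powerset] at hω
    by_cases h2 : On P X Y z ω
    · rw [if_pos h2]
      obtain ⟨i, hi, hz⟩ := (on_iff (hX := hX) (hY := hY) hω z).1 h2
      rw [Env.incO_of (X := dob P hX hY) hω hi hz, h ω hω i hi hz]
    · rw [if_neg h2]
      apply Env.incO_zero
      intro i hi hz
      exact h2 ((on_iff (hX := hX) (hY := hY) hω z).2 ⟨i, hi, hz⟩)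
  unfold Env.inc
  rw [dob_E, Finset.sum_congr rfl h1, ← Finset.sum_filter, Finset.sum_const, Pr_eq, nsmul_eq_mul]
  push_cast
  rw [one_div, inv_pow]
  field_simp

/-! ### Outer corners -/

/-- vertices joined by wired labels along a side -/
lemma co_side (hX : StrictMono X) (hY : StrictMono Y) {n : ℕ} (h1 : P.m ≤ n) (h2 : n < P.N)
    {j : ℕ} (hj : j ≤ slen X Y (P.side n)) :
    Co (WL P X Y) (sp X Y (P.side n) j) (sp X Y (P.side n) (slen X Y (P.side n))) := by
  induction hj using Nat.decreasingInduction with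
  | self => exact Co.refl _ _
  | of_succ j hj ih =>
    refine Relation.ReflTransGen.head ⟨?_, ?_⟩ ih
    · rw [sp_succ, add_sub_cancel_left]; exact isUnit4_dir _
    · exact (mem_WL hX hY).2 ⟨n, h1, h2, j, hj, rfl⟩

lemma vx_sc (X Y : ℤ → ℤ) (s : Cell × ℤ) : vx (sc X Y s) = gp X Y (tail s) := by
  unfold sc; rw [vx_oc]

lemma tail_N (P : PType) : tail (P.side P.N) = tail P.s0 := by
  have : P.side P.N = (P.s0.1, P.s0.2 + 4) := P.period
  rw [this]
  unfold tail
  have : (P.s0.2 + 4) % 4 = P.s0.2 % 4 := by omega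
  simp only [this]

lemma co_tails (hX : StrictMono X) (hY : StrictMono Y) {n : ℕ} (h1 : P.m ≤ n) (h2 : n ≤ P.N) :
    Co (WL P X Y) (gp X Y (tail (P.side n))) (vx (sc X Y P.s0)) := by
  induction h2 using Nat.decreasingInduction with
  | self => rw [tail_N, vx_sc]; exact Co.refl _ _
  | of_succ n hn ih =>
    have h3 := co_side hX hY h1 hn (Nat.zero_le _)
    rw [sp_zero, sp_len hX hY, ← head_eq_tail_next (Q := P.Q), ← side_succ] at h3
    exact h3.trans (ih (by omega))

lemma TV_co (hX : StrictMono X) (hY : StrictMono Y) {u : ℤ × ℤ} (hu : TV P X Y u) :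
    Co (WL P X Y) u (vx (sc X Y P.s0)) := by
  obtain ⟨n, h1, h2, h3⟩ := hu
  obtain ⟨j, hj, rfl⟩ := (mem_sV hX hY).1 h3
  have h4 := co_side hX hY h1 h2 hj
  rw [sp_len hX hY, ← head_eq_tail_next (Q := P.Q), ← side_succ] at h4
  exact h4.trans (co_tails hX hY (by omega) h2)

lemma TV_root (hX : StrictMono X) (hY : StrictMono Y) : TV P X Y (vx (sc X Y P.s0)) := by
  have hN := P.hmN
  refine ⟨P.N - 1, by omega, by omega, (mem_sV hX hY).2 ⟨_, le_rfl, ?_⟩⟩
  rw [sp_len hX hY, ← head_eq_tail_next (Q := P.Q), ← side_succ,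
    show P.N - 1 + 1 = P.N by omega, tail_N, vx_sc]

lemma CT_iff (hX : StrictMono X) (hY : StrictMono Y) {v : ℤ × ℤ} {ω : Finset (ℤ × ℤ)} :
    CT P X Y v ω ↔ Co (ω ∪ WL P X Y) (vx (sc X Y P.s0)) v := by
  unfold CT CJ
  constructor
  · rintro ⟨u, hu, hc⟩
    exact ((TV_co hX hY hu).mono subset_union_right).symm.trans hc.symm
  · intro h
    exact ⟨_, TV_root hX hY, h.symm⟩

/-- an outer corner is on the loop iff its vertex is connected to the wired arc -/
lemma on_out (hX : StrictMono X) (hY : StrictMono Y) {z : ℤ × ℤ}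
    (hz : fi z ∉ LF P.Q X Y) {ω : Finset (ℤ × ℤ)} (hω : ω ⊆ EL P X Y) :
    On P X Y z ω ↔ CT P X Y (vx z) ω := by
  rw [CT_iff hX hY]
  constructor
  · rintro ⟨i, hi⟩
    rw [← hi]
    exact co_orb _ _ i
  · intro h
    obtain ⟨F, hF⟩ := (dco_out P hX hY (fi_sc P hX hY) hz).anti (sub_D hX hY hω)
    exact inOrb_of_co _ h hF

/-- **Increment at an outer corner.** -/
theorem inc_out {z : ℤ × ℤ} {κ : ℤ} {m' : ℕ}
    (hw : Wk (EF (LF P.Q X Y)) (sc X Y P.s0) (P.s0.2 + 1) m' z κ)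
    (hm' : m' < SS P.Q X Y P.s0 P.N) : (dob P hX hY).inc z = ph κ * (hh P X Y (vx z) : ℂ) := by
  have hf : fi z ∉ LF P.Q X Y := by
    rw [← hw.1]
    exact fi_outside (fi_sc P hX hY) m'
  rw [inc_const (κ := κ)]
  · unfold hh
    rw [Pr_congr (fun ω hω => on_out hX hY hf hω)]
  · intro ω hω i hi hz
    rw [dob_z hω] at hz
    rw [dob_K hω]
    exact index_walk P.good hX hY P.side0 P.period hw hm' (sub_D hX hY hω) (dob_orb hω) hi hz

/-- first outer corners of the free sides -/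
lemma inc_first {n : ℕ} (hn : n + 1 < P.N) {j : ℕ} (hj : j < slen X Y (P.side n)) :
    (dob P hX hY).inc (oc (sp X Y (P.side n) (j + 1)) (P.side n).2) =
      ph (P.side n).2 * (hh P X Y (sp X Y (P.side n) (j + 1)) : ℂ) := by
  have h := inc_out (hX := hX) (hY := hY) (walk_first hX hY P.side0 n hj) (by
    have h1 := SS_succ (Q := P.Q) (X := X) (Y := Y) P.s0 n
    have h3 := SS_succ (Q := P.Q) (X := X) (Y := Y) P.s0 (n + 1)
    have h4 := SS_mono (Q := P.Q) (X := X) (Y := Y) P.s0 (show n + 1 + 1 ≤ P.N by omega)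
    have h5 := stp_pos (Q := P.Q) hX hY ((nextSide P.Q)^[n + 1] P.s0)
    have hps : P.side n = (nextSide P.Q)^[n] P.s0 := rfl
    rw [← hps] at h1
    unfold H5.Q1.stp at h1
    omega)
  rw [vx_oc] at h
  exact h

/-- second outer corners of the sides -/
lemma inc_second {n : ℕ} (hn : n < P.N) {j : ℕ} (hj : j < slen X Y (P.side n)) :
    (dob P hX hY).inc (oc (sp X Y (P.side n) j) ((P.side n).2 + 1)) =
      ph ((P.side n).2 + 1) * (hh P X Y (sp X Y (P.side n) j) : ℂ) := by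
  have h := inc_out (hX := hX) (hY := hY) (walk_second hX hY P.side0 n hj) (by
    have h1 := SS_succ (Q := P.Q) (X := X) (Y := Y) P.s0 n
    have h4 := SS_mono (Q := P.Q) (X := X) (Y := Y) P.s0 (show n + 1 ≤ P.N by omega)
    have hps : P.side n = (nextSide P.Q)^[n] P.s0 := rfl
    rw [← hps] at h1
    unfold H5.Q1.stp at h1
    omega)
  rw [vx_oc] at h
  exact h

/-! ### Inner corners of the wired edges -/

lemma odd_D : ∀ e ∈ EF (LF P.Q X Y), (e.1 + e.2) % 2 = 1 := fun _ he => odd_EF he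

lemma tot_root (hX : StrictMono X) (hY : StrictMono Y) :
    Tot (EF (LF P.Q X Y)) (sc X Y P.s0) := fun _ hω _ hO k =>
  (domG_grid P.good hX hY).T4 hω (out_sc P.good hX hY P.side0) hO k

/-- the corners in front of the label `e` are the corners with next label `e` -/
lemma front {e p q : ℤ × ℤ} (hodd : (e.1 + e.2) % 2 = 1) (hp : lab p = e) (hq : lab q = e)
    (hpq : p ≠ q) : (p = in1 e ∧ q = in2 e) ∨ (p = in2 e ∧ q = in1 e) := by
  rcases (lab_eq_iff e p hodd).1 hp with h1 | h1 <;> rcases (lab_eq_iff e q hodd).1 hq with h2 | h2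
  · exact absurd (h1.trans h2.symm) hpq
  · exact Or.inl ⟨h1, h2⟩
  · exact Or.inr ⟨h1, h2⟩
  · exact absurd (h1.trans h2.symm) hpq

lemma sp_ne (X Y : ℤ → ℤ) (s : Cell × ℤ) (j : ℕ) : sp X Y s (j + 1) ≠ sp X Y s j := by
  rw [sp_succ]
  intro h
  have h1 : dir s.2 = 0 := by simpa using h
  rcases dir_cases s.2 with ⟨-, e⟩ | ⟨-, e⟩ | ⟨-, e⟩ | ⟨-, e⟩ <;> rw [e] at h1 <;> simp at h1

/-- The inner corner of a wired edge: increment. -/
theorem inc_inner {n : ℕ} (hn1 : P.m ≤ n) (hn : n < P.N) {j : ℕ}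
    (hj : j < slen X Y (P.side n)) :
    (dob P hX hY).inc (oc (sp X Y (P.side n) (j + 1)) ((P.side n).2 + 3)) =
      ph ((P.side n).2 - 1) *
        (Pr (EL P X Y) (On P X Y (oc (sp X Y (P.side n) (j + 1)) ((P.side n).2 + 3))) : ℂ) := by
  apply inc_const
  intro ω hω i hi hz
  rw [dob_z hω] at hz
  rw [dob_K hω]
  set D := EF (LF P.Q X Y) with hD
  set k := (P.side n).2 with hk
  have hw := walk_second hX hY P.side0 n hj
  have hps : P.side n = (nextSide P.Q)^[n] P.s0 := rfl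
  rw [← hps, ← hk] at hw
  have hlt : SS P.Q X Y P.s0 n + 2 * j < SS P.Q X Y P.s0 P.N := by
    have h1 := SS_succ (Q := P.Q) (X := X) (Y := Y) P.s0 n
    have h4 := SS_mono (Q := P.Q) (X := X) (Y := Y) P.s0 (show n + 1 ≤ P.N by omega)
    rw [← hps] at h1
    unfold H5.Q1.stp at h1
    omega
  have hpos : 0 < SS P.Q X Y P.s0 n + 2 * j := by
    have := SS_pos (P := P) hX hY (show 0 < n from lt_of_lt_of_le P.hm0 hn1)
    omega
  have hge : SS P.Q X Y P.s0 P.m ≤ SS P.Q X Y P.s0 n := SS_mono P.s0 hn1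
  have he : sl X Y (P.side n) j ∈ WL P X Y := (mem_WL hX hY).2 ⟨n, hn1, hn, j, hj, rfl⟩
  have hodd := odd_D _ (WL_sub hX hY he)
  have hne : oc (sp X Y (P.side n) (j + 1)) (k + 3) ≠ oc (sp X Y (P.side n) j) (k + 1) := by
    intro h
    exact sp_ne X Y _ _ (oc_inj h).1
  have hin : ¬ InOrb (nx D) (sc X Y P.s0) (oc (sp X Y (P.side n) (j + 1)) (k + 3)) := by
    rintro ⟨i', hi'⟩
    have h1 := fi_outside (fi_sc P hX hY) i'
    rw [← hD, hi', hk, fi_inner] at h1
    exact h1 (face_in hX hY (isSide_side P n) hj)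
  have h := inner_index (W := WL P X Y) odd_D (tot_root hX hY) subset_union_right
    (sub_D hX hY hω) (P.s0.2 + 1) (orb_walk hX hY P) (dob_orb (hX := hX) (hY := hY) hω) he hpos hlt
    (p := oc (sp X Y (P.side n) (j + 1)) (k + 3)) (by
      rw [hw.1]
      exact front hodd (by rw [hk, lab_inner]) (by rw [hk, lab_second]) hne) hin
    (fun i' h1 h2 => stretch hX hY (by omega) h2) hi hz
  rw [h, hw.2]
  ring

/-- A step along a wired label: the increment is multiplied by `ph (-1)`. -/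
lemma inc_step {p : ℤ × ℤ} (hp : lab p ∈ WL P X Y) (h0 : nxO p ≠ sc X Y P.s0) :
    (dob P hX hY).inc (nxO p) = ph (-1) * (dob P hX hY).inc p := by
  unfold Env.inc
  rw [mul_left_comm]
  congr 1
  rw [Finset.mul_sum]
  apply Finset.sum_congr rfl
  intro ω hω
  rw [mem_powerset, dob_E] at hω
  unfold Env.incO
  set Z := dob P hX hY with hZ
  set g : ℕ → ℂ := fun i => if Z.z ω i = nxO p then ph (Z.K ω i) else 0 with hg
  have g0 : g 0 = 0 := by
    rw [hg]; simp only
    rw [if_neg]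
    intro h; exact h0 h.symm
  have gL : g (Z.len ω) = 0 := by
    rw [hg]; simp only
    rw [if_neg]
    rw [Env.z_len (X := Z) hω]
    intro h; exact h0 h.symm
  have s1 := Finset.sum_range_succ g (Z.len ω)
  have s2 := Finset.sum_range_succ' g (Z.len ω)
  rw [gL, add_zero] at s1
  rw [g0, add_zero] at s2
  have hpn : nx (ω ∪ WL P X Y) p = nxO p := by
    unfold nx; rw [if_pos (mem_union_right _ hp)]
  have : ∑ i ∈ range (Z.len ω), g i = ∑ i ∈ range (Z.len ω), g (i + 1) := by rw [← s1, s2]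
  rw [this, Finset.mul_sum]
  apply Finset.sum_congr rfl
  intro i _
  rw [hg]
  simp only
  rw [hZ, dob_z hω, dob_z hω, dob_K hω, dob_K hω, Function.iterate_succ_apply', KK_succ]
  by_cases h : (nx (ω ∪ WL P X Y))^[i] (sc X Y P.s0) = p
  · rw [h, if_pos hpn, if_pos rfl]
    have : del (ω ∪ WL P X Y) p = -1 := by
      unfold del; rw [if_pos (mem_union_right _ hp)]
    rw [this, ph_add, mul_comm]
  · rw [if_neg h, if_neg, mul_zero]
    intro h1
    rw [← hpn] at h1
    exact h (nx_injective _ h1)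

/-! ### The global primitive -/

lemma mem_EL_of_faces (hX : StrictMono X) (hY : StrictMono Y) {e f g : ℤ × ℤ}
    (hf : f ∈ LF P.Q X Y) (hg : g ∈ LF P.Q X Y) (hfg : f ≠ g) (h1 : e ∈ lf f) (h2 : e ∈ lf g) :
    e ∈ EL P X Y := by
  have hodd : (e.1 + e.2) % 2 = 1 := odd_EF (mem_EF.2 ⟨f, hf, h1⟩)
  have h3 := lab_in1 e hodd
  rw [← h3, lab_mem_lf] at h1 h2
  rw [← h3]
  rcases h1 with h1 | h1 <;> rcases h2 with h2 | h2
  · exact absurd (h1.trans h2.symm) hfg
  · exact inner_mem hX hY (h1 ▸ hf) (h2 ▸ hg)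
  · exact inner_mem hX hY (h2 ▸ hg) (h1 ▸ hf)
  · exact absurd (h1.trans h2.symm) hfg

variable (P) in
/-- **Existence of the global primitive.** -/
theorem exists_H (hX : StrictMono X) (hY : StrictMono Y) : ∃ Hv Hf : ℤ × ℤ → ℂ,
    ∀ c, fi c ∈ LF P.Q X Y → Hv (vx c) - Hf (fi c) = (dob P hX hY).inc c := by
  have h := M4.Good.exists_global P.good hX hY (dob P hX hY).inc (by
    intro a b h1 h2
    rw [FQ_eq] at h1 h2
    apply Env.closed
    rw [dob_E]
    refine mem_EL_of_faces hX hY h1 h2 (by simp) ?_ ?_ <;> rw [mem_lf] <;> dsimp only <;> omega) (by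
    intro a b h1 h2
    rw [FQ_eq] at h1 h2
    apply Env.closed
    rw [dob_E]
    refine mem_EL_of_faces hX hY h1 h2 (by simp) ?_ ?_ <;> rw [mem_lf] <;> dsimp only <;> omega)
  rw [FQ_eq] at h
  exact h

section incr

variable {Hv Hf : ℤ × ℤ → ℂ}

/-- **Increment of the primitive along a free edge** (counterclockwise). -/
theorem free_inc (hH : ∀ c, fi c ∈ LF P.Q X Y → Hv (vx c) - Hf (fi c) = (dob P hX hY).inc c)
    {n : ℕ} (hn : n < P.m) {j : ℕ} (hj : j < slen X Y (P.side n)) :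
    Hv (sp X Y (P.side n) (j + 1)) - Hv (sp X Y (P.side n) j) =
      ph (P.side n).2 * (hh P X Y (sp X Y (P.side n) (j + 1)) : ℂ) -
        ph ((P.side n).2 + 1) * (hh P X Y (sp X Y (P.side n) j) : ℂ) := by
  have hN := P.hmN
  have hs := isSide_side P n
  rw [← inc_first (hX := hX) (hY := hY) (n := n) (by omega) hj,
    ← inc_second (hX := hX) (hY := hY) (n := n) (by omega) hj]
  have hf := face_in hX hY hs hj
  have h1 := hH (oc (sp X Y (P.side n) j) ((P.side n).2 + 2)) hf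
  have h2 := hH (oc (sp X Y (P.side n) (j + 1)) ((P.side n).2 + 3)) (by rw [fi_inner]; exact hf)
  rw [fi_inner, vx_oc] at h2
  rw [vx_oc] at h1
  have he : sl X Y (P.side n) j ∈ EL P X Y := free_mem hX hY hn hj
  have hodd := EL_odd hX hY _ he
  have hcl := Env.closed (X := dob P hX hY) he
  have hne : oc (sp X Y (P.side n) (j + 1)) ((P.side n).2 + 3) ≠
      oc (sp X Y (P.side n) j) ((P.side n).2 + 1) := fun h => sp_ne X Y _ _ (oc_inj h).1
  have e1 : nxC (oc (sp X Y (P.side n) (j + 1)) ((P.side n).2 + 3)) =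
      oc (sp X Y (P.side n) (j + 1)) (P.side n).2 := by
    rw [nxC_oc]; exact oc_congr _ (by omega)
  have e2 : nxC (oc (sp X Y (P.side n) j) ((P.side n).2 + 1)) =
      oc (sp X Y (P.side n) j) ((P.side n).2 + 2) := by
    rw [nxC_oc]; exact oc_congr _ (by omega)
  rcases front hodd (lab_inner X Y _ j) (lab_second X Y _ j) hne with ⟨g1, g2⟩ | ⟨g1, g2⟩
  · rw [← g1, ← g2, e1, e2] at hcl
    linear_combination h2 - h1 + hcl
  · rw [← g1, ← g2, e1, e2] at hcl
    linear_combination h2 - h1 + hcl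

/-- **Increment of the primitive along a wired edge** (counterclockwise). -/
theorem wired_inc (hH : ∀ c, fi c ∈ LF P.Q X Y → Hv (vx c) - Hf (fi c) = (dob P hX hY).inc c)
    {n : ℕ} (hn1 : P.m ≤ n) (hn : n < P.N) {j : ℕ} (hj : j < slen X Y (P.side n)) :
    Hv (sp X Y (P.side n) (j + 1)) - Hv (sp X Y (P.side n) j) = ph (P.side n).2 *
      (Pr (EL P X Y) (On P X Y (oc (sp X Y (P.side n) (j + 1)) ((P.side n).2 + 3))) : ℂ) := by
  have hs := isSide_side P n
  have hf := face_in hX hY hs hj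
  have h1 := hH (oc (sp X Y (P.side n) j) ((P.side n).2 + 2)) hf
  have h2 := hH (oc (sp X Y (P.side n) (j + 1)) ((P.side n).2 + 3)) (by rw [fi_inner]; exact hf)
  rw [fi_inner, vx_oc] at h2
  rw [vx_oc] at h1
  have he : sl X Y (P.side n) j ∈ WL P X Y := (mem_WL hX hY).2 ⟨n, hn1, hn, j, hj, rfl⟩
  have h3 := inc_step (P := P) (hX := hX) (hY := hY)
    (p := oc (sp X Y (P.side n) (j + 1)) ((P.side n).2 + 3)) (by rw [lab_inner]; exact he) (by
      intro h
      rw [nxO_inner] at h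
      have := fi_sc P hX hY
      rw [← h] at this
      exact this hf)
  rw [nxO_inner] at h3
  rw [h3] at h1
  rw [inc_inner hn1 hn hj] at h1 h2
  have e1 : ph (P.side n).2 = ph ((P.side n).2 - 1) * (1 - ph (-1)) := by
    have h4 := ph_rec ((P.side n).2 - 2)
    have h5 : ph (P.side n).2 = ph ((P.side n).2 - 1) - ph ((P.side n).2 - 2) := by
      rw [show (P.side n).2 - 2 + 2 = (P.side n).2 by ring,
        show (P.side n).2 - 2 + 1 = (P.side n).2 - 1 by ring] at h4
      exact h4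
    rw [mul_sub, mul_one, ← ph_add, h5]
    congr 2
    ring
  rw [e1]
  linear_combination h2 - h1

lemma sum_Ico_succ {l l' : ℕ} (h : l ≤ l') (f : ℕ → ℂ) :
    ∑ j ∈ Ico l (l' + 1), f j = ∑ j ∈ Ico l l', f j + f l' := Finset.sum_Ico_succ_top h f

/-- **Increments along a free side.** -/
theorem free_sum (hH : ∀ c, fi c ∈ LF P.Q X Y → Hv (vx c) - Hf (fi c) = (dob P hX hY).inc c)
    {n : ℕ} (hn : n < P.m) {l l' : ℕ} (h1 : l ≤ l') (h2 : l' ≤ slen X Y (P.side n)) :
    Hv (sp X Y (P.side n) l') - Hv (sp X Y (P.side n) l) =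
      ph ((P.side n).2 - 1) * (∑ j ∈ Ico l l', (hh P X Y (sp X Y (P.side n) j) : ℂ)) +
        ph (P.side n).2 * ((hh P X Y (sp X Y (P.side n) l') : ℂ) -
          (hh P X Y (sp X Y (P.side n) l) : ℂ)) := by
  induction l', h1 using Nat.le_induction with
  | base => simp
  | succ l' hl ih =>
    have h3 := free_inc hH hn (j := l') (by omega)
    have h4 := ih (by omega)
    have e : ph ((P.side n).2 - 1) = ph (P.side n).2 - ph ((P.side n).2 + 1) := by
      have h5 := ph_rec ((P.side n).2 - 1)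
      rw [show (P.side n).2 - 1 + 2 = (P.side n).2 + 1 by ring,
        show (P.side n).2 - 1 + 1 = (P.side n).2 by ring] at h5
      rw [h5]; ring
    rw [Finset.sum_Ico_succ_top hl]
    rw [e] at h4 ⊢
    linear_combination h3 + h4

/-- **Increments along a wired side.** -/
theorem wired_sum (hH : ∀ c, fi c ∈ LF P.Q X Y → Hv (vx c) - Hf (fi c) = (dob P hX hY).inc c)
    {n : ℕ} (hn1 : P.m ≤ n) (hn : n < P.N) {l l' : ℕ} (h1 : l ≤ l')
    (h2 : l' ≤ slen X Y (P.side n)) :
    Hv (sp X Y (P.side n) l') - Hv (sp X Y (P.side n) l) = ph (P.side n).2 *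
      ((∑ j ∈ Ico l l',
        Pr (EL P X Y) (On P X Y (oc (sp X Y (P.side n) (j + 1)) ((P.side n).2 + 3))) : ℝ) : ℂ) := by
  induction l', h1 using Nat.le_induction with
  | base => simp
  | succ l' hl ih =>
    have h3 := wired_inc hH hn1 hn (j := l') (by omega)
    have h4 := ih (by omega)
    rw [Finset.sum_Ico_succ_top hl]
    push_cast at h4 ⊢
    linear_combination h3 + h4

end incr

/-! ### Bounds -/

/-- The increment at a corner is at most the probability that the corner is on the loop. -/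
lemma inc_le (z : ℤ × ℤ) : ‖(dob P hX hY).inc z‖ ≤ Pr (EL P X Y) (On P X Y z) := by
  classical
  unfold Env.inc
  rw [norm_mul, norm_pow, dob_E]
  have h1 : ‖∑ ω ∈ (EL P X Y).powerset, (dob P hX hY).incO ω z‖ ≤
      (((EL P X Y).powerset.filter (On P X Y z)).card : ℝ) := by
    refine (norm_sum_le _ _).trans ?_
    rw [card_filter]
    push_cast
    apply Finset.sum_le_sum
    intro ω hω
    rw [mem_powerset] at hω
    by_cases h2 : On P X Y z ω
    · rw [if_pos h2]
      exact Env.incO_norm (X := dob P hX hY) hω z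
    · rw [if_neg h2, Env.incO_zero]
      · simp
      · intro i hi hz
        exact h2 ((on_iff (hX := hX) (hY := hY) hω z).2 ⟨i, hi, hz⟩)
  have h2 : ‖(1 / 2 : ℂ)‖ = 1 / 2 := by norm_num
  rw [h2, Pr_eq, one_div, inv_pow, inv_mul_eq_div]
  exact div_le_div_of_nonneg_right h1 (by positivity)

end Pool.Agent.Q1.Dob
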