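import Mathlib
import Pool.Agent.Q1.Freeze

set_option autoImplicit false
open Finset

/-! Module M4: conditioning on the coins outside a box. If the differences of the primitive are
bounded by `B` in every frozen environment, then they are bounded by `B` times the probability that
the path visits the box. -/

namespace Pool.Agent.Q1

open Pool.Agent.H75.Perc Pool.Agent.H75.TwoArm Pool.Agent.H99.NC

lemma inB_of_lab {a b c d : ℤ} {z : ℤ × ℤ} (h : lab z ∈ Bx a b c d) : inB a b c d (vx z) := by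
  rw [mem_Bx] at h
  unfold inB vx
  rcases ty_cases z with ⟨-, h1, h2, h3, -⟩ | ⟨-, h1, h2, h3, -⟩ | ⟨-, h1, h2, h3, -⟩ |
      ⟨-, h1, h2, h3, -⟩ <;> rw [h3] at h <;> simp only at h ⊢ <;> omega

/-- A function on a rectangle without horizontal and vertical increments is constant. -/
lemma const_on_rect {A : Type*} {Δ : ℤ × ℤ → A} {a b c d : ℤ}
    (hh : ∀ x y, a ≤ x → x + 1 ≤ b → c ≤ y → y ≤ d → Δ (x + 1, y) = Δ (x, y))
    (hv : ∀ x y, a ≤ x → x ≤ b → c ≤ y → y + 1 ≤ d → Δ (x, y + 1) = Δ (x, y)) {u v : ℤ × ℤ}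
    (hu : inB a b c d u) (hv' : inB a b c d v) : Δ u = Δ v := by
  have h1 : ∀ n : ℕ, ∀ y, c ≤ y → y ≤ d → a + n ≤ b → Δ (a + n, y) = Δ (a, y) := by
    intro n
    induction n with
    | zero => intro y _ _ _; simp
    | succ n ih =>
      intro y h1 h2 h3
      push_cast at h3 ⊢
      rw [← ih y h1 h2 (by omega), ← hh (a + n) y (by omega) (by omega) h1 h2]
      congr 2
      ring
  have h2 : ∀ n : ℕ, a ≤ b → c + n ≤ d → Δ (a, c + n) = Δ (a, c) := by
    intro n
    induction n with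
    | zero => intro _ _; simp
    | succ n ih =>
      intro h0 h3
      push_cast at h3 ⊢
      rw [← ih h0 (by omega), ← hv a (c + n) le_rfl h0 (by omega) (by omega)]
      congr 2
      ring
  have h3 : ∀ w : ℤ × ℤ, inB a b c d w → Δ w = Δ (a, c) := by
    rintro ⟨x, y⟩ ⟨⟨w1, w2⟩, w3, w4⟩
    simp only at w1 w2 w3 w4
    obtain ⟨n, hn⟩ := Int.eq_ofNat_of_zero_le (show 0 ≤ x - a by omega)
    obtain ⟨m, hm⟩ := Int.eq_ofNat_of_zero_le (show 0 ≤ y - c by omega)
    have e1 : x = a + n := by omega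
    have e2 : y = c + m := by omega
    rw [e1, h1 n y w3 w4 (by omega), e2, h2 m (by omega) (by omega)]
  rw [h3 u hu, h3 v hv']

namespace Env

/-- horizontal and vertical increments of the primitive -/
lemma Prim.hor {X : Env} {a b c d : ℤ} {Hv Hf : ℤ × ℤ → ℂ} (h : X.Prim a b c d Hv Hf) {x y : ℤ}
    (h1 : a ≤ x) (h2 : x + 1 ≤ b) (h3 : c ≤ y) (h4 : y ≤ d) :
    Hv (x + 1, y) - Hv (x, y) = X.inc (2 * x + 2, 2 * y) - X.inc (2 * x + 1, 2 * y) := by
  obtain ⟨e1, e2, e3, e4⟩ := corners_h x y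
  have he : ((2 * x + 1, 2 * y) : ℤ × ℤ) ∈ Bx a b c d := by rw [mem_Bx]; simp only; omega
  have k1 := h _ he (2 * x + 1, 2 * y) (Or.inl e1.symm)
  have k2 := h _ he (2 * x + 2, 2 * y) (Or.inr (Or.inr (Or.inr (by rw [e2, e4]))))
  have v1 : vx (2 * x + 1, 2 * y) = (x, y) ∧ fi (2 * x + 1, 2 * y) = (x + 1, y) := by
    unfold vx fi; constructor <;> ext <;> simp only <;> omega
  have v4 : vx (2 * x + 2, 2 * y) = (x + 1, y) ∧ fi (2 * x + 2, 2 * y) = (x + 1, y) := by
    unfold vx fi; constructor <;> ext <;> simp only <;> omega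
  rw [v1.1, v1.2] at k1
  rw [v4.1, v4.2] at k2
  linear_combination k2 - k1

lemma Prim.ver {X : Env} {a b c d : ℤ} {Hv Hf : ℤ × ℤ → ℂ} (h : X.Prim a b c d Hv Hf) {x y : ℤ}
    (h1 : a ≤ x) (h2 : x ≤ b) (h3 : c ≤ y) (h4 : y + 1 ≤ d) :
    Hv (x, y + 1) - Hv (x, y) = X.inc (2 * x, 2 * y + 2) - X.inc (2 * x, 2 * y + 1) := by
  obtain ⟨e1, e2, e3, e4⟩ := corners_v x y
  have he : ((2 * x, 2 * y + 1) : ℤ × ℤ) ∈ Bx a b c d := by rw [mem_Bx]; simp only; omega
  have k1 := h _ he (2 * x, 2 * y + 1) (Or.inr (Or.inr (Or.inr (by rw [e2, e4]))))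
  have k2 := h _ he (2 * x, 2 * y + 2) (Or.inl e1.symm)
  have v1 : vx (2 * x, 2 * y + 1) = (x, y) ∧ fi (2 * x, 2 * y + 1) = (x, y + 1) := by
    unfold vx fi; constructor <;> ext <;> simp only <;> omega
  have v2 : vx (2 * x, 2 * y + 2) = (x, y + 1) ∧ fi (2 * x, 2 * y + 2) = (x, y + 1) := by
    unfold vx fi; constructor <;> ext <;> simp only <;> omega
  rw [v1.1, v1.2] at k1
  rw [v2.1, v2.2] at k2
  linear_combination k2 - k1

/-- the path visits a vertex of the rectangle -/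
def Vst (X : Env) (a b c d : ℤ) (ω : Finset (ℤ × ℤ)) : Prop :=
  ∃ i < X.len ω, inB a b c d (vx (X.z ω i))

lemma not_Vst {X : Env} {a b c d : ℤ} {ω : Finset (ℤ × ℤ)} (hω : ω ⊆ X.E)
    (h : ¬ X.Vst a b c d ω) (i : ℕ) : ¬ inB a b c d (vx (X.z ω i)) := by
  intro hi
  apply h
  obtain ⟨j, hj, hij⟩ := ((orb hω).inOrb_iff (X.z ω i)).1 ⟨i, rfl⟩
  exact ⟨j, hj, by
    have : X.z ω j = X.z ω i := hij
    rw [this]; exact hi⟩

/-- if the path does not visit the box it does not depend on the coins of the box -/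
lemma z_eq_of_not {X : Env} {a b c d : ℤ} {ω ω' : Finset (ℤ × ℤ)} (hω : ω ⊆ X.E)
    (h : ¬ X.Vst a b c d ω) (hag : ∀ e, e ∉ Bx a b c d → (e ∈ ω' ↔ e ∈ ω)) (i : ℕ) :
    X.z ω' i = X.z ω i := by
  induction i with
  | zero => rfl
  | succ i ih =>
    rw [z_succ, z_succ, ih]
    have h1 : lab (X.z ω i) ∉ Bx a b c d := fun h2 => not_Vst hω h i (inB_of_lab h2)
    have hS := z_mem hω i
    by_cases hE : lab (X.z ω i) ∈ X.E
    · rw [f_in hE, f_in hE]
      unfold nx
      simp only [hag _ h1]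
    · rw [f_out hS hE, f_out hS hE]

lemma len_eq_of_not {X : Env} {a b c d : ℤ} {ω ω' : Finset (ℤ × ℤ)} (hω : ω ⊆ X.E)
    (hω' : ω' ⊆ X.E) (h : ¬ X.Vst a b c d ω)
    (hag : ∀ e, e ∉ Bx a b c d → (e ∈ ω' ↔ e ∈ ω)) : X.len ω' = X.len ω := by
  have hz := fun i => z_eq_of_not hω h hag i
  have hO := orb hω
  have hO' := orb hω'
  -- both are the minimal period
  have key : Orb (X.f ω) X.c0 (X.len ω') := by
    refine ⟨hO'.pos, ?_, ?_⟩
    · have h1 := hO'.per
      have h2 := hz (X.len ω')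
      unfold z at h2
      rw [← h2]; exact h1
    · intro i j hij hj
      have h1 := hO'.inj i j hij hj
      have h2 := hz i
      have h3 := hz j
      unfold z at h2 h3
      rw [← h2, ← h3]; exact h1
  exact key.unique hO

lemma Vst_iff {X : Env} {a b c d : ℤ} {ω ω' : Finset (ℤ × ℤ)} (hω : ω ⊆ X.E)
    (hω' : ω' ⊆ X.E) (hag : ∀ e, e ∉ Bx a b c d → (e ∈ ω' ↔ e ∈ ω)) :
    X.Vst a b c d ω' ↔ X.Vst a b c d ω := by
  have key : ∀ {ω ω' : Finset (ℤ × ℤ)}, ω ⊆ X.E → ω' ⊆ X.E →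
      (∀ e, e ∉ Bx a b c d → (e ∈ ω' ↔ e ∈ ω)) → ¬ X.Vst a b c d ω → ¬ X.Vst a b c d ω' := by
    intro ω ω' hω hω' hag h h'
    obtain ⟨i, hi, h1⟩ := h'
    rw [z_eq_of_not hω h hag] at h1
    exact not_Vst hω h i h1
  constructor
  · intro h
    by_contra h'
    exact key hω hω' hag h' h
  · intro h
    by_contra h'
    exact key hω' hω (fun e he => (hag e he).symm) h' h

/-- increments of the frozen environment vanish in the box if the box is not visited -/
lemma freeze_inc_zero {X : Env} {a b c d : ℤ} {ω1 : Finset (ℤ × ℤ)}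
    (hω1 : ω1 ⊆ X.E \ Bx a b c d) (h : ¬ X.Vst a b c d ω1) {z : ℤ × ℤ}
    (hz : inB a b c d (vx z)) : (X.freeze (Bx a b c d) ω1).inc z = 0 := by
  have hω1E : ω1 ⊆ X.E := hω1.trans sdiff_subset
  rw [inc_eq]
  rw [Ec_congr (G := fun _ => 0), Ec_const]
  intro ω' hω'
  rw [freeze_E] at hω'
  rw [freeze_incO hω']
  have hsub := freeze_sub X (ω1 := ω1) hω'
  have hag : ∀ e, e ∉ Bx a b c d →
      (e ∈ ω' ∪ ω1 ∩ (X.E \ Bx a b c d) ↔ e ∈ ω1) := by
    intro e he
    rw [mem_union, mem_inter, mem_sdiff]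
    constructor
    · rintro (h1 | h1)
      · exact absurd (mem_inter.1 (hω' h1)).2 he
      · exact h1.1
    · intro h1
      exact Or.inr ⟨h1, hω1E h1, he⟩
  apply incO_zero
  intro i _ hi
  rw [z_eq_of_not hω1E h hag] at hi
  exact not_Vst hω1E h i (by rw [hi]; exact hz)

/-- **Conditioning**: differences of the primitive in a box are bounded by the bound in the frozen
environments times the probability of a visit. -/
theorem diff_le_visit (X : Env) {a b c d : ℤ} (hE : Bx a b c d ⊆ X.E) {Hv Hf : ℤ × ℤ → ℂ}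
    (hP : X.Prim a b c d Hv Hf) {B : ℝ} {u v : ℤ × ℤ} (hu : inB a b c d u)
    (hv : inB a b c d v)
    (hfr : ∀ ω1 ⊆ X.E \ Bx a b c d, ∀ Hv' Hf', (X.freeze (Bx a b c d) ω1).Prim a b c d Hv' Hf' →
      ‖Hv' u - Hv' v‖ ≤ B) :
    ‖Hv u - Hv v‖ ≤ B * PrP (fun _ => 1 / 2) X.E (fun ω => X.Vst a b c d ω) := by
  classical
  have hexP : ∀ ω1, ∃ H : (ℤ × ℤ → ℂ) × (ℤ × ℤ → ℂ),
      (X.freeze (Bx a b c d) ω1).Prim a b c d H.1 H.2 := by
    intro ω1
    obtain ⟨Hv', Hf', h⟩ := (X.freeze (Bx a b c d) ω1).exists_prim (a := a) (b := b) (c := c)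
      (d := d) (by rw [freeze_E]; exact subset_inter hE (Subset.refl _))
    exact ⟨(Hv', Hf'), h⟩
  choose H hH using hexP
  set E1 := X.E \ Bx a b c d with hE1
  -- the difference is the average of the frozen differences
  have hconst : ∀ w w', inB a b c d w → inB a b c d w' →
      Hv w - Ec (fun _ => (1 / 2 : ℂ)) E1 (fun ω1 => (H ω1).1 w) =
      Hv w' - Ec (fun _ => (1 / 2 : ℂ)) E1 (fun ω1 => (H ω1).1 w') := by
    intro w w' hw hw'
    refine const_on_rect (Δ := fun w => Hv w - Ec (fun _ => (1 / 2 : ℂ)) E1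
      (fun ω1 => (H ω1).1 w)) ?_ ?_ hw hw'
    · intro x y h1 h2 h3 h4
      have k1 := hP.hor h1 h2 h3 h4
      have k2 : Ec (fun _ => (1 / 2 : ℂ)) E1 (fun ω1 => (H ω1).1 (x + 1, y)) -
          Ec (fun _ => (1 / 2 : ℂ)) E1 (fun ω1 => (H ω1).1 (x, y)) =
          X.inc (2 * x + 2, 2 * y) - X.inc (2 * x + 1, 2 * y) := by
        rw [← Ec_sub, X.inc_freeze (Bx a b c d), X.inc_freeze (Bx a b c d), ← Ec_sub]
        exact Ec_congr fun ω1 _ => (hH ω1).hor h1 h2 h3 h4
      linear_combination k1 - k2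
    · intro x y h1 h2 h3 h4
      have k1 := hP.ver h1 h2 h3 h4
      have k2 : Ec (fun _ => (1 / 2 : ℂ)) E1 (fun ω1 => (H ω1).1 (x, y + 1)) -
          Ec (fun _ => (1 / 2 : ℂ)) E1 (fun ω1 => (H ω1).1 (x, y)) =
          X.inc (2 * x, 2 * y + 2) - X.inc (2 * x, 2 * y + 1) := by
        rw [← Ec_sub, X.inc_freeze (Bx a b c d), X.inc_freeze (Bx a b c d), ← Ec_sub]
        exact Ec_congr fun ω1 _ => (hH ω1).ver h1 h2 h3 h4
      linear_combination k1 - k2
  have hdiff : Hv u - Hv v =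
      Ec (fun _ => (1 / 2 : ℂ)) E1 (fun ω1 => (H ω1).1 u - (H ω1).1 v) := by
    rw [Ec_sub]
    linear_combination hconst u v hu hv
  -- bound of the frozen differences
  have hb : ∀ ω1, ω1 ⊆ E1 → ‖(H ω1).1 u - (H ω1).1 v‖ ≤ B * ind (X.Vst a b c d ω1) := by
    intro ω1 hω1
    by_cases hV : X.Vst a b c d ω1
    · rw [ind_true hV, mul_one]
      exact hfr ω1 hω1 _ _ (hH ω1)
    · rw [ind_false hV, mul_zero]
      have : (H ω1).1 u = (H ω1).1 v := by
        refine const_on_rect ?_ ?_ hu hv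
        · intro x y h1 h2 h3 h4
          have := (hH ω1).hor h1 h2 h3 h4
          rw [freeze_inc_zero hω1 hV, freeze_inc_zero hω1 hV] at this
          · linear_combination this
          · unfold inB vx; simp only; omega
          · unfold inB vx; simp only; omega
        · intro x y h1 h2 h3 h4
          have := (hH ω1).ver h1 h2 h3 h4
          rw [freeze_inc_zero hω1 hV, freeze_inc_zero hω1 hV] at this
          · linear_combination this
          · unfold inB vx; simp only; omega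
          · unfold inB vx; simp only; omega
      rw [this]; simp
  rw [hdiff]
  refine (Ec_half_norm hb).trans ?_
  rw [Ex_smul]
  have hB0 : PrP (fun _ => (1 / 2 : ℝ)) E1 (fun ω => X.Vst a b c d ω) =
      PrP (fun _ => (1 / 2 : ℝ)) X.E (fun ω => X.Vst a b c d ω) := by
    refine (PrP_local sdiff_subset ?_).symm
    intro ω hω
    refine Vst_iff ?_ hω ?_
    · exact inter_subset_left.trans hω
    · intro e he
      rw [mem_inter, mem_sdiff]
      constructor
      · intro h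
        exact ⟨h, hω h, he⟩
      · exact fun h => h.1
  have : Ex (fun _ => (1 / 2 : ℝ)) E1 (fun ω => ind (X.Vst a b c d ω)) =
      PrP (fun _ => (1 / 2 : ℝ)) E1 (fun ω => X.Vst a b c d ω) := rfl
  rw [this, hB0]

end Env

end Pool.Agent.Q1
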