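import Mathlib

set_option autoImplicit false

/-! Module M4: a continuous function which satisfies the Cauchy-Riemann equation in the form
`h (z + ρ i u) - h z - i (h (z + ρ u) - h z) = o(ρ)`, locally uniformly, for ONE fixed direction `u`,
is holomorphic. -/

open MeasureTheory Set Filter Topology Function intervalIntegral

namespace Pool.Agent.Q1.M4

/-- Fubini for continuous functions on a rectangle. -/
lemma integral_swap_cont {g : ℝ → ℝ → ℂ} (hg : Continuous (uncurry g)) {a b c d : ℝ}
    (hab : a ≤ b) (hcd : c ≤ d) :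
    ∫ x in a..b, ∫ y in c..d, g x y = ∫ y in c..d, ∫ x in a..b, g x y := by
  have hint : Integrable (uncurry g)
      ((volume.restrict (Ioc a b)).prod (volume.restrict (Ioc c d))) := by
    rw [Measure.prod_restrict]
    have h1 : IntegrableOn (uncurry g) (Icc a b ×ˢ Icc c d) (volume.prod volume) := by
      have := hg.continuousOn.integrableOn_compact (μ := (volume : Measure (ℝ × ℝ)))
        ((isCompact_Icc (a := a) (b := b)).prod (isCompact_Icc (a := c) (b := d)))
      exact this
    exact h1.mono_set (prod_mono Ioc_subset_Icc_self Ioc_subset_Icc_self)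
  simp only [integral_of_le hab, integral_of_le hcd]
  exact MeasureTheory.integral_integral_swap hint

lemma continuous_inner {g : ℝ → ℝ → ℂ} (hg : Continuous (uncurry g)) (c d : ℝ) :
    Continuous fun x => ∫ y in c..d, g x y :=
  intervalIntegral.continuous_parametric_intervalIntegral_of_continuous' hg c d

/-- Derivative of a sliding integral. -/
lemma hasDerivAt_slide {P : ℝ → ℂ} (hP : Continuous P) (a b : ℝ) :
    HasDerivAt (fun t => ∫ x in (a + t)..(b + t), P x) (P b - P a) 0 := by
  have h1 : ∀ s, HasDerivAt (fun r => ∫ x in (0 : ℝ)..r, P x) (P s) s := fun s =>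
    intervalIntegral.integral_hasDerivAt_right (hP.intervalIntegrable _ _)
      (hP.stronglyMeasurableAtFilter _ _) hP.continuousAt
  have h2 : (fun t => ∫ x in (a + t)..(b + t), P x) =
      fun t => (∫ x in (0 : ℝ)..(b + t), P x) - ∫ x in (0 : ℝ)..(a + t), P x := by
    funext t
    rw [← intervalIntegral.integral_interval_sub_left (hP.intervalIntegrable _ _)
      (hP.intervalIntegrable _ _)]
  rw [h2]
  have h3 : HasDerivAt (fun t => ∫ x in (0 : ℝ)..(b + t), P x) (P b) 0 := by
    have := h1 (b + 0)
    rw [add_zero] at this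
    have h4 := HasDerivAt.comp_const_add (x := (0 : ℝ)) b (by simpa using this)
    exact h4
  have h4 : HasDerivAt (fun t => ∫ x in (0 : ℝ)..(a + t), P x) (P a) 0 := by
    have := h1 (a + 0)
    rw [add_zero] at this
    have h4 := HasDerivAt.comp_const_add (x := (0 : ℝ)) a (by simpa using this)
    exact h4
  exact h3.sub h4

/-- The rectangle integral of a continuous function with small CR defect vanishes. -/
theorem rect_zero {g : ℝ → ℝ → ℂ} (hg : Continuous (uncurry g)) {a b c d : ℝ}
    (hab : a ≤ b) (hcd : c ≤ d)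
    (hcr : ∀ ε > 0, ∃ t0 > 0, ∀ t, 0 < t → t < t0 → ∀ x ∈ Icc a b, ∀ y ∈ Icc c d,
      ‖g x (y + t) - g x y - Complex.I * (g (x + t) y - g x y)‖ ≤ ε * t) :
    (∫ x in a..b, g x d) - (∫ x in a..b, g x c) -
      Complex.I * ((∫ y in c..d, g b y) - ∫ y in c..d, g a y) = 0 := by
  have hg' : Continuous (uncurry fun y x => g x y) := by
    have : (uncurry fun y x => g x y) = uncurry g ∘ Prod.swap := by
      funext p; rfl
    rw [this]
    exact hg.comp continuous_swap
  set P : ℝ → ℂ := fun x => ∫ y in c..d, g x y with hP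
  set P2 : ℝ → ℂ := fun y => ∫ x in a..b, g x y with hP2
  have hPc : Continuous P := continuous_inner hg c d
  have hP2c : Continuous P2 := continuous_inner hg' a b
  set F : ℝ → ℂ := fun t => (∫ y in (c + t)..(d + t), P2 y) -
    Complex.I * ∫ x in (a + t)..(b + t), P x with hF
  have hFd : HasDerivAt F (P2 d - P2 c - Complex.I * (P b - P a)) 0 :=
    (hasDerivAt_slide hP2c c d).sub ((hasDerivAt_slide hPc a b).const_mul _)
  -- the bound
  have hbound : ∀ ε > 0, ∃ t0 > 0, ∀ t, 0 < t → t < t0 →
      ‖F t - F 0‖ ≤ ε * t * ((b - a) * (d - c)) := by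
    intro ε hε
    obtain ⟨t0, ht0, h⟩ := hcr ε hε
    refine ⟨t0, ht0, fun t h1 h2 => ?_⟩
    have e1 : ∫ y in (c + t)..(d + t), P2 y = ∫ x in a..b, ∫ y in c..d, g x (y + t) := by
      have h3 : ∫ y in c..d, P2 (y + t) = ∫ y in (c + t)..(d + t), P2 y :=
        intervalIntegral.integral_comp_add_right P2 t
      rw [← h3, hP2]
      have hgt : Continuous (uncurry fun x y => g x (y + t)) := by
        have : (uncurry fun x y => g x (y + t)) = uncurry g ∘ fun p : ℝ × ℝ => (p.1, p.2 + t) := by
          funext p; rfl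
        rw [this]
        exact hg.comp (by fun_prop)
      exact (integral_swap_cont hgt hab hcd).symm
    have e2 : ∫ x in (a + t)..(b + t), P x = ∫ x in a..b, ∫ y in c..d, g (x + t) y := by
      have h3 : ∫ x in a..b, P (x + t) = ∫ x in (a + t)..(b + t), P x :=
        intervalIntegral.integral_comp_add_right P t
      rw [← h3]
    have e3 : ∫ y in (c + 0)..(d + 0), P2 y = ∫ x in a..b, ∫ y in c..d, g x y := by
      rw [add_zero, add_zero, hP2]
      exact (integral_swap_cont hg hab hcd).symm
    have e4 : ∫ x in (a + 0)..(b + 0), P x = ∫ x in a..b, ∫ y in c..d, g x y := by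
      rw [add_zero, add_zero]
    have hgt : Continuous (uncurry fun x y => g x (y + t)) := by
      have : (uncurry fun x y => g x (y + t)) = uncurry g ∘ fun p : ℝ × ℝ => (p.1, p.2 + t) := by
        funext p; rfl
      rw [this]
      exact hg.comp (by fun_prop)
    have hgs : Continuous (uncurry fun x y => g (x + t) y) := by
      have : (uncurry fun x y => g (x + t) y) = uncurry g ∘ fun p : ℝ × ℝ => (p.1 + t, p.2) := by
        funext p; rfl
      rw [this]
      exact hg.comp (by fun_prop)
    have hx : ∀ {k : ℝ → ℝ → ℂ}, Continuous (uncurry k) → ∀ x, Continuous (k x) := by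
      intro k hk x
      have : k x = uncurry k ∘ fun y => (x, y) := by funext y; rfl
      rw [this]
      exact hk.comp (by fun_prop)
    have e5 : F t - F 0 = ∫ x in a..b, ∫ y in c..d,
        (g x (y + t) - g x y - Complex.I * (g (x + t) y - g x y)) := by
      have inner : ∀ x, ∫ y in c..d, (g x (y + t) - g x y - Complex.I * (g (x + t) y - g x y)) =
          (∫ y in c..d, g x (y + t)) - (∫ y in c..d, g x y) -
            Complex.I * ((∫ y in c..d, g (x + t) y) - ∫ y in c..d, g x y) := by
        intro x
        rw [intervalIntegral.integral_sub, intervalIntegral.integral_sub,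
          intervalIntegral.integral_const_mul, intervalIntegral.integral_sub]
        all_goals
          apply Continuous.intervalIntegrable
          have k1 := hx hgt x
          have k2 := hx hg x
          have k3 := hx hgs x
          fun_prop
      simp only [inner]
      have c1 := continuous_inner hgt c d
      have c2 := continuous_inner hg c d
      have c3 := continuous_inner hgs c d
      rw [intervalIntegral.integral_sub, intervalIntegral.integral_sub,
        intervalIntegral.integral_const_mul, intervalIntegral.integral_sub]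
      · simp only [hF, e1, e2, e3, e4]
        ring
      all_goals
        apply Continuous.intervalIntegrable
        fun_prop
    rw [e5]
    have h6 : ∀ x ∈ uIoc a b, ‖∫ y in c..d,
        (g x (y + t) - g x y - Complex.I * (g (x + t) y - g x y))‖ ≤ ε * t * (d - c) := by
      intro x hx'
      rw [uIoc_of_le hab] at hx'
      have h7 := intervalIntegral.norm_integral_le_of_norm_le_const (a := c) (b := d)
        (f := fun y => g x (y + t) - g x y - Complex.I * (g (x + t) y - g x y)) (C := ε * t) (by
          intro y hy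
          rw [uIoc_of_le hcd] at hy
          exact h t h1 h2 x ⟨hx'.1.le, hx'.2⟩ y ⟨hy.1.le, hy.2⟩)
      rwa [abs_of_nonneg (by linarith)] at h7
    have h8 := intervalIntegral.norm_integral_le_of_norm_le_const h6
    rw [abs_of_nonneg (by linarith : (0 : ℝ) ≤ b - a)] at h8
    linarith
  -- conclusion
  have hD : ∀ ε > 0, ‖P2 d - P2 c - Complex.I * (P b - P a)‖ ≤ ε * ((b - a) * (d - c)) := by
    intro ε hε
    obtain ⟨t0, ht0, h⟩ := hbound ε hε
    have h1 : Tendsto (fun t => t⁻¹ • (F (0 + t) - F 0)) (𝓝[≠] 0)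
        (𝓝 (P2 d - P2 c - Complex.I * (P b - P a))) := hasDerivAt_iff_tendsto_slope_zero.1 hFd
    have h2 : Tendsto (fun t => t⁻¹ • (F (0 + t) - F 0)) (𝓝[>] 0)
        (𝓝 (P2 d - P2 c - Complex.I * (P b - P a))) :=
      h1.mono_left (nhdsWithin_mono _ fun t ht => ne_of_gt ht)
    refine le_of_tendsto h2.norm ?_
    filter_upwards [Ioo_mem_nhdsGT ht0] with t ht
    have h3 := h t ht.1 ht.2
    rw [norm_smul, zero_add, norm_inv, Real.norm_eq_abs, abs_of_pos ht.1]
    rw [inv_mul_le_iff₀ ht.1]
    linarith
  have hzero : P2 d - P2 c - Complex.I * (P b - P a) = 0 := by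
    rw [← norm_le_zero_iff]
    by_contra hcon
    push Not at hcon
    have hA : 0 ≤ (b - a) * (d - c) := mul_nonneg (by linarith) (by linarith)
    have h1 := hD (‖P2 d - P2 c - Complex.I * (P b - P a)‖ / (2 * ((b - a) * (d - c) + 1)))
      (by positivity)
    set N := ‖P2 d - P2 c - Complex.I * (P b - P a)‖
    set A := (b - a) * (d - c)
    have h2 : N / (2 * (A + 1)) * A ≤ N / 2 := by
      rw [div_mul_eq_mul_div, div_le_div_iff₀ (by positivity) (by norm_num)]
      nlinarith
    linarith
  exact hzero

/-- Rectangle integral, sides `a ≤ b`, `c ≤ d`, for a function continuous on an open set. -/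
lemma rect_zero_on {Ω : Set ℂ} (hΩ : IsOpen Ω) {f : ℂ → ℂ} (hf : ContinuousOn f Ω)
    (hcr : ∀ K ⊆ Ω, IsCompact K → ∀ ε > 0, ∃ t0 > 0, ∀ t : ℝ, 0 < t → t < t0 → ∀ z ∈ K,
      ‖f (z + t * Complex.I) - f z - Complex.I * (f (z + t) - f z)‖ ≤ ε * t)
    {a b c d : ℝ} (hab : a ≤ b) (hcd : c ≤ d) (hR : Icc a b ×ℂ Icc c d ⊆ Ω) :
    (∫ x in a..b, f (x + d * Complex.I)) - (∫ x in a..b, f (x + c * Complex.I)) -
      Complex.I * ((∫ y in c..d, f (b + y * Complex.I)) - ∫ y in c..d, f (a + y * Complex.I)) =
      0 := by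
  -- a slightly larger rectangle
  have hcomp : IsCompact (Icc a b ×ℂ Icc c d) := isCompact_Icc.reProdIm isCompact_Icc
  obtain ⟨s, hs, hsub⟩ := hcomp.exists_thickening_subset_open hΩ hR
  have hs2 : 0 < s / 2 := by linarith
  have hmem : ∀ x y : ℝ, x ∈ Icc a (b + s / 4) → y ∈ Icc c (d + s / 4) →
      ((x : ℂ) + y * Complex.I) ∈ Ω := by
    intro x y hx hy
    apply hsub
    rw [Metric.mem_thickening_iff]
    refine ⟨((min x b : ℝ) : ℂ) + (min y d : ℝ) * Complex.I, ?_, ?_⟩
    · rw [Complex.mem_reProdIm]
      constructor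
      · simp only [Complex.add_re, Complex.ofReal_re, Complex.mul_re, Complex.I_re, mul_zero,
          Complex.ofReal_im, Complex.I_im, mul_one, sub_self, add_zero]
        exact ⟨le_min hx.1 hab, min_le_right _ _⟩
      · simp only [Complex.add_im, Complex.ofReal_im, Complex.mul_im, Complex.ofReal_re,
          Complex.I_im, mul_one, Complex.I_re, mul_zero, add_zero, zero_add]
        exact ⟨le_min hy.1 hcd, min_le_right _ _⟩
    · rw [Complex.dist_eq]
      have h1 : (x : ℂ) + y * Complex.I - (((min x b : ℝ) : ℂ) + (min y d : ℝ) * Complex.I) =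
          ((x - min x b : ℝ) : ℂ) + ((y - min y d : ℝ) : ℂ) * Complex.I := by
        push_cast; ring
      rw [h1]
      have h2 : |x - min x b| ≤ s / 4 := by
        rcases le_total x b with h | h
        · rw [min_eq_left h]; simp; linarith
        · rw [min_eq_right h, abs_of_nonneg (by linarith)]; linarith [hx.2]
      have h3 : |y - min y d| ≤ s / 4 := by
        rcases le_total y d with h | h
        · rw [min_eq_left h]; simp; linarith
        · rw [min_eq_right h, abs_of_nonneg (by linarith)]; linarith [hy.2]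
      calc ‖((x - min x b : ℝ) : ℂ) + ((y - min y d : ℝ) : ℂ) * Complex.I‖
          ≤ ‖((x - min x b : ℝ) : ℂ)‖ + ‖((y - min y d : ℝ) : ℂ) * Complex.I‖ := norm_add_le _ _
        _ = |x - min x b| + |y - min y d| := by
            rw [norm_mul, Complex.norm_I, mul_one, Complex.norm_real, Complex.norm_real,
              Real.norm_eq_abs, Real.norm_eq_abs]
        _ < s := by linarith
  set cx : ℝ → ℝ := fun x => max a (min x (b + s / 4)) with hcx
  set cy : ℝ → ℝ := fun y => max c (min y (d + s / 4)) with hcy
  have hcxm : ∀ x, cx x ∈ Icc a (b + s / 4) := fun x =>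
    ⟨le_max_left _ _, max_le (by linarith) (min_le_right _ _)⟩
  have hcym : ∀ y, cy y ∈ Icc c (d + s / 4) := fun y =>
    ⟨le_max_left _ _, max_le (by linarith) (min_le_right _ _)⟩
  have hcxe : ∀ x ∈ Icc a (b + s / 4), cx x = x := by
    intro x hx
    simp only [hcx]
    rw [min_eq_left hx.2, max_eq_right hx.1]
  have hcye : ∀ y ∈ Icc c (d + s / 4), cy y = y := by
    intro y hy
    simp only [hcy]
    rw [min_eq_left hy.2, max_eq_right hy.1]
  set g : ℝ → ℝ → ℂ := fun x y => f (cx x + cy y * Complex.I) with hg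
  have hgc : Continuous (uncurry g) := by
    have h1 : (uncurry g) = f ∘ fun p : ℝ × ℝ => ((cx p.1 : ℂ) + cy p.2 * Complex.I) := by
      funext p; rfl
    rw [h1]
    refine hf.comp_continuous ?_ (fun p => hmem _ _ (hcxm _) (hcym _))
    have c1 : Continuous cx := by
      simp only [hcx]; fun_prop
    have c2 : Continuous cy := by
      simp only [hcy]; fun_prop
    exact (Complex.continuous_ofReal.comp (c1.comp continuous_fst)).add
      ((Complex.continuous_ofReal.comp (c2.comp continuous_snd)).mul_const _)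
  have hmain := rect_zero hgc hab hcd (by
    intro ε hε
    obtain ⟨t0, ht0, h⟩ := hcr _ hR hcomp ε hε
    refine ⟨min t0 (s / 4), lt_min ht0 (by linarith), ?_⟩
    intro t h1 h2 x hx y hy
    have h3 := h t h1 (h2.trans_le (min_le_left _ _)) (x + y * Complex.I) (by
      rw [Complex.mem_reProdIm]
      simp only [Complex.add_re, Complex.ofReal_re, Complex.mul_re, Complex.I_re, mul_zero,
          Complex.ofReal_im, Complex.I_im, mul_one, sub_self, add_zero, Complex.add_im,
          Complex.mul_im, zero_add]
      exact ⟨hx, hy⟩)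
    have h4 : t < s / 4 := h2.trans_le (min_le_right _ _)
    have e1 := hcxe x ⟨hx.1, by linarith [hx.2]⟩
    have e2 := hcye y ⟨hy.1, by linarith [hy.2]⟩
    have e3 := hcxe (x + t) ⟨by linarith [hx.1], by linarith [hx.2]⟩
    have e4 := hcye (y + t) ⟨by linarith [hy.1], by linarith [hy.2]⟩
    simp only [hg]
    rw [e1, e2, e3, e4]
    have e5 : (x : ℂ) + ((y + t : ℝ) : ℂ) * Complex.I = x + y * Complex.I + t * Complex.I := by
      push_cast; ring
    have e6 : ((x + t : ℝ) : ℂ) + (y : ℂ) * Complex.I = x + y * Complex.I + t := by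
      push_cast; ring
    rw [e5, e6]
    exact h3)
  have i1 : ∫ x in a..b, g x d = ∫ x in a..b, f (x + d * Complex.I) := by
    apply intervalIntegral.integral_congr
    intro x hx
    rw [uIcc_of_le hab] at hx
    simp only [hg]
    rw [hcxe x ⟨hx.1, by linarith [hx.2]⟩, hcye d ⟨hcd, by linarith⟩]
  have i2 : ∫ x in a..b, g x c = ∫ x in a..b, f (x + c * Complex.I) := by
    apply intervalIntegral.integral_congr
    intro x hx
    rw [uIcc_of_le hab] at hx
    simp only [hg]
    rw [hcxe x ⟨hx.1, by linarith [hx.2]⟩, hcye c ⟨le_rfl, by linarith⟩]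
  have i3 : ∫ y in c..d, g b y = ∫ y in c..d, f (b + y * Complex.I) := by
    apply intervalIntegral.integral_congr
    intro y hy
    rw [uIcc_of_le hcd] at hy
    simp only [hg]
    rw [hcxe b ⟨hab, by linarith⟩, hcye y ⟨hy.1, by linarith [hy.2]⟩]
  have i4 : ∫ y in c..d, g a y = ∫ y in c..d, f (a + y * Complex.I) := by
    apply intervalIntegral.integral_congr
    intro y hy
    rw [uIcc_of_le hcd] at hy
    simp only [hg]
    rw [hcxe a ⟨le_rfl, by linarith⟩, hcye y ⟨hy.1, by linarith [hy.2]⟩]
  rw [i1, i2, i3, i4] at hmain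
  exact hmain

/-- The case `u = 1`. -/
theorem differentiableOn_of_weak_one {Ω : Set ℂ} (hΩ : IsOpen Ω) {f : ℂ → ℂ}
    (hf : ContinuousOn f Ω)
    (hcr : ∀ K ⊆ Ω, IsCompact K → ∀ ε > 0, ∃ t0 > 0, ∀ t : ℝ, 0 < t → t < t0 → ∀ z ∈ K,
      ‖f (z + t * Complex.I) - f z - Complex.I * (f (z + t) - f z)‖ ≤ ε * t) :
    DifferentiableOn ℂ f Ω := by
  rw [← Complex.isConservativeOn_and_continuousOn_iff_isDifferentiableOn hΩ]
  refine ⟨?_, hf⟩
  intro z w hzw
  rw [← add_eq_zero_iff_eq_neg, Complex.wedgeIntegral_add_wedgeIntegral_eq]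
  simp only [smul_eq_mul]
  -- the rectangle integral for arbitrary orientation
  have key : ∀ a b c d : ℝ, uIcc a b ×ℂ uIcc c d ⊆ Ω →
      (∫ x in a..b, f (x + d * Complex.I)) - (∫ x in a..b, f (x + c * Complex.I)) -
      Complex.I * ((∫ y in c..d, f (b + y * Complex.I)) - ∫ y in c..d, f (a + y * Complex.I)) =
      0 := by
    intro a b c d hsub
    rcases le_total a b with hab | hab <;> rcases le_total c d with hcd | hcd
    · rw [uIcc_of_le hab, uIcc_of_le hcd] at hsub
      exact rect_zero_on hΩ hf hcr hab hcd hsub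
    · rw [uIcc_of_le hab, uIcc_of_ge hcd] at hsub
      have := rect_zero_on hΩ hf hcr hab hcd hsub
      rw [intervalIntegral.integral_symm d c, intervalIntegral.integral_symm d c]
      linear_combination -this
    · rw [uIcc_of_ge hab, uIcc_of_le hcd] at hsub
      have := rect_zero_on hΩ hf hcr hab hcd hsub
      rw [intervalIntegral.integral_symm b a, intervalIntegral.integral_symm b a]
      linear_combination -this
    · rw [uIcc_of_ge hab, uIcc_of_ge hcd] at hsub
      have := rect_zero_on hΩ hf hcr hab hcd hsub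
      rw [intervalIntegral.integral_symm b a, intervalIntegral.integral_symm b a,
        intervalIntegral.integral_symm d c, intervalIntegral.integral_symm d c]
      linear_combination this
  have h := key z.re w.re z.im w.im hzw
  linear_combination -h

/-- **Weak Cauchy-Riemann equation in one direction `u` implies holomorphy.** -/
theorem differentiableOn_of_weak {Ω : Set ℂ} (hΩ : IsOpen Ω) {f : ℂ → ℂ}
    (hf : ContinuousOn f Ω) {u : ℂ} (hu : u ≠ 0)
    (hcr : ∀ K ⊆ Ω, IsCompact K → ∀ ε > 0, ∃ t0 > 0, ∀ t : ℝ, 0 < t → t < t0 → ∀ z ∈ K,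
      ‖f (z + t * Complex.I * u) - f z - Complex.I * (f (z + t * u) - f z)‖ ≤ ε * t) :
    DifferentiableOn ℂ f Ω := by
  set m : ℂ → ℂ := fun z => u * z with hm
  have hmc : Continuous m := by simp only [hm]; fun_prop
  have hd : DifferentiableOn ℂ (f ∘ m) (m ⁻¹' Ω) := by
    refine differentiableOn_of_weak_one (hΩ.preimage hmc)
      (hf.comp hmc.continuousOn fun z hz => hz) ?_
    intro K hK hKc ε hε
    obtain ⟨t0, ht0, h⟩ := hcr (m '' K) (by rintro _ ⟨z, hz, rfl⟩; exact hK hz)
      (hKc.image hmc) ε hε
    refine ⟨t0, ht0, fun t h1 h2 z hz => ?_⟩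
    have h3 := h t h1 h2 (m z) (mem_image_of_mem m hz)
    simp only [Function.comp, hm] at h3 ⊢
    have e1 : u * (z + t * Complex.I) = u * z + t * Complex.I * u := by ring
    have e2 : u * (z + t) = u * z + t * u := by ring
    rw [e1, e2]
    exact h3
  have he : ∀ z, f z = (f ∘ m) (u⁻¹ * z) := by
    intro z
    simp only [Function.comp, hm]
    rw [mul_inv_cancel_left₀ hu]
  have h4 : f = (f ∘ m) ∘ fun z => u⁻¹ * z := by
    funext z; exact he z
  rw [h4]
  refine hd.comp (by fun_prop) ?_
  intro z hz
  simp only [mem_preimage, hm]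
  rwa [mul_inv_cancel_left₀ hu]

end Pool.Agent.Q1.M4
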