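import Mathlib
import Pool.Agent.Q1.M4.Data

set_option autoImplicit false
open Set Filter Topology

/-! Module M4, limit passage, part 1: lattice approximations of points, uniform bounds. -/

namespace Pool.Agent.Q1.M4

open Pool.Agent.H75.Perc (dir dir_cases)

lemma floor_div_tendsto {R : ℕ → ℝ} (hR : Tendsto R atTop atTop) (s : ℝ) :
    Tendsto (fun j => ((⌊R j * s⌋ : ℤ) : ℝ) / R j) atTop (𝓝 s) := by
  rw [Metric.tendsto_atTop]
  intro ε hε
  obtain ⟨N, hN⟩ := (hR.eventually_gt_atTop (max 1 (1 / ε))).exists_forall_of_atTop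
  refine ⟨N, fun j hj => ?_⟩
  have h := hN j hj
  rw [max_lt_iff] at h
  have hR0 : 0 < R j := by linarith [h.1]
  rw [Real.dist_eq]
  have e : ((⌊R j * s⌋ : ℤ) : ℝ) / R j - s = (((⌊R j * s⌋ : ℤ) : ℝ) - R j * s) / R j := by
    field_simp
  rw [e, abs_div, abs_of_pos hR0, div_lt_iff₀ hR0]
  have h1 := Int.floor_le (R j * s)
  have h2 := Int.lt_floor_add_one (R j * s)
  have h3 : |((⌊R j * s⌋ : ℤ) : ℝ) - R j * s| ≤ 1 := by
    rw [abs_le]; constructor <;> linarith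
  have h4 : 1 < ε * R j := by
    have := h.2
    rw [div_lt_iff₀ hε] at this
    linarith
  linarith

/-- Lattice approximation of a point of a grid interval. -/
lemma exists_lat1 {x : ℤ → ℝ} (hx : StrictMono x) {R : ℕ → ℝ} {X : ℕ → ℤ → ℤ}
    (hR : Tendsto R atTop atTop) (hX : ∀ i, Tendsto (fun j => (X j i : ℝ) / R j) atTop (𝓝 (x i)))
    {i : ℤ} {s : ℝ} (h1 : x i ≤ s) (h2 : s ≤ x (i + 1)) :
    ∃ m : ℕ → ℤ, (∀ᶠ j in atTop, X j i ≤ m j ∧ m j ≤ X j (i + 1)) ∧
      Tendsto (fun j => (m j : ℝ) / R j) atTop (𝓝 s) := by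
  refine ⟨fun j => max (X j i) (min ⌊R j * s⌋ (X j (i + 1))), ?_, ?_⟩
  · have hlt : x i < x (i + 1) := hx (by omega)
    have h3 := (hX i).eventually_lt (hX (i + 1)) hlt
    filter_upwards [h3, hR.eventually_gt_atTop 0] with j hj hRj
    have h4 : X j i < X j (i + 1) := by
      rw [div_lt_div_iff_of_pos_right hRj] at hj
      exact_mod_cast hj
    exact ⟨le_max_left _ _, max_le h4.le (min_le_right _ _)⟩
  · have h3 : Tendsto (fun j => max ((X j i : ℝ) / R j)
        (min (((⌊R j * s⌋ : ℤ) : ℝ) / R j) ((X j (i + 1) : ℝ) / R j))) atTop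
        (𝓝 (max (x i) (min s (x (i + 1))))) :=
      (hX i).max ((floor_div_tendsto hR s).min (hX (i + 1)))
    rw [min_eq_left h2, max_eq_right h1] at h3
    refine h3.congr' ?_
    filter_upwards [hR.eventually_gt_atTop 0] with j hRj
    rw [min_div_div_right hRj.le, max_div_div_right hRj.le]
    push_cast
    rfl

lemma lat_div_tendsto {R : ℕ → ℝ} {m n : ℕ → ℤ} {F : Filter ℕ} {z : ℂ}
    (h1 : Tendsto (fun j => (m j : ℝ) / R j) F (𝓝 z.re))
    (h2 : Tendsto (fun j => (n j : ℝ) / R j) F (𝓝 z.im)) :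
    Tendsto (fun j => lat (m j, n j) / (R j : ℂ)) F (𝓝 z) := by
  have h3 : Tendsto (fun j => (((m j : ℝ) / R j : ℝ) : ℂ) + (((n j : ℝ) / R j : ℝ) : ℂ) * Complex.I)
      F (𝓝 ((z.re : ℂ) + (z.im : ℂ) * Complex.I)) := by
    refine ((Complex.continuous_ofReal.tendsto _).comp h1).add ?_
    exact ((Complex.continuous_ofReal.tendsto _).comp h2).mul_const _
  rw [Complex.re_add_im] at h3
  refine h3.congr ?_
  intro j
  apply Complex.ext
  · simp [lat, Complex.div_ofReal_re]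
  · simp [lat, Complex.div_ofReal_im]

/-- Lattice approximation of a point of the region. -/
lemma exists_lat {x y : ℤ → ℝ} (hx : StrictMono x) (hy : StrictMono y) {R : ℕ → ℝ}
    {X Y : ℕ → ℤ → ℤ} (hA : Approx x y R X Y) {c : Cell} {z : ℂ} (hz : z ∈ rect x y c) :
    ∃ v : ℕ → ℤ × ℤ, (∀ᶠ j in atTop, inRect (X j) (Y j) c (v j)) ∧
      Tendsto (fun j => lat (v j) / (R j : ℂ)) atTop (𝓝 z) := by
  obtain ⟨m, hm1, hm2⟩ := exists_lat1 hx hA.R_top hA.X_lim hz.1.1 hz.1.2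
  obtain ⟨n, hn1, hn2⟩ := exists_lat1 hy hA.R_top hA.Y_lim hz.2.1 hz.2.2
  refine ⟨fun j => (m j, n j), ?_, lat_div_tendsto hm2 hn2⟩
  filter_upwards [hm1, hn1] with j h1 h2
  exact ⟨h1, h2⟩

lemma lat_sub (v w : ℤ × ℤ) : lat v - lat w = lat (v - w) := by
  apply Complex.ext <;> simp [lat]

lemma norm_lat_le (v : ℤ × ℤ) : ‖lat v‖ ≤ |(v.1 : ℝ)| + |(v.2 : ℝ)| :=
  Complex.norm_le_abs_re_add_abs_im _

/-- Floor division between `0` and `d`. -/
lemma ediv_between (d : ℤ) {l n : ℤ} (hl0 : 0 ≤ l) (hln : l ≤ n) (hn : 0 < n) :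
    min 0 d ≤ d * l / n ∧ d * l / n ≤ max 0 d := by
  constructor
  · rw [Int.le_ediv_iff_mul_le hn]
    rcases le_total 0 d with h | h
    · rw [min_eq_left h]; simp; positivity
    · rw [min_eq_right h]; nlinarith
  · rcases le_total 0 d with h | h
    · rw [max_eq_right h]
      apply Int.ediv_le_of_le_mul hn
      nlinarith
    · rw [max_eq_left h]
      apply Int.ediv_le_of_le_mul hn
      nlinarith

lemma ediv_step (d : ℤ) {l n : ℤ} (hn : 0 < n) :
    |((d * (l + 1) / n - d * l / n : ℤ) : ℝ)| ≤ |(d : ℝ)| / n + 1 := by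
  have hn' : (0 : ℝ) < n := by exact_mod_cast hn
  have h1 : d * l / n * n ≤ d * l := Int.ediv_mul_le _ hn.ne'
  have h2 : d * l < (d * l / n + 1) * n := Int.lt_ediv_add_one_mul_self _ hn
  have h3 : d * (l + 1) / n * n ≤ d * (l + 1) := Int.ediv_mul_le _ hn.ne'
  have h4 : d * (l + 1) < (d * (l + 1) / n + 1) * n := Int.lt_ediv_add_one_mul_self _ hn
  have h5 : -(|d| + n) ≤ (d * (l + 1) / n - d * l / n) * n := by
    have := neg_abs_le d
    nlinarith
  have h6 : (d * (l + 1) / n - d * l / n) * n ≤ |d| + n := by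
    have := le_abs_self d
    nlinarith
  have h7 : |((d * (l + 1) / n - d * l / n : ℤ) : ℝ)| * n ≤ |(d : ℝ)| + n := by
    have : |((d * (l + 1) / n - d * l / n) * n : ℤ)| ≤ |d| + n := abs_le.2 ⟨h5, h6⟩
    have h8 : |(((d * (l + 1) / n - d * l / n) * n : ℤ) : ℝ)| ≤ |(d : ℝ)| + n := by
      exact_mod_cast this
    push_cast at h8 ⊢
    rwa [abs_mul, abs_of_pos hn'] at h8
  rw [div_add_one hn'.ne', le_div_iff₀ hn']
  exact h7

end Pool.Agent.Q1.M4
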