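import Mathlib
import Pool.Agent.Q1.M4.Limit1

set_option autoImplicit false
open Set Filter Topology

/-! Module M4, limit passage, part 2: uniform bounds for the functions `H j`. -/

namespace Pool.Agent.Q1.M4

open Pool.Agent.H75.Perc (dir dir_cases)

variable {P : PType} {x y : ℤ → ℝ} {R : ℕ → ℝ} {X Y : ℕ → ℤ → ℤ} {H : ℕ → ℤ × ℤ → ℂ}

/-- Size of the lattice rectangles. -/
lemma Approx.size (hA : Approx x y R X Y) (c : Cell) : ∃ W > 0, ∀ᶠ j in atTop,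
    |((X j (c.1 + 1) : ℝ) - X j c.1)| + |((Y j (c.2 + 1) : ℝ) - Y j c.2)| ≤ W * R j := by
  refine ⟨(|x (c.1 + 1) - x c.1| + |y (c.2 + 1) - y c.2|) + 1, by positivity, ?_⟩
  have h1 : Tendsto (fun j => |(X j (c.1 + 1) : ℝ) / R j - (X j c.1 : ℝ) / R j| +
      |(Y j (c.2 + 1) : ℝ) / R j - (Y j c.2 : ℝ) / R j|) atTop
      (𝓝 (|x (c.1 + 1) - x c.1| + |y (c.2 + 1) - y c.2|)) :=
    (((hA.X_lim _).sub (hA.X_lim _)).abs).add (((hA.Y_lim _).sub (hA.Y_lim _)).abs)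
  have h2 := h1.eventually_lt_const (lt_add_one _)
  filter_upwards [h2, hA.R_top.eventually_gt_atTop 0] with j hj hR
  have e : (|(X j (c.1 + 1) : ℝ) - X j c.1| + |(Y j (c.2 + 1) : ℝ) - Y j c.2|) =
      (|(X j (c.1 + 1) : ℝ) / R j - (X j c.1 : ℝ) / R j| +
      |(Y j (c.2 + 1) : ℝ) / R j - (Y j c.2 : ℝ) / R j|) * R j := by
    rw [← sub_div, ← sub_div, abs_div, abs_div, abs_of_pos hR]
    field_simp
  rw [e]
  exact mul_le_mul_of_nonneg_right hj.le hR.le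

/-- The variation of `H j` on one lattice rectangle is bounded. -/
lemma DiscData.cell_bound (D : DiscData P x y R X Y H) {c : Cell} (hc : c ∈ P.Q) :
    ∃ B, ∀ᶠ j in atTop, ∀ v v', inRect (X j) (Y j) c v → inRect (X j) (Y j) c v' →
      ‖H j v - H j v'‖ ≤ B := by
  obtain ⟨C, hC, δ, hδ, hold⟩ := D.hold
  obtain ⟨W, hW, hsize⟩ := D.approx.size c
  obtain ⟨n, hn⟩ := exists_nat_gt (2 * W / δ)
  have hn0 : (0 : ℝ) < n := lt_trans (by positivity) hn
  have hn0' : (0 : ℤ) < (n : ℤ) := by exact_mod_cast hn0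
  refine ⟨n * (C * δ ^ (2 / 3 : ℝ)), ?_⟩
  filter_upwards [hold, hsize, D.approx.R_top.eventually_ge_atTop (4 / δ),
    D.approx.R_top.eventually_gt_atTop 0] with j hj hsj hRj hR0 v v' hv hv'
  set d1 := v'.1 - v.1 with hd1
  set d2 := v'.2 - v.2 with hd2
  set w : ℕ → ℤ × ℤ := fun l => (v.1 + d1 * (l : ℤ) / n, v.2 + d2 * (l : ℤ) / n) with hw
  have hin : ∀ l : ℕ, l ≤ n → inRect (X j) (Y j) c (w l) := by
    intro l hl
    have hl' : (l : ℤ) ≤ (n : ℤ) := by exact_mod_cast hl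
    obtain ⟨a1, a2⟩ := ediv_between d1 (by positivity : (0 : ℤ) ≤ (l : ℤ)) hl' hn0'
    obtain ⟨b1, b2⟩ := ediv_between d2 (by positivity : (0 : ℤ) ≤ (l : ℤ)) hl' hn0'
    obtain ⟨⟨p1, p2⟩, p3, p4⟩ := hv
    obtain ⟨⟨q1, q2⟩, q3, q4⟩ := hv'
    refine ⟨⟨?_, ?_⟩, ?_, ?_⟩ <;> simp only [hw]
    · rcases le_total 0 d1 with h | h
      · rw [min_eq_left h] at a1; omega
      · rw [min_eq_right h] at a1; omega
    · rcases le_total 0 d1 with h | h
      · rw [max_eq_right h] at a2; omega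
      · rw [max_eq_left h] at a2; omega
    · rcases le_total 0 d2 with h | h
      · rw [min_eq_left h] at b1; omega
      · rw [min_eq_right h] at b1; omega
    · rcases le_total 0 d2 with h | h
      · rw [max_eq_right h] at b2; omega
      · rw [max_eq_left h] at b2; omega
  have hd : |(d1 : ℝ)| + |(d2 : ℝ)| ≤ W * R j := by
    refine le_trans (add_le_add ?_ ?_) hsj
    · obtain ⟨⟨p1, p2⟩, p3, p4⟩ := hv
      obtain ⟨⟨q1, q2⟩, q3, q4⟩ := hv'
      have h1 : |d1| ≤ X j (c.1 + 1) - X j c.1 := by rw [abs_le]; constructor <;> omega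
      have h2 : (|d1| : ℝ) ≤ (X j (c.1 + 1) : ℝ) - X j c.1 := by exact_mod_cast h1
      exact h2.trans (le_abs_self _)
    · obtain ⟨⟨p1, p2⟩, p3, p4⟩ := hv
      obtain ⟨⟨q1, q2⟩, q3, q4⟩ := hv'
      have h1 : |d2| ≤ Y j (c.2 + 1) - Y j c.2 := by rw [abs_le]; constructor <;> omega
      have h2 : (|d2| : ℝ) ≤ (Y j (c.2 + 1) : ℝ) - Y j c.2 := by exact_mod_cast h1
      exact h2.trans (le_abs_self _)
  have hstep : ∀ l : ℕ, l < n → ‖H j (w l) - H j (w (l + 1))‖ ≤ C * δ ^ (2 / 3 : ℝ) := by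
    intro l hl
    have hsm : ‖lat (w l) - lat (w (l + 1))‖ ≤ δ * R j := by
      rw [norm_sub_rev, lat_sub]
      refine (norm_lat_le _).trans ?_
      have e1 : ((w (l + 1) - w l).1 : ℤ) = d1 * ((l : ℤ) + 1) / n - d1 * (l : ℤ) / n := by
        simp [hw]
      have e2 : ((w (l + 1) - w l).2 : ℤ) = d2 * ((l : ℤ) + 1) / n - d2 * (l : ℤ) / n := by
        simp [hw]
      rw [e1, e2]
      have s1 := ediv_step d1 (l := (l : ℤ)) hn0'
      have s2 := ediv_step d2 (l := (l : ℤ)) hn0'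
      have h3 : (|(d1 : ℝ)| + |(d2 : ℝ)|) / n ≤ δ / 2 * R j := by
        rw [div_le_iff₀ hn0]
        rw [div_lt_iff₀ hδ] at hn
        calc |(d1 : ℝ)| + |(d2 : ℝ)| ≤ W * R j := hd
          _ ≤ δ / 2 * R j * n := by nlinarith
      have h4 : 2 ≤ δ / 2 * R j := by
        rw [div_le_iff₀ hδ] at hRj
        linarith
      rw [add_div] at h3
      push_cast at s1 s2 h3 ⊢
      linarith
    refine (hj (w l) (w (l + 1)) ⟨c, hc, hin l hl.le⟩ ⟨c, hc, hin (l + 1) hl⟩ hsm).trans ?_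
    refine mul_le_mul_of_nonneg_left ?_ hC.le
    refine Real.rpow_le_rpow (by positivity) ?_ (by norm_num)
    rw [div_le_iff₀ hR0]
    exact hsm
  have hsum : ∀ l : ℕ, l ≤ n → ‖H j (w 0) - H j (w l)‖ ≤ l * (C * δ ^ (2 / 3 : ℝ)) := by
    intro l
    induction l with
    | zero => intro _; simp
    | succ l ih =>
      intro hl
      have h1 := ih (by omega)
      have h2 := hstep l (by omega)
      have h3 : H j (w 0) - H j (w (l + 1)) = (H j (w 0) - H j (w l)) + (H j (w l) - H j (w (l + 1))) := by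
        ring
      rw [h3]
      refine (norm_add_le _ _).trans ?_
      push_cast
      linarith
  have h0 : w 0 = v := by simp [hw]
  have hnn : w n = v' := by
    simp only [hw]
    rw [Int.mul_ediv_cancel _ hn0'.ne', Int.mul_ediv_cancel _ hn0'.ne']
    ext <;> simp [hd1, hd2]
  have := hsum n le_rfl
  rwa [h0, hnn] at this

/-- Lattice rectangles are nonempty and neighbours share a lattice point. -/
lemma Approx.le (hA : Approx x y R X Y) (hx : StrictMono x) (hy : StrictMono y) (i k : ℤ) :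
    ∀ᶠ j in atTop, X j i ≤ X j (i + 1) ∧ Y j k ≤ Y j (k + 1) := by
  have h3 := (hA.X_lim i).eventually_lt (hA.X_lim (i + 1)) (hx (by omega))
  have h4 := (hA.Y_lim k).eventually_lt (hA.Y_lim (k + 1)) (hy (by omega))
  filter_upwards [h3, h4, hA.R_top.eventually_gt_atTop 0] with j hj hj' hRj
  rw [div_lt_div_iff_of_pos_right hRj] at hj hj'
  have a : X j i < X j (i + 1) := by exact_mod_cast hj
  have b : Y j k < Y j (k + 1) := by exact_mod_cast hj'
  exact ⟨a.le, b.le⟩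

lemma Approx.common (hA : Approx x y R X Y) (hx : StrictMono x) (hy : StrictMono y) {c d : Cell}
    (h : Adj4 c d) : ∀ᶠ j in atTop, ∃ v, inRect (X j) (Y j) c v ∧ inRect (X j) (Y j) d v := by
  obtain ⟨k, rfl⟩ := h
  obtain ⟨a, b⟩ := c
  rcases dir_cases k with ⟨-, e⟩ | ⟨-, e⟩ | ⟨-, e⟩ | ⟨-, e⟩ <;> rw [e]
  · filter_upwards [hA.le hx hy a b, hA.le hx hy (a + 1) b] with j h1 h2
    exact ⟨(X j (a + 1), Y j b), ⟨⟨h1.1, le_rfl⟩, le_rfl, h1.2⟩, by
      simp only [inRect, Prod.mk_add_mk, add_zero]; exact ⟨⟨le_rfl, h2.1⟩, le_rfl, h1.2⟩⟩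
  · filter_upwards [hA.le hx hy a b, hA.le hx hy a (b + 1)] with j h1 h2
    exact ⟨(X j a, Y j (b + 1)), ⟨⟨le_rfl, h1.1⟩, h1.2, le_rfl⟩, by
      simp only [inRect, Prod.mk_add_mk, add_zero]; exact ⟨⟨le_rfl, h1.1⟩, le_rfl, h2.2⟩⟩
  · filter_upwards [hA.le hx hy a b, hA.le hx hy (a - 1) b] with j h1 h2
    rw [sub_add_cancel] at h2
    exact ⟨(X j a, Y j b), ⟨⟨le_rfl, h1.1⟩, le_rfl, h1.2⟩, by
      simp only [inRect, Prod.mk_add_mk, add_zero]
      rw [← sub_eq_add_neg, sub_add_cancel]; exact ⟨⟨h2.1, le_rfl⟩, le_rfl, h1.2⟩⟩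
  · filter_upwards [hA.le hx hy a b, hA.le hx hy a (b - 1)] with j h1 h2
    rw [sub_add_cancel] at h2
    exact ⟨(X j a, Y j b), ⟨⟨le_rfl, h1.1⟩, le_rfl, h1.2⟩, by
      simp only [inRect, Prod.mk_add_mk, add_zero]
      rw [← sub_eq_add_neg, sub_add_cancel]; exact ⟨⟨le_rfl, h1.1⟩, h2.2, le_rfl⟩⟩

lemma Approx.tail_mem (hA : Approx x y R X Y) (hx : StrictMono x) (hy : StrictMono y)
    (s : Cell × ℤ) : ∀ᶠ j in atTop, inRect (X j) (Y j) s.1 (lpt (X j) (Y j) (tail s)) := by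
  obtain ⟨⟨a, b⟩, k⟩ := s
  filter_upwards [hA.le hx hy a b] with j h1
  unfold tail lpt inRect
  simp only
  split_ifs
  · exact ⟨⟨le_rfl, h1.1⟩, le_rfl, h1.2⟩
  · simp only [Prod.mk_add_mk, add_zero]; exact ⟨⟨h1.1, le_rfl⟩, le_rfl, h1.2⟩
  · simp only [Prod.mk_add_mk]; exact ⟨⟨h1.1, le_rfl⟩, h1.2, le_rfl⟩
  · simp only [Prod.mk_add_mk, add_zero]; exact ⟨⟨le_rfl, h1.1⟩, h1.2, le_rfl⟩

/-- Uniform bound on the whole region. -/
lemma DiscData.bound (D : DiscData P x y R X Y H) (hx : StrictMono x) (hy : StrictMono y) :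
    ∃ B, ∀ᶠ j in atTop, ∀ v, inV P.Q (X j) (Y j) v → ‖H j v‖ ≤ B := by
  have h0 : ∃ B, ∀ᶠ j in atTop, ∀ v, inRect (X j) (Y j) P.s0.1 v → ‖H j v‖ ≤ B := by
    obtain ⟨B, hB⟩ := D.cell_bound P.side0.1
    refine ⟨B, ?_⟩
    filter_upwards [hB, D.approx.tail_mem hx hy P.s0] with j h1 h2 v hv
    have h3 := h1 v _ hv h2
    have h4 : H j (lpt (X j) (Y j) (tail P.s0)) = 0 := D.base j
    rwa [h4, sub_zero] at h3
  have key : ∀ d, Relation.ReflTransGen (fun a b => Adj4 a b ∧ b ∈ (P.Q : Set Cell)) P.s0.1 d →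
      ∃ B, ∀ᶠ j in atTop, ∀ v, inRect (X j) (Y j) d v → ‖H j v‖ ≤ B := by
    intro d hd
    induction hd with
    | refl => exact h0
    | @tail b c _ hbc ih =>
      obtain ⟨B1, hB1⟩ := ih
      obtain ⟨B2, hB2⟩ := D.cell_bound (c := c) (by simpa using hbc.2)
      refine ⟨B1 + B2, ?_⟩
      filter_upwards [hB1, hB2, D.approx.common hx hy hbc.1] with j h1 h2 h3 v hv
      obtain ⟨w, hw1, hw2⟩ := h3
      have e : H j v = (H j v - H j w) + H j w := by ring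
      rw [e]
      refine (norm_add_le _ _).trans ?_
      have := h1 w hw1
      have := h2 v w hv hw2
      linarith
  have key2 : ∀ d : Cell, ∃ B : ℝ, d ∈ P.Q → ∀ᶠ j in atTop, ∀ v, inRect (X j) (Y j) d v →
      ‖H j v‖ ≤ B := by
    intro d
    by_cases hd : d ∈ P.Q
    · obtain ⟨B, hB⟩ := key d (P.good.conn _ P.side0.1 _ hd)
      exact ⟨B, fun _ => hB⟩
    · exact ⟨0, fun h => absurd h hd⟩
  choose B hB using key2
  refine ⟨∑ d ∈ P.Q, |B d|, ?_⟩
  have h1 : ∀ᶠ j in atTop, ∀ d ∈ P.Q, ∀ v, inRect (X j) (Y j) d v → ‖H j v‖ ≤ B d := by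
    rw [Filter.eventually_all_finset]
    intro d hd
    exact hB d hd
  filter_upwards [h1] with j hj v hv
  obtain ⟨d, hd, hdv⟩ := hv
  refine (hj d hd v hdv).trans ((le_abs_self _).trans ?_)
  exact Finset.single_le_sum (f := fun d => |B d|) (fun _ _ => abs_nonneg _) hd

end Pool.Agent.Q1.M4
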