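import Mathlib
import Pool.Agent.Q1.M4.Limit2

set_option autoImplicit false
open Set Filter Topology

/-! Module M4, limit passage, part 3: existence of the limit function along an ultrafilter,
uniform closeness. -/

namespace Pool.Agent.Q1.M4

open Pool.Agent.H75.Perc (dir dir_cases)

variable {P : PType} {x y : ℤ → ℝ} {R : ℕ → ℝ} {X Y : ℕ → ℤ → ℤ} {H : ℕ → ℤ × ℤ → ℂ}

/-- `v` is a sequence of lattice points of the region with `v / R → z` along `F`. -/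
def Appr (P : PType) (R : ℕ → ℝ) (X Y : ℕ → ℤ → ℤ) (F : Filter ℕ) (z : ℂ)
    (v : ℕ → ℤ × ℤ) : Prop :=
  (∀ᶠ j in F, inV P.Q (X j) (Y j) (v j)) ∧ Tendsto (fun j => lat (v j) / (R j : ℂ)) F (𝓝 z)

lemma exists_appr (hx : StrictMono x) (hy : StrictMono y) (hA : Approx x y R X Y) {F : Filter ℕ}
    (hF : F ≤ atTop) {z : ℂ} (hz : z ∈ Reg P.Q x y) : ∃ v, Appr P R X Y F z v := by
  obtain ⟨c, hc, hzc⟩ := hz
  obtain ⟨v, h1, h2⟩ := exists_lat hx hy hA hzc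
  exact ⟨v, hF (h1.mono fun j h => ⟨c, hc, h⟩), h2.mono_left hF⟩

/-- Bounded sequences converge along ultrafilters. -/
lemma exists_lim (U : Ultrafilter ℕ) {u : ℕ → ℂ} {B : ℝ} (h : ∀ᶠ j in (U : Filter ℕ), ‖u j‖ ≤ B) :
    ∃ a, Tendsto u U (𝓝 a) := by
  have h1 : (Metric.closedBall (0 : ℂ) B) ∈ (U.map u : Ultrafilter ℂ) := by
    rw [Ultrafilter.mem_map]
    filter_upwards [h] with j hj
    simpa using hj
  obtain ⟨a, -, ha⟩ := (isCompact_closedBall (0 : ℂ) B).ultrafilter_le_nhds' (U.map u) h1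
  exact ⟨a, ha⟩

lemma dist_div {v w : ℤ × ℤ} {r : ℝ} (hr : 0 < r) :
    ‖lat v / (r : ℂ) - lat w / (r : ℂ)‖ = ‖lat v - lat w‖ / r := by
  rw [← sub_div, norm_div, Complex.norm_real, Real.norm_of_nonneg hr.le]

/-- Two approximants of the same point give the same limit. -/
lemma DiscData.same (D : DiscData P x y R X Y H) {F : Filter ℕ} (hF : F ≤ atTop) {z : ℂ}
    {v w : ℕ → ℤ × ℤ} (hv : Appr P R X Y F z v) (hw : Appr P R X Y F z w) :
    Tendsto (fun j => H j (v j) - H j (w j)) F (𝓝 0) := by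
  obtain ⟨C, hC, δ, hδ, hold⟩ := D.hold
  have h1 : Tendsto (fun j => ‖lat (v j) / (R j : ℂ) - lat (w j) / (R j : ℂ)‖) F (𝓝 0) := by
    have := (hv.2.sub hw.2).norm
    simpa using this
  have h2 : Tendsto (fun j => C * ‖lat (v j) / (R j : ℂ) - lat (w j) / (R j : ℂ)‖ ^ (2 / 3 : ℝ)) F
      (𝓝 0) := by
    have := (h1.rpow_const (p := (2 / 3 : ℝ)) (Or.inr (by norm_num))).const_mul C
    rwa [Real.zero_rpow (by norm_num), mul_zero] at this
  refine squeeze_zero_norm' ?_ h2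
  filter_upwards [hF hold, hv.1, hw.1, hF (D.approx.R_top.eventually_gt_atTop 0),
    h1.eventually_le_const hδ] with j h3 h4 h5 h6 h7
  rw [dist_div h6] at h7 ⊢
  rw [div_le_iff₀ h6] at h7
  exact h3 _ _ h4 h5 h7

/-- `a` is the limit of `H` at `z` along `F`. -/
def IsLim (P : PType) (R : ℕ → ℝ) (X Y : ℕ → ℤ → ℤ) (H : ℕ → ℤ × ℤ → ℂ) (F : Filter ℕ) (z a : ℂ) :
    Prop := ∀ v, Appr P R X Y F z v → Tendsto (fun j => H j (v j)) F (𝓝 a)

lemma DiscData.exists_isLim (D : DiscData P x y R X Y H) (hx : StrictMono x) (hy : StrictMono y)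
    (U : Ultrafilter ℕ) (hU : (U : Filter ℕ) ≤ atTop) {z : ℂ} (hz : z ∈ Reg P.Q x y) :
    ∃ a, IsLim P R X Y H U z a := by
  obtain ⟨w, hw⟩ := exists_appr (P := P) hx hy D.approx hU hz
  obtain ⟨B, hB⟩ := D.bound hx hy
  obtain ⟨a, ha⟩ := exists_lim U (u := fun j => H j (w j)) (B := B) (by
    filter_upwards [hU hB, hw.1] with j h1 h2
    exact h1 _ h2)
  refine ⟨a, fun v hv => ?_⟩
  have h := (D.same hU hv hw).add ha
  simpa using h

/-- Hoelder continuity of the limit. -/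
lemma DiscData.hold_lim (D : DiscData P x y R X Y H) (hx : StrictMono x) (hy : StrictMono y)
    {F : Filter ℕ} [F.NeBot] (hF : F ≤ atTop) {h : ℂ → ℂ}
    (hh : ∀ z ∈ Reg P.Q x y, IsLim P R X Y H F z (h z)) :
    ∃ C > 0, ∃ r > 0, ∀ z ∈ Reg P.Q x y, ∀ z' ∈ Reg P.Q x y, ‖z - z'‖ ≤ r →
      ‖h z - h z'‖ ≤ C * ‖z - z'‖ ^ (2 / 3 : ℝ) := by
  obtain ⟨C, hC, δ, hδ, hold⟩ := D.hold
  refine ⟨C, hC, δ / 2, by positivity, fun z hz z' hz' hzz => ?_⟩
  obtain ⟨v, hv⟩ := exists_appr (P := P) hx hy D.approx hF hz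
  obtain ⟨w, hw⟩ := exists_appr (P := P) hx hy D.approx hF hz'
  have h1 : Tendsto (fun j => ‖lat (v j) / (R j : ℂ) - lat (w j) / (R j : ℂ)‖) F (𝓝 ‖z - z'‖) :=
    (hv.2.sub hw.2).norm
  have h2 := (h1.rpow_const (p := (2 / 3 : ℝ)) (Or.inr (by norm_num))).const_mul C
  have h3 := (((hh z hz) v hv).sub ((hh z' hz') w hw)).norm
  refine le_of_tendsto_of_tendsto h3 h2 ?_
  filter_upwards [hF hold, hv.1, hw.1, hF (D.approx.R_top.eventually_gt_atTop 0),
    h1.eventually_le_const (lt_of_le_of_lt hzz (half_lt_self hδ))] with j h3 h4 h5 h6 h7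
  rw [dist_div h6] at h7 ⊢
  rw [div_le_iff₀ h6] at h7
  exact h3 _ _ h4 h5 h7

lemma continuousOn_of_hold {S : Set ℂ} {h : ℂ → ℂ} {C r : ℝ} (hr : 0 < r)
    (hh : ∀ z ∈ S, ∀ z' ∈ S, ‖z - z'‖ ≤ r → ‖h z - h z'‖ ≤ C * ‖z - z'‖ ^ (2 / 3 : ℝ)) :
    ContinuousOn h S := by
  intro z hz
  have h1 : Tendsto (fun w => ‖w - z‖) (𝓝[S] z) (𝓝 0) := by
    have : Tendsto (fun w => ‖w - z‖) (𝓝 z) (𝓝 ‖z - z‖) :=
      (continuous_id.sub continuous_const).norm.tendsto z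
    rw [sub_self, norm_zero] at this
    exact this.mono_left nhdsWithin_le_nhds
  have h2 : Tendsto (fun w => C * ‖w - z‖ ^ (2 / 3 : ℝ)) (𝓝[S] z) (𝓝 0) := by
    have := (h1.rpow_const (p := (2 / 3 : ℝ)) (Or.inr (by norm_num))).const_mul C
    rwa [Real.zero_rpow (by norm_num), mul_zero] at this
  have h3 : Tendsto (fun w => h w - h z) (𝓝[S] z) (𝓝 0) := by
    refine squeeze_zero_norm' ?_ h2
    filter_upwards [self_mem_nhdsWithin, h1.eventually_le_const hr] with w hw hw'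
    exact hh w hw z hz hw'
  have h4 := h3.add_const (h z)
  simpa [ContinuousWithinAt] using h4

/-- Uniform closeness of `H j` to the limit. -/
lemma DiscData.unif (D : DiscData P x y R X Y H) (hx : StrictMono x) (hy : StrictMono y)
    {F : Filter ℕ} [F.NeBot] (hF : F ≤ atTop) {h : ℂ → ℂ}
    (hh : ∀ z ∈ Reg P.Q x y, IsLim P R X Y H F z (h z)) {ε : ℝ} (hε : 0 < ε) :
    ∃ η > 0, ∀ᶠ j in F, ∀ z ∈ Reg P.Q x y, ∀ v, inV P.Q (X j) (Y j) v →
      ‖lat v / (R j : ℂ) - z‖ ≤ η → ‖H j v - h z‖ ≤ ε := by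
  obtain ⟨C, hC, δ, hδ, hold⟩ := D.hold
  obtain ⟨C', hC', r, hr, hold'⟩ := D.hold_lim hx hy hF hh
  -- small radius
  have e1 : Tendsto (fun s : ℝ => C * (3 * s) ^ (2 / 3 : ℝ)) (𝓝[>] 0) (𝓝 0) := by
    have h1 : Tendsto (fun s : ℝ => 3 * s) (𝓝[>] 0) (𝓝 0) := by
      have : Tendsto (fun s : ℝ => 3 * s) (𝓝 0) (𝓝 (3 * 0)) := tendsto_id.const_mul 3
      rw [mul_zero] at this
      exact this.mono_left nhdsWithin_le_nhds
    have := (h1.rpow_const (p := (2 / 3 : ℝ)) (Or.inr (by norm_num))).const_mul C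
    rwa [Real.zero_rpow (by norm_num), mul_zero] at this
  have e2 : Tendsto (fun s : ℝ => C' * s ^ (2 / 3 : ℝ)) (𝓝[>] 0) (𝓝 0) := by
    have h1 : Tendsto (fun s : ℝ => s) (𝓝[>] 0) (𝓝 0) := tendsto_id.mono_left nhdsWithin_le_nhds
    have := (h1.rpow_const (p := (2 / 3 : ℝ)) (Or.inr (by norm_num))).const_mul C'
    rwa [Real.zero_rpow (by norm_num), mul_zero] at this
  have e3 : ∀ᶠ s : ℝ in 𝓝[>] 0, s < min (δ / 3) r := by
    have : ∀ᶠ s : ℝ in 𝓝 0, s < min (δ / 3) r :=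
      eventually_lt_nhds (lt_min (by positivity) hr)
    exact this.filter_mono nhdsWithin_le_nhds
  obtain ⟨η, hη1, hη2, hη3, hη0⟩ := ((e1.eventually_le_const (by positivity : (0:ℝ) < ε / 3)).and
    ((e2.eventually_le_const (by positivity : (0:ℝ) < ε / 3)).and
    (e3.and (self_mem_nhdsWithin : Ioi (0 : ℝ) ∈ 𝓝[>] (0 : ℝ))))).exists
  have hη0 : 0 < η := hη0
  rw [lt_min_iff] at hη3
  -- finite net
  have hcomp : IsCompact (Reg P.Q x y) :=
    Metric.isCompact_of_isClosed_isBounded (isClosed_Reg _ _ _) (isBounded_Reg _ _ _)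
  obtain ⟨t, ht1, ht2, ht3⟩ := hcomp.finite_cover_balls hη0
  refine ⟨η, hη0, ?_⟩
  have key : ∀ᶠ j in F, ∀ z ∈ t, ∃ w, inV P.Q (X j) (Y j) w ∧ ‖lat w / (R j : ℂ) - z‖ ≤ η ∧
      ‖H j w - h z‖ ≤ ε / 3 := by
    rw [ht2.eventually_all]
    intro z hz
    obtain ⟨w, hw⟩ := exists_appr (P := P) hx hy D.approx hF (ht1 hz)
    have h1 : Tendsto (fun j => ‖lat (w j) / (R j : ℂ) - z‖) F (𝓝 0) := by
      have := (hw.2.sub_const z).norm
      simpa using this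
    have h2 : Tendsto (fun j => ‖H j (w j) - h z‖) F (𝓝 0) := by
      have := ((hh z (ht1 hz) w hw).sub_const (h z)).norm
      simpa using this
    filter_upwards [hw.1, h1.eventually_le_const hη0,
      h2.eventually_le_const (by positivity : (0:ℝ) < ε / 3)] with j a b c
    exact ⟨w j, a, b, c⟩
  filter_upwards [key, hF hold, hF (D.approx.R_top.eventually_gt_atTop 0)] with j hj1 hj2 hj3
    z hz v hv hvz
  obtain ⟨z', hz', hzz'⟩ : ∃ z' ∈ t, z ∈ Metric.ball z' η := by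
    have := ht3 hz
    simpa using this
  rw [Metric.mem_ball, dist_eq_norm] at hzz'
  obtain ⟨w, hw1, hw2, hw3⟩ := hj1 z' hz'
  have h1 : ‖lat v / (R j : ℂ) - lat w / (R j : ℂ)‖ ≤ 3 * η := by
    have e : lat v / (R j : ℂ) - lat w / (R j : ℂ) =
      (lat v / (R j : ℂ) - z) + (z - z') - (lat w / (R j : ℂ) - z') := by ring
    rw [e]
    refine (norm_sub_le _ _).trans ?_
    have := norm_add_le (lat v / (R j : ℂ) - z) (z - z')
    linarith
  rw [dist_div hj3] at h1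
  have h2 : ‖lat v - lat w‖ ≤ δ * R j := by
    rw [div_le_iff₀ hj3] at h1
    refine h1.trans ?_
    exact mul_le_mul_of_nonneg_right (by linarith [hη3.1]) hj3.le
  have h3 := hj2 v w hv hw1 h2
  have h4 : C * (‖lat v - lat w‖ / R j) ^ (2 / 3 : ℝ) ≤ C * (3 * η) ^ (2 / 3 : ℝ) :=
    mul_le_mul_of_nonneg_left (Real.rpow_le_rpow (by positivity) h1 (by norm_num)) hC.le
  have h5 := hold' z hz z' (ht1 hz') (by linarith [hη3.2])
  have h6 : C' * ‖z - z'‖ ^ (2 / 3 : ℝ) ≤ C' * η ^ (2 / 3 : ℝ) :=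
    mul_le_mul_of_nonneg_left (Real.rpow_le_rpow (by positivity) hzz'.le (by norm_num)) hC'.le
  have e : H j v - h z = (H j v - H j w) + (H j w - h z') - (h z - h z') := by ring
  rw [e]
  refine (norm_sub_le _ _).trans ?_
  have := norm_add_le (H j v - H j w) (H j w - h z')
  linarith

end Pool.Agent.Q1.M4
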