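import Mathlib
import Pool.Agent.Q1.M4.Limit3

set_option autoImplicit false
open Set Filter Topology

/-! Module M4, limit passage, part 4: sides and corners. -/

namespace Pool.Agent.Q1.M4

open Pool.Agent.H75.Perc (dir dir_cases)

variable {P : PType} {x y : ℤ → ℝ} {R : ℕ → ℝ} {X Y : ℕ → ℤ → ℤ} {H : ℕ → ℤ × ℤ → ℂ}

/-! ### The sides -/

lemma PType.side_succ (P : PType) (n : ℕ) : P.side (n + 1) = nextSide P.Q (P.side n) := by
  simp only [PType.side, Function.iterate_succ', Function.comp_apply]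

lemma PType.isSide (P : PType) (n : ℕ) : IsSide P.Q (P.side n) := by
  induction n with
  | zero => exact P.side0
  | succ n ih => rw [P.side_succ]; exact isSide_next ih

lemma PType.vert_succ (P : PType) (n : ℕ) : P.vert (n + 1) = P.vert n + dir (P.side n).2 := by
  unfold PType.vert
  rw [P.side_succ, head_eq_tail_next]
  rfl

lemma norm_phase (k e : ℤ) : ‖phase k e‖ = 1 := by
  unfold phase
  exact Complex.norm_exp_ofReal_mul_I _

lemma PType.norm_ph (P : PType) (n : ℕ) : ‖P.ph n‖ = 1 := norm_phase _ _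

/-- The closed ray `{s * u : 0 ≤ s}` for a unit vector `u`: it is enough to be close to it. -/
lemma ray_of_close {u D : ℂ} (hu : ‖u‖ = 1)
    (h : ∀ ε > 0, ∃ s : ℝ, 0 ≤ s ∧ ‖D - s * u‖ ≤ ε) : ∃ s : ℝ, 0 ≤ s ∧ D = s * u := by
  have hc : (starRingEnd ℂ) u * u = 1 := by
    rw [mul_comm, Complex.mul_conj, Complex.normSq_eq_norm_sq, hu]; simp
  have key : ∀ ε > 0, -ε ≤ ((starRingEnd ℂ) u * D).re ∧ |((starRingEnd ℂ) u * D).im| ≤ ε := by
    intro ε hε
    obtain ⟨s, hs, h1⟩ := h ε hε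
    have h2 : ‖(starRingEnd ℂ) u * D - s‖ ≤ ε := by
      have e : (starRingEnd ℂ) u * D - s = (starRingEnd ℂ) u * (D - s * u) := by
        rw [mul_sub, mul_left_comm, hc, mul_one]
      rw [e, norm_mul, Complex.norm_conj, hu, one_mul]
      exact h1
    have h3 := (Complex.abs_re_le_norm ((starRingEnd ℂ) u * D - s)).trans h2
    have h4 := (Complex.abs_im_le_norm ((starRingEnd ℂ) u * D - s)).trans h2
    rw [Complex.sub_re, Complex.ofReal_re] at h3
    rw [Complex.sub_im, Complex.ofReal_im, sub_zero] at h4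
    rw [abs_le] at h3
    exact ⟨by linarith [h3.1], h4⟩
  have hre : 0 ≤ ((starRingEnd ℂ) u * D).re := by
    by_contra hneg
    push Not at hneg
    have := (key (-((starRingEnd ℂ) u * D).re / 2) (by linarith)).1
    linarith
  have him : ((starRingEnd ℂ) u * D).im = 0 := by
    by_contra hne
    have h1 : 0 < |((starRingEnd ℂ) u * D).im| := abs_pos.2 hne
    have := (key (|((starRingEnd ℂ) u * D).im| / 2) (by linarith)).2
    linarith
  refine ⟨((starRingEnd ℂ) u * D).re, hre, ?_⟩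
  have e : ((((starRingEnd ℂ) u * D).re : ℝ) : ℂ) = (starRingEnd ℂ) u * D := by
    apply Complex.ext
    · simp
    · rw [Complex.ofReal_im, him]
  rw [e, mul_right_comm, hc, one_mul]

/-- Lattice points of a side. -/
lemma exists_side_appr (hx : StrictMono x) (hy : StrictMono y) (hA : Approx x y R X Y) (n : ℕ) :
    ∀ᶠ j in atTop, ∀ l : ℕ, ∀ v, P.onSide (X j) (Y j) n l v → inV P.Q (X j) (Y j) v := by
  have hs := P.isSide n
  filter_upwards [hA.le hx hy (P.side n).1.1 (P.side n).1.2] with j hj l v hv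
  refine ⟨(P.side n).1, hs.1, ?_⟩
  obtain ⟨h1, h2⟩ := hv
  rw [P.vert_succ] at h2
  unfold PType.vert at h1 h2
  generalize P.side n = s at *
  obtain ⟨⟨a, b⟩, k⟩ := s
  subst h1
  simp only at hj ⊢
  unfold tail lpt inRect at *
  simp only at h2 ⊢
  obtain ⟨hj1, hj2⟩ := hj
  rcases dir_cases k with ⟨hk, e⟩ | ⟨hk, e⟩ | ⟨hk, e⟩ | ⟨hk, e⟩ <;> rw [e] at h2 ⊢
  · simp [hk] at h2 ⊢
    rw [abs_of_nonneg (by omega)] at h2
    omega
  · simp [hk] at h2 ⊢
    rw [abs_of_nonneg (by omega)] at h2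
    omega
  · simp [hk] at h2 ⊢
    rw [abs_of_nonpos (by omega)] at h2
    omega
  · simp [hk] at h2 ⊢
    rw [abs_of_nonpos (by omega)] at h2
    omega

/-- Lattice length of a side. -/
def PType.slen (P : PType) (X Y : ℤ → ℤ) (n : ℕ) : ℤ :=
  |(lpt X Y (P.vert (n + 1)) - lpt X Y (P.vert n)).1| +
    |(lpt X Y (P.vert (n + 1)) - lpt X Y (P.vert n)).2|

lemma slen_nonneg (P : PType) (X Y : ℤ → ℤ) (n : ℕ) : 0 ≤ P.slen X Y n := by
  unfold PType.slen; positivity

lemma lpt_tendsto (hA : Approx x y R X Y) (p : ℤ × ℤ) :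
    Tendsto (fun j => lat (lpt (X j) (Y j) p) / (R j : ℂ)) atTop (𝓝 (pt x y p)) :=
  lat_div_tendsto (z := pt x y p) (hA.X_lim p.1) (hA.Y_lim p.2)

lemma side_vec (hx : StrictMono x) (hy : StrictMono y) (hA : Approx x y R X Y) (n : ℕ) :
    ∀ᶠ j in atTop, lat (lpt (X j) (Y j) (P.vert (n + 1))) - lat (lpt (X j) (Y j) (P.vert n)) =
      (P.slen (X j) (Y j) n : ℂ) * lat (dir (P.side n).2) := by
  unfold PType.slen
  rw [P.vert_succ]
  generalize P.vert n = p
  generalize (P.side n).2 = k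
  obtain ⟨a, b⟩ := p
  filter_upwards [hA.le hx hy a b, hA.le hx hy (a - 1) (b - 1)] with j h1 h2
  rw [sub_add_cancel, sub_add_cancel] at h2
  obtain ⟨h1, h3⟩ := h1
  obtain ⟨h2, h4⟩ := h2
  rcases dir_cases k with ⟨hk, e⟩ | ⟨hk, e⟩ | ⟨hk, e⟩ | ⟨hk, e⟩ <;> rw [e] <;>
    simp only [lpt, Prod.mk_add_mk, add_zero, Prod.mk_sub_mk, sub_self, abs_zero, zero_add]
  · rw [abs_of_nonneg (by omega)]
    apply Complex.ext <;> simp [lat]
  · rw [abs_of_nonneg (by omega)]
    apply Complex.ext <;> simp [lat]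
  · rw [← sub_eq_add_neg, abs_of_nonpos (by omega)]
    apply Complex.ext <;> simp [lat]
  · rw [← sub_eq_add_neg, abs_of_nonpos (by omega)]
    apply Complex.ext <;> simp [lat]

lemma lat_add (v w : ℤ × ℤ) : lat (v + w) = lat v + lat w := by
  apply Complex.ext <;> simp [lat]

lemma lat_smul (k : ℤ) (v : ℤ × ℤ) : lat (k • v) = (k : ℂ) * lat v := by
  apply Complex.ext <;> simp [lat]

/-- The lattice point at the parameter `t` of a side. -/
noncomputable def PType.spt (P : PType) (X Y : ℤ → ℤ) (n : ℕ) (t : ℝ) : ℤ × ℤ :=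
  lpt X Y (P.vert n) + ((⌊t * (P.slen X Y n : ℝ)⌋₊ : ℕ) : ℤ) • dir (P.side n).2

lemma spt_onSide (P : PType) (X Y : ℤ → ℤ) (n : ℕ) {t : ℝ} (ht0 : 0 ≤ t) (ht1 : t ≤ 1) :
    P.onSide X Y n ⌊t * (P.slen X Y n : ℝ)⌋₊ (P.spt X Y n t) := by
  refine ⟨rfl, ?_⟩
  have h0 := slen_nonneg P X Y n
  have h0' : (0 : ℝ) ≤ (P.slen X Y n : ℝ) := by exact_mod_cast h0
  have h1 : ((⌊t * (P.slen X Y n : ℝ)⌋₊ : ℕ) : ℝ) ≤ (P.slen X Y n : ℝ) := by
    refine (Nat.floor_le (by positivity)).trans ?_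
    nlinarith
  have h2 : ((⌊t * (P.slen X Y n : ℝ)⌋₊ : ℕ) : ℤ) ≤ P.slen X Y n := by exact_mod_cast h1
  exact h2

lemma spt_appr (hx : StrictMono x) (hy : StrictMono y) (hA : Approx x y R X Y) {F : Filter ℕ}
    (hF : F ≤ atTop) (n : ℕ) {t : ℝ} (ht0 : 0 ≤ t) (ht1 : t ≤ 1) :
    Appr P R X Y F (P.sidePt x y n t) (fun j => P.spt (X j) (Y j) n t) := by
  constructor
  · filter_upwards [hF (exists_side_appr (P := P) hx hy hA n)] with j hj
    exact hj _ _ (spt_onSide P (X j) (Y j) n ht0 ht1)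
  · refine Tendsto.mono_left ?_ hF
    have h1 := lpt_tendsto hA (P.vert n)
    have h2 := (lpt_tendsto hA (P.vert (n + 1))).sub h1
    -- the error of the floor
    have h3 : Tendsto (fun j => (((⌊t * (P.slen (X j) (Y j) n : ℝ)⌋₊ : ℕ) : ℝ) -
        t * (P.slen (X j) (Y j) n : ℝ)) / R j) atTop (𝓝 0) := by
      have h4 : Tendsto (fun j => (R j)⁻¹) atTop (𝓝 0) := hA.R_top.inv_tendsto_atTop
      refine squeeze_zero_norm' ?_ h4
      filter_upwards [hA.R_top.eventually_gt_atTop 0] with j hj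
      have h0' : (0 : ℝ) ≤ (P.slen (X j) (Y j) n : ℝ) := by exact_mod_cast slen_nonneg P _ _ n
      have a := Nat.floor_le (a := t * (P.slen (X j) (Y j) n : ℝ)) (by positivity)
      have b := Nat.lt_floor_add_one (t * (P.slen (X j) (Y j) n : ℝ))
      rw [Real.norm_eq_abs, abs_div, abs_of_pos hj, div_eq_mul_inv]
      have c : |((⌊t * (P.slen (X j) (Y j) n : ℝ)⌋₊ : ℕ) : ℝ) -
        t * (P.slen (X j) (Y j) n : ℝ)| ≤ 1 := by rw [abs_le]; constructor <;> linarith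
      calc _ ≤ 1 * (R j)⁻¹ := mul_le_mul_of_nonneg_right c (by positivity)
        _ = (R j)⁻¹ := one_mul _
    have h5 : Tendsto (fun j => ((((⌊t * (P.slen (X j) (Y j) n : ℝ)⌋₊ : ℕ) : ℝ) -
        t * (P.slen (X j) (Y j) n : ℝ)) / R j : ℝ) * lat (dir (P.side n).2)) atTop (𝓝 0) := by
      have := ((Complex.continuous_ofReal.tendsto _).comp h3).mul_const (lat (dir (P.side n).2))
      simpa using this
    have h6 := (h1.add (h2.const_mul (t : ℂ))).add h5
    rw [add_zero] at h6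
    refine h6.congr' ?_
    filter_upwards [side_vec (P := P) hx hy hA n, hA.R_top.eventually_gt_atTop 0] with j hj hR
    have hR' : (R j : ℂ) ≠ 0 := by exact_mod_cast hR.ne'
    rw [← sub_div, hj]
    unfold PType.spt
    rw [lat_add, lat_smul]
    push_cast
    field_simp
    ring

/-- Points of a side lie in the rectangle of its cell. -/
lemma sidePt_mem_rect (hx : StrictMono x) (hy : StrictMono y) (P : PType) (n : ℕ) {t : ℝ}
    (ht0 : 0 ≤ t) (ht1 : t ≤ 1) : P.sidePt x y n t ∈ rect x y (P.side n).1 := by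
  unfold PType.sidePt
  rw [P.vert_succ]
  unfold PType.vert
  generalize P.side n = s
  obtain ⟨⟨a, b⟩, k⟩ := s
  have h1 : x a < x (a + 1) := hx (by omega)
  have h2 : y b < y (b + 1) := hy (by omega)
  unfold tail pt rect
  rcases dir_cases k with ⟨hk, e⟩ | ⟨hk, e⟩ | ⟨hk, e⟩ | ⟨hk, e⟩ <;> rw [e] <;>
    simp [hk]
  · refine ⟨⟨?_, ?_⟩, by linarith⟩ <;> nlinarith
  · refine ⟨by linarith, ?_, ?_⟩ <;> nlinarith
  · refine ⟨⟨?_, ?_⟩, by linarith⟩ <;> nlinarith
  · refine ⟨by linarith, ?_, ?_⟩ <;> nlinarith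

lemma sidePt_mem (hx : StrictMono x) (hy : StrictMono y) (P : PType) (n : ℕ) {t : ℝ}
    (ht0 : 0 ≤ t) (ht1 : t ≤ 1) : P.sidePt x y n t ∈ Reg P.Q x y :=
  ⟨_, (P.isSide n).1, sidePt_mem_rect hx hy P n ht0 ht1⟩

/-- The boundary increments of the limit along a side. -/
lemma DiscData.side_lim (D : DiscData P x y R X Y H) (hx : StrictMono x) (hy : StrictMono y)
    {F : Filter ℕ} [F.NeBot] (hF : F ≤ atTop) {h : ℂ → ℂ}
    (hh : ∀ z ∈ Reg P.Q x y, IsLim P R X Y H F z (h z)) {n : ℕ} (hn : n < P.N) {t t' : ℝ}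
    (ht0 : 0 ≤ t) (htt : t ≤ t') (ht1 : t' ≤ 1) :
    ∃ s : ℝ, 0 ≤ s ∧ h (P.sidePt x y n t') - h (P.sidePt x y n t) = s * P.ph n := by
  have a1 := spt_appr (P := P) hx hy D.approx hF n ht0 (htt.trans ht1)
  have a2 := spt_appr (P := P) hx hy D.approx hF n (ht0.trans htt) ht1
  have b1 := hh _ (sidePt_mem hx hy P n ht0 (htt.trans ht1)) _ a1
  have b2 := hh _ (sidePt_mem hx hy P n (ht0.trans htt) ht1) _ a2
  have b3 := b2.sub b1
  apply ray_of_close (P.norm_ph n)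
  intro ε hε
  have h1 := hF (D.side n hn (ε / 2) (by positivity))
  have h2 : ∀ᶠ j in F, ‖(H j (P.spt (X j) (Y j) n t') - H j (P.spt (X j) (Y j) n t)) -
      (h (P.sidePt x y n t') - h (P.sidePt x y n t))‖ < ε / 2 := by
    have := (b3.sub_const (h (P.sidePt x y n t') - h (P.sidePt x y n t))).norm
    rw [sub_self, norm_zero] at this
    exact this.eventually_lt_const (by positivity)
  obtain ⟨j, hj1, hj2⟩ := Filter.nonempty_of_mem (Filter.inter_mem h1 h2)
  have hfl : ⌊t * (P.slen (X j) (Y j) n : ℝ)⌋₊ ≤ ⌊t' * (P.slen (X j) (Y j) n : ℝ)⌋₊ := by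
    apply Nat.floor_le_floor
    have h0' : (0 : ℝ) ≤ (P.slen (X j) (Y j) n : ℝ) := by exact_mod_cast slen_nonneg P _ _ n
    nlinarith
  obtain ⟨s, hs, h3⟩ := hj1 _ _ hfl _ _ (spt_onSide P (X j) (Y j) n ht0 (htt.trans ht1))
    (spt_onSide P (X j) (Y j) n (ht0.trans htt) ht1)
  refine ⟨s, hs, ?_⟩
  have e : h (P.sidePt x y n t') - h (P.sidePt x y n t) - s * P.ph n =
    (H j (P.spt (X j) (Y j) n t') - H j (P.spt (X j) (Y j) n t) - s * P.ph n) -
    ((H j (P.spt (X j) (Y j) n t') - H j (P.spt (X j) (Y j) n t)) -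
      (h (P.sidePt x y n t') - h (P.sidePt x y n t))) := by ring
  rw [e]
  refine (norm_sub_le _ _).trans ?_
  have hj2' : ‖(H j (P.spt (X j) (Y j) n t') - H j (P.spt (X j) (Y j) n t)) -
      (h (P.sidePt x y n t') - h (P.sidePt x y n t))‖ < ε / 2 := hj2
  linarith

/-- The corner bound of the limit. -/
lemma DiscData.corner_lim (D : DiscData P x y R X Y H) (hx : StrictMono x) (hy : StrictMono y)
    {F : Filter ℕ} [F.NeBot] (hF : F ≤ atTop) {h : ℂ → ℂ}
    (hh : ∀ z ∈ Reg P.Q x y, IsLim P R X Y H F z (h z)) :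
    ∃ C > 0, ∃ c > 0, ∃ r > 0, ∀ n < P.N, n ≠ 0 → n ≠ P.m → ∀ z ∈ Reg P.Q x y,
    ‖z - pt x y (P.vert n)‖ ≤ r →
    ‖h z - h (pt x y (P.vert n))‖ ≤ C * ‖z - pt x y (P.vert n)‖ ^ (2 / 3 + c : ℝ) := by
  obtain ⟨C, hC, c, hc, r, hr, hcor⟩ := D.corner
  refine ⟨C * 2 ^ (2 / 3 + c : ℝ), by positivity, c, hc, r / 2, by positivity, ?_⟩
  intro n hn hn0 hnm z hz hzr
  have hc' : (2 / 3 + c : ℝ) ≠ 0 := by positivity
  rcases eq_or_ne z (pt x y (P.vert n)) with e | hne
  · rw [e]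
    simp [Real.zero_rpow hc']
  · have hpos : 0 < ‖z - pt x y (P.vert n)‖ := norm_pos_iff.2 (sub_ne_zero.2 hne)
    have h1 := hcor n hn hn0 hnm (2 * ‖z - pt x y (P.vert n)‖) (by positivity) (by linarith)
    obtain ⟨v, hv⟩ := exists_appr (P := P) hx hy D.approx hF hz
    have hp : Appr P R X Y F (pt x y (P.vert n)) (fun j => lpt (X j) (Y j) (P.vert n)) := by
      refine ⟨?_, (lpt_tendsto D.approx _).mono_left hF⟩
      filter_upwards [hF (D.approx.tail_mem hx hy (P.side n))] with j hj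
      exact ⟨_, (P.isSide n).1, hj⟩
    have hpr : pt x y (P.vert n) ∈ Reg P.Q x y := by
      have := sidePt_mem hx hy P n le_rfl zero_le_one
      unfold PType.sidePt at this
      simpa using this
    have b1 := hh _ hz _ hv
    have b2 := hh _ hpr _ hp
    have b3 := (b1.sub b2).norm
    refine le_of_tendsto b3 ?_
    have h2 : Tendsto (fun j => ‖lat (v j) / (R j : ℂ) - lat (lpt (X j) (Y j) (P.vert n)) / (R j : ℂ)‖)
      F (𝓝 ‖z - pt x y (P.vert n)‖) := (hv.2.sub hp.2).norm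
    filter_upwards [hF h1, hv.1, h2.eventually_le_const (by linarith :
      ‖z - pt x y (P.vert n)‖ < 2 * ‖z - pt x y (P.vert n)‖),
      hF (D.approx.R_top.eventually_gt_atTop 0)] with j h3 h4 h5 h6
    rw [dist_div h6, div_le_iff₀ h6] at h5
    refine (h3 _ h4 h5).trans (le_of_eq ?_)
    rw [Real.mul_rpow (by norm_num) hpos.le]
    ring

end Pool.Agent.Q1.M4
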