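import Mathlib
import Pool.Agent.Q1.M4.Limit4

set_option autoImplicit false
open Set Filter Topology

/-! Module M4, limit passage, part 5: lattice points near an interior point. -/

namespace Pool.Agent.Q1.M4

open Pool.Agent.H75.Perc (dir dir_cases)

variable {P : PType} {x y : ℤ → ℝ} {R : ℕ → ℝ} {X Y : ℕ → ℤ → ℤ} {H : ℕ → ℤ × ℤ → ℂ}

/-! ### Lattice points near an interior point -/

lemma line_near_lat {x : ℤ → ℝ} (hx : StrictMono x) {R : ℕ → ℝ} {X : ℕ → ℤ → ℤ}
    (hR : Tendsto R atTop atTop) (hX : ∀ i, Tendsto (fun j => (X j i : ℝ) / R j) atTop (𝓝 (x i)))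
    {i : ℤ} {s : ℝ} (h1 : x i ≤ s) (h2 : s ≤ x (i + 1)) : ∃ r > 0, ∀ᶠ j in atTop, ∀ m : ℤ,
      |(m : ℝ) / R j - s| < r → ∃ k, (x k ≤ s ∧ s ≤ x (k + 1)) ∧ (X j k ≤ m ∧ m ≤ X j (k + 1)) := by
  have hi0 : x (i - 1) < x i := hx (by omega)
  have hi1 : x i < x (i + 1) := hx (by omega)
  have hi2 : x (i + 1) < x (i + 1 + 1) := hx (by omega)
  have conv : ∀ {j : ℕ} {a b : ℤ}, 0 < R j → (a : ℝ) / R j ≤ (b : ℝ) / R j → a ≤ b := by
    intro j a b hR hab
    rw [div_le_div_iff_of_pos_right hR] at hab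
    exact_mod_cast hab
  rcases eq_or_lt_of_le h1 with e1 | e1
  · refine ⟨min (x i - x (i - 1)) (x (i + 1) - x i) / 2, by
      have := lt_min (sub_pos.2 hi0) (sub_pos.2 hi1); linarith, ?_⟩
    have a1 : x (i - 1) < x i - min (x i - x (i - 1)) (x (i + 1) - x i) / 2 := by
      have := min_le_left (x i - x (i - 1)) (x (i + 1) - x i); linarith
    have a2 : x i + min (x i - x (i - 1)) (x (i + 1) - x i) / 2 < x (i + 1) := by
      have := min_le_right (x i - x (i - 1)) (x (i + 1) - x i); linarith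
    filter_upwards [(hX (i - 1)).eventually_lt_const a1, (hX (i + 1)).eventually_const_lt a2,
      hR.eventually_gt_atTop 0] with j b1 b2 b3 m hm
    rw [abs_lt] at hm
    rcases le_total (X j i) m with h | h
    · exact ⟨i, ⟨h1, h2⟩, h, conv b3 (by linarith [hm.2])⟩
    · refine ⟨i - 1, ⟨by linarith, by rw [sub_add_cancel]; linarith⟩, conv b3 (by linarith [hm.1]), ?_⟩
      rw [sub_add_cancel]; exact h
  · rcases eq_or_lt_of_le h2 with e2 | e2
    · refine ⟨min (x (i + 1) - x i) (x (i + 1 + 1) - x (i + 1)) / 2, by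
        have := lt_min (sub_pos.2 hi1) (sub_pos.2 hi2); linarith, ?_⟩
      have a1 : x i < x (i + 1) - min (x (i + 1) - x i) (x (i + 1 + 1) - x (i + 1)) / 2 := by
        have := min_le_left (x (i + 1) - x i) (x (i + 1 + 1) - x (i + 1)); linarith
      have a2 : x (i + 1) + min (x (i + 1) - x i) (x (i + 1 + 1) - x (i + 1)) / 2 < x (i + 1 + 1) := by
        have := min_le_right (x (i + 1) - x i) (x (i + 1 + 1) - x (i + 1)); linarith
      filter_upwards [(hX i).eventually_lt_const a1, (hX (i + 1 + 1)).eventually_const_lt a2,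
        hR.eventually_gt_atTop 0] with j b1 b2 b3 m hm
      rw [abs_lt] at hm
      rcases le_total m (X j (i + 1)) with h | h
      · exact ⟨i, ⟨h1, h2⟩, conv b3 (by linarith [hm.1]), h⟩
      · exact ⟨i + 1, ⟨by linarith, by linarith⟩, h, conv b3 (by linarith [hm.2])⟩
    · refine ⟨min (s - x i) (x (i + 1) - s) / 2, by
        have := lt_min (sub_pos.2 e1) (sub_pos.2 e2); linarith, ?_⟩
      have a1 : x i < s - min (s - x i) (x (i + 1) - s) / 2 := by
        have := min_le_left (s - x i) (x (i + 1) - s); linarith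
      have a2 : s + min (s - x i) (x (i + 1) - s) / 2 < x (i + 1) := by
        have := min_le_right (s - x i) (x (i + 1) - s); linarith
      filter_upwards [(hX i).eventually_lt_const a1, (hX (i + 1)).eventually_const_lt a2,
        hR.eventually_gt_atTop 0] with j b1 b2 b3 m hm
      rw [abs_lt] at hm
      exact ⟨i, ⟨h1, h2⟩, conv b3 (by linarith [hm.1]), conv b3 (by linarith [hm.2])⟩

lemma near_inV {Q : Finset Cell} (hx : StrictMono x) (hy : StrictMono y) (hA : Approx x y R X Y)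
    {z : ℂ} (hz : z ∈ Om Q x y) :
    ∃ r > 0, ∀ᶠ j in atTop, ∀ v, ‖lat v / (R j : ℂ) - z‖ < r → inV Q (X j) (Y j) v := by
  rw [mem_Om hx hy] at hz
  obtain ⟨⟨c, hc, hzc⟩, hall⟩ := hz
  obtain ⟨r1, hr1, h1⟩ := line_near_lat hx hA.R_top hA.X_lim hzc.1.1 hzc.1.2
  obtain ⟨r2, hr2, h2⟩ := line_near_lat hy hA.R_top hA.Y_lim hzc.2.1 hzc.2.2
  refine ⟨min r1 r2, lt_min hr1 hr2, ?_⟩
  filter_upwards [h1, h2] with j hj1 hj2 v hv
  rw [lt_min_iff] at hv
  obtain ⟨i, hi, hi'⟩ := hj1 v.1 (by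
    have := Complex.abs_re_le_norm (lat v / (R j : ℂ) - z)
    rw [Complex.sub_re, Complex.div_ofReal_re] at this
    exact lt_of_le_of_lt this hv.1)
  obtain ⟨k, hk, hk'⟩ := hj2 v.2 (by
    have := Complex.abs_im_le_norm (lat v / (R j : ℂ) - z)
    rw [Complex.sub_im, Complex.div_ofReal_im] at this
    exact lt_of_le_of_lt this hv.2)
  exact ⟨(i, k), hall (i, k) ⟨hi, hk⟩, hi', hk'⟩

end Pool.Agent.Q1.M4
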