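import Mathlib
import Pool.Agent.Q1.M4.Limit5
import Pool.Agent.Q1.M4.Weak

set_option autoImplicit false
open Set Filter Topology

/-! Module M4: holomorphy of a limit from approximations. Near every interior point the functions
`H j` are approximated, with a fixed small error, by functions `G j` with a macroscopic weak
Cauchy-Riemann relation. -/

namespace Pool.Agent.Q1.M4

variable {P : PType} {x y : ℤ → ℝ} {R : ℕ → ℝ} {X Y : ℕ → ℤ → ℤ} {H : ℕ → ℤ × ℤ → ℂ}

lemma nat_floor_tendsto {F : Filter ℕ} {R : ℕ → ℝ} (hR : Tendsto R F atTop) {t : ℝ} (ht : 0 ≤ t) :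
    Tendsto (fun j => ((⌊t * R j⌋₊ : ℕ) : ℝ) / R j) F (𝓝 t) := by
  have h4 : Tendsto (fun j => (R j)⁻¹) F (𝓝 0) := hR.inv_tendsto_atTop
  have h3 : Tendsto (fun j => ((⌊t * R j⌋₊ : ℕ) : ℝ) / R j - t) F (𝓝 0) := by
    refine squeeze_zero_norm' ?_ h4
    filter_upwards [hR.eventually_gt_atTop 0] with j hj
    have h1 := Nat.floor_le (a := t * R j) (by positivity)
    have h2 := Nat.lt_floor_add_one (t * R j)
    have e : ((⌊t * R j⌋₊ : ℕ) : ℝ) / R j - t = (((⌊t * R j⌋₊ : ℕ) : ℝ) - t * R j) / R j := by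
      field_simp
    rw [e, Real.norm_eq_abs, abs_div, abs_of_pos hj, div_eq_mul_inv]
    have h3 : |((⌊t * R j⌋₊ : ℕ) : ℝ) - t * R j| ≤ 1 := by
      rw [abs_le]; constructor <;> linarith
    calc _ ≤ 1 * (R j)⁻¹ := mul_le_mul_of_nonneg_right h3 (by positivity)
      _ = (R j)⁻¹ := one_mul _
  have := h3.add_const t
  simpa using this

lemma fl_tendsto (hR : Tendsto R atTop atTop) (z : ℂ) :
    Tendsto (fun j => lat (fl R z j) / (R j : ℂ)) atTop (𝓝 z) :=
  lat_div_tendsto (floor_div_tendsto hR _) (floor_div_tendsto hR _)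

lemma near_of_tendsto {F : Filter ℕ} {z z0 : ℂ} {r : ℝ} {v : ℕ → ℤ × ℤ}
    (hv : Tendsto (fun j => lat (v j) / (R j : ℂ)) F (𝓝 z)) (hz : z ∈ Metric.ball z0 r) :
    ∀ᶠ j in F, ‖lat (v j) / (R j : ℂ) - z0‖ < r := by
  have h1 : Tendsto (fun j => ‖lat (v j) / (R j : ℂ) - z0‖) F (𝓝 ‖z - z0‖) :=
    (hv.sub_const z0).norm
  rw [Metric.mem_ball, dist_eq_norm] at hz
  exact h1.eventually_lt_const hz

/-- displaced sequences -/
lemma disp_tendsto {F : Filter ℕ} (hRF : Tendsto R F atTop) {z : ℂ} {v : ℕ → ℤ × ℤ}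
    (hv : Tendsto (fun j => lat (v j) / (R j : ℂ)) F (𝓝 z)) {t : ℝ} (ht : 0 ≤ t) (a b : ℤ) :
    Tendsto (fun j => lat ((v j).1 + a * (⌊t * R j⌋₊ : ℕ), (v j).2 + b * (⌊t * R j⌋₊ : ℕ)) /
      (R j : ℂ)) F (𝓝 (z + t * ((a : ℂ) + b * Complex.I))) := by
  have h1 : Tendsto (fun j => lat (v j) / (R j : ℂ) +
      ((((⌊t * R j⌋₊ : ℕ) : ℝ) / R j : ℝ) : ℂ) * ((a : ℂ) + b * Complex.I)) F
      (𝓝 (z + t * ((a : ℂ) + b * Complex.I))) := by
    refine hv.add ?_
    exact ((Complex.continuous_ofReal.tendsto _).comp (nat_floor_tendsto hRF ht)).mul_const _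
  refine h1.congr ?_
  intro j
  apply Complex.ext
  · simp [lat, Complex.div_ofReal_re, add_div]
    ring
  · simp [lat, Complex.div_ofReal_im, add_div]
    ring

/-- Differences along two sequences. -/
lemma hold_diff {F : Filter ℕ} (hRF : Tendsto R F atTop) {G : ℕ → ℤ × ℤ → ℂ} {z0 : ℂ} {r C : ℝ}
    (hold : ∀ᶠ j in F, ∀ v w : ℤ × ℤ, ‖lat v / (R j : ℂ) - z0‖ < r →
      ‖lat w / (R j : ℂ) - z0‖ < r → ‖G j v - G j w‖ ≤ C * (‖lat v - lat w‖ / R j) ^ (2 / 3 : ℝ))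
    {z z' : ℂ} (hz : z ∈ Metric.ball z0 r) (hz' : z' ∈ Metric.ball z0 r) {v w : ℕ → ℤ × ℤ}
    (hv : Tendsto (fun j => lat (v j) / (R j : ℂ)) F (𝓝 z))
    (hw : Tendsto (fun j => lat (w j) / (R j : ℂ)) F (𝓝 z')) :
    ∀ᶠ j in F, ‖G j (v j) - G j (w j)‖ ≤
      C * ‖lat (v j) / (R j : ℂ) - lat (w j) / (R j : ℂ)‖ ^ (2 / 3 : ℝ) := by
  filter_upwards [hold, near_of_tendsto hv hz, near_of_tendsto hw hz',
    hRF.eventually_gt_atTop 0] with j h1 h2 h3 h4
  rw [dist_div h4]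
  exact h1 _ _ h2 h3

/-- Existence of the limit of the functions `G j`. -/
lemma exists_gLim (hR : Tendsto R atTop atTop) (U : Ultrafilter ℕ) (hU : (U : Filter ℕ) ≤ atTop)
    {G : ℕ → ℤ × ℤ → ℂ} {z0 : ℂ} {r : ℝ} (hr : 0 < r)
    (hold : ∃ C > 0, ∀ᶠ j in (U : Filter ℕ), ∀ v w : ℤ × ℤ, ‖lat v / (R j : ℂ) - z0‖ < r →
      ‖lat w / (R j : ℂ) - z0‖ < r → ‖G j v - G j w‖ ≤ C * (‖lat v - lat w‖ / R j) ^ (2 / 3 : ℝ)) :
    ∃ g : ℂ → ℂ, GLim R U G z0 r g := by
  obtain ⟨C, hC, hold⟩ := hold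
  have hRU : Tendsto R U atTop := hR.mono_left hU
  have hz0 : z0 ∈ Metric.ball z0 r := Metric.mem_ball_self hr
  have hlim : ∀ z ∈ Metric.ball z0 r, ∃ a, ∀ v : ℕ → ℤ × ℤ,
      Tendsto (fun j => lat (v j) / (R j : ℂ)) U (𝓝 z) →
      Tendsto (fun j => G j (v j) - G j (fl R z0 j)) U (𝓝 a) := by
    intro z hz
    have hw := (fl_tendsto hR z).mono_left hU
    have hw0 := (fl_tendsto hR z0).mono_left hU
    obtain ⟨a, ha⟩ := exists_lim U (u := fun j => G j (fl R z j) - G j (fl R z0 j))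
      (B := C * (2 * r) ^ (2 / 3 : ℝ)) (by
        filter_upwards [hold_diff hRU hold hz hz0 hw hw0, near_of_tendsto hw hz,
          near_of_tendsto hw0 hz0] with j h1 h2 h3
        refine h1.trans ?_
        apply mul_le_mul_of_nonneg_left _ hC.le
        apply Real.rpow_le_rpow (norm_nonneg _) _ (by norm_num)
        have e : lat (fl R z j) / (R j : ℂ) - lat (fl R z0 j) / (R j : ℂ) =
          (lat (fl R z j) / (R j : ℂ) - z0) - (lat (fl R z0 j) / (R j : ℂ) - z0) := by ring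
        rw [e]
        refine (norm_sub_le _ _).trans ?_
        linarith)
    refine ⟨a, fun v hv => ?_⟩
    have h1 : Tendsto (fun j => G j (v j) - G j (fl R z j)) U (𝓝 0) := by
      have h2 : Tendsto (fun j => ‖lat (v j) / (R j : ℂ) - lat (fl R z j) / (R j : ℂ)‖) U
          (𝓝 0) := by
        have := (hv.sub hw).norm
        simpa using this
      have h3 : Tendsto (fun j => C * ‖lat (v j) / (R j : ℂ) -
          lat (fl R z j) / (R j : ℂ)‖ ^ (2 / 3 : ℝ)) U (𝓝 0) := by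
        have := (h2.rpow_const (p := (2 / 3 : ℝ)) (Or.inr (by norm_num))).const_mul C
        rwa [Real.zero_rpow (by norm_num), mul_zero] at this
      exact squeeze_zero_norm' (hold_diff hRU hold hz hz hv hw) h3
    have h2 := h1.add ha
    rw [zero_add] at h2
    refine h2.congr fun j => ?_
    ring
  choose! g hg using hlim
  exact ⟨g, hg⟩

/-- The limit is Hoelder. -/
lemma GLim.hold (hR : Tendsto R atTop atTop) {F : Filter ℕ} [F.NeBot] (hF : F ≤ atTop)
    {G : ℕ → ℤ × ℤ → ℂ} {z0 : ℂ} {r C : ℝ} {g : ℂ → ℂ} (hg : GLim R F G z0 r g)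
    (hold : ∀ᶠ j in F, ∀ v w : ℤ × ℤ, ‖lat v / (R j : ℂ) - z0‖ < r →
      ‖lat w / (R j : ℂ) - z0‖ < r → ‖G j v - G j w‖ ≤ C * (‖lat v - lat w‖ / R j) ^ (2 / 3 : ℝ))
    {z z' : ℂ} (hz : z ∈ Metric.ball z0 r) (hz' : z' ∈ Metric.ball z0 r) :
    ‖g z - g z'‖ ≤ C * ‖z - z'‖ ^ (2 / 3 : ℝ) := by
  have hRF : Tendsto R F atTop := hR.mono_left hF
  have hw := (fl_tendsto hR z).mono_left hF
  have hw' := (fl_tendsto hR z').mono_left hF
  have h1 := ((hg z hz _ hw).sub (hg z' hz' _ hw')).norm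
  have h2 : Tendsto (fun j => C * ‖lat (fl R z j) / (R j : ℂ) -
      lat (fl R z' j) / (R j : ℂ)‖ ^ (2 / 3 : ℝ)) F (𝓝 (C * ‖z - z'‖ ^ (2 / 3 : ℝ))) :=
    (((hw.sub hw').norm).rpow_const (Or.inr (by norm_num))).const_mul C
  refine le_of_tendsto_of_tendsto h1 h2 ?_
  filter_upwards [hold_diff hRF hold hz hz' hw hw'] with j hj
  have e : G j (fl R z j) - G j (fl R z0 j) - (G j (fl R z' j) - G j (fl R z0 j)) =
    G j (fl R z j) - G j (fl R z' j) := by ring
  rw [e]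
  exact hj

/-- Weak Cauchy-Riemann relation of the limit at one displacement. -/
lemma GLim.cr (hR : Tendsto R atTop atTop) {F : Filter ℕ} [F.NeBot] (hF : F ≤ atTop)
    {G : ℕ → ℤ × ℤ → ℂ} {z0 : ℂ} {r : ℝ} {g : ℂ → ℂ} (hg : GLim R F G z0 r g) {t ε : ℝ}
    (ht : 0 < t) {z : ℂ} (hz : z ∈ Metric.ball z0 r)
    (hz1 : z + t * Complex.I * (1 - Complex.I) ∈ Metric.ball z0 r)
    (hz2 : z + t * (1 - Complex.I) ∈ Metric.ball z0 r)
    (h : ∀ᶠ j in F, ‖(G j ((fl R z j).1 + ⌊t * R j⌋₊, (fl R z j).2 + ⌊t * R j⌋₊) -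
      G j (fl R z j)) - Complex.I * (G j ((fl R z j).1 + ⌊t * R j⌋₊, (fl R z j).2 - ⌊t * R j⌋₊) -
        G j (fl R z j))‖ ≤ ε) :
    ‖g (z + t * Complex.I * (1 - Complex.I)) - g z -
        Complex.I * (g (z + t * (1 - Complex.I)) - g z)‖ ≤ ε := by
  have hRF : Tendsto R F atTop := hR.mono_left hF
  have hv := (fl_tendsto hR z).mono_left hF
  have e1 : z + t * Complex.I * (1 - Complex.I) =
      z + t * (((1 : ℤ) : ℂ) + ((1 : ℤ) : ℂ) * Complex.I) := by
    have : Complex.I * Complex.I = -1 := Complex.I_mul_I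
    push_cast
    linear_combination (-(t : ℂ)) * this
  have e2 : z + t * (1 - Complex.I) =
      z + t * (((1 : ℤ) : ℂ) + ((-1 : ℤ) : ℂ) * Complex.I) := by
    push_cast; ring
  rw [e1] at hz1
  rw [e2] at hz2
  have a1 := disp_tendsto hRF hv ht.le 1 1
  have a2 := disp_tendsto hRF hv ht.le 1 (-1)
  have b0 := hg _ hz _ hv
  have b1 := hg _ hz1 _ a1
  have b2 := hg _ hz2 _ a2
  rw [e1, e2]
  have hl := ((b1.sub b0).sub ((b2.sub b0).const_mul Complex.I)).norm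
  refine le_of_tendsto hl ?_
  filter_upwards [h] with j h6
  simp only [one_mul, neg_mul, ← sub_eq_add_neg]
  have e3 : ∀ a b c d : ℂ, a - d - (b - d) - Complex.I * (c - d - (b - d)) =
      (a - b) - Complex.I * (c - b) := by intro a b c d; ring
  rw [e3]
  exact h6

/-- **`LocHol` implies `LocLim`.** -/
lemma LocHol.locLim (hR : Tendsto R atTop atTop) {F : Filter ℕ} [F.NeBot] (hF : F ≤ atTop)
    {G : ℕ → ℤ × ℤ → ℂ} {z0 : ℂ} {r : ℝ} (hr : 0 < r) (h : LocHol R F G z0 r) :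
    LocLim R F G z0 r where
  hold := h.hold
  hol := by
    intro g hg
    obtain ⟨C, hC, hold⟩ := h.hold
    have hgh : ∀ z ∈ Metric.ball z0 r, ∀ z' ∈ Metric.ball z0 r, ‖z - z'‖ ≤ 2 * r →
        ‖g z - g z'‖ ≤ C * ‖z - z'‖ ^ (2 / 3 : ℝ) := fun z hz z' hz' _ =>
      hg.hold hR hF hold hz hz'
    have hu : (1 - Complex.I : ℂ) ≠ 0 := by
      intro h0
      have := congrArg Complex.re h0
      simp at this
    refine differentiableOn_of_weak Metric.isOpen_ball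
      (continuousOn_of_hold (by positivity : (0 : ℝ) < 2 * r) hgh) hu ?_
    intro K hK hKc ε hε
    obtain ⟨δ, hδ, hth⟩ := hKc.exists_thickening_subset_open Metric.isOpen_ball hK
    obtain ⟨ρ0, hρ0, hcr⟩ := h.cr ε hε
    refine ⟨min ρ0 (δ / 4), lt_min hρ0 (by positivity), fun t ht htt z hz => ?_⟩
    rw [lt_min_iff] at htt
    have hmem : ∀ w : ℂ, ‖w‖ ≤ 2 → z + t * w ∈ Metric.ball z0 r := by
      intro w hw
      apply hth
      rw [Metric.mem_thickening_iff]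
      refine ⟨z, hz, ?_⟩
      rw [dist_eq_norm, add_sub_cancel_left, norm_mul, Complex.norm_real,
        Real.norm_of_nonneg ht.le]
      nlinarith [htt.2, norm_nonneg w]
    have hw2 : ‖(1 - Complex.I : ℂ)‖ ≤ 2 := by
      refine (norm_sub_le _ _).trans ?_
      simp; norm_num
    have hw1 : ‖(Complex.I * (1 - Complex.I) : ℂ)‖ ≤ 2 := by
      rw [norm_mul, Complex.norm_I, one_mul]; exact hw2
    have hz' : z ∈ Metric.ball z0 r := hK hz
    refine hg.cr hR hF ht hz' ?_ (hmem _ hw2) ?_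
    · have := hmem _ hw1
      rwa [← mul_assoc] at this
    · filter_upwards [hcr t ht htt.1, near_of_tendsto ((fl_tendsto hR z).mono_left hF) hz'] with
        j h4 h5
      exact h4 (fl R z j) h5

/-- A function which is approximated by holomorphic functions up to constants is holomorphic. -/
lemma diffOn_of_approx {h : ℂ → ℂ} {z0 : ℂ} {r : ℝ}
    (H : ∀ ε > 0, ∃ g : ℂ → ℂ, DifferentiableOn ℂ g (Metric.ball z0 r) ∧
      ∀ z ∈ Metric.ball z0 r, ‖(h z - h z0) - (g z - g z0)‖ ≤ ε) :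
    DifferentiableOn ℂ h (Metric.ball z0 r) := by
  have H' : ∀ n : ℕ, ∃ g : ℂ → ℂ, DifferentiableOn ℂ g (Metric.ball z0 r) ∧
      ∀ z ∈ Metric.ball z0 r, ‖(h z - h z0) - (g z - g z0)‖ ≤ 1 / ((n : ℝ) + 1) := fun n =>
    H _ (by positivity)
  choose g hg1 hg2 using H'
  have hu : TendstoUniformlyOn (fun n z => g n z - g n z0 + h z0) h atTop (Metric.ball z0 r) := by
    rw [Metric.tendstoUniformlyOn_iff]
    intro ε hε
    obtain ⟨N, hN⟩ := exists_nat_one_div_lt hε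
    filter_upwards [eventually_ge_atTop N] with n hn z hz
    rw [dist_eq_norm]
    have e : h z - (g n z - g n z0 + h z0) = (h z - h z0) - (g n z - g n z0) := by ring
    rw [e]
    refine (hg2 n z hz).trans_lt (lt_of_le_of_lt ?_ hN)
    apply one_div_le_one_div_of_le (by positivity)
    have : (N : ℝ) ≤ n := by exact_mod_cast hn
    linarith
  exact hu.tendstoLocallyUniformlyOn.differentiableOn
    (Eventually.of_forall fun n => ((hg1 n).sub_const _).add_const _) Metric.isOpen_ball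

/-- **Holomorphy of the limit from approximations.** -/
theorem holo_of_CRA (hx : StrictMono x) (hy : StrictMono y) (hA : Approx x y R X Y)
    (hcr : CRA P x y R H) (U : Ultrafilter ℕ) (hU : (U : Filter ℕ) ≤ atTop) {h : ℂ → ℂ}
    (hh : ∀ z ∈ Reg P.Q x y, IsLim P R X Y H U z (h z)) : DifferentiableOn ℂ h (Om P.Q x y) := by
  intro z0 hz0
  obtain ⟨r1, hr1, hcr⟩ := hcr U hU z0 hz0
  obtain ⟨r2, hr2, hball⟩ := Metric.isOpen_iff.1 (isOpen_Om P.Q x y) z0 hz0
  set r := min r1 r2 with hrdef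
  have hr : 0 < r := lt_min hr1 hr2
  have hR := hA.R_top
  have key : DifferentiableOn ℂ h (Metric.ball z0 r) := by
    apply diffOn_of_approx
    intro ε hε
    obtain ⟨G, hG, hcl⟩ := hcr ε hε
    obtain ⟨g, hlim⟩ := exists_gLim hR U hU hr1 hG.hold
    have hg := hG.hol g hlim
    have hsub : Metric.ball z0 r ⊆ Metric.ball z0 r1 :=
      Metric.ball_subset_ball (min_le_left _ _)
    refine ⟨g, hg.mono hsub, fun z hz => ?_⟩
    have hzO : z ∈ Om P.Q x y := hball (Metric.ball_subset_ball (min_le_right _ _) hz)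
    have hz0' : z0 ∈ Metric.ball z0 r := Metric.mem_ball_self hr
    obtain ⟨v, hv⟩ := exists_appr (P := P) hx hy hA hU (Om_subset _ _ _ hzO)
    obtain ⟨w, hw⟩ := exists_appr (P := P) hx hy hA hU (Om_subset _ _ _ hz0)
    have a1 := hh _ (Om_subset _ _ _ hzO) _ hv
    have a2 := hh _ (Om_subset _ _ _ hz0) _ hw
    have b1 := hlim z (hsub hz) _ hv.2
    have b2 := hlim z0 (hsub hz0') _ hw.2
    have hl := ((a1.sub a2).sub (b1.sub b2)).norm
    refine le_of_tendsto hl ?_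
    filter_upwards [hcl, near_of_tendsto hv.2 (hsub hz), near_of_tendsto hw.2 (hsub hz0')] with
      j h1 h2 h3
    have e : H j (v j) - H j (w j) - (G j (v j) - G j (fl R z0 j) -
        (G j (w j) - G j (fl R z0 j))) = (H j (v j) - H j (w j)) - (G j (v j) - G j (w j)) := by
      ring
    rw [e]
    exact h1 _ _ h2 h3
  exact (key z0 (Metric.mem_ball_self hr)).differentiableAt
    (Metric.ball_mem_nhds z0 hr) |>.differentiableWithinAt

end Pool.Agent.Q1.M4
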