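import Mathlib
import Pool.Agent.Q1.M4.Poly
import Pool.Agent.Q1.M4.Data

set_option autoImplicit false
open Set Filter Topology Metric

/-! Module M4, geometry of the polyomino domain `Om Q x y`: the domain is connected, it is a half
disc at an interior point of a boundary side and a sector at a boundary grid vertex, and its
frontier is the union of the sides. -/

namespace Pool.Agent.Q1.M4

open Pool.Agent.H75.Perc (dir dir_cases)

/-! ### The domain is nonempty and connected -/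

/-- Points of the open rectangle of a cell of `Q` belong to the domain. -/
lemma mem_Om_of_inner {Q : Finset Cell} {x y : ℤ → ℝ} (hx : StrictMono x) (hy : StrictMono y)
    {c : Cell} (hc : c ∈ Q) {z : ℂ} (h1 : x c.1 < z.re) (h2 : z.re < x (c.1 + 1))
    (h3 : y c.2 < z.im) (h4 : z.im < y (c.2 + 1)) : z ∈ Om Q x y := by
  rw [mem_Om hx hy]
  refine ⟨⟨c, hc, ⟨h1.le, h2.le⟩, h3.le, h4.le⟩, ?_⟩
  intro d hd
  have e1 := line_uniq hx h1 h2 hd.1.1 hd.1.2
  have e2 := line_uniq hy h3 h4 hd.2.1 hd.2.2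
  have : d = c := Prod.ext e1 e2
  rwa [this]

/-- The centre of a cell. -/
noncomputable def cen (x y : ℤ → ℝ) (c : Cell) : ℂ :=
  ⟨(x c.1 + x (c.1 + 1)) / 2, (y c.2 + y (c.2 + 1)) / 2⟩

lemma cen_mem {Q : Finset Cell} {x y : ℤ → ℝ} (hx : StrictMono x) (hy : StrictMono y)
    {c : Cell} (hc : c ∈ Q) : cen x y c ∈ Om Q x y := by
  have h1 : x c.1 < x (c.1 + 1) := hx (by omega)
  have h2 : y c.2 < y (c.2 + 1) := hy (by omega)
  apply mem_Om_of_inner hx hy hc <;> simp only [cen] <;> linarith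

lemma cen_mem_rect {x y : ℤ → ℝ} (hx : StrictMono x) (hy : StrictMono y) (c : Cell) :
    cen x y c ∈ rect x y c := by
  have h1 : x c.1 < x (c.1 + 1) := hx (by omega)
  have h2 : y c.2 < y (c.2 + 1) := hy (by omega)
  refine ⟨⟨?_, ?_⟩, ?_, ?_⟩ <;> simp only [cen] <;> linarith

lemma Om_nonempty {Q : Finset Cell} {x y : ℤ → ℝ} (hx : StrictMono x) (hy : StrictMono y)
    (hQ : Q.Nonempty) : (Om Q x y).Nonempty := by
  obtain ⟨c, hc⟩ := hQ
  exact ⟨_, cen_mem hx hy hc⟩

/-- The part of the domain in a closed cell is star-shaped. -/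
lemma starConvex_cell {Q : Finset Cell} {x y : ℤ → ℝ} (hx : StrictMono x) (hy : StrictMono y)
    {c : Cell} (hc : c ∈ Q) : StarConvex ℝ (cen x y c) (Om Q x y ∩ rect x y c) := by
  intro z hz a b ha hb hab
  rcases eq_or_lt_of_le ha with h0 | h0
  · have hb1 : b = 1 := by linarith
    rw [← h0, hb1]
    simpa using hz
  · obtain ⟨-, ⟨z1, z2⟩, z3, z4⟩ := hz
    have h1 : x c.1 < x (c.1 + 1) := hx (by omega)
    have h2 : y c.2 < y (c.2 + 1) := hy (by omega)
    have e1 : (a • cen x y c + b • z).re = a * ((x c.1 + x (c.1 + 1)) / 2) + b * z.re := by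
      simp [cen]
    have e2 : (a • cen x y c + b • z).im = a * ((y c.2 + y (c.2 + 1)) / 2) + b * z.im := by
      simp [cen]
    have hb' : b = 1 - a := by linarith
    subst hb'
    have k1 : x c.1 < (a • cen x y c + (1 - a) • z).re := by rw [e1]; nlinarith
    have k2 : (a • cen x y c + (1 - a) • z).re < x (c.1 + 1) := by rw [e1]; nlinarith
    have k3 : y c.2 < (a • cen x y c + (1 - a) • z).im := by rw [e2]; nlinarith
    have k4 : (a • cen x y c + (1 - a) • z).im < y (c.2 + 1) := by rw [e2]; nlinarith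
    exact ⟨mem_Om_of_inner hx hy hc k1 k2 k3 k4, ⟨k1.le, k2.le⟩, k3.le, k4.le⟩

/-- Two adjacent cells of `Q` have a common point of the domain. -/
lemma adj_inter {Q : Finset Cell} {x y : ℤ → ℝ} (hx : StrictMono x) (hy : StrictMono y)
    {c d : Cell} (hc : c ∈ Q) (hd : d ∈ Q) (h : Adj4 c d) :
    ((Om Q x y ∩ rect x y c) ∩ (Om Q x y ∩ rect x y d)).Nonempty := by
  obtain ⟨k, rfl⟩ := h
  obtain ⟨i, j⟩ := c
  have X1 : x (i - 1) < x i := hx (by omega)
  have X2 : x i < x (i + 1) := hx (by omega)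
  have X3 : x (i + 1) < x (i + 1 + 1) := hx (by omega)
  have Y1 : y (j - 1) < y j := hy (by omega)
  have Y2 : y j < y (j + 1) := hy (by omega)
  have Y3 : y (j + 1) < y (j + 1 + 1) := hy (by omega)
  rcases dir_cases k with ⟨-, e⟩ | ⟨-, e⟩ | ⟨-, e⟩ | ⟨-, e⟩ <;> rw [e] at hd ⊢ <;>
    simp only [Prod.mk_add_mk, add_zero, ← sub_eq_add_neg] at hd ⊢
  · have m1 : (⟨x (i + 1), (y j + y (j + 1)) / 2⟩ : ℂ) ∈ rect x y (i, j) := by
      refine ⟨⟨?_, ?_⟩, ?_, ?_⟩ <;> simp only <;> linarith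
    have m2 : (⟨x (i + 1), (y j + y (j + 1)) / 2⟩ : ℂ) ∈ rect x y (i + 1, j) := by
      refine ⟨⟨?_, ?_⟩, ?_, ?_⟩ <;> simp only <;> linarith
    have m3 : (⟨x (i + 1), (y j + y (j + 1)) / 2⟩ : ℂ) ∈ Om Q x y := by
      rw [mem_Om hx hy]
      refine ⟨⟨_, hc, m1⟩, ?_⟩
      rintro ⟨a, b⟩ hab
      have e1 := line_uniq hy (i := j) (j := b) (s := (y j + y (j + 1)) / 2)
        (by linarith) (by linarith) hab.2.1 hab.2.2
      have e2 := line_grid hx hab.1.1 hab.1.2
      simp only at e1 e2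
      rcases e2 with rfl | rfl <;> subst e1
      · exact hd
      · simpa using hc
    exact ⟨_, ⟨m3, m1⟩, m3, m2⟩
  · have m1 : (⟨(x i + x (i + 1)) / 2, y (j + 1)⟩ : ℂ) ∈ rect x y (i, j) := by
      refine ⟨⟨?_, ?_⟩, ?_, ?_⟩ <;> simp only <;> linarith
    have m2 : (⟨(x i + x (i + 1)) / 2, y (j + 1)⟩ : ℂ) ∈ rect x y (i, j + 1) := by
      refine ⟨⟨?_, ?_⟩, ?_, ?_⟩ <;> simp only <;> linarith
    have m3 : (⟨(x i + x (i + 1)) / 2, y (j + 1)⟩ : ℂ) ∈ Om Q x y := by
      rw [mem_Om hx hy]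
      refine ⟨⟨_, hc, m1⟩, ?_⟩
      rintro ⟨a, b⟩ hab
      have e1 := line_uniq hx (i := i) (j := a) (s := (x i + x (i + 1)) / 2)
        (by linarith) (by linarith) hab.1.1 hab.1.2
      have e2 := line_grid hy hab.2.1 hab.2.2
      simp only at e1 e2
      rcases e2 with rfl | rfl <;> subst e1
      · exact hd
      · simpa using hc
    exact ⟨_, ⟨m3, m1⟩, m3, m2⟩
  · have m1 : (⟨x i, (y j + y (j + 1)) / 2⟩ : ℂ) ∈ rect x y (i, j) := by
      refine ⟨⟨?_, ?_⟩, ?_, ?_⟩ <;> simp only <;> linarith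
    have m2 : (⟨x i, (y j + y (j + 1)) / 2⟩ : ℂ) ∈ rect x y (i - 1, j) := by
      refine ⟨⟨?_, ?_⟩, ?_, ?_⟩ <;> simp only [sub_add_cancel] <;> linarith
    have m3 : (⟨x i, (y j + y (j + 1)) / 2⟩ : ℂ) ∈ Om Q x y := by
      rw [mem_Om hx hy]
      refine ⟨⟨_, hc, m1⟩, ?_⟩
      rintro ⟨a, b⟩ hab
      have e1 := line_uniq hy (i := j) (j := b) (s := (y j + y (j + 1)) / 2)
        (by linarith) (by linarith) hab.2.1 hab.2.2
      have e2 := line_grid hx hab.1.1 hab.1.2
      simp only at e1 e2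
      rcases e2 with rfl | rfl <;> subst e1
      · exact hc
      · exact hd
    exact ⟨_, ⟨m3, m1⟩, m3, m2⟩
  · have m1 : (⟨(x i + x (i + 1)) / 2, y j⟩ : ℂ) ∈ rect x y (i, j) := by
      refine ⟨⟨?_, ?_⟩, ?_, ?_⟩ <;> simp only <;> linarith
    have m2 : (⟨(x i + x (i + 1)) / 2, y j⟩ : ℂ) ∈ rect x y (i, j - 1) := by
      refine ⟨⟨?_, ?_⟩, ?_, ?_⟩ <;> simp only [sub_add_cancel] <;> linarith
    have m3 : (⟨(x i + x (i + 1)) / 2, y j⟩ : ℂ) ∈ Om Q x y := by
      rw [mem_Om hx hy]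
      refine ⟨⟨_, hc, m1⟩, ?_⟩
      rintro ⟨a, b⟩ hab
      have e1 := line_uniq hx (i := i) (j := a) (s := (x i + x (i + 1)) / 2)
        (by linarith) (by linarith) hab.1.1 hab.1.2
      have e2 := line_grid hy hab.2.1 hab.2.2
      simp only at e1 e2
      rcases e2 with rfl | rfl <;> subst e1
      · exact hc
      · exact hd
    exact ⟨_, ⟨m3, m1⟩, m3, m2⟩

/-- The domain of a connected set of cells is connected. -/
theorem isPreconnected_Om {Q : Finset Cell} {x y : ℤ → ℝ} (hx : StrictMono x)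
    (hy : StrictMono y) (hQ : Conn4 (Q : Set Cell)) : IsPreconnected (Om Q x y) := by
  have e : Om Q x y = ⋃ c ∈ (Q : Set Cell), (Om Q x y ∩ rect x y c) := by
    ext z
    simp only [mem_iUnion, mem_inter_iff, exists_prop, Finset.mem_coe]
    constructor
    · intro h
      obtain ⟨c, hc, hz⟩ := Om_subset _ _ _ h
      exact ⟨c, hc, h, hz⟩
    · rintro ⟨c, -, h, -⟩
      exact h
  rw [e]
  apply IsPreconnected.biUnion_of_reflTransGen
  · intro c hc
    exact ((starConvex_cell hx hy hc).isPathConnected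
      ⟨cen_mem hx hy hc, cen_mem_rect hx hy c⟩).isConnected.isPreconnected
  · intro c hc d hd
    have h := hQ c hc d hd
    clear hd
    induction h with
    | refl => exact Relation.ReflTransGen.refl
    | @tail a b hca hab ih =>
      have ha : a ∈ (Q : Set Cell) := by
        rcases Relation.ReflTransGen.cases_tail hca with h0 | ⟨a', -, h1⟩
        · rw [h0]; exact hc
        · exact h1.2
      exact ih.tail ⟨adj_inter hx hy ha hab.2 hab.1, ha⟩

end Pool.Agent.Q1.M4
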