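import Mathlib
import Pool.Agent.Q1.M4.Geo

set_option autoImplicit false
open Set Filter Topology Metric

/-! Module M4, geometry of the polyomino domain `Om Q x y`, continued: unit directions, the half
discs at the points of a boundary side, the quadrants at a grid vertex. -/

namespace Pool.Agent.Q1.M4

open Pool.Agent.H75.Perc (dir dir_cases)

/-! ### Unit directions -/

/-- The direction `k` as a unit complex number. -/
noncomputable def udir (k : ℤ) : ℂ := ⟨(dir k).1, (dir k).2⟩

lemma udir_cases (k : ℤ) : (k % 4 = 0 ∧ udir k = 1) ∨ (k % 4 = 1 ∧ udir k = Complex.I) ∨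
    (k % 4 = 2 ∧ udir k = -1) ∨ (k % 4 = 3 ∧ udir k = -Complex.I) := by
  rcases dir_cases k with ⟨a, e⟩ | ⟨a, e⟩ | ⟨a, e⟩ | ⟨a, e⟩
  · exact Or.inl ⟨a, by unfold udir; rw [e]; apply Complex.ext <;> simp⟩
  · exact Or.inr (Or.inl ⟨a, by unfold udir; rw [e]; apply Complex.ext <;> simp⟩)
  · exact Or.inr (Or.inr (Or.inl ⟨a, by unfold udir; rw [e]; apply Complex.ext <;> simp⟩))
  · exact Or.inr (Or.inr (Or.inr ⟨a, by unfold udir; rw [e]; apply Complex.ext <;> simp⟩))

lemma norm_udir (k : ℤ) : ‖udir k‖ = 1 := by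
  rcases udir_cases k with ⟨-, e⟩ | ⟨-, e⟩ | ⟨-, e⟩ | ⟨-, e⟩ <;> rw [e] <;> simp

lemma udir_ne (k : ℤ) : udir k ≠ 0 := by
  intro h
  have := norm_udir k
  simp [h] at this

lemma udir_eq_exp (k : ℤ) :
    udir k = Complex.exp (((k : ℝ) * (Real.pi / 2) : ℝ) * Complex.I) := by
  have key : ∀ m j : ℤ, k = 4 * m + j →
      Complex.exp (((k : ℝ) * (Real.pi / 2) : ℝ) * Complex.I) =
      Complex.exp (((j : ℝ) * (Real.pi / 2) : ℝ) * Complex.I) := by
    intro m j h
    have e : (((k : ℝ) * (Real.pi / 2) : ℝ) : ℂ) * Complex.I =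
        (((j : ℝ) * (Real.pi / 2) : ℝ) : ℂ) * Complex.I + m * (2 * Real.pi * Complex.I) := by
      rw [h]; push_cast; ring
    rw [e, Complex.exp_periodic.int_mul]
  have h4 := Int.emod_add_mul_ediv k 4
  have e0 := key (k / 4) (k % 4) (by omega)
  rw [e0]
  rcases udir_cases k with ⟨a, e⟩ | ⟨a, e⟩ | ⟨a, e⟩ | ⟨a, e⟩ <;> rw [a, e]
  · simp
  · have : (((1 : ℤ) : ℝ) * (Real.pi / 2) : ℝ) * Complex.I = Real.pi / 2 * Complex.I := by
      push_cast; ring
    rw [this, Complex.exp_pi_div_two_mul_I]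
  · have : (((2 : ℤ) : ℝ) * (Real.pi / 2) : ℝ) * Complex.I = Real.pi * Complex.I := by
      push_cast; ring
    rw [this, Complex.exp_pi_mul_I]
  · have : (((3 : ℤ) : ℝ) * (Real.pi / 2) : ℝ) * Complex.I =
      Real.pi * Complex.I + Real.pi / 2 * Complex.I := by
      push_cast; ring
    rw [this, Complex.exp_add, Complex.exp_pi_mul_I, Complex.exp_pi_div_two_mul_I]
    ring

lemma udir_add_four (k : ℤ) : udir (k + 4) = udir k := by
  unfold udir; rw [dir_add_four]

/-! ### Sides -/

/-- Length of a side. -/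
def len (x y : ℤ → ℝ) (s : Cell × ℤ) : ℝ :=
  if s.2 % 2 = 0 then x (s.1.1 + 1) - x s.1.1 else y (s.1.2 + 1) - y s.1.2

lemma side_len_pos {x y : ℤ → ℝ} (hx : StrictMono x) (hy : StrictMono y) (s : Cell × ℤ) :
    0 < len x y s := by
  unfold len
  have h1 : x s.1.1 < x (s.1.1 + 1) := hx (by omega)
  have h2 : y s.1.2 < y (s.1.2 + 1) := hy (by omega)
  split_ifs <;> linarith

lemma pt_head (x y : ℤ → ℝ) (s : Cell × ℤ) :
    pt x y (head s) = pt x y (tail s) + len x y s * udir s.2 := by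
  obtain ⟨⟨i, j⟩, k⟩ := s
  unfold head
  rcases dir_cases k with ⟨a, e⟩ | ⟨a, e⟩ | ⟨a, e⟩ | ⟨a, e⟩ <;>
  rcases udir_cases k with ⟨b, f⟩ | ⟨b, f⟩ | ⟨b, f⟩ | ⟨b, f⟩ <;>
  first
  | (exfalso; omega)
  | (have h2 : k % 2 = 0 := by omega
     simp only [e, f, pt, tail, len, a, h2, if_true]
     apply Complex.ext <;> simp)
  | (have h2 : k % 2 = 1 := by omega
     simp only [e, f, pt, tail, len, a, h2]
     apply Complex.ext <;> simp)

lemma PType.vert_head (P : PType) (n : ℕ) : P.vert (n + 1) = head (P.side n) := by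
  unfold PType.vert PType.side
  rw [Function.iterate_succ_apply', head_eq_tail_next]

lemma PType.side_next (P : PType) (n : ℕ) : P.side (n + 1) = nextSide P.Q (P.side n) := by
  unfold PType.side
  rw [Function.iterate_succ_apply']

lemma PType.side_isSide (P : PType) (n : ℕ) : IsSide P.Q (P.side n) := by
  induction n with
  | zero => exact P.side0
  | succ n ih => rw [P.side_next]; exact isSide_next ih

lemma PType.sidePt_eq (P : PType) (x y : ℤ → ℝ) (n : ℕ) (t : ℝ) :
    P.sidePt x y n t = pt x y (P.vert n) + (t * len x y (P.side n) : ℝ) * udir (P.side n).2 := by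
  unfold PType.sidePt
  rw [P.vert_head, pt_head]
  unfold PType.vert
  push_cast
  ring

/-- In the open strip between the two grid lines next to `x i` there are two cells. -/
lemma line_two {x : ℤ → ℝ} (hx : StrictMono x) {i j : ℤ} {s : ℝ} (h1 : x (i - 1) < s)
    (h2 : s < x (i + 1)) (h3 : x j ≤ s) (h4 : s ≤ x (j + 1)) :
    (j = i ∧ x i ≤ s) ∨ (j = i - 1 ∧ s ≤ x i) := by
  have a : x (i - 1) < x (j + 1) := lt_of_lt_of_le h1 h4
  have b : x j < x (i + 1) := lt_of_le_of_lt h3 h2
  rw [hx.lt_iff_lt] at a b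
  have : j = i ∨ j = i - 1 := by omega
  rcases this with rfl | rfl
  · exact Or.inl ⟨rfl, h3⟩
  · exact Or.inr ⟨rfl, by rwa [sub_add_cancel] at h4⟩

/-- Next to a boundary side the domain is on the left. -/
lemma strip {Q : Finset Cell} {x y : ℤ → ℝ} (hx : StrictMono x) (hy : StrictMono y)
    {s : Cell × ℤ} (hs : IsSide Q s) : ∃ g > 0, ∀ a b : ℝ, 0 < a → a < len x y s → |b| < g →
      (pt x y (tail s) + (a + b * Complex.I) * udir s.2 ∈ Om Q x y ↔ 0 < b) ∧
      (pt x y (tail s) + (a + b * Complex.I) * udir s.2 ∈ Reg Q x y ↔ 0 ≤ b) := by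
  obtain ⟨⟨i, j⟩, k⟩ := s
  obtain ⟨hc, hd⟩ := hs
  have X0 : x (i - 1) < x i := hx (by omega)
  have X1 : x i < x (i + 1) := hx (by omega)
  have X2 : x (i + 1) < x (i + 1 + 1) := hx (by omega)
  have Y0 : y (j - 1) < y j := hy (by omega)
  have Y1 : y j < y (j + 1) := hy (by omega)
  have Y2 : y (j + 1) < y (j + 1 + 1) := hy (by omega)
  -- general principle
  have gen : ∀ (z : ℂ) (b : ℝ) (d : Cell), d ∉ Q →
      (z ∈ rect x y (i, j) ↔ 0 ≤ b) → (z ∈ rect x y d ↔ b ≤ 0) →
      (∀ c, z ∈ rect x y c → c = (i, j) ∨ c = d) →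
      (z ∈ Om Q x y ↔ 0 < b) ∧ (z ∈ Reg Q x y ↔ 0 ≤ b) := by
    intro z b d hd h1 h2 h3
    constructor
    · rw [mem_Om hx hy]
      constructor
      · rintro ⟨-, h⟩
        by_contra hb
        exact hd (h d (h2.2 (not_lt.1 hb)))
      · intro hb
        refine ⟨⟨_, hc, h1.2 hb.le⟩, ?_⟩
        intro c hcz
        rcases h3 c hcz with rfl | rfl
        · exact hc
        · exact absurd (h2.1 hcz) (not_le.2 hb)
    · constructor
      · rintro ⟨c, hcQ, hcz⟩
        rcases h3 c hcz with rfl | rfl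
        · exact h1.1 hcz
        · exact absurd hcQ hd
      · intro hb
        exact ⟨_, hc, h1.2 hb⟩
  simp only at hd
  rcases dir_cases k with ⟨a, e⟩ | ⟨a, e⟩ | ⟨a, e⟩ | ⟨a, e⟩
  · -- direction 0
    have e' : dir (k - 1) = (0, -1) := by
      rcases dir_cases (k - 1) with ⟨b, f⟩ | ⟨b, f⟩ | ⟨b, f⟩ | ⟨b, f⟩ <;>
      first | (exfalso; omega) | exact f
    have f : udir k = 1 := by unfold udir; rw [e]; apply Complex.ext <;> simp
    have h2 : k % 2 = 0 := by omega
    rw [e'] at hd
    refine ⟨min (y j - y (j - 1)) (y (j + 1) - y j), lt_min (by linarith) (by linarith), ?_⟩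
    intro s b hs1 hs2 hb
    simp only [len, h2, if_true] at hs2
    rw [lt_min_iff, abs_lt, abs_lt] at hb
    simp only [f, tail, a, if_true]
    have er : (pt x y (i, j) + (s + b * Complex.I) * 1 : ℂ).re = x i + s := by simp [pt]
    have ei : (pt x y (i, j) + (s + b * Complex.I) * 1 : ℂ).im = y j + b := by simp [pt]
    refine gen _ b _ hd ?_ ?_ ?_
    · rw [mem_rect, er, ei]
      constructor
      · rintro ⟨-, h, -⟩; simp only at h; linarith
      · intro h
        refine ⟨⟨?_, ?_⟩, ?_, ?_⟩ <;> simp only <;> linarith [hb.2.2]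
    · rw [mem_rect, er, ei]
      simp only [Prod.mk_add_mk, add_zero, ← sub_eq_add_neg, sub_add_cancel]
      constructor
      · rintro ⟨-, -, h⟩; linarith
      · intro h
        refine ⟨⟨?_, ?_⟩, ?_, ?_⟩ <;> linarith [hb.1.1]
    · rintro ⟨c1, c2⟩ hcz
      rw [mem_rect, er, ei] at hcz
      have e1 := line_uniq hx (i := i) (j := c1) (by linarith) (by linarith) hcz.1.1 hcz.1.2
      have e2 := line_two hy (i := j) (j := c2) (by linarith [hb.1.1]) (by linarith [hb.2.2])
        hcz.2.1 hcz.2.2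
      subst e1
      rcases e2 with ⟨rfl, -⟩ | ⟨rfl, -⟩
      · exact Or.inl rfl
      · right; simp [sub_eq_add_neg]
  · -- direction 1
    have e' : dir (k - 1) = (1, 0) := by
      rcases dir_cases (k - 1) with ⟨b, f⟩ | ⟨b, f⟩ | ⟨b, f⟩ | ⟨b, f⟩ <;>
      first | (exfalso; omega) | exact f
    have f : udir k = Complex.I := by unfold udir; rw [e]; apply Complex.ext <;> simp
    have h2 : k % 2 = 1 := by omega
    rw [e'] at hd
    refine ⟨min (x (i + 1) - x i) (x (i + 1 + 1) - x (i + 1)),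
      lt_min (by linarith) (by linarith), ?_⟩
    intro s b hs1 hs2 hb
    simp only [len, h2] at hs2
    norm_num at hs2
    rw [lt_min_iff, abs_lt, abs_lt] at hb
    have et : tail ((i, j), k) = (i + 1, j) := by simp [tail, a]
    simp only [f]
    rw [et]
    have er : (pt x y (i + 1, j) + (s + b * Complex.I) * Complex.I : ℂ).re = x (i + 1) - b := by
      simp [pt, sub_eq_add_neg]
    have ei : (pt x y (i + 1, j) + (s + b * Complex.I) * Complex.I : ℂ).im = y j + s := by
      simp [pt]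
    refine gen _ b _ hd ?_ ?_ ?_
    · rw [mem_rect, er, ei]
      constructor
      · rintro ⟨⟨-, h⟩, -⟩; simp only at h; linarith
      · intro h
        refine ⟨⟨?_, ?_⟩, ?_, ?_⟩ <;> simp only <;> linarith [hb.1.2]
    · rw [mem_rect, er, ei]
      simp only [Prod.mk_add_mk, add_zero]
      constructor
      · rintro ⟨⟨h, -⟩, -⟩; linarith
      · intro h
        refine ⟨⟨?_, ?_⟩, ?_, ?_⟩ <;> linarith [hb.2.1]
    · rintro ⟨c1, c2⟩ hcz
      rw [mem_rect, er, ei] at hcz
      have e1 := line_uniq hy (i := j) (j := c2) (by linarith) (by linarith) hcz.2.1 hcz.2.2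
      have e2 := line_two hx (i := i + 1) (j := c1) (by rw [add_sub_cancel_right]; linarith [hb.1.2])
        (by linarith [hb.2.1]) hcz.1.1 hcz.1.2
      subst e1
      rcases e2 with ⟨rfl, -⟩ | ⟨rfl, -⟩
      · right; simp
      · left; simp
  · -- direction 2
    have e' : dir (k - 1) = (0, 1) := by
      rcases dir_cases (k - 1) with ⟨b, f⟩ | ⟨b, f⟩ | ⟨b, f⟩ | ⟨b, f⟩ <;>
      first | (exfalso; omega) | exact f
    have f : udir k = -1 := by unfold udir; rw [e]; apply Complex.ext <;> simp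
    have h2 : k % 2 = 0 := by omega
    rw [e'] at hd
    refine ⟨min (y (j + 1) - y j) (y (j + 1 + 1) - y (j + 1)),
      lt_min (by linarith) (by linarith), ?_⟩
    intro s b hs1 hs2 hb
    simp only [len, h2, if_true] at hs2
    rw [lt_min_iff, abs_lt, abs_lt] at hb
    have et : tail ((i, j), k) = (i + 1, j + 1) := by simp [tail, a]
    simp only [f]
    rw [et]
    have er : (pt x y (i + 1, j + 1) + (s + b * Complex.I) * (-1) : ℂ).re = x (i + 1) - s := by
      simp [pt, sub_eq_add_neg]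
    have ei : (pt x y (i + 1, j + 1) + (s + b * Complex.I) * (-1) : ℂ).im = y (j + 1) - b := by
      simp [pt, sub_eq_add_neg]
    refine gen _ b _ hd ?_ ?_ ?_
    · rw [mem_rect, er, ei]
      constructor
      · rintro ⟨-, -, h⟩; simp only at h; linarith
      · intro h
        refine ⟨⟨?_, ?_⟩, ?_, ?_⟩ <;> simp only <;> linarith [hb.1.2]
    · rw [mem_rect, er, ei]
      simp only [Prod.mk_add_mk, add_zero]
      constructor
      · rintro ⟨-, h, -⟩; linarith
      · intro h
        refine ⟨⟨?_, ?_⟩, ?_, ?_⟩ <;> linarith [hb.2.1]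
    · rintro ⟨c1, c2⟩ hcz
      rw [mem_rect, er, ei] at hcz
      have e1 := line_uniq hx (i := i) (j := c1) (by linarith) (by linarith) hcz.1.1 hcz.1.2
      have e2 := line_two hy (i := j + 1) (j := c2) (by rw [add_sub_cancel_right]; linarith [hb.1.2])
        (by linarith [hb.2.1]) hcz.2.1 hcz.2.2
      subst e1
      rcases e2 with ⟨rfl, -⟩ | ⟨rfl, -⟩
      · right; simp
      · left; simp
  · -- direction 3
    have e' : dir (k - 1) = (-1, 0) := by
      rcases dir_cases (k - 1) with ⟨b, f⟩ | ⟨b, f⟩ | ⟨b, f⟩ | ⟨b, f⟩ <;>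
      first | (exfalso; omega) | exact f
    have f : udir k = -Complex.I := by unfold udir; rw [e]; apply Complex.ext <;> simp
    have h2 : k % 2 = 1 := by omega
    rw [e'] at hd
    refine ⟨min (x i - x (i - 1)) (x (i + 1) - x i), lt_min (by linarith) (by linarith), ?_⟩
    intro s b hs1 hs2 hb
    simp only [len, h2] at hs2
    norm_num at hs2
    rw [lt_min_iff, abs_lt, abs_lt] at hb
    have et : tail ((i, j), k) = (i, j + 1) := by simp [tail, a]
    simp only [f]
    rw [et]
    have er : (pt x y (i, j + 1) + (s + b * Complex.I) * (-Complex.I) : ℂ).re = x i + b := by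
      simp [pt]
    have ei : (pt x y (i, j + 1) + (s + b * Complex.I) * (-Complex.I) : ℂ).im =
        y (j + 1) - s := by
      simp [pt, sub_eq_add_neg]
    refine gen _ b _ hd ?_ ?_ ?_
    · rw [mem_rect, er, ei]
      constructor
      · rintro ⟨⟨h, -⟩, -⟩; simp only at h; linarith
      · intro h
        refine ⟨⟨?_, ?_⟩, ?_, ?_⟩ <;> simp only <;> linarith [hb.2.2]
    · rw [mem_rect, er, ei]
      simp only [Prod.mk_add_mk, add_zero, ← sub_eq_add_neg, sub_add_cancel]
      constructor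
      · rintro ⟨⟨-, h⟩, -⟩; linarith
      · intro h
        refine ⟨⟨?_, ?_⟩, ?_, ?_⟩ <;> linarith [hb.1.1]
    · rintro ⟨c1, c2⟩ hcz
      rw [mem_rect, er, ei] at hcz
      have e1 := line_uniq hy (i := j) (j := c2) (by linarith) (by linarith) hcz.2.1 hcz.2.2
      have e2 := line_two hx (i := i) (j := c1) (by linarith [hb.1.1]) (by linarith [hb.2.2])
        hcz.1.1 hcz.1.2
      subst e1
      rcases e2 with ⟨rfl, -⟩ | ⟨rfl, -⟩
      · exact Or.inl rfl
      · right; simp [sub_eq_add_neg]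

end Pool.Agent.Q1.M4
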