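import Mathlib
import Pool.Agent.Q1.M4.Geo2

set_option autoImplicit false
open Set Filter Topology Metric

/-! Module M4, geometry of the polyomino domain `Om Q x y`, continued: half discs at the interior
points of the sides, sectors at the boundary grid vertices. -/

namespace Pool.Agent.Q1.M4

open Pool.Agent.H75.Perc (dir dir_cases)

/-! ### Half discs -/

/-- Half disc at an interior point of a side, with explicit radius. -/
lemma half_disc_side {Q : Finset Cell} {x y : ℤ → ℝ} (hx : StrictMono x) (hy : StrictMono y)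
    {s : Cell × ℤ} (hs : IsSide Q s) : ∃ g > 0, ∀ t r : ℝ, r ≤ g → r ≤ t * len x y s →
      r ≤ (1 - t) * len x y s →
      ∀ z ∈ ball (pt x y (tail s) + (t * len x y s : ℝ) * udir s.2) r,
      (z ∈ Om Q x y ↔
        0 < ((z - (pt x y (tail s) + (t * len x y s : ℝ) * udir s.2)) / udir s.2).im) ∧
      (z ∈ Reg Q x y ↔
        0 ≤ ((z - (pt x y (tail s) + (t * len x y s : ℝ) * udir s.2)) / udir s.2).im) ∧
      (((z - (pt x y (tail s) + (t * len x y s : ℝ) * udir s.2)) / udir s.2).im = 0 →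
        ∃ t' : ℝ, 0 < t' ∧ t' < 1 ∧ z = pt x y (tail s) + (t' * len x y s : ℝ) * udir s.2) := by
  obtain ⟨g, hg, h⟩ := strip hx hy hs
  refine ⟨g, hg, ?_⟩
  intro t r h1 h2 h3 z hz
  set z0 := pt x y (tail s) + (t * len x y s : ℝ) * udir s.2 with hz0
  set v := (z - z0) / udir s.2 with hv
  have hL := side_len_pos hx hy s
  have hu := udir_ne s.2
  have hvn : ‖v‖ < r := by
    rw [hv, norm_div, norm_udir, div_one]
    rwa [mem_ball, dist_eq_norm] at hz
  have hre := Complex.abs_re_le_norm v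
  have him := Complex.abs_im_le_norm v
  have hre' := abs_lt.1 (lt_of_le_of_lt hre hvn)
  have ez : z = pt x y (tail s) +
      ((t * len x y s + v.re : ℝ) + (v.im : ℝ) * Complex.I) * udir s.2 := by
    have e1 : z = z0 + v * udir s.2 := by
      rw [hv]; field_simp; ring
    rw [e1, hz0]
    nth_rewrite 1 [← Complex.re_add_im v]
    push_cast
    ring
  have h4 := h (t * len x y s + v.re) v.im (by linarith) (by linarith)
    (lt_of_le_of_lt him (by linarith))
  rw [← ez] at h4
  refine ⟨h4.1, h4.2, ?_⟩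
  intro h5
  refine ⟨t + v.re / len x y s, ?_, ?_, ?_⟩
  · have : 0 < (t * len x y s + v.re) / len x y s := div_pos (by linarith) hL
    rwa [add_div, mul_div_assoc, div_self hL.ne', mul_one] at this
  · have : (t * len x y s + v.re) / len x y s < 1 := by
      rw [div_lt_one hL]; linarith
    rwa [add_div, mul_div_assoc, div_self hL.ne', mul_one] at this
  · rw [h5] at ez
    rw [ez]
    have : (t + v.re / len x y s) * len x y s = t * len x y s + v.re := by
      field_simp
    rw [this]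
    simp

/-- Half disc at an interior point of a side of the boundary walk. -/
theorem PType.half_disc (P : PType) {x y : ℤ → ℝ} (hx : StrictMono x) (hy : StrictMono y)
    (n : ℕ) {t : ℝ} (ht0 : 0 < t) (ht1 : t < 1) : ∃ r > 0, ∀ z ∈ ball (P.sidePt x y n t) r,
      (z ∈ Om P.Q x y ↔ 0 < ((z - P.sidePt x y n t) / udir (P.side n).2).im) ∧
      (z ∈ Reg P.Q x y ↔ 0 ≤ ((z - P.sidePt x y n t) / udir (P.side n).2).im) ∧
      (((z - P.sidePt x y n t) / udir (P.side n).2).im = 0 →
        ∃ t' : ℝ, 0 < t' ∧ t' < 1 ∧ z = P.sidePt x y n t') := by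
  obtain ⟨g, hg, h⟩ := half_disc_side hx hy (P.side_isSide n)
  have hL := side_len_pos hx hy (P.side n)
  refine ⟨min g (min (t * len x y (P.side n)) ((1 - t) * len x y (P.side n))),
    lt_min hg (lt_min (by positivity) (mul_pos (by linarith) hL)), ?_⟩
  intro z hz
  have h1 := h t _ (min_le_left _ _) ((min_le_right _ _).trans (min_le_left _ _))
    ((min_le_right _ _).trans (min_le_right _ _)) z (by
      rw [P.sidePt_eq] at hz; exact hz)
  rw [P.sidePt_eq]
  refine ⟨h1.1, h1.2.1, ?_⟩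
  intro h2
  obtain ⟨t', a, b, c⟩ := h1.2.2 h2
  exact ⟨t', a, b, by rw [P.sidePt_eq]; exact c⟩

/-! ### Quadrants at a grid vertex -/

/-- The cell of the quadrant `q` (between the directions `q` and `q + 1`) at the grid vertex
`p`. -/
def qc (p : ℤ × ℤ) (q : ℤ) : Cell :=
  if q % 4 = 0 then p else if q % 4 = 1 then p - (1, 0)
  else if q % 4 = 2 then p - (1, 1) else p - (0, 1)

lemma qc_cases (p : ℤ × ℤ) (q : ℤ) : (q % 4 = 0 ∧ qc p q = p) ∨ (q % 4 = 1 ∧ qc p q = p - (1, 0)) ∨
    (q % 4 = 2 ∧ qc p q = p - (1, 1)) ∨ (q % 4 = 3 ∧ qc p q = p - (0, 1)) := by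
  unfold qc
  have h1 := Int.emod_nonneg q (by norm_num : (4 : ℤ) ≠ 0)
  have h2 := Int.emod_lt_of_pos q (by norm_num : (0 : ℤ) < 4)
  have h : q % 4 = 0 ∨ q % 4 = 1 ∨ q % 4 = 2 ∨ q % 4 = 3 := by omega
  rcases h with h | h | h | h <;> simp [h]

lemma qc_congr (p : ℤ × ℤ) {q q' : ℤ} (h : q % 4 = q' % 4) : qc p q = qc p q' := by
  unfold qc; rw [h]

lemma qc_inj {p : ℤ × ℤ} {q q' : ℤ} (h : qc p q = qc p q') : q % 4 = q' % 4 := by
  obtain ⟨i, j⟩ := p
  rcases qc_cases (i, j) q with ⟨a, e⟩ | ⟨a, e⟩ | ⟨a, e⟩ | ⟨a, e⟩ <;>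
  rcases qc_cases (i, j) q' with ⟨b, f⟩ | ⟨b, f⟩ | ⟨b, f⟩ | ⟨b, f⟩ <;>
  rw [e, f] at h <;>
  first | (rw [a, b]; done) | (exfalso; simp at h; done) | (exfalso; simp at h; omega)

/-- The cell of a side is the quadrant of its direction at the tail. -/
lemma qc_tail (s : Cell × ℤ) : qc (tail s) s.2 = s.1 := by
  obtain ⟨⟨i, j⟩, k⟩ := s
  rcases qc_cases (tail ((i, j), k)) k with ⟨a, e⟩ | ⟨a, e⟩ | ⟨a, e⟩ | ⟨a, e⟩ <;>
    simp only [e] <;> simp [tail, a]

/-- The cell to the right of a side is the quadrant before its direction at the tail. -/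
lemma qc_tail_right (s : Cell × ℤ) : qc (tail s) (s.2 - 1) = s.1 + dir (s.2 - 1) := by
  obtain ⟨⟨i, j⟩, k⟩ := s
  have h : k % 4 = 0 ∨ k % 4 = 1 ∨ k % 4 = 2 ∨ k % 4 = 3 := by omega
  rcases h with h | h | h | h
  · have h3 : (k - 1) % 4 = 3 := by omega
    simp only [qc, tail, dir, h, h3]
    norm_num [← sub_eq_add_neg]
  · have h3 : (k - 1) % 4 = 0 := by omega
    simp only [qc, tail, dir, h, h3]
    norm_num
  · have h3 : (k - 1) % 4 = 1 := by omega
    simp only [qc, tail, dir, h, h3]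
    norm_num
  · have h3 : (k - 1) % 4 = 2 := by omega
    simp only [qc, tail, dir, h, h3]
    norm_num [← sub_eq_add_neg]

/-- Cells at the head of a side. -/
lemma qc_head (s : Cell × ℤ) : qc (head s) (s.2 + 1) = s.1 ∧
    qc (head s) (s.2 + 2) = s.1 + dir (s.2 - 1) ∧ qc (head s) s.2 = s.1 + dir s.2 ∧
    qc (head s) (s.2 - 1) = s.1 + dir s.2 + dir (s.2 - 1) := by
  obtain ⟨⟨i, j⟩, k⟩ := s
  have h : k % 4 = 0 ∨ k % 4 = 1 ∨ k % 4 = 2 ∨ k % 4 = 3 := by omega
  unfold head
  rcases h with h | h | h | h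
  · have h1 : (k + 1) % 4 = 1 := by omega
    have h2 : (k + 2) % 4 = 2 := by omega
    have h3 : (k - 1) % 4 = 3 := by omega
    simp only [qc, tail, dir, h, h1, h2, h3]
    norm_num [← sub_eq_add_neg]
  · have h1 : (k + 1) % 4 = 2 := by omega
    have h2 : (k + 2) % 4 = 3 := by omega
    have h3 : (k - 1) % 4 = 0 := by omega
    simp only [qc, tail, dir, h, h1, h2, h3]
    norm_num
  · have h1 : (k + 1) % 4 = 3 := by omega
    have h2 : (k + 2) % 4 = 0 := by omega
    have h3 : (k - 1) % 4 = 1 := by omega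
    simp only [qc, tail, dir, h, h1, h2, h3]
    norm_num [← sub_eq_add_neg]
  · have h1 : (k + 1) % 4 = 0 := by omega
    have h2 : (k + 2) % 4 = 1 := by omega
    have h3 : (k - 1) % 4 = 2 := by omega
    simp only [qc, tail, dir, h, h1, h2, h3]
    norm_num [← sub_eq_add_neg]

end Pool.Agent.Q1.M4
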