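import Mathlib
import Pool.Agent.Q1.M4.Geo3

set_option autoImplicit false
open Set Filter Topology Metric

/-! Module M4, geometry of the polyomino domain `Om Q x y`, continued: the four quadrants at a
grid vertex in polar coordinates. -/

namespace Pool.Agent.Q1.M4

open Pool.Agent.H75.Perc (dir dir_cases)

lemma div_udir (w : ℂ) (q : ℤ) : (w / udir q).re = w.re * (dir q).1 + w.im * (dir q).2 ∧
    (w / udir q).im = w.im * (dir q).1 - w.re * (dir q).2 := by
  rcases dir_cases q with ⟨a, e⟩ | ⟨a, e⟩ | ⟨a, e⟩ | ⟨a, e⟩ <;>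
  rcases udir_cases q with ⟨b, f⟩ | ⟨b, f⟩ | ⟨b, f⟩ | ⟨b, f⟩ <;>
  first
  | (exfalso; omega)
  | (rw [e, f]; simp [Complex.div_I, div_neg])

/-- The cells near a grid vertex. -/
lemma near_vertex {x y : ℤ → ℝ} (hx : StrictMono x) (hy : StrictMono y) (p : ℤ × ℤ) :
    ∃ g > 0, ∀ w : ℂ, |w.re| < g → |w.im| < g → ∀ c,
      (pt x y p + w ∈ rect x y c ↔
        ∃ q : ℤ, c = qc p q ∧ 0 ≤ (w / udir q).re ∧ 0 ≤ (w / udir q).im) := by
  obtain ⟨i, j⟩ := p
  have X0 : x (i - 1) < x i := hx (by omega)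
  have X1 : x i < x (i + 1) := hx (by omega)
  have Y0 : y (j - 1) < y j := hy (by omega)
  have Y1 : y j < y (j + 1) := hy (by omega)
  refine ⟨min (min (x i - x (i - 1)) (x (i + 1) - x i)) (min (y j - y (j - 1)) (y (j + 1) - y j)),
    lt_min (lt_min (by linarith) (by linarith)) (lt_min (by linarith) (by linarith)), ?_⟩
  intro w h1 h2 c
  rw [lt_min_iff, lt_min_iff, lt_min_iff, abs_lt, abs_lt, abs_lt, abs_lt] at h1 h2
  have er : (pt x y (i, j) + w).re = x i + w.re := by simp [pt]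
  have ei : (pt x y (i, j) + w).im = y j + w.im := by simp [pt]
  rw [mem_rect, er, ei]
  obtain ⟨c1, c2⟩ := c
  simp only
  constructor
  · rintro ⟨⟨a1, a2⟩, a3, a4⟩
    have e1 := line_two hx (i := i) (j := c1) (by linarith [h1.1.1.1]) (by linarith [h1.1.2.2]) a1 a2
    have e2 := line_two hy (i := j) (j := c2) (by linarith [h2.2.1.1]) (by linarith [h2.2.2.2]) a3 a4
    rcases e1 with ⟨rfl, b1⟩ | ⟨rfl, b1⟩ <;> rcases e2 with ⟨rfl, b2⟩ | ⟨rfl, b2⟩
    · refine ⟨0, by simp [qc], ?_⟩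
      rw [(div_udir w 0).1, (div_udir w 0).2]
      simp [dir]
      constructor <;> linarith
    · refine ⟨3, by simp [qc], ?_⟩
      rw [(div_udir w 3).1, (div_udir w 3).2]
      simp [dir]
      constructor <;> linarith
    · refine ⟨1, by simp [qc], ?_⟩
      rw [(div_udir w 1).1, (div_udir w 1).2]
      simp [dir]
      constructor <;> linarith
    · refine ⟨2, by simp [qc], ?_⟩
      rw [(div_udir w 2).1, (div_udir w 2).2]
      simp [dir]
      constructor <;> linarith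
  · rintro ⟨q, hq, b1, b2⟩
    rcases qc_cases (i, j) q with ⟨a, e⟩ | ⟨a, e⟩ | ⟨a, e⟩ | ⟨a, e⟩ <;>
    rcases dir_cases q with ⟨b, f⟩ | ⟨b, f⟩ | ⟨b, f⟩ | ⟨b, f⟩ <;>
    first
    | (exfalso; omega)
    | (rw [e] at hq
       rw [(div_udir w q).1, f] at b1
       rw [(div_udir w q).2, f] at b2
       simp only [Prod.mk_sub_mk, sub_zero, Prod.mk.injEq] at hq
       obtain ⟨rfl, rfl⟩ := hq
       simp at b1 b2
       try simp only [sub_add_cancel]
       refine ⟨⟨?_, ?_⟩, ?_, ?_⟩ <;>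
         linarith [h1.1.1.1, h1.1.1.2, h1.1.2.1, h1.1.2.2, h2.2.1.1, h2.2.1.2, h2.2.2.1, h2.2.2.2])

/-- The closed quadrant in polar coordinates. -/
lemma cos_sin_nonneg {θ : ℝ} : (0 ≤ Real.cos θ ∧ 0 ≤ Real.sin θ) ↔
    ∃ m : ℤ, 2 * Real.pi * m ≤ θ ∧ θ ≤ 2 * Real.pi * m + Real.pi / 2 := by
  have hpi := Real.pi_pos
  constructor
  · rintro ⟨h1, h2⟩
    have hp : 0 < 2 * Real.pi := by positivity
    set m := ⌊θ / (2 * Real.pi)⌋ with hm
    have f1 : (m : ℝ) ≤ θ / (2 * Real.pi) := Int.floor_le _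
    have f2 : θ / (2 * Real.pi) < m + 1 := Int.lt_floor_add_one _
    rw [le_div_iff₀ hp] at f1
    rw [div_lt_iff₀ hp] at f2
    refine ⟨m, by linarith, ?_⟩
    by_contra hcon
    push Not at hcon
    have ec : Real.cos θ = Real.cos (θ - m * (2 * Real.pi)) := (Real.cos_sub_int_mul_two_pi θ m).symm
    have es : Real.sin θ = Real.sin (θ - m * (2 * Real.pi)) := (Real.sin_sub_int_mul_two_pi θ m).symm
    rw [ec] at h1
    rw [es] at h2
    set ψ := θ - m * (2 * Real.pi) with hψ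
    have g1 : Real.pi / 2 < ψ := by rw [hψ]; linarith
    have g2 : ψ < 2 * Real.pi := by rw [hψ]; linarith
    rcases lt_or_ge ψ (Real.pi + Real.pi / 2) with g3 | g3
    · exact absurd h1 (not_le.2 (Real.cos_neg_of_pi_div_two_lt_of_lt g1 g3))
    · have : Real.sin (ψ - 2 * Real.pi) < 0 :=
        Real.sin_neg_of_neg_of_neg_pi_lt (by linarith) (by linarith)
      rw [Real.sin_sub_two_pi] at this
      exact absurd h2 (not_le.2 this)
  · rintro ⟨m, h1, h2⟩
    have ec : Real.cos θ = Real.cos (θ - m * (2 * Real.pi)) := (Real.cos_sub_int_mul_two_pi θ m).symm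
    have es : Real.sin θ = Real.sin (θ - m * (2 * Real.pi)) := (Real.sin_sub_int_mul_two_pi θ m).symm
    rw [ec, es]
    exact ⟨Real.cos_nonneg_of_neg_pi_div_two_le_of_le (by linarith) (by linarith),
      Real.sin_nonneg_of_nonneg_of_le_pi (by linarith) (by linarith)⟩

lemma polar_quad {r φ : ℝ} (hr : 0 < r) (q : ℤ) :
    (0 ≤ ((r * Complex.exp (φ * Complex.I)) / udir q).re ∧
      0 ≤ ((r * Complex.exp (φ * Complex.I)) / udir q).im) ↔
    ∃ m : ℤ, ((q + 4 * m : ℤ) : ℝ) * (Real.pi / 2) ≤ φ ∧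
      φ ≤ ((q + 4 * m + 1 : ℤ) : ℝ) * (Real.pi / 2) := by
  have e : (r * Complex.exp (φ * Complex.I)) / udir q =
      r * Complex.exp (((φ - q * (Real.pi / 2) : ℝ) : ℂ) * Complex.I) := by
    rw [udir_eq_exp, mul_div_assoc, ← Complex.exp_sub]
    congr 2
    push_cast
    ring
  rw [e, Complex.re_ofReal_mul, Complex.im_ofReal_mul, Complex.exp_ofReal_mul_I_re,
    Complex.exp_ofReal_mul_I_im, mul_nonneg_iff_of_pos_left hr, mul_nonneg_iff_of_pos_left hr,
    cos_sin_nonneg]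
  constructor
  · rintro ⟨m, h1, h2⟩
    refine ⟨m, ?_, ?_⟩ <;> push_cast <;> linarith
  · rintro ⟨m, h1, h2⟩
    push_cast at h1 h2
    refine ⟨m, ?_, ?_⟩ <;> linarith

/-- The cells near a grid vertex in polar coordinates. -/
lemma polar_near {x y : ℤ → ℝ} (hx : StrictMono x) (hy : StrictMono y) (p : ℤ × ℤ) :
    ∃ r0 > 0, ∀ r φ : ℝ, 0 < r → r < r0 → ∀ c,
      (pt x y p + r * Complex.exp (φ * Complex.I) ∈ rect x y c ↔
        ∃ q : ℤ, c = qc p q ∧ (q : ℝ) * (Real.pi / 2) ≤ φ ∧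
          φ ≤ ((q + 1 : ℤ) : ℝ) * (Real.pi / 2)) := by
  obtain ⟨g, hg, h⟩ := near_vertex hx hy p
  refine ⟨g, hg, ?_⟩
  intro r φ hr hrg c
  have hn : ‖(r * Complex.exp (φ * Complex.I) : ℂ)‖ = r := by
    rw [norm_mul, Complex.norm_exp_ofReal_mul_I, mul_one, Complex.norm_real, Real.norm_eq_abs,
      abs_of_pos hr]
  rw [h _ ((Complex.abs_re_le_norm _).trans_lt (by rw [hn]; exact hrg))
    ((Complex.abs_im_le_norm _).trans_lt (by rw [hn]; exact hrg))]
  constructor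
  · rintro ⟨q, hq, h1⟩
    obtain ⟨m, h2, h3⟩ := (polar_quad hr q).1 h1
    refine ⟨q + 4 * m, ?_, h2, h3⟩
    rw [hq]
    exact qc_congr p (by omega)
  · rintro ⟨q, hq, h1, h2⟩
    refine ⟨q, hq, (polar_quad hr q).2 ⟨0, ?_, ?_⟩⟩
    · simpa using h1
    · simpa using h2

end Pool.Agent.Q1.M4
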