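import Mathlib
import Pool.Agent.Q1.M4.Geo4

set_option autoImplicit false
open Set Filter Topology Metric

/-! Module M4, geometry of the polyomino domain `Om Q x y`, continued: sectors at the boundary
grid vertices. -/

namespace Pool.Agent.Q1.M4

open Pool.Agent.H75.Perc (dir dir_cases)

/-- No pinch: two opposite quadrants in `Q` imply a third one. -/
lemma Good.quads {Q : Finset Cell} (hQ : Good Q) {p : ℤ × ℤ} {q : ℤ} (h0 : qc p q ∈ Q)
    (h2 : qc p (q + 2) ∈ Q) : qc p (q + 1) ∈ Q ∨ qc p (q + 3) ∈ Q := by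
  obtain ⟨i, j⟩ := p
  have h : q % 4 = 0 ∨ q % 4 = 1 ∨ q % 4 = 2 ∨ q % 4 = 3 := by omega
  rcases h with h | h | h | h
  · have a1 : (q + 1) % 4 = 1 := by omega
    have a2 : (q + 2) % 4 = 2 := by omega
    have a3 : (q + 3) % 4 = 3 := by omega
    have := hQ.diag1 (i - 1, j - 1)
    simp [qc, h, a1, a2, a3] at h0 h2 ⊢
    simp at this
    have := this h2 h0
    tauto
  · have a1 : (q + 1) % 4 = 2 := by omega
    have a2 : (q + 2) % 4 = 3 := by omega
    have a3 : (q + 3) % 4 = 0 := by omega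
    have := hQ.diag2 (i - 1, j - 1)
    simp [qc, h, a1, a2, a3] at h0 h2 ⊢
    simp at this
    have := this h2 h0
    tauto
  · have a1 : (q + 1) % 4 = 3 := by omega
    have a2 : (q + 2) % 4 = 0 := by omega
    have a3 : (q + 3) % 4 = 1 := by omega
    have := hQ.diag1 (i - 1, j - 1)
    simp [qc, h, a1, a2, a3] at h0 h2 ⊢
    simp at this
    have := this h0 h2
    tauto
  · have a1 : (q + 1) % 4 = 0 := by omega
    have a2 : (q + 2) % 4 = 1 := by omega
    have a3 : (q + 3) % 4 = 2 := by omega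
    have := hQ.diag2 (i - 1, j - 1)
    simp [qc, h, a1, a2, a3] at h0 h2 ⊢
    simp at this
    have := this h0 h2
    tauto

/-- Cells at the head of a boundary side: the quadrants from the direction of the next side to
the reverse of this side belong to `Q`, the other ones do not. -/
lemma next_quads {Q : Finset Cell} (hQ : Good Q) {s : Cell × ℤ} (hs : IsSide Q s) :
    ((nextSide Q s).2 = s.2 - 1 ∨ (nextSide Q s).2 = s.2 ∨ (nextSide Q s).2 = s.2 + 1) ∧
    (∀ q : ℤ, (nextSide Q s).2 ≤ q → q ≤ s.2 + 1 → qc (head s) q ∈ Q) ∧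
    (∀ q : ℤ, s.2 + 2 ≤ q → q ≤ (nextSide Q s).2 + 3 → qc (head s) q ∉ Q) := by
  obtain ⟨h1, h2, h3, h4⟩ := qc_head s
  obtain ⟨hc, hd⟩ := hs
  rw [← h1] at hc
  rw [← h2] at hd
  unfold nextSide
  rw [← h4, ← h3]
  have hd' : ∀ q : ℤ, q = s.2 + 2 → qc (head s) q ∉ Q := by
    rintro q rfl; exact hd
  have hc' : ∀ q : ℤ, q = s.2 + 1 → qc (head s) q ∈ Q := by
    rintro q rfl; exact hc
  split_ifs with ha hb
  · refine ⟨Or.inl rfl, ?_, ?_⟩
    · intro q q1 q2
      simp only at q1
      have : q = s.2 - 1 ∨ q = s.2 ∨ q = s.2 + 1 := by omega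
      rcases this with rfl | rfl | rfl
      · exact ha
      · have h5 := hQ.quads (p := head s) (q := s.2 - 1) ha (by
          have e : s.2 - 1 + 2 = s.2 + 1 := by ring
          rw [e]; exact hc)
        rcases h5 with h5 | h5
        · rwa [sub_add_cancel] at h5
        · exfalso
          apply hd
          have e : s.2 - 1 + 3 = s.2 + 2 := by ring
          rwa [e] at h5
      · exact hc
    · intro q q1 q2
      simp only at q2
      exact hd' q (by omega)
  · refine ⟨Or.inr (Or.inl rfl), ?_, ?_⟩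
    · intro q q1 q2
      simp only at q1
      have : q = s.2 ∨ q = s.2 + 1 := by omega
      rcases this with rfl | rfl
      · exact hb
      · exact hc
    · intro q q1 q2
      simp only at q2
      have : q = s.2 + 2 ∨ q = s.2 + 3 := by omega
      rcases this with rfl | rfl
      · exact hd
      · rw [qc_congr (q' := s.2 - 1) _ (by omega)]
        exact ha
  · refine ⟨Or.inr (Or.inr rfl), ?_, ?_⟩
    · intro q q1 q2
      simp only at q1
      exact hc' q (by omega)
    · intro q q1 q2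
      simp only at q2
      have : q = s.2 + 2 ∨ q = s.2 + 3 ∨ q = s.2 + 4 := by omega
      rcases this with rfl | rfl | rfl
      · exact hd
      · rw [qc_congr (q' := s.2 - 1) _ (by omega)]
        exact ha
      · rw [qc_congr (q' := s.2) _ (by omega)]
        exact hb

/-- The sector at the head of a boundary side. -/
lemma sector_side {Q : Finset Cell} (hQ : Good Q) {x y : ℤ → ℝ} (hx : StrictMono x)
    (hy : StrictMono y) {s : Cell × ℤ} (hs : IsSide Q s) :
    ∃ r0 > 0, ∀ r φ : ℝ, 0 < r → r < r0 →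
      ((nextSide Q s).2 * (Real.pi / 2) < φ → φ < s.2 * (Real.pi / 2) + Real.pi →
        pt x y (head s) + r * Complex.exp (φ * Complex.I) ∈ Om Q x y) ∧
      (s.2 * (Real.pi / 2) + Real.pi ≤ φ → φ ≤ (nextSide Q s).2 * (Real.pi / 2) + 2 * Real.pi →
        pt x y (head s) + r * Complex.exp (φ * Complex.I) ∉ Om Q x y) ∧
      (s.2 * (Real.pi / 2) + Real.pi < φ → φ < (nextSide Q s).2 * (Real.pi / 2) + 2 * Real.pi →
        pt x y (head s) + r * Complex.exp (φ * Complex.I) ∉ Reg Q x y) := by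
  obtain ⟨-, hin, hout⟩ := next_quads hQ hs
  obtain ⟨r0, hr0, h⟩ := polar_near hx hy (head s)
  have hpi := Real.pi_pos
  have hp2 : 0 < Real.pi / 2 := by positivity
  -- comparison of integers
  have cmp : ∀ a b : ℤ, (a : ℝ) * (Real.pi / 2) < b * (Real.pi / 2) → a < b := by
    intro a b hab
    have := lt_of_mul_lt_mul_right hab hp2.le
    exact_mod_cast this
  -- some quadrant contains `φ`
  have ex : ∀ φ : ℝ, ∃ q : ℤ, (q : ℝ) * (Real.pi / 2) ≤ φ ∧
      φ ≤ ((q + 1 : ℤ) : ℝ) * (Real.pi / 2) := by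
    intro φ
    refine ⟨⌊φ / (Real.pi / 2)⌋, ?_, ?_⟩
    · have := Int.floor_le (φ / (Real.pi / 2))
      rwa [le_div_iff₀ hp2] at this
    · have := (Int.lt_floor_add_one (φ / (Real.pi / 2))).le
      rw [div_le_iff₀ hp2] at this
      push_cast
      exact this
  refine ⟨r0, hr0, ?_⟩
  intro r φ hr hrr
  refine ⟨?_, ?_, ?_⟩
  · intro f1 f2
    have hall : ∀ q : ℤ, (q : ℝ) * (Real.pi / 2) ≤ φ → φ ≤ ((q + 1 : ℤ) : ℝ) * (Real.pi / 2) →
        qc (head s) q ∈ Q := by
      intro q q1 q2
      have g1 := cmp (nextSide Q s).2 (q + 1) (lt_of_lt_of_le f1 q2)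
      have g2 := cmp q (s.2 + 2) (by push_cast; linarith)
      exact hin q (by omega) (by omega)
    rw [mem_Om hx hy]
    obtain ⟨q, q1, q2⟩ := ex φ
    refine ⟨⟨qc (head s) q, hall q q1 q2, (h r φ hr hrr _).2 ⟨q, rfl, q1, q2⟩⟩, ?_⟩
    intro c hc
    obtain ⟨q', rfl, q1', q2'⟩ := (h r φ hr hrr _).1 hc
    exact hall q' q1' q2'
  · intro f1 f2 hmem
    rw [mem_Om hx hy] at hmem
    -- choose the quadrant
    rcases eq_or_lt_of_le f1 with f3 | f3
    · have hq := hmem.2 (qc (head s) (s.2 + 2)) ((h r φ hr hrr _).2 ⟨s.2 + 2, rfl, by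
        rw [← f3]; push_cast; linarith, by rw [← f3]; push_cast; linarith⟩)
      have g1 := cmp (s.2 + 1) ((nextSide Q s).2 + 4) (by push_cast; linarith)
      exact hout (s.2 + 2) le_rfl (by
        have := (next_quads hQ hs).1
        omega) hq
    · obtain ⟨q, q1, q2⟩ := ex φ
      have g1 := cmp (s.2 + 2) (q + 1) (by push_cast at q2 ⊢; linarith)
      by_cases hqq : q ≤ (nextSide Q s).2 + 3
      · exact hout q (by omega) hqq (hmem.2 _ ((h r φ hr hrr _).2 ⟨q, rfl, q1, q2⟩))
      · have hqe : ((nextSide Q s).2 + 4 : ℤ) ≤ q := by omega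
        have hqe' : (((nextSide Q s).2 + 4 : ℤ) : ℝ) ≤ q := by exact_mod_cast hqe
        have g2 : φ = (nextSide Q s).2 * (Real.pi / 2) + 2 * Real.pi := by
          apply le_antisymm f2
          refine le_trans ?_ q1
          push_cast at hqe'
          nlinarith
        refine hout ((nextSide Q s).2 + 3) (by
          have := (next_quads hQ hs).1
          omega) le_rfl (hmem.2 _ ((h r φ hr hrr _).2 ⟨(nextSide Q s).2 + 3, rfl, ?_, ?_⟩))
        · rw [g2]; push_cast; linarith
        · rw [g2]; push_cast; linarith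
  · intro f1 f2 hmem
    obtain ⟨c, hcQ, hc⟩ := hmem
    obtain ⟨q, rfl, q1, q2⟩ := (h r φ hr hrr _).1 hc
    have g1 := cmp (s.2 + 2) (q + 1) (by push_cast at q2 ⊢; linarith)
    have g2 := cmp q ((nextSide Q s).2 + 4) (by push_cast; linarith)
    exact hout q (by omega) (by omega) hcQ

end Pool.Agent.Q1.M4
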