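import Mathlib
import Pool.Agent.Q1.M4.Geo5
import Pool.Agent.Q1.M4.Walk

set_option autoImplicit false
open Set Filter Topology Metric

/-! Module M4, geometry of the polyomino domain `Om Q x y`, continued: the frontier is the union
of the boundary sides. -/

namespace Pool.Agent.Q1.M4

open Pool.Agent.H75.Perc (dir dir_cases)

lemma Eqv.tail {s t : Cell × ℤ} (h : Eqv s t) : M4.tail s = M4.tail t := by
  obtain ⟨h1, h2⟩ := h
  have : s.2 % 4 = t.2 % 4 := by omega
  unfold M4.tail
  rw [h1, this]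

lemma Eqv.len {s t : Cell × ℤ} (h : Eqv s t) (x y : ℤ → ℝ) : M4.len x y s = M4.len x y t := by
  obtain ⟨h1, h2⟩ := h
  have : s.2 % 2 = t.2 % 2 := by omega
  unfold M4.len
  rw [h1, this]

lemma Eqv.udir {s t : Cell × ℤ} (h : Eqv s t) : M4.udir s.2 = M4.udir t.2 := by
  unfold M4.udir
  rw [dir_congr h.2]

lemma PType.vert_N (P : PType) : P.vert P.N = P.vert 0 := by
  have h : Eqv (P.side P.N) (P.side 0) := by
    have : P.side P.N = (P.s0.1, P.s0.2 + 4) := P.period
    rw [this]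
    exact ⟨rfl, by simp [PType.side]⟩
  exact h.tail

/-- The boundary grid vertices are distinct. -/
lemma PType.vert_inj (P : PType) {n n' : ℕ} (hn : n < P.N) (hn' : n' < P.N)
    (h : P.vert n = P.vert n') : n = n' := by
  have h1 := tail_inj P.good (P.side_isSide n) (P.side_isSide n') h
  exact P.inj n hn n' hn' h1.1 h1.2

/-- Every boundary side occurs in the walk. -/
lemma PType.exists_side (P : PType) {s : Cell × ℤ} (hs : IsSide P.Q s) :
    ∃ n < P.N, Eqv (P.side n) s := by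
  obtain ⟨n, hn, h1, h2⟩ := P.all s hs
  exact ⟨n, hn, h1, h2⟩

/-- Points of a boundary side are in the frontier. -/
lemma side_mem_frontier {Q : Finset Cell} {x y : ℤ → ℝ} (hx : StrictMono x) (hy : StrictMono y)
    {s : Cell × ℤ} (hs : IsSide Q s) {t : ℝ} (ht : t ∈ Icc (0 : ℝ) 1) :
    pt x y (tail s) + (t * len x y s : ℝ) * udir s.2 ∈ frontier (Om Q x y) := by
  have hL := side_len_pos hx hy s
  -- open side
  have hopen : ∀ t ∈ Ioo (0 : ℝ) 1,
      pt x y (tail s) + (t * len x y s : ℝ) * udir s.2 ∈ frontier (Om Q x y) := by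
    intro t ht
    obtain ⟨g, hg, h⟩ := half_disc_side hx hy hs
    have hr : 0 < min g (min (t * len x y s) ((1 - t) * len x y s)) :=
      lt_min hg (lt_min (mul_pos ht.1 hL) (mul_pos (by linarith [ht.2]) hL))
    have h1 := h t _ (min_le_left _ _) ((min_le_right _ _).trans (min_le_left _ _))
      ((min_le_right _ _).trans (min_le_right _ _)) _ (mem_ball_self hr)
    rw [sub_self, zero_div] at h1
    rw [frontier_Om hx hy]
    exact ⟨h1.2.1.2 (by simp), fun h2 => absurd (h1.1.1 h2) (by simp)⟩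
  have hcont : Continuous fun t : ℝ => pt x y (tail s) + (t * len x y s : ℝ) * udir s.2 := by
    fun_prop
  have hcl : closure (Ioo (0 : ℝ) 1) = Icc 0 1 := closure_Ioo (by norm_num)
  rw [← hcl] at ht
  have h2 : (fun t : ℝ => pt x y (tail s) + (t * len x y s : ℝ) * udir s.2) t ∈
      closure ((fun t : ℝ => pt x y (tail s) + (t * len x y s : ℝ) * udir s.2) '' Ioo 0 1) :=
    image_closure_subset_closure_image hcont ⟨t, ht, rfl⟩
  have h3 : closure ((fun t : ℝ => pt x y (tail s) + (t * len x y s : ℝ) * udir s.2) '' Ioo 0 1) ⊆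
      frontier (Om Q x y) := by
    apply closure_minimal _ isClosed_frontier
    rintro _ ⟨t', ht', rfl⟩
    exact hopen t' ht'
  exact h3 h2

lemma PType.sidePt_mem_frontier (P : PType) {x y : ℤ → ℝ} (hx : StrictMono x)
    (hy : StrictMono y) (n : ℕ) {t : ℝ} (ht : t ∈ Icc (0 : ℝ) 1) :
    P.sidePt x y n t ∈ frontier (Om P.Q x y) := by
  rw [P.sidePt_eq]
  exact side_mem_frontier hx hy (P.side_isSide n) ht

/-- A common point of two adjacent cells lies on the common side. -/
lemma mem_side_of_adj {x y : ℤ → ℝ} (hx : StrictMono x) (hy : StrictMono y) {c : Cell} {m : ℤ}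
    {z : ℂ} (h1 : z ∈ rect x y c) (h2 : z ∈ rect x y (c + dir m)) :
    ∃ t ∈ Icc (0 : ℝ) 1,
      z = pt x y (tail (c, m + 1)) + (t * len x y (c, m + 1) : ℝ) * udir (m + 1) := by
  obtain ⟨i, j⟩ := c
  have X1 : x i < x (i + 1) := hx (by omega)
  have Y1 : y j < y (j + 1) := hy (by omega)
  obtain ⟨⟨a1, a2⟩, a3, a4⟩ := h1
  simp only at a1 a2 a3 a4
  -- parameter
  have par : ∀ s L : ℝ, 0 < L → 0 ≤ s → s ≤ L → ∃ t ∈ Icc (0 : ℝ) 1, t * L = s := by
    intro s L hL h0 h1
    exact ⟨s / L, ⟨by positivity, (div_le_one hL).2 h1⟩, div_mul_cancel₀ _ hL.ne'⟩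
  rcases dir_cases m with ⟨a, e⟩ | ⟨a, e⟩ | ⟨a, e⟩ | ⟨a, e⟩ <;> rw [e] at h2
  · -- the cell to the right, direction 1
    simp only [Prod.mk_add_mk, add_zero] at h2
    obtain ⟨⟨b1, -⟩, -, -⟩ := h2
    simp only at b1
    have hm1 : (m + 1) % 4 = 1 := by omega
    have hm2 : (m + 1) % 2 = 1 := by omega
    have f : udir (m + 1) = Complex.I := by
      rcases udir_cases (m + 1) with ⟨b, f⟩ | ⟨b, f⟩ | ⟨b, f⟩ | ⟨b, f⟩ <;>
      first | (exfalso; omega) | exact f
    obtain ⟨t, ht, ht'⟩ := par (z.im - y j) (y (j + 1) - y j) (by linarith) (by linarith)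
      (by linarith)
    refine ⟨t, ht, ?_⟩
    have hl : len x y ((i, j), m + 1) = y (j + 1) - y j := by simp [len, hm2]
    rw [hl, ht', f]
    have hre : z.re = x (i + 1) := le_antisymm a2 b1
    apply Complex.ext
    · simp [pt, tail, hm1, hre]
    · simp [pt, tail, hm1]
  · -- the cell above, direction 2
    simp only [Prod.mk_add_mk, add_zero] at h2
    obtain ⟨-, b1, -⟩ := h2
    simp only at b1
    have hm1 : (m + 1) % 4 = 2 := by omega
    have hm2 : (m + 1) % 2 = 0 := by omega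
    have f : udir (m + 1) = -1 := by
      rcases udir_cases (m + 1) with ⟨b, f⟩ | ⟨b, f⟩ | ⟨b, f⟩ | ⟨b, f⟩ <;>
      first | (exfalso; omega) | exact f
    obtain ⟨t, ht, ht'⟩ := par (x (i + 1) - z.re) (x (i + 1) - x i) (by linarith) (by linarith)
      (by linarith)
    refine ⟨t, ht, ?_⟩
    have hl : len x y ((i, j), m + 1) = x (i + 1) - x i := by simp [len, hm2]
    rw [hl, ht', f]
    have him : z.im = y (j + 1) := le_antisymm a4 b1
    apply Complex.ext
    · simp [pt, tail, hm1]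
    · simp [pt, tail, hm1, him]
  · -- the cell to the left, direction 3
    simp only [Prod.mk_add_mk, add_zero, ← sub_eq_add_neg] at h2
    obtain ⟨⟨-, b1⟩, -, -⟩ := h2
    simp only [sub_add_cancel] at b1
    have hm1 : (m + 1) % 4 = 3 := by omega
    have hm2 : (m + 1) % 2 = 1 := by omega
    have f : udir (m + 1) = -Complex.I := by
      rcases udir_cases (m + 1) with ⟨b, f⟩ | ⟨b, f⟩ | ⟨b, f⟩ | ⟨b, f⟩ <;>
      first | (exfalso; omega) | exact f
    obtain ⟨t, ht, ht'⟩ := par (y (j + 1) - z.im) (y (j + 1) - y j) (by linarith) (by linarith)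
      (by linarith)
    refine ⟨t, ht, ?_⟩
    have hl : len x y ((i, j), m + 1) = y (j + 1) - y j := by simp [len, hm2]
    rw [hl, ht', f]
    have hre : z.re = x i := le_antisymm b1 a1
    apply Complex.ext
    · simp [pt, tail, hm1, hre]
    · simp [pt, tail, hm1]
  · -- the cell below, direction 0
    simp only [Prod.mk_add_mk, add_zero, ← sub_eq_add_neg] at h2
    obtain ⟨-, -, b1⟩ := h2
    simp only [sub_add_cancel] at b1
    have hm1 : (m + 1) % 4 = 0 := by omega
    have hm2 : (m + 1) % 2 = 0 := by omega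
    have f : udir (m + 1) = 1 := by
      rcases udir_cases (m + 1) with ⟨b, f⟩ | ⟨b, f⟩ | ⟨b, f⟩ | ⟨b, f⟩ <;>
      first | (exfalso; omega) | exact f
    obtain ⟨t, ht, ht'⟩ := par (z.re - x i) (x (i + 1) - x i) (by linarith) (by linarith)
      (by linarith)
    refine ⟨t, ht, ?_⟩
    have hl : len x y ((i, j), m + 1) = x (i + 1) - x i := by simp [len, hm2]
    rw [hl, ht', f]
    have him : z.im = y j := le_antisymm b1 a3
    apply Complex.ext
    · simp [pt, tail, hm1]
    · simp [pt, tail, hm1, him]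

/-- Two different intervals with a common point are neighbours. -/
lemma line_adj {x : ℤ → ℝ} (hx : StrictMono x) {i j : ℤ} {s : ℝ} (h1 : x i ≤ s)
    (h2 : s ≤ x (i + 1)) (h3 : x j ≤ s) (h4 : s ≤ x (j + 1)) (hij : i ≠ j) :
    j = i + 1 ∨ j = i - 1 := by
  have a : x i ≤ x (j + 1) := h1.trans h4
  have b : x j ≤ x (i + 1) := h3.trans h2
  rw [hx.le_iff_le] at a b
  omega

/-- A point common to a cell of `Q` and to a cell outside lies on a boundary side. -/
lemma exists_side_of_mem {Q : Finset Cell} {x y : ℤ → ℝ} (hx : StrictMono x) (hy : StrictMono y)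
    {z : ℂ} {c d : Cell} (hc : c ∈ Q) (hd : d ∉ Q) (hzc : z ∈ rect x y c)
    (hzd : z ∈ rect x y d) : ∃ s : Cell × ℤ, IsSide Q s ∧ ∃ t ∈ Icc (0 : ℝ) 1,
      z = pt x y (tail s) + (t * len x y s : ℝ) * udir s.2 := by
  have key : ∀ (c : Cell) (m : ℤ), c ∈ Q → c + dir m ∉ Q → z ∈ rect x y c →
      z ∈ rect x y (c + dir m) → ∃ s : Cell × ℤ, IsSide Q s ∧ ∃ t ∈ Icc (0 : ℝ) 1,
      z = pt x y (tail s) + (t * len x y s : ℝ) * udir s.2 := by
    intro c m h1 h2 h3 h4
    refine ⟨(c, m + 1), ⟨h1, by simpa using h2⟩, ?_⟩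
    exact mem_side_of_adj hx hy h3 h4
  obtain ⟨c1, c2⟩ := c
  obtain ⟨d1, d2⟩ := d
  have hze : z ∈ rect x y (c1, d2) := ⟨hzc.1, hzd.2⟩
  by_cases he : (c1, d2) ∈ Q
  · have hne : c1 ≠ d1 := by
      rintro rfl; exact hd he
    rcases line_adj hx hzc.1.1 hzc.1.2 hzd.1.1 hzd.1.2 hne with h | h
    · refine key (c1, d2) 0 he ?_ hze ?_
      · simpa [dir, ← h] using hd
      · simpa [dir, ← h] using hzd
    · refine key (c1, d2) 2 he ?_ hze ?_
      · simp only at h
        simpa [dir, ← sub_eq_add_neg, ← h] using hd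
      · simp only at h
        simpa [dir, ← sub_eq_add_neg, ← h] using hzd
  · have hne : c2 ≠ d2 := by
      rintro rfl; exact he hc
    rcases line_adj hy hzc.2.1 hzc.2.2 hzd.2.1 hzd.2.2 hne with h | h
    · refine key (c1, c2) 1 hc ?_ hzc ?_
      · simpa [dir, ← h] using he
      · simpa [dir, ← h] using hze
    · refine key (c1, c2) 3 hc ?_ hzc ?_
      · simp only at h
        simpa [dir, ← sub_eq_add_neg, ← h] using he
      · simp only at h
        simpa [dir, ← sub_eq_add_neg, ← h] using hze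

/-- The frontier is the union of the closed boundary sides. -/
theorem PType.frontier_cover (P : PType) {x y : ℤ → ℝ} (hx : StrictMono x) (hy : StrictMono y)
    {z : ℂ} (hz : z ∈ frontier (Om P.Q x y)) :
    ∃ n < P.N, ∃ t ∈ Icc (0 : ℝ) 1, z = P.sidePt x y n t := by
  rw [frontier_Om hx hy] at hz
  obtain ⟨h1, h2⟩ := hz
  rw [mem_Om hx hy] at h2
  push Not at h2
  obtain ⟨d, hzd, hd⟩ := h2 h1
  obtain ⟨c, hc, hzc⟩ := h1
  obtain ⟨s, hs, t, ht, hz⟩ := exists_side_of_mem hx hy hc hd hzc hzd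
  obtain ⟨n, hn, hE⟩ := P.exists_side hs
  refine ⟨n, hn, t, ht, ?_⟩
  rw [P.sidePt_eq, hE.len, hE.udir]
  unfold PType.vert
  rw [hE.tail]
  exact hz

end Pool.Agent.Q1.M4
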