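import Mathlib

/-!
# Uniqueness of the scaling limit of the parafermion (module M4, steps (3)+(4))

Pure complex analysis.  `P` is a bounded, open, preconnected set.  Maximum principle for bounded
imaginary parts with finitely many exceptional boundary points, and the cubic trick: if
`Φ₀' = c G₁³`, `Φ₁' = c G₁² G₂` have bounded imaginary parts with one constant boundary value on
each of two arcs, then `G₂ = k G₁` with `k` real.
-/

open Filter Topology Complex Bornology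

namespace Q1

/-- Maximum principle with `limsup` boundary conditions on a bounded connected open set. -/
theorem norm_le_of_frontier {P : Set ℂ} (hPo : IsOpen P) (hPc : IsPreconnected P)
    (hPb : IsBounded P) {F : ℂ → ℂ} (hF : DifferentiableOn ℂ F P) {B : ℝ}
    (hbd : ∀ w ∈ frontier P, ∀ s > B, ∀ᶠ z in 𝓝[P] w, ‖F z‖ ≤ s) :
    ∀ z ∈ P, ‖F z‖ ≤ B := by
  intro z₀ hz₀
  by_contra hcon
  push Not at hcon
  set s := (B + ‖F z₀‖) / 2 with hs
  have hs1 : B < s := by rw [hs]; linarith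
  have hs2 : s < ‖F z₀‖ := by rw [hs]; linarith
  have hcont : ContinuousOn (fun z => ‖F z‖) P := hF.continuousOn.norm
  set K : Set ℂ := {z | z ∈ P ∧ ‖F z₀‖ ≤ ‖F z‖} with hK
  have hKP : K ⊆ P := fun z hz => hz.1
  have hKcl : IsClosed K := by
    rw [← closure_subset_iff_isClosed]
    intro w hw
    have hwP : w ∈ closure P := closure_mono hKP hw
    by_cases hwm : w ∈ P
    · refine ⟨hwm, ?_⟩
      by_contra hlt
      push Not at hlt
      have h1 : ∀ᶠ z in 𝓝[P] w, ‖F z‖ < ‖F z₀‖ :=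
        (hcont w hwm).eventually (gt_mem_nhds hlt)
      have h2 : ∃ᶠ z in 𝓝[P] w, z ∈ K := by
        have h3 : ∃ᶠ z in 𝓝 w, z ∈ K := mem_closure_iff_frequently.1 hw
        rw [frequently_nhdsWithin_iff]
        exact h3.mono fun z hz => ⟨hz, hz.1⟩
      obtain ⟨z, hz, hz'⟩ := (h2.and_eventually h1).exists
      exact absurd hz.2 (not_le.2 hz')
    · exfalso
      have hwf : w ∈ frontier P := by
        rw [frontier, hPo.interior_eq]
        exact ⟨hwP, hwm⟩
      have h1 := hbd w hwf s hs1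
      have h2 : ∃ᶠ z in 𝓝[P] w, z ∈ K := by
        have h3 : ∃ᶠ z in 𝓝 w, z ∈ K := mem_closure_iff_frequently.1 hw
        rw [frequently_nhdsWithin_iff]
        exact h3.mono fun z hz => ⟨hz, hz.1⟩
      obtain ⟨z, hz, hz'⟩ := (h2.and_eventually h1).exists
      exact absurd (le_trans hz.2 hz') (not_le.2 hs2)
  have hKc : IsCompact K := Metric.isCompact_of_isClosed_isBounded hKcl (hPb.subset hKP)
  have hKne : K.Nonempty := ⟨z₀, hz₀, le_rfl⟩
  obtain ⟨c, hcK, hcmax⟩ := hKc.exists_isMaxOn hKne (hcont.mono hKP)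
  have hmax : IsMaxOn (norm ∘ F) P c := by
    intro z hz
    by_cases hzK : z ∈ K
    · exact hcmax hzK
    · have : ‖F z‖ < ‖F z₀‖ := by
        by_contra h
        exact hzK ⟨hz, not_lt.1 h⟩
      exact le_of_lt (lt_of_lt_of_le this hcK.2)
  have heq := Complex.norm_eqOn_of_isPreconnected_of_isMaxOn hPc hPo hF (hKP hcK) hmax
  have hPK : P = K := by
    apply Set.Subset.antisymm _ hKP
    intro z hz
    refine ⟨hz, ?_⟩
    have := heq hz
    simp only [Function.comp, Function.const] at this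
    rw [this]
    exact hcK.2
  have hPclopen : IsClopen P := ⟨hPK ▸ hKcl, hPo⟩
  rcases isClopen_iff.1 hPclopen with h | h
  · rw [h] at hz₀; exact hz₀
  · rw [h] at hPb
    exact NormedSpace.unbounded_univ ℝ ℂ hPb

/-- One-sided maximum principle for a bounded above imaginary part with finitely many exceptional
points. -/
theorem im_nonpos {P : Set ℂ} (hPo : IsOpen P) (hPc : IsPreconnected P)
    (hPb : IsBounded P) (Z : Finset ℂ) (hZ : ∀ a ∈ Z, a ∉ P) {Φ : ℂ → ℂ}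
    (hΦ : DifferentiableOn ℂ Φ P) {M : ℝ} (hM : ∀ z ∈ P, (Φ z).im ≤ M)
    (hbd : ∀ w ∈ frontier P, w ∉ Z → ∀ ε > 0, ∀ᶠ z in 𝓝[P] w, (Φ z).im ≤ ε) :
    ∀ z ∈ P, (Φ z).im ≤ 0 := by
  -- bound for the product
  obtain ⟨D₀, hD₀⟩ : ∃ D₀ : ℝ, ∀ z ∈ P, ‖∏ a ∈ Z, (z - a)‖ ≤ D₀ := by
    have hc : Continuous fun z : ℂ => ∏ a ∈ Z, (z - a) := by fun_prop
    have hK : IsCompact (closure P) := hPb.isCompact_closure
    obtain ⟨D₀, h⟩ := hK.exists_bound_of_continuousOn hc.continuousOn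
    exact ⟨D₀, fun z hz => h z (subset_closure hz)⟩
  set D : ℝ := max D₀ 1 with hD
  have hD1 : 1 ≤ D := le_max_right _ _
  have hDpos : 0 < D := by linarith
  have hDb : ∀ z ∈ P, ‖∏ a ∈ Z, (z - a)‖ ≤ D := fun z hz => (hD₀ z hz).trans (le_max_left _ _)
  have key : ∀ n : ℕ, ∀ z ∈ P, Real.exp (n * (Φ z).im) * ‖∏ a ∈ Z, (z - a)‖ ≤ D := by
    intro n
    have hnorm : ∀ z, ‖Complex.exp (-(I * n * Φ z)) * ∏ a ∈ Z, (z - a)‖
        = Real.exp (n * (Φ z).im) * ‖∏ a ∈ Z, (z - a)‖ := by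
      intro z
      rw [norm_mul, Complex.norm_exp]
      congr 2
      simp
    have hdiff : DifferentiableOn ℂ (fun z => Complex.exp (-(I * n * Φ z)) * ∏ a ∈ Z, (z - a)) P := by
      apply DifferentiableOn.mul
      · exact ((hΦ.const_mul _).neg).cexp
      · exact (by fun_prop : Differentiable ℂ fun z : ℂ => ∏ a ∈ Z, (z - a)).differentiableOn
    have := norm_le_of_frontier hPo hPc hPb hdiff (B := D) ?_
    · intro z hz
      rw [← hnorm z]
      exact this z hz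
    · intro w hw s hs
      by_cases hwZ : w ∈ Z
      · -- product tends to zero
        have hc : Continuous fun z : ℂ => Real.exp (n * M) * ‖∏ a ∈ Z, (z - a)‖ := by fun_prop
        have h0 : Real.exp (n * M) * ‖∏ a ∈ Z, (w - a)‖ = 0 := by
          rw [Finset.prod_eq_zero hwZ (sub_self w)]; simp
        have h1 : ∀ᶠ z in 𝓝 w, Real.exp (n * M) * ‖∏ a ∈ Z, (z - a)‖ < s := by
          have := hc.tendsto w
          rw [h0] at this
          exact this.eventually (gt_mem_nhds (by linarith))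
        have h2 : ∀ᶠ z in 𝓝[P] w, z ∈ P := self_mem_nhdsWithin
        filter_upwards [mem_nhdsWithin_of_mem_nhds h1, h2] with z hz hzP
        rw [hnorm]
        refine le_trans ?_ (le_of_lt hz)
        apply mul_le_mul_of_nonneg_right _ (norm_nonneg _)
        apply Real.exp_le_exp.2
        exact mul_le_mul_of_nonneg_left (hM z hzP) (Nat.cast_nonneg n)
      · -- choose ε
        have hlim : Tendsto (fun ε : ℝ => Real.exp (n * ε) * D) (𝓝 0) (𝓝 D) := by
          have hc : Continuous fun ε : ℝ => Real.exp (n * ε) * D := by fun_prop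
          have := hc.tendsto 0
          simpa using this
        have hev : ∀ᶠ ε in 𝓝[>] (0:ℝ), Real.exp (n * ε) * D < s :=
          (hlim.mono_left nhdsWithin_le_nhds).eventually (gt_mem_nhds hs)
        obtain ⟨ε, hε, hε0⟩ := (hev.and self_mem_nhdsWithin).exists
        have h1 := hbd w hw hwZ ε hε0
        have h2 : ∀ᶠ z in 𝓝[P] w, z ∈ P := self_mem_nhdsWithin
        filter_upwards [h1, h2] with z hz hzP
        rw [hnorm]
        refine le_trans ?_ (le_of_lt hε)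
        apply mul_le_mul _ (hDb z hzP) (norm_nonneg _) (Real.exp_nonneg _)
        apply Real.exp_le_exp.2
        exact mul_le_mul_of_nonneg_left hz (Nat.cast_nonneg n)
  intro z hz
  by_contra hpos
  push Not at hpos
  have hp : 0 < ‖∏ a ∈ Z, (z - a)‖ := by
    rw [norm_pos_iff, Finset.prod_ne_zero_iff]
    intro a ha h
    exact hZ a ha (by rw [← sub_eq_zero.1 h]; exact hz)
  have hlin : ∀ n : ℕ, (n : ℝ) * ((Φ z).im * ‖∏ a ∈ Z, (z - a)‖) ≤ D := by
    intro n
    have h1 := key n z hz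
    have h2 : (n : ℝ) * (Φ z).im ≤ Real.exp (n * (Φ z).im) := by
      have := Real.add_one_le_exp ((n : ℝ) * (Φ z).im)
      linarith
    calc (n : ℝ) * ((Φ z).im * ‖∏ a ∈ Z, (z - a)‖)
        = (n * (Φ z).im) * ‖∏ a ∈ Z, (z - a)‖ := by ring
      _ ≤ Real.exp (n * (Φ z).im) * ‖∏ a ∈ Z, (z - a)‖ :=
          mul_le_mul_of_nonneg_right h2 (norm_nonneg _)
      _ ≤ D := h1
  obtain ⟨n, hn⟩ := exists_nat_gt (D / ((Φ z).im * ‖∏ a ∈ Z, (z - a)‖))
  have hq : 0 < (Φ z).im * ‖∏ a ∈ Z, (z - a)‖ := mul_pos hpos hp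
  rw [div_lt_iff₀ hq] at hn
  exact absurd (hlin n) (not_le.2 hn)

/-- Two-sided form: bounded imaginary part with boundary value `k` off finitely many points is
constant, and the derivative vanishes. -/
theorem im_const {P : Set ℂ} (hPo : IsOpen P) (hPc : IsPreconnected P)
    (hPb : IsBounded P) (Z : Finset ℂ) (hZ : ∀ a ∈ Z, a ∉ P) {Φ : ℂ → ℂ}
    (hΦ : DifferentiableOn ℂ Φ P) {M : ℝ} (hM : ∀ z ∈ P, |(Φ z).im| ≤ M) {k : ℝ}
    (hbd : ∀ w ∈ frontier P, w ∉ Z → Tendsto (fun z => (Φ z).im) (𝓝[P] w) (𝓝 k)) :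
    ∀ z ∈ P, (Φ z).im = k := by
  have h1 : ∀ z ∈ P, ((fun z => Φ z - k * I) z).im ≤ 0 := by
    refine im_nonpos hPo hPc hPb Z hZ (hΦ.sub_const _) (M := M - k) ?_ ?_
    · intro z hz
      have := (abs_le.1 (hM z hz)).2
      simp; linarith
    · intro w hw hwZ ε hε
      have := (hbd w hw hwZ).eventually (gt_mem_nhds (show k < k + ε by linarith))
      filter_upwards [this] with z hz
      simp; linarith
  have h2 : ∀ z ∈ P, ((fun z => -(Φ z - k * I)) z).im ≤ 0 := by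
    refine im_nonpos hPo hPc hPb Z hZ (hΦ.sub_const _).neg (M := M + k) ?_ ?_
    · intro z hz
      have := (abs_le.1 (hM z hz)).1
      simp; linarith
    · intro w hw hwZ ε hε
      have := (hbd w hw hwZ).eventually (lt_mem_nhds (show k - ε < k by linarith))
      filter_upwards [this] with z hz
      simp; linarith
  intro z hz
  have a := h1 z hz
  have b := h2 z hz
  simp at a b
  linarith

theorem deriv_eq_zero_of_im_const {P : Set ℂ} (hPo : IsOpen P) {Φ φ : ℂ → ℂ}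
    (hΦ : ∀ z ∈ P, HasDerivAt Φ (φ z) z) {k : ℝ} (h : ∀ z ∈ P, (Φ z).im = k) :
    ∀ z ∈ P, φ z = 0 := by
  intro z hz
  have hd := hΦ z hz
  -- derivative along directions 1 and I
  have hreal : ∀ v : ℂ, (φ z * v).im = 0 := by
    intro v
    have h1 : HasDerivAt (fun t : ℝ => Φ (z + t * v)) (φ z * v) 0 := by
      have hin : HasDerivAt (fun t : ℝ => z + (t : ℂ) * v) v 0 := by
        have := ((Complex.ofRealCLM.hasDerivAt (x := (0:ℝ))).mul_const v).const_add z
        simpa using this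
      have hd' : HasDerivAt Φ (φ z) (z + ((0:ℝ):ℂ) * v) := by simpa using hd
      exact hd'.comp_of_eq (0:ℝ) hin (by simp) |>.congr_deriv (by simp)
    have h2 : HasDerivAt (fun t : ℝ => (Φ (z + t * v)).im) ((φ z * v).im) 0 := by
      have := Complex.imCLM.hasFDerivAt.comp_hasDerivAt (0:ℝ) h1
      simpa [Function.comp_def] using this
    have h3 : (fun t : ℝ => (Φ (z + t * v)).im) =ᶠ[𝓝 0] fun _ => k := by
      have hc : Continuous fun t : ℝ => z + (t : ℂ) * v := by fun_prop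
      have hmem : ∀ᶠ t : ℝ in 𝓝 0, z + (t : ℂ) * v ∈ P := by
        apply hc.continuousAt.eventually_mem
        simpa using hPo.mem_nhds hz
      filter_upwards [hmem] with t ht
      exact h _ ht
    have h4 : HasDerivAt (fun t : ℝ => (Φ (z + t * v)).im) 0 0 :=
      (hasDerivAt_const (0:ℝ) k).congr_of_eventuallyEq h3
    exact h2.unique h4
  have h1 := hreal 1
  have h2 := hreal I
  simp at h1 h2
  exact Complex.ext h2 h1

/-- **Uniqueness (cubic trick).** -/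
theorem uniq {P : Set ℂ} (hPo : IsOpen P) (hPc : IsPreconnected P)
    (hPb : IsBounded P) (Z : Finset ℂ) (hZ : ∀ a ∈ Z, a ∉ P) {L R : Set ℂ}
    (hLR : frontier P ⊆ L ∪ R ∪ Z) {G₁ G₂ Φ₀ Φ₁ : ℂ → ℂ} {c : ℂ} (hc : c ≠ 0)
    (hG₁ : DifferentiableOn ℂ G₁ P) (hG₂ : DifferentiableOn ℂ G₂ P)
    (h₀ : ∀ z ∈ P, HasDerivAt Φ₀ (c * G₁ z ^ 3) z)
    (h₁ : ∀ z ∈ P, HasDerivAt Φ₁ (c * (G₁ z ^ 2 * G₂ z)) z)
    {M : ℝ} (hM₀ : ∀ z ∈ P, |(Φ₀ z).im| ≤ M) (hM₁ : ∀ z ∈ P, |(Φ₁ z).im| ≤ M)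
    {l₀ r₀ l₁ r₁ : ℝ}
    (hL₀ : ∀ w ∈ frontier P, w ∈ L → w ∉ Z → Tendsto (fun z => (Φ₀ z).im) (𝓝[P] w) (𝓝 l₀))
    (hR₀ : ∀ w ∈ frontier P, w ∈ R → w ∉ Z → Tendsto (fun z => (Φ₀ z).im) (𝓝[P] w) (𝓝 r₀))
    (hL₁ : ∀ w ∈ frontier P, w ∈ L → w ∉ Z → Tendsto (fun z => (Φ₁ z).im) (𝓝[P] w) (𝓝 l₁))
    (hR₁ : ∀ w ∈ frontier P, w ∈ R → w ∉ Z → Tendsto (fun z => (Φ₁ z).im) (𝓝[P] w) (𝓝 r₁))
    (hne : ∃ z ∈ P, G₁ z ≠ 0) :
    ∃ k : ℝ, ∀ z ∈ P, G₂ z = k * G₁ z := by
  have hd₀ : DifferentiableOn ℂ Φ₀ P := fun z hz => (h₀ z hz).differentiableAt.differentiableWithinAt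
  have hd₁ : DifferentiableOn ℂ Φ₁ P := fun z hz => (h₁ z hz).differentiableAt.differentiableWithinAt
  have hlr : l₀ ≠ r₀ := by
    intro h
    have := im_const hPo hPc hPb Z hZ hd₀ hM₀ (k := l₀) ?_
    · obtain ⟨z, hz, hz'⟩ := hne
      have h0 := deriv_eq_zero_of_im_const hPo h₀ this z hz
      rcases mul_eq_zero.1 h0 with h0 | h0
      · exact hc h0
      · exact hz' (pow_eq_zero_iff (by norm_num) |>.1 h0)
    · intro w hw hwZ
      rcases hLR hw with (hw' | hw') | hw'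
      · exact hL₀ w hw hw' hwZ
      · rw [h]; exact hR₀ w hw hw' hwZ
      · exact absurd hw' hwZ
  set k : ℝ := (l₁ - r₁) / (l₀ - r₀) with hk
  have hk' : k * (l₀ - r₀) = l₁ - r₁ := by
    rw [hk]; exact div_mul_cancel₀ _ (sub_ne_zero.2 hlr)
  refine ⟨k, ?_⟩
  have hd : ∀ z ∈ P, HasDerivAt (fun z => Φ₁ z - k * Φ₀ z)
      (c * (G₁ z ^ 2 * G₂ z) - k * (c * G₁ z ^ 3)) z := fun z hz =>
    (h₁ z hz).sub ((h₀ z hz).const_mul _)
  have him : ∀ z ∈ P, ((fun z => Φ₁ z - k * Φ₀ z) z).im = l₁ - k * l₀ := by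
    refine im_const hPo hPc hPb Z hZ
      (fun z hz => (hd z hz).differentiableAt.differentiableWithinAt) (M := M + |k| * M) ?_ ?_
    · intro z hz
      have e1 : ((fun z => Φ₁ z - k * Φ₀ z) z).im = (Φ₁ z).im - k * (Φ₀ z).im := by simp
      rw [e1]
      calc |(Φ₁ z).im - k * (Φ₀ z).im| ≤ |(Φ₁ z).im| + |k * (Φ₀ z).im| := abs_sub _ _
        _ ≤ M + |k| * M := by
            rw [abs_mul]
            exact add_le_add (hM₁ z hz) (mul_le_mul_of_nonneg_left (hM₀ z hz) (abs_nonneg k))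
    · intro w hw hwZ
      have e1 : (fun z => ((fun z => Φ₁ z - k * Φ₀ z) z).im)
          = fun z => (Φ₁ z).im - k * (Φ₀ z).im := by ext z; simp
      rw [e1]
      rcases hLR hw with (hw' | hw') | hw'
      · exact (hL₁ w hw hw' hwZ).sub ((hL₀ w hw hw' hwZ).const_mul k)
      · have : l₁ - k * l₀ = r₁ - k * r₀ := by linarith [hk', mul_sub k l₀ r₀]
        rw [this]
        exact (hR₁ w hw hw' hwZ).sub ((hR₀ w hw hw' hwZ).const_mul k)
      · exact absurd hw' hwZ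
  have hz0 := deriv_eq_zero_of_im_const hPo hd him
  have hprod : ∀ z ∈ P, G₁ z * (G₁ z * (G₂ z - k * G₁ z)) = 0 := by
    intro z hz
    have h := hz0 z hz
    have h2 : c * (G₁ z * (G₁ z * (G₂ z - k * G₁ z))) = 0 := by
      rw [← h]; ring
    exact (mul_eq_zero.1 h2).resolve_left hc
  have hA₁ : AnalyticOnNhd ℂ G₁ P := hG₁.analyticOnNhd hPo
  have hA₂ : AnalyticOnNhd ℂ (fun z => G₂ z - k * G₁ z) P :=
    (hG₂.sub (hG₁.const_mul _)).analyticOnNhd hPo
  have hno : ¬ ∀ z ∈ P, G₁ z = 0 := by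
    obtain ⟨z, hz, hz'⟩ := hne
    exact fun h => hz' (h z hz)
  have s1 := (AnalyticOnNhd.eq_zero_or_eq_zero_of_mul_eq_zero hA₁ (hA₁.mul hA₂) hprod hPc).resolve_left hno
  have s2 := (AnalyticOnNhd.eq_zero_or_eq_zero_of_mul_eq_zero hA₁ hA₂ s1 hPc).resolve_left hno
  intro z hz
  exact sub_eq_zero.1 (s2 z hz)

end Q1
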