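import Pool.Agent.Q1.M4.Side
import Pool.Agent.Q1.M4.Uniq

/-!
# Assembly of the uniqueness theorem of module M4
-/

open Complex Metric Set Topology Filter Bornology

namespace Q1

/-- A real function which is continuous on a preconnected set and locally constant off a
countable set is constant. -/
theorem const_of_locally_const {S A : Set ℂ} (hS : IsPreconnected S) (hA : A.Countable)
    {f : ℂ → ℝ} (hf : ContinuousOn f S)
    (hloc : ∀ x ∈ S, x ∉ A → ∀ᶠ y in 𝓝[S] x, f y = f x) :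
    ∀ x ∈ S, ∀ y ∈ S, f x = f y := by
  have hcount : (f '' S).Countable := by
    have h1 : (f '' (S ∩ A)).Countable := (hA.mono inter_subset_right).image f
    have h2 : (f '' (S \ A)).Countable := by
      obtain ⟨t, ht1, ht2, ht3⟩ := TopologicalSpace.countable_cover_nhdsWithin
        (f := fun x => {y | f y = f x} ∩ S) (s := S \ A) (by
          intro x hx
          have h3 := hloc x hx.1 hx.2
          have h4 : {y | f y = f x} ∩ S ∈ 𝓝[S] x := inter_mem h3 self_mem_nhdsWithin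
          exact nhdsWithin_mono x sdiff_subset h4)
      refine (ht2.image f).mono ?_
      rintro _ ⟨y, hy, rfl⟩
      obtain ⟨x, hx, hyx⟩ := mem_iUnion₂.1 (ht3 hy)
      exact ⟨x, hx, hyx.1.symm⟩
    refine (h1.union h2).mono ?_
    rintro _ ⟨y, hy, rfl⟩
    by_cases h : y ∈ A
    · exact Or.inl ⟨y, ⟨hy, h⟩, rfl⟩
    · exact Or.inr ⟨y, ⟨hy, h⟩, rfl⟩
  have hconn : (f '' S).OrdConnected := (hS.image f hf).ordConnected
  have key : ∀ a ∈ f '' S, ∀ b ∈ f '' S, ¬ a < b := by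
    intro a ha b hb hab
    have hsub : Icc a b ⊆ f '' S := hconn.out ha hb
    obtain ⟨c, hc1, hc2⟩ := hcount.dense_compl ℝ |>.exists_between hab
    exact hc1 (hsub ⟨hc2.1.le, hc2.2.le⟩)
  intro x hx y hy
  exact le_antisymm (not_lt.1 (key _ ⟨y, hy, rfl⟩ _ ⟨x, hx, rfl⟩))
    (not_lt.1 (key _ ⟨x, hx, rfl⟩ _ ⟨y, hy, rfl⟩))

/-- Mean value estimate on a circular arc, up to the end. -/
theorem arc_estimate {P : Set ℂ} {Φ φ : ℂ → ℂ} (hΦ : ∀ z ∈ P, HasDerivAt Φ (φ z) z)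
    {p : ℂ} {s α β B : ℝ} (hs : 0 < s) (hB : ∀ θ ∈ Ioo α β, ‖φ (p + s * exp (θ * I))‖ ≤ B)
    (harc : ∀ θ ∈ Ioo α β, p + s * exp (θ * I) ∈ P) {θ₀ l : ℝ} (hθ₀ : θ₀ ∈ Icc α β)
    (hlim : Tendsto (fun z => (Φ z).im) (𝓝[P] (p + s * exp (θ₀ * I))) (𝓝 l))
    {θ : ℝ} (hθ : θ ∈ Ioo α β) :
    |(Φ (p + s * exp (θ * I))).im - l| ≤ B * s * |θ - θ₀| := by
  have hin : ∀ t : ℝ, HasDerivAt (fun t : ℝ => p + s * exp (t * I)) (s * (exp (t * I) * I)) t := by
    intro t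
    have h1 : HasDerivAt (fun t : ℝ => (t : ℂ) * I) I t := by
      simpa using (Complex.ofRealCLM.hasDerivAt (x := t)).mul_const I
    have h2 := ((Complex.hasDerivAt_exp ((t : ℂ) * I)).comp t h1)
    exact (h2.const_mul (s : ℂ)).const_add p
  have hmv : ∀ t ∈ Ioo α β, ‖Φ (p + s * exp (θ * I)) - Φ (p + s * exp (t * I))‖ ≤
      B * s * |θ - t| := by
    intro t ht
    have := Convex.norm_image_sub_le_of_norm_hasDerivWithin_le (𝕜 := ℝ)
      (f := fun t : ℝ => Φ (p + s * exp (t * I)))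
      (f' := fun t : ℝ => φ (p + s * exp (t * I)) * (s * (exp (t * I) * I)))
      (s := Ioo α β) (C := B * s) (x := t) (y := θ)
      (fun x hx => ((hΦ _ (harc x hx)).comp x (hin x)).hasDerivWithinAt)
      (by
        intro x hx
        rw [norm_mul, norm_mul, norm_mul, Complex.norm_exp_ofReal_mul_I, Complex.norm_I,
          Complex.norm_real, Real.norm_of_nonneg hs.le, mul_one, mul_one]
        exact mul_le_mul_of_nonneg_right (hB x hx) hs.le)
      (convex_Ioo α β) ht hθ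
    simpa [Real.norm_eq_abs] using this
  -- pass to the limit
  have hcl : θ₀ ∈ closure (Ioo α β) := by
    rw [closure_Ioo (hθ.1.trans hθ.2).ne]
    exact hθ₀
  have hne : (𝓝[Ioo α β] θ₀).NeBot := mem_closure_iff_nhdsWithin_neBot.1 hcl
  have h1 : Tendsto (fun t : ℝ => p + s * exp (t * I)) (𝓝[Ioo α β] θ₀)
      (𝓝[P] (p + s * exp (θ₀ * I))) := by
    refine tendsto_nhdsWithin_of_tendsto_nhds_of_eventually_within _
      ((hin θ₀).continuousAt.tendsto.mono_left nhdsWithin_le_nhds) ?_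
    filter_upwards [self_mem_nhdsWithin] with t ht
    exact harc t ht
  have h2 := hlim.comp h1
  have h3 : Tendsto (fun t : ℝ => |(Φ (p + s * exp (θ * I))).im - (Φ (p + s * exp (t * I))).im|)
      (𝓝[Ioo α β] θ₀) (𝓝 |(Φ (p + s * exp (θ * I))).im - l|) :=
    (tendsto_const_nhds.sub h2).abs
  have h4 : Tendsto (fun t : ℝ => B * s * |θ - t|) (𝓝[Ioo α β] θ₀) (𝓝 (B * s * |θ - θ₀|)) := by
    have : Continuous fun t : ℝ => B * s * |θ - t| := by fun_prop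
    exact (this.tendsto θ₀).mono_left nhdsWithin_le_nhds
  refine le_of_tendsto_of_tendsto h3 h4 ?_
  filter_upwards [self_mem_nhdsWithin] with t ht
  have h5 := hmv t ht
  refine le_trans ?_ h5
  rw [← Complex.sub_im]
  exact Complex.abs_im_le_norm _

/-- The common hypotheses on the domain and on the two functions. `A` is the set of corners and
marks, `Z` the set of marks, `κ` the size of the half discs. -/
structure Data (P : Set ℂ) (A Z : Finset ℂ) (κ : ℝ) (c : ℂ) (h₁ h₂ : ℂ → ℂ) : Prop where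
  isOpen : IsOpen P
  bounded : IsBounded P
  nonempty : A.Nonempty
  sub : ∀ p ∈ A, p ∈ frontier P
  pos : 0 < κ
  le_one : κ ≤ 1
  cont₁ : ContinuousOn h₁ (closure P)
  diff₁ : DifferentiableOn ℂ h₁ P
  cont₂ : ContinuousOn h₂ (closure P)
  diff₂ : DifferentiableOn ℂ h₂ P
  side : ∀ x ∈ frontier P, x ∉ A → ∃ u w : ℂ, ‖u‖ = 1 ∧ ‖w‖ = 1 ∧ (c / (w ^ 3 * u ^ 2)).im = 0 ∧
    (∀ z ∈ ball x (κ * infDist x A), z ∈ P ↔ 0 < ((z - x) / u).im) ∧
    (∀ z ∈ ball x (κ * infDist x A), ((z - x) / u).im = 0 → (w * (h₁ z - h₁ x)).im = 0) ∧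
    (∀ z ∈ ball x (κ * infDist x A), ((z - x) / u).im = 0 → (w * (h₂ z - h₂ x)).im = 0)
  sector : ∀ p ∈ A, ∃ r α β : ℝ, 0 < r ∧ β ≤ α + 2 * Real.pi ∧
    (∀ s ∈ Ioo 0 r, (∀ φ ∈ Ioo α β, p + s * exp (φ * I) ∈ P) ∧ p + s * exp (α * I) ∈ frontier P) ∧
    (∀ z ∈ P, dist z p < r → ∃ φ ∈ Ioo α β, z = p + (dist z p : ℝ) * exp (φ * I))
  holder : ∀ p ∈ A, ∃ C l r : ℝ, 0 ≤ C ∧ 0 < r ∧ 2 / 3 ≤ l ∧ (p ∉ Z → 2 / 3 < l) ∧
    ∀ y ∈ closure P, ‖y - p‖ ≤ r →
      ‖h₁ y - h₁ p‖ ≤ C * ‖y - p‖ ^ l ∧ ‖h₂ y - h₂ p‖ ≤ C * ‖y - p‖ ^ l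

variable {P : Set ℂ} {A Z : Finset ℂ} {κ : ℝ} {c : ℂ} {h₁ h₂ Φ : ℂ → ℂ}

theorem Data.infDist_pos (D : Data P A Z κ c h₁ h₂) {x : ℂ} (hx : x ∉ A) :
    0 < infDist x (A : Set ℂ) :=
  (A.finite_toSet.isClosed.notMem_iff_infDist_pos (by simpa using D.nonempty)).1 (by simpa using hx)

theorem Data.limit (D : Data P A Z κ c h₁ h₂)
    (hΦ : ∀ z ∈ P, HasDerivAt Φ (c * (deriv h₁ z ^ 2 * deriv h₂ z)) z)
    {x : ℂ} (hx : x ∈ frontier P) (hxA : x ∉ A) :
    ∃ k : ℝ, ∀ᶠ y in 𝓝[frontier P] x, Tendsto (fun z => (Φ z).im) (𝓝[P] y) (𝓝 k) := by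
  obtain ⟨u, w, hu, hw, hcuw, hP, hl₁, hl₂⟩ := D.side x hx hxA
  have hr : 0 < κ * infDist x A := mul_pos D.pos (D.infDist_pos hxA)
  obtain ⟨k, hk⟩ := side_limit D.isOpen D.cont₁ D.diff₁ D.cont₂ D.diff₂ hΦ hr hu hw hcuw hP hl₁ hl₂
  refine ⟨k, ?_⟩
  have h1 : ∀ᶠ y in 𝓝[frontier P] x, y ∈ ball x (κ * infDist x A) :=
    mem_nhdsWithin_of_mem_nhds (ball_mem_nhds x hr)
  filter_upwards [h1, self_mem_nhdsWithin] with y hy hyf
  exact hk y hy (frontier_half D.isOpen hu hP hy hyf)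

/-- `Im Φ` has a constant limit on preconnected subsets of the frontier on which all limits
exist. -/
theorem Data.const (D : Data P A Z κ c h₁ h₂)
    (hΦ : ∀ z ∈ P, HasDerivAt Φ (c * (deriv h₁ z ^ 2 * deriv h₂ z)) z)
    {S : Set ℂ} (hS : IsPreconnected S) (hSf : S ⊆ frontier P)
    (hlim : ∀ x ∈ S, ∃ k : ℝ, Tendsto (fun z => (Φ z).im) (𝓝[P] x) (𝓝 k)) :
    ∃ k : ℝ, ∀ x ∈ S, Tendsto (fun z => (Φ z).im) (𝓝[P] x) (𝓝 k) := by
  have hScl : S ⊆ closure P := hSf.trans frontier_subset_closure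
  have hcont : ContinuousOn (extendFrom P fun z => (Φ z).im) S := continuousOn_extendFrom hScl hlim
  have hval : ∀ x ∈ closure P, ∀ k : ℝ, Tendsto (fun z => (Φ z).im) (𝓝[P] x) (𝓝 k) →
      extendFrom P (fun z => (Φ z).im) x = k := fun x hx k hk => extendFrom_eq hx hk
  have hloc : ∀ x ∈ S, x ∉ (A : Set ℂ) → ∀ᶠ y in 𝓝[S] x,
      extendFrom P (fun z => (Φ z).im) y = extendFrom P (fun z => (Φ z).im) x := by
    intro x hx hxA
    obtain ⟨k, hk⟩ := D.limit hΦ (hSf hx) (by simpa using hxA)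
    have hkx : Tendsto (fun z => (Φ z).im) (𝓝[P] x) (𝓝 k) := hk.self_of_nhdsWithin (hSf hx)
    filter_upwards [nhdsWithin_mono x hSf hk, self_mem_nhdsWithin] with y hy hyS
    rw [hval y (hScl hyS) k hy, hval x (hScl hx) k hkx]
  have hconst := const_of_locally_const hS A.countable_toSet hcont hloc
  rcases S.eq_empty_or_nonempty with rfl | ⟨x₀, hx₀⟩
  · exact ⟨0, fun x hx => absurd hx (notMem_empty x)⟩
  · obtain ⟨k, hk⟩ := hlim x₀ hx₀
    refine ⟨k, fun x hx => ?_⟩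
    obtain ⟨k', hk'⟩ := hlim x hx
    have := hconst x hx x₀ hx₀
    rw [hval x (hScl hx) k' hk', hval x₀ (hScl hx₀) k hk] at this
    rwa [← this]

theorem exists_sep (A : Finset ℂ) (p : ℂ) :
    ∃ δ : ℝ, 0 < δ ∧ ∀ q ∈ A, q ≠ p → 2 * δ ≤ dist q p := by
  classical
  rcases (A.erase p).eq_empty_or_nonempty with h | h
  · refine ⟨1, one_pos, fun q hq hqp => ?_⟩
    have : q ∈ A.erase p := Finset.mem_erase.2 ⟨hqp, hq⟩
    rw [h] at this
    exact absurd this (Finset.notMem_empty q)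
  · obtain ⟨q₀, hq₀, hmin⟩ := Finset.exists_min_image _ (fun q => dist q p) h
    refine ⟨dist q₀ p / 2, by
      have := dist_pos.2 (Finset.ne_of_mem_erase hq₀)
      linarith, fun q hq hqp => ?_⟩
    have := hmin q (Finset.mem_erase.2 ⟨hqp, hq⟩)
    linarith

/-- Bound of the integrand near a point of `A`. -/
theorem Data.near (D : Data P A Z κ c h₁ h₂) {p : ℂ} (hp : p ∈ A) :
    ∃ δ K l : ℝ, 0 < δ ∧ δ ≤ 1 / 2 ∧ 0 ≤ K ∧ 0 ≤ l ∧ (p ∉ Z → 0 < l) ∧
      (∀ q ∈ A, dist q p < δ → q = p) ∧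
      ∀ z ∈ P, dist z p < δ →
        ‖c * (deriv h₁ z ^ 2 * deriv h₂ z)‖ * dist z p ≤ K * (2 * dist z p) ^ l := by
  obtain ⟨δ₀, hδ₀, hsep⟩ := exists_sep A p
  obtain ⟨C, l, r, hC, hr, hl, hlZ, hhol⟩ := D.holder p hp
  have hpP : p ∉ P := by
    have := D.sub p hp
    rw [D.isOpen.frontier_eq] at this
    exact this.2
  refine ⟨min δ₀ (min (1 / 2) (r / 2)), 4 * (‖c‖ * (100 / κ * C) ^ 3), 3 * l - 2, by positivity,
    (min_le_right _ _).trans (min_le_left _ _), by have := D.pos; positivity, by linarith,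
    fun h => by linarith [hlZ h], ?_, ?_⟩
  · intro q hq hqp
    by_contra hne
    have h1 := hsep q hq hne
    have h2 : dist q p < δ₀ := lt_of_lt_of_le hqp (min_le_left _ _)
    linarith
  · intro z hz hzp
    have hzδ : dist z p < δ₀ := lt_of_lt_of_le hzp (min_le_left _ _)
    have hzr : dist z p < r / 2 :=
      lt_of_lt_of_le hzp ((min_le_right _ _).trans (min_le_right _ _))
    have hρ : 0 < dist z p := dist_pos.2 (fun h => hpP (h ▸ hz))
    set ρ := dist z p with hρd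
    have hinf : infDist z (A : Set ℂ) = ρ := by
      apply le_antisymm
      · exact infDist_le_dist_of_mem (by simpa using hp)
      · refine (le_infDist (by simpa using D.nonempty)).2 ?_
        intro q hq
        by_cases hqp : q = p
        · rw [hqp]
        · have h1 := hsep q (by simpa using hq) hqp
          have h2 : dist q p ≤ dist q z + dist z p := dist_triangle _ _ _
          rw [dist_comm q z] at h2
          linarith
    have hM : ∀ h : ℂ → ℂ, (∀ y ∈ closure P, ‖y - p‖ ≤ r → ‖h y - h p‖ ≤ C * ‖y - p‖ ^ l) →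
        ∀ y ∈ closure P, dist y z < infDist z (A : Set ℂ) → ‖h y - h p‖ ≤ C * (2 * ρ) ^ l := by
      intro h hh y hy hyz
      have hyp : ‖y - p‖ ≤ 2 * ρ := by
        rw [← dist_eq_norm]
        rw [hinf] at hyz
        calc dist y p ≤ dist y z + dist z p := dist_triangle _ _ _
          _ ≤ 2 * ρ := by linarith
      refine (hh y hy (hyp.trans (by linarith))).trans (mul_le_mul_of_nonneg_left ?_ hC)
      exact Real.rpow_le_rpow (norm_nonneg _) hyp (by linarith)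
    have hside : ∀ h : ℂ → ℂ, (∀ x ∈ frontier P, x ∉ A → ∃ u w : ℂ, ‖u‖ = 1 ∧ ‖w‖ = 1 ∧
        (∀ z ∈ ball x (κ * infDist x A), z ∈ P ↔ 0 < ((z - x) / u).im) ∧
        (∀ z ∈ ball x (κ * infDist x A), ((z - x) / u).im = 0 → (w * (h z - h x)).im = 0)) →
        ∀ x ∈ frontier P, 0 < infDist x (A : Set ℂ) → ∃ u w : ℂ, ‖u‖ = 1 ∧ ‖w‖ = 1 ∧
        (∀ z ∈ ball x (κ * infDist x A), z ∈ P ↔ 0 < ((z - x) / u).im) ∧
        (∀ z ∈ ball x (κ * infDist x A), ((z - x) / u).im = 0 → (w * (h z - h x)).im = 0) := by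
      intro h hh x hx hx0
      refine hh x hx ?_
      intro hxA
      rw [infDist_zero_of_mem (by simpa using hxA)] at hx0
      exact lt_irrefl _ hx0
    have hz0 : 0 < infDist z (A : Set ℂ) := by rw [hinf]; exact hρ
    have b1 := H33.Q1.deriv_bound D.pos D.le_one D.isOpen D.cont₁ D.diff₁
      (hside h₁ fun x hx hxA => by
        obtain ⟨u, w, q1, q2, -, q3, q4, -⟩ := D.side x hx hxA
        exact ⟨u, w, q1, q2, q3, q4⟩) hz hz0 (hM h₁ fun y hy hyr => (hhol y hy hyr).1)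
    have b2 := H33.Q1.deriv_bound D.pos D.le_one D.isOpen D.cont₂ D.diff₂
      (hside h₂ fun x hx hxA => by
        obtain ⟨u, w, q1, q2, -, q3, -, q4⟩ := D.side x hx hxA
        exact ⟨u, w, q1, q2, q3, q4⟩) hz hz0 (hM h₂ fun y hy hyr => (hhol y hy hyr).2)
    rw [hinf] at b1 b2
    set B := 100 / κ * (C * (2 * ρ) ^ l) / ρ with hB
    have hκ := D.pos
    have hB0 : 0 ≤ B := by positivity
    have h3 : ‖c * (deriv h₁ z ^ 2 * deriv h₂ z)‖ ≤ ‖c‖ * B ^ 3 := by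
      rw [norm_mul, norm_mul, norm_pow]
      refine mul_le_mul_of_nonneg_left ?_ (norm_nonneg c)
      calc ‖deriv h₁ z‖ ^ 2 * ‖deriv h₂ z‖ ≤ B ^ 2 * B := by gcongr
        _ = B ^ 3 := by ring
    have h4 : ((2 * ρ) ^ l) ^ 3 = (2 * ρ) ^ (3 * l - 2) * (2 * ρ) ^ 2 := by
      rw [← Real.rpow_natCast ((2 * ρ) ^ l) 3, ← Real.rpow_mul (by positivity),
        ← Real.rpow_natCast (2 * ρ) 2, ← Real.rpow_add (by positivity)]
      congr 1
      push_cast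
      ring
    calc ‖c * (deriv h₁ z ^ 2 * deriv h₂ z)‖ * ρ ≤ ‖c‖ * B ^ 3 * ρ :=
          mul_le_mul_of_nonneg_right h3 hρ.le
      _ = ‖c‖ * (100 / κ * C) ^ 3 * ((2 * ρ) ^ l) ^ 3 / ρ ^ 2 := by
          rw [hB]
          field_simp
      _ = 4 * (‖c‖ * (100 / κ * C) ^ 3) * (2 * ρ) ^ (3 * l - 2) := by
          rw [h4]
          field_simp
          ring

/-- Near a point of `A`, `Im Φ` is close to the constant limit on one adjacent side. -/
theorem Data.corner (D : Data P A Z κ c h₁ h₂)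
    (hΦ : ∀ z ∈ P, HasDerivAt Φ (c * (deriv h₁ z ^ 2 * deriv h₂ z)) z) {p : ℂ} (hp : p ∈ A) :
    ∃ δ K l k : ℝ, 0 < δ ∧ δ ≤ 1 / 2 ∧ 0 ≤ K ∧ 0 ≤ l ∧ (p ∉ Z → 0 < l) ∧
      ∀ z ∈ P, dist z p < δ → |(Φ z).im - k| ≤ K * (2 * dist z p) ^ l := by
  obtain ⟨δ₁, K, l, hδ₁, hδ₁', hK, hl, hlZ, hsep, hnear⟩ := D.near hp
  obtain ⟨r, α, β, hr, hαβ2, hsec, hpol⟩ := D.sector p hp
  have hpP : p ∉ P := by
    have := D.sub p hp
    rw [D.isOpen.frontier_eq] at this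
    exact this.2
  set δ := min δ₁ r with hδ
  have hδ0 : 0 < δ := lt_min hδ₁ hr
  have hdist : ∀ (s : ℝ), 0 < s → ∀ φ : ℝ, dist (p + s * exp (φ * I)) p = s := by
    intro s hs φ
    rw [dist_eq_norm]
    simp [Complex.norm_exp_ofReal_mul_I, abs_of_pos hs]
  -- the side
  set S : Set ℂ := (fun s : ℝ => p + s * exp (α * I)) '' Ioo 0 δ with hS
  have hSpre : IsPreconnected S := by
    refine isPreconnected_Ioo.image _ ?_
    exact Continuous.continuousOn (by fun_prop)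
  have hSf : S ⊆ frontier P := by
    rintro _ ⟨s, hs, rfl⟩
    exact (hsec s ⟨hs.1, hs.2.trans_le (min_le_right _ _)⟩).2
  have hSA : ∀ x ∈ S, x ∉ A := by
    rintro _ ⟨s, hs, rfl⟩ hA
    have h1 := hsep _ hA (by rw [hdist s hs.1]; exact hs.2.trans_le (min_le_left _ _))
    have h2 := hdist s hs.1 α
    have h1' : p + s * exp (α * I) = p := h1
    rw [h1', dist_self] at h2
    exact absurd h2 hs.1.ne
  obtain ⟨k, hk⟩ := D.const hΦ hSpre hSf (fun x hx => by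
    obtain ⟨k, hk⟩ := D.limit hΦ (hSf hx) (hSA x hx)
    exact ⟨k, hk.self_of_nhdsWithin (hSf hx)⟩)
  refine ⟨δ, K * (2 * Real.pi), l, k, hδ0, (min_le_left _ _).trans hδ₁',
    mul_nonneg hK (by positivity), hl, hlZ, ?_⟩
  intro z hz hzp
  obtain ⟨φ, hφ, hzφ⟩ := hpol z hz (hzp.trans_le (min_le_right _ _))
  set s := dist z p with hs
  have hs0 : 0 < s := dist_pos.2 fun h => hpP (h ▸ hz)
  have hsr : s ∈ Ioo 0 r := ⟨hs0, hzp.trans_le (min_le_right _ _)⟩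
  have hlim := hk (p + s * exp (α * I)) ⟨s, ⟨hs0, hzp⟩, rfl⟩
  have harc := arc_estimate (B := K * (2 * s) ^ l / s) hΦ hs0
    (fun θ hθ => by
      have h1 := (hsec s hsr).1 θ hθ
      have h2 := hnear _ h1 (by rw [hdist s hs0]; exact hzp.trans_le (min_le_left _ _))
      rw [hdist s hs0] at h2
      rw [le_div_iff₀ hs0]
      exact h2)
    (fun θ hθ => (hsec s hsr).1 θ hθ) (left_mem_Icc.2 (hφ.1.trans hφ.2).le) hlim hφ
  rw [← hzφ] at harc
  refine harc.trans ?_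
  have h3 : |φ - α| ≤ 2 * Real.pi := by
    rw [abs_of_pos (sub_pos.2 hφ.1)]
    linarith [hφ.2]
  have h4 : K * (2 * s) ^ l / s * s = K * (2 * s) ^ l := by field_simp
  rw [h4]
  calc K * (2 * s) ^ l * |φ - α| ≤ K * (2 * s) ^ l * (2 * Real.pi) := by gcongr
    _ = K * (2 * Real.pi) * (2 * s) ^ l := by ring

theorem Data.limit_corner (D : Data P A Z κ c h₁ h₂)
    (hΦ : ∀ z ∈ P, HasDerivAt Φ (c * (deriv h₁ z ^ 2 * deriv h₂ z)) z) {p : ℂ} (hp : p ∈ A)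
    (hpZ : p ∉ Z) : ∃ k : ℝ, Tendsto (fun z => (Φ z).im) (𝓝[P] p) (𝓝 k) := by
  obtain ⟨δ, K, l, k, hδ, -, hK, -, hlZ, hb⟩ := D.corner hΦ hp
  refine ⟨k, ?_⟩
  rw [tendsto_iff_dist_tendsto_zero]
  have h1 : Tendsto (fun z : ℂ => K * (2 * dist z p) ^ l) (𝓝[P] p) (𝓝 0) := by
    have h2 : Tendsto (fun z : ℂ => K * (2 * dist z p) ^ l) (𝓝 p) (𝓝 (K * (2 * dist p p) ^ l)) := by
      have h3 : Tendsto (fun z : ℂ => 2 * dist z p) (𝓝 p) (𝓝 (2 * dist p p)) := by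
        have : Continuous fun z : ℂ => 2 * dist z p := by fun_prop
        exact this.tendsto p
      exact (h3.rpow_const (Or.inr (hlZ hpZ).le)).const_mul K
    simp only [dist_self, mul_zero, Real.zero_rpow (hlZ hpZ).ne'] at h2
    exact h2.mono_left nhdsWithin_le_nhds
  refine squeeze_zero' (Eventually.of_forall fun _ => dist_nonneg) ?_ h1
  have h4 : ∀ᶠ z in 𝓝[P] p, dist z p < δ := mem_nhdsWithin_of_mem_nhds (ball_mem_nhds p hδ)
  filter_upwards [h4, self_mem_nhdsWithin] with z hz hzP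
  rw [Real.dist_eq]
  exact hb z hzP hz

theorem Data.limit_all (D : Data P A Z κ c h₁ h₂)
    (hΦ : ∀ z ∈ P, HasDerivAt Φ (c * (deriv h₁ z ^ 2 * deriv h₂ z)) z) {x : ℂ}
    (hx : x ∈ frontier P) (hxZ : x ∉ Z) :
    ∃ k : ℝ, Tendsto (fun z => (Φ z).im) (𝓝[P] x) (𝓝 k) := by
  by_cases hxA : x ∈ A
  · exact D.limit_corner hΦ hxA hxZ
  · obtain ⟨k, hk⟩ := D.limit hΦ hx hxA
    exact ⟨k, hk.self_of_nhdsWithin hx⟩

theorem Data.bounded_im (D : Data P A Z κ c h₁ h₂)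
    (hΦ : ∀ z ∈ P, HasDerivAt Φ (c * (deriv h₁ z ^ 2 * deriv h₂ z)) z) :
    ∃ M : ℝ, ∀ z ∈ P, |(Φ z).im| ≤ M := by
  have hK : IsCompact (closure P) := D.bounded.isCompact_closure
  have hev : ∀ x ∈ closure P, ∃ M : ℝ, ∀ᶠ z in 𝓝[P] x, |(Φ z).im| ≤ M := by
    have of_lim : ∀ (x : ℂ) (k : ℝ), Tendsto (fun z => (Φ z).im) (𝓝[P] x) (𝓝 k) →
        ∃ M : ℝ, ∀ᶠ z in 𝓝[P] x, |(Φ z).im| ≤ M := by
      intro x k hk
      refine ⟨|k| + 1, ?_⟩
      filter_upwards [hk.eventually (ball_mem_nhds k one_pos)] with z hz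
      rw [Real.dist_eq] at hz
      have := abs_sub_abs_le_abs_sub ((Φ z).im) k
      linarith
    intro x hx
    by_cases hxP : x ∈ P
    · exact of_lim x (Φ x).im
        (((Complex.continuous_im.continuousAt.comp (hΦ x hxP).continuousAt).tendsto).mono_left
          nhdsWithin_le_nhds)
    · have hxf : x ∈ frontier P := by
        rw [D.isOpen.frontier_eq]
        exact ⟨hx, hxP⟩
      by_cases hxA : x ∈ A
      · obtain ⟨δ, K, l, k, hδ, hδ2, hK, hl, -, hb⟩ := D.corner hΦ hxA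
        refine ⟨|k| + K, ?_⟩
        have h4 : ∀ᶠ z in 𝓝[P] x, dist z x < δ := mem_nhdsWithin_of_mem_nhds (ball_mem_nhds x hδ)
        filter_upwards [h4, self_mem_nhdsWithin] with z hz hzP
        have h5 := hb z hzP hz
        have h6 : (2 * dist z x) ^ l ≤ 1 :=
          Real.rpow_le_one (by positivity) (by linarith) hl
        have h7 : K * (2 * dist z x) ^ l ≤ K := by nlinarith
        have := abs_sub_abs_le_abs_sub ((Φ z).im) k
        linarith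
      · obtain ⟨k, hk⟩ := D.limit hΦ hxf hxA
        exact of_lim x k (hk.self_of_nhdsWithin hxf)
  have hmain : ∃ M : ℝ, ∀ z ∈ closure P ∩ P, |(Φ z).im| ≤ M := by
    refine hK.induction_on (p := fun s => ∃ M : ℝ, ∀ z ∈ s ∩ P, |(Φ z).im| ≤ M) ?_ ?_ ?_ ?_
    · exact ⟨0, fun z hz => absurd hz.1 (notMem_empty z)⟩
    · rintro s t hst ⟨M, hM⟩
      exact ⟨M, fun z hz => hM z ⟨hst hz.1, hz.2⟩⟩
    · rintro s t ⟨M, hM⟩ ⟨M', hM'⟩
      refine ⟨max M M', fun z hz => ?_⟩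
      rcases hz.1 with h | h
      · exact (hM z ⟨h, hz.2⟩).trans (le_max_left _ _)
      · exact (hM' z ⟨h, hz.2⟩).trans (le_max_right _ _)
    · intro x hx
      obtain ⟨M, hM⟩ := hev x hx
      rw [eventually_nhdsWithin_iff] at hM
      refine ⟨{z | z ∈ P → |(Φ z).im| ≤ M}, mem_nhdsWithin_of_mem_nhds hM, M, ?_⟩
      intro z hz
      exact hz.1 hz.2
  obtain ⟨M, hM⟩ := hmain
  exact ⟨M, fun z hz => hM z ⟨subset_closure hz, hz⟩⟩

theorem Data.side_const (D : Data P A Z κ c h₁ h₂)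
    (hΦ : ∀ z ∈ P, HasDerivAt Φ (c * (deriv h₁ z ^ 2 * deriv h₂ z)) z)
    {S : Set ℂ} (hS : IsPreconnected S) (hSf : ∀ x ∈ S, x ∈ frontier P ∧ x ∉ Z) :
    ∃ k : ℝ, ∀ x ∈ S, Tendsto (fun z => (Φ z).im) (𝓝[P] x) (𝓝 k) :=
  D.const hΦ hS (fun x hx => (hSf x hx).1) fun x hx => D.limit_all hΦ (hSf x hx).1 (hSf x hx).2

/-- **Uniqueness.** Two functions with the same boundary directions have real proportional
derivatives. -/
theorem Data.uniq (D : Data P A Z κ c h₁ h₂) (D₀ : Data P A Z κ c h₁ h₁)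
    (hc : c ≠ 0) (hPc : IsPreconnected P)
    (hprim : ∀ g : ℂ → ℂ, DifferentiableOn ℂ g P → ∃ Φ : ℂ → ℂ, ∀ z ∈ P, HasDerivAt Φ (g z) z)
    {S T : Set ℂ} (hS : IsPreconnected S) (hT : IsPreconnected T)
    (hSf : ∀ x ∈ S, x ∈ frontier P ∧ x ∉ Z) (hTf : ∀ x ∈ T, x ∈ frontier P ∧ x ∉ Z)
    (hST : frontier P ⊆ S ∪ T ∪ Z) (hZ : ∀ a ∈ Z, a ∉ P)
    (hne : ∃ z ∈ P, deriv h₁ z ≠ 0) :
    ∃ k : ℝ, ∀ z ∈ P, deriv h₂ z = k * deriv h₁ z := by
  have e1 : DifferentiableOn ℂ (deriv h₁) P := D.diff₁.deriv D.isOpen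
  have e2 : DifferentiableOn ℂ (deriv h₂) P := D.diff₂.deriv D.isOpen
  obtain ⟨Φ₀, hΦ₀⟩ := hprim (fun z => c * (deriv h₁ z ^ 2 * deriv h₁ z))
    (((e1.pow 2).mul e1).const_mul c)
  obtain ⟨Φ₁, hΦ₁⟩ := hprim (fun z => c * (deriv h₁ z ^ 2 * deriv h₂ z))
    (((e1.pow 2).mul e2).const_mul c)
  obtain ⟨M₀, hM₀⟩ := D₀.bounded_im hΦ₀
  obtain ⟨M₁, hM₁⟩ := D.bounded_im hΦ₁
  obtain ⟨l₀, hl₀⟩ := D₀.side_const hΦ₀ hS hSf
  obtain ⟨r₀, hr₀⟩ := D₀.side_const hΦ₀ hT hTf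
  obtain ⟨l₁, hl₁⟩ := D.side_const hΦ₁ hS hSf
  obtain ⟨r₁, hr₁⟩ := D.side_const hΦ₁ hT hTf
  refine Q1.uniq D.isOpen hPc D.bounded Z hZ (L := S) (R := T) hST hc e1 e2
    (Φ₀ := Φ₀) (Φ₁ := Φ₁) ?_ hΦ₁ (M := max M₀ M₁)
    (fun z hz => (hM₀ z hz).trans (le_max_left _ _))
    (fun z hz => (hM₁ z hz).trans (le_max_right _ _))
    (fun w _ hw _ => hl₀ w hw) (fun w _ hw _ => hr₀ w hw)
    (fun w _ hw _ => hl₁ w hw) (fun w _ hw _ => hr₁ w hw) hne
  intro z hz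
  have h1 := hΦ₀ z hz
  have h2 : c * (deriv h₁ z ^ 2 * deriv h₁ z) = c * deriv h₁ z ^ 3 := by ring
  rwa [h2] at h1

/-- Proportional derivatives on a preconnected open set give proportional increments on the
closure. -/
theorem increments {P : Set ℂ} (hPo : IsOpen P) (hPc : IsPreconnected P) {h₁ h₂ : ℂ → ℂ}
    (hc₁ : ContinuousOn h₁ (closure P)) (hd₁ : DifferentiableOn ℂ h₁ P)
    (hc₂ : ContinuousOn h₂ (closure P)) (hd₂ : DifferentiableOn ℂ h₂ P)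
    {k : ℂ} (hk : ∀ z ∈ P, deriv h₂ z = k * deriv h₁ z) {x y : ℂ} (hx : x ∈ closure P)
    (hy : y ∈ closure P) : h₂ x - h₂ y = k * (h₁ x - h₁ y) := by
  set f : ℂ → ℂ := fun z => h₂ z - k * h₁ z with hf
  have hfc : ContinuousOn f (closure P) := hc₂.sub (hc₁.const_smul k)
  have hfd : ∀ z ∈ P, HasDerivAt f 0 z := by
    intro z hz
    have h1 := (hd₁.differentiableAt (hPo.mem_nhds hz)).hasDerivAt
    have h2 := (hd₂.differentiableAt (hPo.mem_nhds hz)).hasDerivAt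
    have h3 := h2.sub (h1.const_mul k)
    rw [hk z hz, sub_self] at h3
    exact h3
  have hP : ∀ z ∈ P, ∀ w ∈ P, f z = f w := fun z hz w hw =>
    hPo.is_const_of_deriv_eq_zero hPc
      (fun v hv => (hfd v hv).differentiableAt.differentiableWithinAt)
      (fun v hv => (hfd v hv).deriv) hz hw
  have hne : P.Nonempty := by
    rcases P.eq_empty_or_nonempty with h | h
    · rw [h, closure_empty] at hx
      exact absurd hx (notMem_empty x)
    · exact h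
  obtain ⟨z₀, hz₀⟩ := hne
  have hcl : ∀ z ∈ closure P, f z = f z₀ := by
    intro z hz
    have h1 : Tendsto f (𝓝[P] z) (𝓝 (f z)) := (hfc z hz).mono_left (nhdsWithin_mono z subset_closure)
    have h2 : Tendsto f (𝓝[P] z) (𝓝 (f z₀)) := by
      refine tendsto_const_nhds.congr' ?_
      filter_upwards [self_mem_nhdsWithin] with w hw
      exact (hP w hw z₀ hz₀).symm
    have : (𝓝[P] z).NeBot := mem_closure_iff_nhdsWithin_neBot.1 hz
    exact tendsto_nhds_unique h1 h2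
  have h3 : f x = f y := (hcl x hx).trans (hcl y hy).symm
  simp only [hf] at h3
  linear_combination h3

end Q1
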