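import Mathlib

/-!
# Closed 1-forms on a polyomino with connected complement are exact (module M4)

`Q` is a finite set of cells of the grid `ℤ × ℤ`, whose complement is connected (8-adjacency is
enough; 4-adjacency in particular).  A 1-form is a pair `cH, cV`: `cH p` is attached to the edge
`p → p + (1,0)` and `cV p` to `p → p + (0,1)`; only edges between two cells of `Q` count, and it is
closed if the sum around every 2 x 2 block contained in `Q` is zero.
-/

namespace Q1

/-- 4-adjacency of cells. -/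
def Adj4 (p q : ℤ × ℤ) : Prop :=
  q = (p.1 + 1, p.2) ∨ p = (q.1 + 1, q.2) ∨ q = (p.1, p.2 + 1) ∨ p = (q.1, q.2 + 1)

/-- `CellConn S`: the set of cells `S` is 4-connected. -/
def CellConn (S : Set (ℤ × ℤ)) : Prop :=
  ∀ p ∈ S, ∀ q ∈ S, Relation.ReflTransGen (fun a b => Adj4 a b ∧ a ∈ S ∧ b ∈ S) p q

/-- The winding form of the vertex `v = (j,k)` (upper right corner of the cell `v`) has a potential
on `Q`. -/
def WindEx (Q : Finset (ℤ × ℤ)) (v : ℤ × ℤ) : Prop :=
  ∃ n : ℤ × ℤ → ℤ, (∀ p ∈ Q, (p.1 + 1, p.2) ∈ Q → n (p.1 + 1, p.2) = n p) ∧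
    (∀ p ∈ Q, (p.1, p.2 + 1) ∈ Q →
      n (p.1, p.2 + 1) - n p = if p.2 = v.2 ∧ v.1 < p.1 then 1 else 0)

theorem windEx_far {Q : Finset (ℤ × ℤ)} {v : ℤ × ℤ} (h : ∀ p ∈ Q, p.1 ≤ v.1) : WindEx Q v := by
  refine ⟨fun _ => 0, fun _ _ _ => rfl, fun p hp _ => ?_⟩
  rw [if_neg]
  · ring
  · rintro ⟨_, h2⟩
    have := h p hp
    omega

theorem windEx_hor {Q : Finset (ℤ × ℤ)} {j k : ℤ} (h : (j + 1, k) ∉ Q ∨ (j + 1, k + 1) ∉ Q) :
    WindEx Q (j, k) ↔ WindEx Q (j + 1, k) := by
  have key : ∀ p ∈ Q, (p.1, p.2 + 1) ∈ Q →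
      ((p.2 = k ∧ j < p.1) ↔ (p.2 = k ∧ j + 1 < p.1)) := by
    rintro ⟨a, b⟩ hp hp'
    simp only at hp' ⊢
    constructor
    · rintro ⟨h1, h2⟩
      refine ⟨h1, ?_⟩
      by_contra h3
      have h4 : a = j + 1 := by omega
      subst h4 h1
      rcases h with h | h
      · exact h hp
      · exact h hp'
    · rintro ⟨h1, h2⟩
      exact ⟨h1, by omega⟩
  constructor
  · rintro ⟨n, h1, h2⟩
    refine ⟨n, h1, fun p hp hp' => ?_⟩
    rw [h2 p hp hp']
    simp only [key p hp hp']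
  · rintro ⟨n, h1, h2⟩
    refine ⟨n, h1, fun p hp hp' => ?_⟩
    rw [h2 p hp hp']
    simp only [key p hp hp']

theorem windEx_ver {Q : Finset (ℤ × ℤ)} {j k : ℤ} (h : (j, k + 1) ∉ Q ∨ (j + 1, k + 1) ∉ Q) :
    WindEx Q (j, k) ↔ WindEx Q (j, k + 1) := by
  have key1 : ∀ p ∈ Q, (p.1 + 1, p.2) ∈ Q →
      ((p.2 = k + 1 ∧ j < p.1 + 1) ↔ (p.2 = k + 1 ∧ j < p.1)) := by
    rintro ⟨a, b⟩ hp hp'
    simp only at hp' ⊢
    constructor
    · rintro ⟨h1, h2⟩
      refine ⟨h1, ?_⟩
      by_contra h3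
      have h4 : a = j := by omega
      subst h4 h1
      rcases h with h | h
      · exact h hp
      · exact h hp'
    · rintro ⟨h1, h2⟩
      exact ⟨h1, by omega⟩
  constructor
  · rintro ⟨n, h1, h2⟩
    refine ⟨fun p => n p - if p.2 = k + 1 ∧ j < p.1 then 1 else 0, fun p hp hp' => ?_,
      fun p hp hp' => ?_⟩
    · have := key1 p hp hp'
      simp only [h1 p hp hp', this]
    · have := h2 p hp hp'
      simp only at this ⊢
      split_ifs at this ⊢ <;> omega
  · rintro ⟨n, h1, h2⟩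
    refine ⟨fun p => n p + if p.2 = k + 1 ∧ j < p.1 then 1 else 0, fun p hp hp' => ?_,
      fun p hp hp' => ?_⟩
    · have := key1 p hp hp'
      simp only [h1 p hp hp', this]
    · have := h2 p hp hp'
      simp only at this ⊢
      split_ifs at this ⊢ <;> omega

/-- All four corners of a cell outside `Q` are equivalent. -/
theorem windEx_corners {Q : Finset (ℤ × ℤ)} {a b : ℤ} (h : (a, b) ∉ Q) :
    (WindEx Q (a - 1, b) ↔ WindEx Q (a, b)) ∧ (WindEx Q (a, b - 1) ↔ WindEx Q (a, b)) ∧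
      (WindEx Q (a - 1, b - 1) ↔ WindEx Q (a, b)) := by
  have e1 : WindEx Q (a - 1, b) ↔ WindEx Q (a, b) := by
    have := windEx_hor (Q := Q) (j := a - 1) (k := b) (Or.inl (by simpa using h))
    simpa using this
  have e2 : WindEx Q (a, b - 1) ↔ WindEx Q (a, b) := by
    have := windEx_ver (Q := Q) (j := a) (k := b - 1) (Or.inl (by simpa using h))
    simpa using this
  have e3 : WindEx Q (a - 1, b - 1) ↔ WindEx Q (a - 1, b) := by
    have := windEx_ver (Q := Q) (j := a - 1) (k := b - 1) (Or.inr (by simpa using h))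
    simpa using this
  exact ⟨e1, e2, e3.trans e1⟩

theorem windEx_adj {Q : Finset (ℤ × ℤ)} {p q : ℤ × ℤ} (hp : p ∉ Q) (hq : q ∉ Q) (h : Adj4 p q) :
    WindEx Q p ↔ WindEx Q q := by
  obtain ⟨a, b⟩ := p
  obtain ⟨a', b'⟩ := q
  rcases h with h | h | h | h
  · simp only [Prod.mk.injEq] at h
    obtain ⟨rfl, rfl⟩ := h
    have := (windEx_corners hq).1
    simpa using this
  · simp only [Prod.mk.injEq] at h
    obtain ⟨rfl, rfl⟩ := h
    have := (windEx_corners hp).1
    simpa using this.symm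
  · simp only [Prod.mk.injEq] at h
    obtain ⟨rfl, rfl⟩ := h
    have := (windEx_corners hq).2.1
    simpa using this
  · simp only [Prod.mk.injEq] at h
    obtain ⟨rfl, rfl⟩ := h
    have := (windEx_corners hp).2.1
    simpa using this.symm

/-- Every vertex touching a cell outside `Q` has an exact winding form. -/
theorem windEx_of_notMem {Q : Finset (ℤ × ℤ)} (hQ : CellConn ((Q : Set (ℤ × ℤ))ᶜ)) {j k : ℤ}
    (h : ¬ ((j, k) ∈ Q ∧ (j + 1, k) ∈ Q ∧ (j, k + 1) ∈ Q ∧ (j + 1, k + 1) ∈ Q)) :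
    WindEx Q (j, k) := by
  -- far away cell
  obtain ⟨R, hR⟩ : ∃ R : ℤ, ∀ p ∈ Q, p.1 < R := by
    obtain ⟨R, hR⟩ := (Q.image Prod.fst).exists_le
    exact ⟨R + 1, fun p hp => lt_of_le_of_lt (hR p.1 (Finset.mem_image_of_mem _ hp)) (by omega)⟩
  have hfar : ((R, 0) : ℤ × ℤ) ∉ Q := fun h => by
    have := hR _ h
    simp at this
  have hTfar : WindEx Q (R, 0) := windEx_far fun p hp => (hR p hp).le
  have hT : ∀ p : ℤ × ℤ, p ∉ Q → WindEx Q p := by
    intro p hp
    have hconn := hQ (R, 0) (by simpa using hfar) p (by simpa using hp)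
    induction hconn with
    | refl => exact hTfar
    | tail _ hbc ih =>
      obtain ⟨hadj, hb, hc⟩ := hbc
      have hb' := by simpa using hb
      have hc' := by simpa using hc
      exact (windEx_adj hb' hc' hadj).1 (ih hb')
  by_cases h1 : (j, k) ∈ Q
  · by_cases h2 : (j + 1, k) ∈ Q
    · by_cases h3 : (j, k + 1) ∈ Q
      · have h4 : (j + 1, k + 1) ∉ Q := fun h4 => h ⟨h1, h2, h3, h4⟩
        have := (windEx_corners h4).2.2.2 (hT _ h4)
        simpa using this
      · have := (windEx_corners h3).2.1.2 (hT _ h3)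
        simpa using this
    · have := (windEx_corners h2).1.2 (hT _ h2)
      simpa using this
  · exact hT _ h1

theorem sum_Ico_int_succ {A : Type*} [AddCommMonoid A] {a b : ℤ} (hab : a ≤ b) (f : ℤ → A) :
    ∑ j ∈ Finset.Ico a (b + 1), f j = ∑ j ∈ Finset.Ico a b, f j + f b := by
  rw [← Finset.insert_Ico_right_eq_Ico_add_one hab, Finset.sum_insert Finset.right_notMem_Ico,
    add_comm]

/-- Closed 1-forms on a polyomino with connected complement are exact. -/
theorem exact_of_closed {A : Type*} [AddCommGroup A] (Q : Finset (ℤ × ℤ))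
    (hQ : CellConn ((Q : Set (ℤ × ℤ))ᶜ)) (cH cV : ℤ × ℤ → A)
    (hcl : ∀ i k : ℤ, (i, k) ∈ Q → (i + 1, k) ∈ Q → (i, k + 1) ∈ Q → (i + 1, k + 1) ∈ Q →
      cH (i, k) + cV (i + 1, k) = cV (i, k) + cH (i, k + 1)) :
    ∃ φ : ℤ × ℤ → A,
      (∀ i k : ℤ, (i, k) ∈ Q → (i + 1, k) ∈ Q → φ (i + 1, k) - φ (i, k) = cH (i, k)) ∧
      (∀ i k : ℤ, (i, k) ∈ Q → (i, k + 1) ∈ Q → φ (i, k + 1) - φ (i, k) = cV (i, k)) := by
  classical
  obtain ⟨R, hR⟩ : ∃ R : ℤ, ∀ p ∈ Q, p.1 < R := by
    obtain ⟨R, hR⟩ := (Q.image Prod.fst).exists_le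
    exact ⟨R + 1, fun p hp => lt_of_le_of_lt (hR p.1 (Finset.mem_image_of_mem _ hp)) (by omega)⟩
  obtain ⟨L, hL⟩ : ∃ L : ℤ, ∀ p ∈ Q, L < p.1 := by
    obtain ⟨L, hL⟩ := (Q.image fun p => -p.1).exists_le
    refine ⟨-L - 1, fun p hp => ?_⟩
    have := hL (-p.1) (Finset.mem_image_of_mem _ hp)
    omega
  set h : ℤ → ℤ → A := fun i k => if (i, k) ∈ Q ∧ (i + 1, k) ∈ Q then cH (i, k) else 0 with hh
  set w : ℤ → ℤ → A := fun i k => if (i, k) ∈ Q ∧ (i, k + 1) ∈ Q then cV (i, k) else 0 with hw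
  set curl : ℤ → ℤ → A := fun j k => h j (k + 1) - h j k + w j k - w (j + 1) k with hcurl
  have hcurl0 : ∀ j k, curl j k ≠ 0 → WindEx Q (j, k) := by
    intro j k hne
    apply windEx_of_notMem hQ
    rintro ⟨h1, h2, h3, h4⟩
    apply hne
    simp only [hcurl, hh, hw, h1, h2, h3, h4, and_self, if_true]
    have h5 := hcl j k h1 h2 h3 h4
    have h6 : cH (j, k + 1) = cH (j, k) + cV (j + 1, k) - cV (j, k) := by
      rw [h5]; abel
    rw [h6]; abel
  have hW : ∀ v : ℤ × ℤ, ∃ n : ℤ × ℤ → ℤ, curl v.1 v.2 ≠ 0 →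
      (∀ p ∈ Q, (p.1 + 1, p.2) ∈ Q → n (p.1 + 1, p.2) = n p) ∧
      (∀ p ∈ Q, (p.1, p.2 + 1) ∈ Q →
        n (p.1, p.2 + 1) - n p = if p.2 = v.2 ∧ v.1 < p.1 then 1 else 0) := by
    intro v
    by_cases hv : curl v.1 v.2 = 0
    · exact ⟨0, fun h => absurd hv h⟩
    · obtain ⟨n, hn⟩ := hcurl0 _ _ hv
      exact ⟨n, fun _ => hn⟩
  choose n hn using hW
  set K : Finset ℤ := Q.image Prod.snd with hK
  set φ₀ : ℤ → ℤ → A := fun i k => ∑ j ∈ Finset.Ico L i, h j k with hφ₀
  set ψ : ℤ × ℤ → A := fun p => ∑ j ∈ Finset.Ico L R, ∑ k ∈ K, n (j, k) p • curl j k with hψ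
  refine ⟨fun p => φ₀ p.1 p.2 - ψ p, fun i k h1 h2 => ?_, fun i k h1 h2 => ?_⟩
  · have e1 : φ₀ (i + 1) k - φ₀ i k = cH (i, k) := by
      have hLi : L ≤ i := (hL _ h1).le
      simp only [hφ₀]
      have h3 : ∑ j ∈ Finset.Ico L (i + 1), h j k = ∑ j ∈ Finset.Ico L i, h j k + h i k :=
        sum_Ico_int_succ hLi _
      rw [h3]
      have h4 : h i k = cH (i, k) := by
        simp only [hh, h1, h2, and_self, if_true]
      rw [h4]; abel
    have e2 : ψ (i + 1, k) = ψ (i, k) := by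
      simp only [hψ]
      refine Finset.sum_congr rfl fun j _ => Finset.sum_congr rfl fun k' _ => ?_
      by_cases h0 : curl j k' = 0
      · rw [h0]; simp
      · rw [(hn (j, k') h0).1 (i, k) h1 h2]
    simp only [e2]
    rw [← e1]; abel
  · have e1 : φ₀ i (k + 1) - φ₀ i k = ∑ j ∈ Finset.Ico L i, curl j k + cV (i, k) := by
      simp only [hφ₀]
      have hLi : L ≤ i := (hL _ h1).le
      have h3 : ∀ m : ℕ, ∑ j ∈ Finset.Ico L (L + m), h j (k + 1) - ∑ j ∈ Finset.Ico L (L + m), h j k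
          = ∑ j ∈ Finset.Ico L (L + m), curl j k + w (L + m) k - w L k := by
        intro m
        induction m with
        | zero => simp
        | succ m ih =>
          have hm : L ≤ L + (m : ℤ) := by omega
          push_cast
          rw [← add_assoc, sum_Ico_int_succ hm, sum_Ico_int_succ hm,
            sum_Ico_int_succ hm]
          have h5 : ∑ j ∈ Finset.Ico L (L + m), h j (k + 1)
              = ∑ j ∈ Finset.Ico L (L + m), curl j k + w (L + m) k - w L k
                + ∑ j ∈ Finset.Ico L (L + m), h j k := by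
            rw [← ih]; abel
          rw [h5]
          simp only [hcurl]
          abel
      obtain ⟨m, rfl⟩ : ∃ m : ℕ, i = L + m := ⟨(i - L).toNat, by omega⟩
      rw [h3 m]
      have h4 : w (L + m) k = cV (L + m, k) := by
        simp only [hw, h1, h2, and_self, if_true]
      have h5 : w L k = 0 := by
        simp only [hw]
        rw [if_neg]
        rintro ⟨h6, _⟩
        have := hL _ h6
        simp at this
      rw [h4, h5]; abel
    have e2 : ψ (i, k + 1) - ψ (i, k) = ∑ j ∈ Finset.Ico L i, curl j k := by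
      simp only [hψ]
      have hLi : L ≤ i := (hL _ h1).le
      have hiR : i < R := hR _ h1
      have hkK : k ∈ K := Finset.mem_image_of_mem Prod.snd h1
      rw [← Finset.sum_sub_distrib]
      have h3 : ∀ j ∈ Finset.Ico L R, (∑ k' ∈ K, n (j, k') (i, k + 1) • curl j k'
          - ∑ k' ∈ K, n (j, k') (i, k) • curl j k') = if j < i then curl j k else 0 := by
        intro j _
        rw [← Finset.sum_sub_distrib]
        have h4 : ∀ k' ∈ K, n (j, k') (i, k + 1) • curl j k' - n (j, k') (i, k) • curl j k'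
            = if k = k' then (if j < i then curl j k else 0) else 0 := by
          intro k' _
          rw [← sub_smul]
          by_cases h0 : curl j k' = 0
          · rw [h0]
            split_ifs with h5 h6
            · subst h5; rw [h0]; simp
            · simp
            · simp
          · rw [(hn (j, k') h0).2 (i, k) h1 h2]
            by_cases h5 : k = k'
            · subst h5
              by_cases h6 : j < i <;> simp [h6]
            · simp [h5]
        rw [Finset.sum_congr rfl h4, Finset.sum_ite_eq]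
        simp [hkK]
      rw [Finset.sum_congr rfl h3, ← Finset.sum_filter]
      congr 1
      ext j
      simp only [Finset.mem_filter, Finset.mem_Ico]
      omega
    simp only
    have : cV (i, k) = (φ₀ i (k + 1) - φ₀ i k) - (ψ (i, k + 1) - ψ (i, k)) := by
      rw [e1, e2]; abel
    rw [this]; abel

end Q1
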