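import Pool.Agent.Q1.M4.Poly
import Pool.Agent.Q1.M4.Exact

set_option autoImplicit false

/-! Module M4: holomorphic functions on `Om Q x y`, `Q` good, have primitives. -/

namespace Pool.Agent.Q1.M4

open Pool.Agent.H75.Perc (dir dir_cases)

lemma adj4_iff {c d : Cell} (h : Adj4 c d) : _root_.Q1.Adj4 c d := by
  obtain ⟨k, rfl⟩ := h
  obtain ⟨a, b⟩ := c
  rcases dir_cases k with ⟨_, e⟩ | ⟨_, e⟩ | ⟨_, e⟩ | ⟨_, e⟩ <;> rw [e] <;>
    simp [_root_.Q1.Adj4]

lemma cellConn_of_conn4 {S : Set Cell} (h : Conn4 S) : _root_.Q1.CellConn S := by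
  intro p hp q hq
  have h1 := h p hp q hq
  have : q ∈ S → Relation.ReflTransGen
      (fun a b => _root_.Q1.Adj4 a b ∧ a ∈ S ∧ b ∈ S) p q := by
    clear hq
    induction h1 with
    | refl => intro _; exact Relation.ReflTransGen.refl
    | @tail b c hab hbc ih =>
      intro hc
      have hb : b ∈ S := by
        rcases Relation.ReflTransGen.cases_tail hab with h2 | ⟨d, _, h2⟩
        · rw [h2]; exact hp
        · exact h2.2
      exact (ih hb).tail ⟨adj4_iff hbc.1, hb, hc⟩
  exact this hq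

/-- Closed 1-forms on a finite set of cells with connected complement are exact. -/
theorem discreteExact {Q : Finset Cell} (h : Conn4 ((Q : Set Cell)ᶜ)) :
    H33.Q1.DiscreteExact Q := by
  intro α β hcl
  obtain ⟨φ, h1, h2⟩ := _root_.Q1.exact_of_closed Q (cellConn_of_conn4 h)
    (fun p => α p.1 p.2) (fun p => β p.1 p.2) hcl
  exact ⟨fun i k => φ (i, k), h1, h2⟩

/-- **Primitives**: every holomorphic function on `Om Q x y`, `Q` good, has a primitive. -/
theorem Good.exists_primitive {Q : Finset Cell} (hQ : Good Q) {x y : ℤ → ℝ} (hx : StrictMono x)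
    (hy : StrictMono y) {f : ℂ → ℂ} (hf : DifferentiableOn ℂ f (Om Q x y)) :
    ∃ Φ : ℂ → ℂ, ∀ z ∈ Om Q x y, HasDerivAt Φ (f z) z := by
  rw [← Om_eq] at hf ⊢
  exact H33.Q1.exists_primitive hx hy (discreteExact hQ.conn_compl) hf

end Pool.Agent.Q1.M4
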