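import Pool.Agent.Q1.M4.Data
import Pool.Agent.Q1.M4.Prim
import Pool.Agent.Q1.M4.Assembly

/-!
# Uniqueness of the limits (`LimitData`), module M4
-/

set_option autoImplicit false

open Complex Metric Set Topology Filter

namespace Pool.Agent.Q1.M4

open Pool.Agent.H75.Perc (dir dir_cases)

/-- All grid vertices of the boundary. -/
noncomputable def PType.verts (P : PType) (x y : ℤ → ℝ) : Finset ℂ :=
  (Finset.range P.N).image (fun n => pt x y (P.vert n))

/-- The two marks. -/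
noncomputable def PType.marks (P : PType) (x y : ℤ → ℝ) : Finset ℂ :=
  {pt x y (P.vert 0), pt x y (P.vert P.m)}

/-- The geometric input of the uniqueness theorem. -/
structure GeoHyp (P : PType) (x y : ℤ → ℝ) : Prop where
  conn : IsPreconnected (Om P.Q x y)
  verts : ∀ p ∈ P.verts x y, p ∈ frontier (Om P.Q x y)
  half : ∃ κ : ℝ, 0 < κ ∧ κ ≤ 1 ∧ ∀ n < P.N, ∀ t ∈ Ioo (0 : ℝ) 1, ∃ u : ℂ, ‖u‖ = 1 ∧
    (u ^ 2).im = 0 ∧ ∀ z ∈ ball (P.sidePt x y n t) (κ * infDist (P.sidePt x y n t) (P.verts x y)),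
      (z ∈ Om P.Q x y ↔ 0 < ((z - P.sidePt x y n t) / u).im) ∧
      (((z - P.sidePt x y n t) / u).im = 0 → ∃ t' ∈ Ioo (0 : ℝ) 1, z = P.sidePt x y n t')
  sector : ∀ p ∈ P.verts x y, ∃ r α β : ℝ, 0 < r ∧ β ≤ α + 2 * Real.pi ∧
    (∀ s ∈ Ioo 0 r, (∀ φ ∈ Ioo α β, p + s * exp (φ * I) ∈ Om P.Q x y) ∧
      p + s * exp (α * I) ∈ frontier (Om P.Q x y)) ∧
    (∀ z ∈ Om P.Q x y, dist z p < r → ∃ φ ∈ Ioo α β, z = p + (dist z p : ℝ) * exp (φ * I))
  front : ∀ z ∈ frontier (Om P.Q x y), z ∉ P.verts x y → ∃ n < P.N, ∃ t ∈ Ioo (0 : ℝ) 1,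
    z = P.sidePt x y n t
  arcs : ∃ S T : Set ℂ, IsPreconnected S ∧ IsPreconnected T ∧
    (∀ z ∈ S, z ∈ frontier (Om P.Q x y) ∧ z ∉ P.marks x y) ∧
    (∀ z ∈ T, z ∈ frontier (Om P.Q x y) ∧ z ∉ P.marks x y) ∧
    frontier (Om P.Q x y) ⊆ S ∪ T ∪ P.marks x y

theorem norm_ph (P : PType) (n : ℕ) : ‖P.ph n‖ = 1 := by
  unfold PType.ph phase
  exact Complex.norm_exp_ofReal_mul_I _

theorem ph_cube (P : PType) (n : ℕ) : ((P.ph n) ^ 3).im = 0 := by
  unfold PType.ph phase
  generalize hm : (P.side n).2 + (if n < P.m then 0 else 1 : ℤ) = m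
  have h1 : ((P.side n).2 : ℝ) + ((if n < P.m then 0 else 1 : ℤ) : ℝ) = (m : ℝ) := by
    rw [← hm]
    push_cast
    ring
  rw [h1, ← Complex.exp_nat_mul]
  have h2 : ((3 : ℕ) : ℂ) * (((Real.pi * (m : ℝ) / 3 : ℝ) : ℂ) * I) =
      ((Real.pi * m : ℝ) : ℂ) * I := by
    push_cast
    ring
  rw [h2, Complex.exp_ofReal_mul_I_im, mul_comm, Real.sin_int_mul_pi]

theorem LimitData.sidePt_real {P : PType} {x y : ℤ → ℝ} {h : ℂ → ℂ} (H : LimitData P x y h)
    {n : ℕ} (hn : n < P.N) {t t' : ℝ} (ht : t ∈ Ioo (0 : ℝ) 1) (ht' : t' ∈ Ioo (0 : ℝ) 1) :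
    ((starRingEnd ℂ) (P.ph n) * (h (P.sidePt x y n t') - h (P.sidePt x y n t))).im = 0 := by
  have key : ∀ s : ℝ, ((starRingEnd ℂ) (P.ph n) * (s * P.ph n)).im = 0 := by
    intro s
    have h1 : (starRingEnd ℂ) (P.ph n) * (s * P.ph n) = s * ((P.ph n) * (starRingEnd ℂ) (P.ph n)) := by
      ring
    rw [h1, Complex.mul_conj, ← ofReal_mul, ofReal_im]
  rcases le_total t t' with hle | hle
  · obtain ⟨s, -, hs⟩ := H.side n hn t t' ht.1.le hle ht'.2.le
    rw [hs]
    exact key s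
  · obtain ⟨s, -, hs⟩ := H.side n hn t' t ht'.1.le hle ht.2.le
    have : h (P.sidePt x y n t') - h (P.sidePt x y n t) = ((-s : ℝ) : ℂ) * P.ph n := by
      push_cast
      linear_combination -hs
    rw [this]
    exact key (-s)

/-- The hypotheses of the abstract uniqueness theorem. -/
theorem LimitData.data {P : PType} {x y : ℤ → ℝ} (hx : StrictMono x) (hy : StrictMono y)
    (hG : GeoHyp P x y) {h₁ h₂ : ℂ → ℂ} (H₁ : LimitData P x y h₁) (H₂ : LimitData P x y h₂) :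
    ∃ κ : ℝ, ∀ h : ℂ → ℂ, (h = h₁ ∨ h = h₂) →
      _root_.Q1.Data (Om P.Q x y) (P.verts x y) (P.marks x y) κ 1 h₁ h := by
  obtain ⟨κ, hκ, hκ1, hhalf⟩ := hG.half
  refine ⟨κ, fun h hh => ?_⟩
  have H : LimitData P x y h := by
    rcases hh with rfl | rfl
    · exact H₁
    · exact H₂
  have hcl : closure (Om P.Q x y) = Reg P.Q x y := closure_Om hx hy
  have hN : 0 < P.N := P.hm0.trans P.hmN
  refine ⟨isOpen_Om _ _ _, isBounded_Om _ _ _, ⟨pt x y (P.vert 0), ?_⟩, hG.verts, hκ, hκ1,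
    ?_, H₁.holo, ?_, H.holo, ?_, hG.sector, ?_⟩
  · exact Finset.mem_image.2 ⟨0, Finset.mem_range.2 hN, rfl⟩
  · rw [hcl]; exact H₁.cont
  · rw [hcl]; exact H.cont
  · intro z hz hzA
    obtain ⟨n, hn, t, ht, rfl⟩ := hG.front z hz hzA
    obtain ⟨u, hu, hu2, hball⟩ := hhalf n hn t ht
    refine ⟨u, (starRingEnd ℂ) (P.ph n), hu, by rw [RCLike.norm_conj, norm_ph], ?_,
      fun w hw => (hball w hw).1, ?_, ?_⟩
    · have h1 : (((starRingEnd ℂ) (P.ph n)) ^ 3).im = 0 := by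
        rw [← map_pow, Complex.conj_im, ph_cube, neg_zero]
      have real_of : ∀ v : ℂ, v.im = 0 → v = (v.re : ℂ) := fun v hv =>
        Complex.ext (by simp) (by simp [hv])
      rw [real_of _ h1, real_of _ hu2, ← ofReal_mul, one_div, ← ofReal_inv, ofReal_im]
    · intro w hw hw0
      obtain ⟨t', ht', rfl⟩ := (hball w hw).2 hw0
      exact H₁.sidePt_real hn ht ht'
    · intro w hw hw0
      obtain ⟨t', ht', rfl⟩ := (hball w hw).2 hw0
      exact H.sidePt_real hn ht ht'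
  · intro p hp
    have hpR : p ∈ Reg P.Q x y := by
      rw [← hcl]
      exact frontier_subset_closure (hG.verts p hp)
    by_cases hpZ : p ∈ P.marks x y
    · obtain ⟨C₁, hC₁, r₁, hr₁, b₁⟩ := H₁.hold
      obtain ⟨C, hC, r, hr, b⟩ := H.hold
      refine ⟨max C₁ C, 2 / 3, min r₁ r, le_max_of_le_left hC₁.le, lt_min hr₁ hr, le_rfl,
        fun h => absurd hpZ h, ?_⟩
      intro z hz hzr
      rw [hcl] at hz
      constructor
      · refine (b₁ z hz p hpR (hzr.trans (min_le_left _ _))).trans ?_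
        exact mul_le_mul_of_nonneg_right (le_max_left _ _) (by positivity)
      · refine (b z hz p hpR (hzr.trans (min_le_right _ _))).trans ?_
        exact mul_le_mul_of_nonneg_right (le_max_right _ _) (by positivity)
    · obtain ⟨n, hn, rfl⟩ := Finset.mem_image.1 hp
      rw [Finset.mem_range] at hn
      have hn0 : n ≠ 0 := by
        rintro rfl
        exact hpZ (by simp [PType.marks])
      have hnm : n ≠ P.m := by
        rintro rfl
        exact hpZ (by simp [PType.marks])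
      obtain ⟨C₁, hC₁, c₁, hc₁, r₁, hr₁, b₁⟩ := H₁.corner
      obtain ⟨C, hC, c, hc, r, hr, b⟩ := H.corner
      refine ⟨max C₁ C, 2 / 3 + min c₁ c, min 1 (min r₁ r), le_max_of_le_left hC₁.le,
        lt_min one_pos (lt_min hr₁ hr), ?_, ?_, ?_⟩
      · have := lt_min hc₁ hc
        linarith
      · intro _
        have := lt_min hc₁ hc
        linarith
      · intro z hz hzr
        rw [hcl] at hz
        have hz1 : ‖z - pt x y (P.vert n)‖ ≤ 1 := hzr.trans (min_le_left _ _)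
        have hexp : ∀ c' : ℝ, 0 < c' → min c₁ c ≤ c' →
            ‖z - pt x y (P.vert n)‖ ^ (2 / 3 + c' : ℝ) ≤
              ‖z - pt x y (P.vert n)‖ ^ (2 / 3 + min c₁ c : ℝ) := by
          intro c' hc' hle
          rcases (norm_nonneg (z - pt x y (P.vert n))).eq_or_lt with h0 | h0
          · rw [← h0]
            have h3 : (0 : ℝ) < 2 / 3 + min c₁ c := by
              have := lt_min hc₁ hc
              linarith
            rw [Real.zero_rpow (by linarith), Real.zero_rpow h3.ne']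
          · exact Real.rpow_le_rpow_of_exponent_ge h0 hz1 (by linarith)
        constructor
        · refine (b₁ n hn hn0 hnm z hz (hzr.trans ((min_le_right _ _).trans
            (min_le_left _ _)))).trans ?_
          exact mul_le_mul (le_max_left _ _) (hexp c₁ hc₁ (min_le_left _ _)) (by positivity)
            (le_max_of_le_left hC₁.le)
        · refine (b n hn hn0 hnm z hz (hzr.trans ((min_le_right _ _).trans
            (min_le_right _ _)))).trans ?_
          exact mul_le_mul (le_max_right _ _) (hexp c hc (min_le_right _ _)) (by positivity)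
            (le_max_of_le_left hC₁.le)

/-- **Uniqueness of the limits** (with the geometric input as a hypothesis). -/
theorem LimitData.uniq_geo {P : PType} {x y : ℤ → ℝ} (hx : StrictMono x) (hy : StrictMono y)
    (hG : GeoHyp P x y) {h₁ h₂ : ℂ → ℂ} (H₁ : LimitData P x y h₁) (H₂ : LimitData P x y h₂)
    (hn : ∃ z ∈ Om P.Q x y, deriv h₁ z ≠ 0) :
    ∃ lam : ℝ, ∀ z ∈ Reg P.Q x y, ∀ w ∈ Reg P.Q x y, h₂ z - h₂ w = lam * (h₁ z - h₁ w) := by
  obtain ⟨κ, hD⟩ := LimitData.data hx hy hG H₁ H₂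
  obtain ⟨S, T, hS, hT, hSf, hTf, hST⟩ := hG.arcs
  have hcl : closure (Om P.Q x y) = Reg P.Q x y := closure_Om hx hy
  have hZ : ∀ a ∈ P.marks x y, a ∉ Om P.Q x y := by
    have hfr : ∀ n < P.N, pt x y (P.vert n) ∉ Om P.Q x y := by
      intro n hn
      have := hG.verts _ (Finset.mem_image.2 ⟨n, Finset.mem_range.2 hn, rfl⟩)
      rw [(isOpen_Om _ _ _).frontier_eq] at this
      exact this.2
    intro a ha
    rcases Finset.mem_insert.1 ha with rfl | ha
    · exact hfr 0 (P.hm0.trans P.hmN)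
    · rw [Finset.mem_singleton.1 ha]
      exact hfr P.m P.hmN
  obtain ⟨k, hk⟩ := (hD h₂ (Or.inr rfl)).uniq (hD h₁ (Or.inl rfl)) one_ne_zero hG.conn
    (fun g hg => P.good.exists_primitive hx hy hg) hS hT hSf hTf hST hZ hn
  refine ⟨k, fun z hz w hw => ?_⟩
  rw [← hcl] at hz hw
  exact _root_.Q1.increments (isOpen_Om _ _ _) hG.conn (hcl ▸ H₁.cont) H₁.holo (hcl ▸ H₂.cont)
    H₂.holo hk hz hw

end Pool.Agent.Q1.M4
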