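import Mathlib
import Pool.Agent.Q1.M4.Geo6
import Pool.Agent.Q1.M4.LUniq

set_option autoImplicit false
open Set Filter Topology Metric

/-! Module M4, geometry of the polyomino domain `Om Q x y`, end: the geometric input `GeoHyp` of
the uniqueness theorem, and the uniqueness theorem `LimitData.uniq`. -/

namespace Pool.Agent.Q1.M4

open Pool.Agent.H75.Perc (dir dir_cases)

variable {x y : ℤ → ℝ}

lemma PType.sidePt_zero (P : PType) (n : ℕ) : P.sidePt x y n 0 = pt x y (P.vert n) := by
  simp [PType.sidePt]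

lemma PType.sidePt_one (P : PType) (n : ℕ) : P.sidePt x y n 1 = pt x y (P.vert (n + 1)) := by
  simp [PType.sidePt]

lemma PType.vert_mem (P : PType) {n : ℕ} (hn : n ≤ P.N) :
    pt x y (P.vert n) ∈ P.verts x y := by
  have hN : 0 < P.N := P.hm0.trans P.hmN
  rcases hn.lt_or_eq with h | h
  · exact Finset.mem_image.2 ⟨n, Finset.mem_range.2 h, rfl⟩
  · rw [h, P.vert_N]
    exact Finset.mem_image.2 ⟨0, Finset.mem_range.2 hN, rfl⟩

lemma PType.frontier_open (P : PType) (hx : StrictMono x) (hy : StrictMono y) {z : ℂ}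
    (hz : z ∈ frontier (Om P.Q x y)) (hzv : z ∉ P.verts x y) :
    ∃ n < P.N, ∃ t ∈ Ioo (0 : ℝ) 1, z = P.sidePt x y n t := by
  obtain ⟨n, hn, t, ⟨h0, h1⟩, rfl⟩ := P.frontier_cover hx hy hz
  refine ⟨n, hn, t, ⟨lt_of_le_of_ne h0 ?_, lt_of_le_of_ne h1 ?_⟩, rfl⟩
  · rintro rfl
    exact hzv (by rw [P.sidePt_zero]; exact P.vert_mem hn.le)
  · rintro rfl
    exact hzv (by rw [P.sidePt_one]; exact P.vert_mem (by omega))

lemma udir_sq_im (k : ℤ) : (udir k ^ 2).im = 0 := by
  rcases udir_cases k with ⟨-, e⟩ | ⟨-, e⟩ | ⟨-, e⟩ | ⟨-, e⟩ <;> rw [e] <;> simp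

/-- Half discs with radius proportional to the distance to the boundary vertices. -/
theorem PType.half_uniform (P : PType) (hx : StrictMono x) (hy : StrictMono y) :
    ∃ κ : ℝ, 0 < κ ∧ κ ≤ 1 ∧ ∀ n < P.N, ∀ t ∈ Ioo (0 : ℝ) 1,
      ∀ z ∈ ball (P.sidePt x y n t) (κ * infDist (P.sidePt x y n t) (P.verts x y)),
      (z ∈ Om P.Q x y ↔ 0 < ((z - P.sidePt x y n t) / udir (P.side n).2).im) ∧
      (((z - P.sidePt x y n t) / udir (P.side n).2).im = 0 →
        ∃ t' ∈ Ioo (0 : ℝ) 1, z = P.sidePt x y n t') := by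
  have hN : 0 < P.N := P.hm0.trans P.hmN
  have hne : (Finset.range P.N).Nonempty := ⟨0, Finset.mem_range.2 hN⟩
  choose g hg h using fun n : ℕ => half_disc_side hx hy (P.side_isSide n)
  obtain ⟨a, ha, hmin⟩ := (Finset.range P.N).exists_min_image g hne
  obtain ⟨b, hb, hmax⟩ := (Finset.range P.N).exists_max_image (fun n => len x y (P.side n)) hne
  have hL := side_len_pos hx hy (P.side b)
  refine ⟨min 1 (g a / len x y (P.side b)), lt_min one_pos (div_pos (hg a) hL),
    min_le_left _ _, ?_⟩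
  intro n hn t ht z hz
  have hLn := side_len_pos hx hy (P.side n)
  set d := infDist (P.sidePt x y n t) (P.verts x y) with hd
  set κ := min 1 (g a / len x y (P.side b)) with hκ
  have hκ0 : 0 < κ := lt_min one_pos (div_pos (hg a) hL)
  have hd0 : 0 ≤ d := infDist_nonneg
  have hd1 : d ≤ t * len x y (P.side n) := by
    have h1 := infDist_le_dist_of_mem (x := P.sidePt x y n t)
      (P.vert_mem (x := x) (y := y) hn.le : pt x y (P.vert n) ∈ P.verts x y)
    refine h1.trans ?_
    rw [P.sidePt_eq, dist_eq_norm, add_sub_cancel_left, norm_mul, norm_udir, mul_one,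
      Complex.norm_real, Real.norm_eq_abs, abs_of_pos (mul_pos ht.1 hLn)]
  have hd2 : d ≤ (1 - t) * len x y (P.side n) := by
    have h1 := infDist_le_dist_of_mem (x := P.sidePt x y n t)
      (P.vert_mem (x := x) (y := y) (by omega) : pt x y (P.vert (n + 1)) ∈ P.verts x y)
    refine h1.trans ?_
    rw [P.sidePt_eq, dist_comm, dist_eq_norm, P.vert_head, pt_head]
    have e : pt x y (tail (P.side n)) + len x y (P.side n) * udir (P.side n).2 -
        (pt x y (P.vert n) + (t * len x y (P.side n) : ℝ) * udir (P.side n).2) =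
        (((1 - t) * len x y (P.side n) : ℝ) : ℂ) * udir (P.side n).2 := by
      unfold PType.vert
      push_cast
      ring
    rw [e, norm_mul, norm_udir, mul_one, Complex.norm_real, Real.norm_eq_abs,
      abs_of_pos (mul_pos (by linarith [ht.2]) hLn)]
  have hκd : κ * d ≤ d := by
    have : κ ≤ 1 := min_le_left _ _
    nlinarith
  have hκg : κ * d ≤ g n := by
    have h1 : κ ≤ g a / len x y (P.side b) := min_le_right _ _
    have h2 : d ≤ len x y (P.side b) := by
      have h3 := hmax n (Finset.mem_range.2 hn)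
      have h4 : t * len x y (P.side n) ≤ len x y (P.side n) := by nlinarith [ht.2]
      linarith
    calc κ * d ≤ (g a / len x y (P.side b)) * len x y (P.side b) :=
          mul_le_mul h1 h2 hd0 (div_pos (hg a) hL).le
      _ = g a := div_mul_cancel₀ _ hL.ne'
      _ ≤ g n := hmin n (Finset.mem_range.2 hn)
  have h1 := h n t (κ * d) hκg (hκd.trans hd1) (hκd.trans hd2) z (by
    rw [P.sidePt_eq] at hz; exact hz)
  refine ⟨?_, ?_⟩
  · rw [P.sidePt_eq]; exact h1.1
  · intro h2
    rw [P.sidePt_eq] at h2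
    obtain ⟨t', a1, a2, a3⟩ := h1.2.2 h2
    exact ⟨t', ⟨a1, a2⟩, by rw [P.sidePt_eq]; exact a3⟩

/-- Every boundary vertex is the head of a side of the walk. -/
lemma PType.exists_pred (P : PType) {n : ℕ} (hn : n < P.N) : ∃ n' < P.N,
    P.vert n = P.vert (n' + 1) := by
  rcases Nat.eq_zero_or_pos n with rfl | h
  · refine ⟨P.N - 1, by omega, ?_⟩
    rw [Nat.sub_add_cancel (by omega), P.vert_N]
  · exact ⟨n - 1, by omega, by rw [Nat.sub_add_cancel h]⟩

/-- The sector at a boundary vertex. -/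
theorem PType.sector (P : PType) (hx : StrictMono x) (hy : StrictMono y) (n : ℕ) :
    ∃ r : ℝ, 0 < r ∧ (∀ s ∈ Ioo 0 r,
      (∀ φ ∈ Ioo ((P.side (n + 1)).2 * (Real.pi / 2)) ((P.side n).2 * (Real.pi / 2) + Real.pi),
        pt x y (P.vert (n + 1)) + s * Complex.exp (φ * Complex.I) ∈ Om P.Q x y) ∧
      pt x y (P.vert (n + 1)) +
        s * Complex.exp (((P.side (n + 1)).2 * (Real.pi / 2) : ℝ) * Complex.I) =
        P.sidePt x y (n + 1) (s / len x y (P.side (n + 1))) ∧
      s / len x y (P.side (n + 1)) < 1 ∧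
      pt x y (P.vert (n + 1)) +
        s * Complex.exp (((P.side n).2 * (Real.pi / 2) + Real.pi : ℝ) * Complex.I) =
        P.sidePt x y n (1 - s / len x y (P.side n)) ∧
      s / len x y (P.side n) < 1) ∧
    (∀ z ∈ Om P.Q x y, dist z (pt x y (P.vert (n + 1))) < r →
      ∃ φ ∈ Ioo ((P.side (n + 1)).2 * (Real.pi / 2)) ((P.side n).2 * (Real.pi / 2) + Real.pi),
        z = pt x y (P.vert (n + 1)) +
          (dist z (pt x y (P.vert (n + 1))) : ℝ) * Complex.exp (φ * Complex.I)) := by
  obtain ⟨r0, hr0, h⟩ := sector_side P.good hx hy (P.side_isSide n)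
  have hL1 := side_len_pos hx hy (P.side (n + 1))
  have hL0 := side_len_pos hx hy (P.side n)
  rw [← P.side_next] at h
  have hray : ∀ s ∈ Ioo 0 (min r0 (min (len x y (P.side n)) (len x y (P.side (n + 1))))),
      pt x y (P.vert (n + 1)) +
        s * Complex.exp (((P.side (n + 1)).2 * (Real.pi / 2) : ℝ) * Complex.I) =
        P.sidePt x y (n + 1) (s / len x y (P.side (n + 1))) := by
    intro s hs
    rw [P.sidePt_eq, div_mul_cancel₀ _ hL1.ne', ← udir_eq_exp]
  refine ⟨min r0 (min (len x y (P.side n)) (len x y (P.side (n + 1)))),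
    lt_min hr0 (lt_min hL0 hL1), ?_, ?_⟩
  · intro s hs
    refine ⟨?_, hray s hs, ?_, ?_, ?_⟩
    · intro φ hφ
      rw [P.vert_head]
      exact (h s φ hs.1 (hs.2.trans_le (min_le_left _ _))).1 hφ.1 hφ.2
    · rw [div_lt_one hL1]
      exact hs.2.trans_le ((min_le_right _ _).trans (min_le_right _ _))
    · have e1 : Complex.exp (((P.side n).2 * (Real.pi / 2) + Real.pi : ℝ) * Complex.I) =
          - udir (P.side n).2 := by
        rw [udir_eq_exp]
        push_cast
        rw [add_mul, Complex.exp_add, Complex.exp_pi_mul_I]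
        ring
      rw [e1, P.sidePt_eq, P.vert_head, pt_head]
      have e2 : (1 - s / len x y (P.side n)) * len x y (P.side n) = len x y (P.side n) - s := by
        field_simp
      rw [e2]
      unfold PType.vert
      push_cast
      ring
    · rw [div_lt_one hL0]
      exact hs.2.trans_le ((min_le_right _ _).trans (min_le_left _ _))
  · intro z hz hzd
    set p := pt x y (P.vert (n + 1)) with hp
    have hOm : ∀ z' ∈ frontier (Om P.Q x y), z' ∉ Om P.Q x y := by
      intro z' hz'
      rw [(isOpen_Om _ _ _).frontier_eq] at hz'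
      exact hz'.2
    have hpf : p ∈ frontier (Om P.Q x y) := by
      have := P.sidePt_mem_frontier hx hy (n + 1) (t := 0) (by simp)
      rwa [P.sidePt_zero] at this
    have hzp : z ≠ p := fun h0 => hOm p hpf (h0 ▸ hz)
    have hs0 : 0 < dist z p := dist_pos.2 hzp
    set α := (P.side (n + 1)).2 * (Real.pi / 2) with hα
    -- an argument in `[α, α + 2π)`
    have hpi := Real.two_pi_pos
    obtain ⟨φ, hφ1, hφ2, hφ3⟩ : ∃ φ : ℝ, α ≤ φ ∧ φ < α + 2 * Real.pi ∧
        z = p + (dist z p : ℝ) * Complex.exp (φ * Complex.I) := by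
      refine ⟨toIcoMod hpi α (Complex.arg (z - p)), left_le_toIcoMod hpi _ _,
        toIcoMod_lt_right hpi _ _, ?_⟩
      have h1 := Complex.norm_mul_exp_arg_mul_I (z - p)
      have h2 := self_sub_toIcoDiv_zsmul hpi α (Complex.arg (z - p))
      rw [← h2, dist_eq_norm]
      have h3 : (((Complex.arg (z - p) - toIcoDiv hpi α (Complex.arg (z - p)) • (2 * Real.pi) : ℝ) :
          ℂ) * Complex.I) = (Complex.arg (z - p) : ℂ) * Complex.I -
          (toIcoDiv hpi α (Complex.arg (z - p)) : ℤ) * (2 * Real.pi * Complex.I) := by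
        simp only [zsmul_eq_mul]
        push_cast
        ring
      rw [h3, Complex.exp_periodic.sub_int_mul_eq, h1]
      ring
    have hmem := h (dist z p) φ hs0 (hzd.trans_le (min_le_left _ _))
    rw [← P.vert_head, ← hp, ← hφ3] at hmem
    refine ⟨φ, ⟨lt_of_le_of_ne hφ1 ?_, ?_⟩, hφ3⟩
    · rintro rfl
      have h4 := hray (dist z p) ⟨hs0, hzd⟩
      rw [← hφ3] at h4
      apply hOm z _ hz
      rw [h4]
      apply P.sidePt_mem_frontier hx hy
      refine ⟨by positivity, ?_⟩
      rw [div_le_one hL1]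
      exact (hzd.trans_le ((min_le_right _ _).trans (min_le_right _ _))).le
    · by_contra hcon
      push Not at hcon
      exact hmem.2.1 hcon hφ2.le hz

lemma PType.turn (P : PType) (n : ℕ) : (P.side (n + 1)).2 = (P.side n).2 - 1 ∨
    (P.side (n + 1)).2 = (P.side n).2 ∨ (P.side (n + 1)).2 = (P.side n).2 + 1 := by
  rw [P.side_next]
  exact (next_quads P.good (P.side_isSide n)).1

/-! ### Arcs -/

/-- The open boundary arc from the vertex `a` to the vertex `b`. -/
def PType.arc (P : PType) (x y : ℤ → ℝ) (a b : ℕ) : Set ℂ :=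
  ⋃ n ∈ Ico a b, P.sidePt x y n '' {t | t ∈ Icc (0 : ℝ) 1 ∧ (n = a → 0 < t) ∧ (n + 1 = b → t < 1)}

lemma PType.arc_preconnected (P : PType) (a b : ℕ) : IsPreconnected (P.arc x y a b) := by
  unfold PType.arc
  apply IsPreconnected.biUnion_of_chain ordConnected_Ico
  · intro n _
    apply IsPreconnected.image
    · apply OrdConnected.isPreconnected
      constructor
      rintro t ⟨⟨h1, h2⟩, h3, h4⟩ t' ⟨⟨h1', h2'⟩, h3', h4'⟩ u ⟨hu1, hu2⟩
      exact ⟨⟨h1.trans hu1, hu2.trans h2'⟩, fun h => (h3 h).trans_le hu1,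
        fun h => hu2.trans_lt (h4' h)⟩
    · unfold PType.sidePt
      fun_prop
  · intro n hn hn'
    rw [Nat.succ_eq_succ, Nat.succ_eq_add_one] at hn' ⊢
    refine ⟨pt x y (P.vert (n + 1)), ⟨1, ⟨by simp, fun _ => one_pos, fun h => ?_⟩,
      P.sidePt_one n⟩, ⟨0, ⟨by simp, fun h => ?_, fun _ => one_pos⟩, P.sidePt_zero (n + 1)⟩⟩
    · exact absurd h (by have := hn'.2; omega)
    · exact absurd h (by have := hn.1; omega)

lemma pt_inj (hx : StrictMono x) (hy : StrictMono y) {p q : ℤ × ℤ} (h : pt x y p = pt x y q) :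
    p = q := by
  unfold pt at h
  rw [Complex.mk.injEq] at h
  exact Prod.ext (hx.injective h.1) (hy.injective h.2)

/-- Interior points of a side are not grid vertices. -/
lemma open_side_ne (hx : StrictMono x) (hy : StrictMono y) (s : Cell × ℤ) {t : ℝ}
    (ht : t ∈ Ioo (0 : ℝ) 1) (q : ℤ × ℤ) :
    pt x y (tail s) + (t * len x y s : ℝ) * udir s.2 ≠ pt x y q := by
  obtain ⟨⟨i, j⟩, k⟩ := s
  have X1 : x i < x (i + 1) := hx (by omega)
  have Y1 : y j < y (j + 1) := hy (by omega)
  intro h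
  have hre := congrArg Complex.re h
  have him := congrArg Complex.im h
  have grid : ∀ (x : ℤ → ℝ) (hx : StrictMono x) (i a : ℤ), x i < x a → x a < x (i + 1) → False := by
    intro x hx i a h1 h2
    rw [hx.lt_iff_lt] at h1 h2
    omega
  rcases udir_cases k with ⟨a, e⟩ | ⟨a, e⟩ | ⟨a, e⟩ | ⟨a, e⟩
  · have h2 : k % 2 = 0 := by omega
    simp [pt, tail, len, a, h2, e] at hre
    apply grid x hx i q.1
    · rw [← hre]; nlinarith [ht.1]
    · rw [← hre]; nlinarith [ht.2]
  · have h2 : k % 2 = 1 := by omega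
    simp [pt, tail, len, a, h2, e] at him
    apply grid y hy j q.2
    · rw [← him]; nlinarith [ht.1]
    · rw [← him]; nlinarith [ht.2]
  · have h2 : k % 2 = 0 := by omega
    simp [pt, tail, len, a, h2, e] at hre
    apply grid x hx i q.1
    · rw [← hre]; nlinarith [ht.2]
    · rw [← hre]; nlinarith [ht.1]
  · have h2 : k % 2 = 1 := by omega
    simp [pt, tail, len, a, h2, e] at him
    apply grid y hy j q.2
    · rw [← him]; nlinarith [ht.2]
    · rw [← him]; nlinarith [ht.1]

lemma PType.pt_vert_ne (P : PType) (hx : StrictMono x) (hy : StrictMono y) {n n' : ℕ}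
    (hn : n < P.N) (hn' : n' < P.N) (h : n ≠ n') : pt x y (P.vert n) ≠ pt x y (P.vert n') :=
  fun h1 => h (P.vert_inj hn hn' (pt_inj hx hy h1))

/-- A point of a side which is not an endpoint of the arc is not a mark. -/
lemma PType.not_mem_marks (P : PType) (hx : StrictMono x) (hy : StrictMono y) {n : ℕ}
    (hn : n < P.N) {t : ℝ} (ht : t ∈ Icc (0 : ℝ) 1) (h0 : t = 0 → n ≠ 0 ∧ n ≠ P.m)
    (h1 : t = 1 → n + 1 ≠ P.N ∧ n + 1 ≠ P.m) : P.sidePt x y n t ∉ P.marks x y := by
  have hN : 0 < P.N := P.hm0.trans P.hmN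
  intro hmem
  unfold PType.marks at hmem
  rw [Finset.mem_insert, Finset.mem_singleton] at hmem
  rcases eq_or_ne t 0 with rfl | ht0
  · rw [P.sidePt_zero] at hmem
    obtain ⟨a1, a2⟩ := h0 rfl
    rcases hmem with h | h
    · exact P.pt_vert_ne hx hy hn hN a1 h
    · exact P.pt_vert_ne hx hy hn P.hmN a2 h
  · rcases eq_or_ne t 1 with rfl | ht1
    · rw [P.sidePt_one] at hmem
      obtain ⟨a1, a2⟩ := h1 rfl
      rcases hmem with h | h
      · exact P.pt_vert_ne hx hy (by omega) hN (by omega) h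
      · exact P.pt_vert_ne hx hy (by omega) P.hmN a2 h
    · rw [P.sidePt_eq] at hmem
      have ht' : t ∈ Ioo (0 : ℝ) 1 := ⟨lt_of_le_of_ne ht.1 (Ne.symm ht0), lt_of_le_of_ne ht.2 ht1⟩
      rcases hmem with h | h
      · exact open_side_ne hx hy _ ht' _ h
      · exact open_side_ne hx hy _ ht' _ h

/-- **The geometric input of the uniqueness theorem.** -/
theorem PType.geoHyp (P : PType) (hx : StrictMono x) (hy : StrictMono y) : GeoHyp P x y := by
  have hN : 0 < P.N := P.hm0.trans P.hmN
  have hmN := P.hmN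
  have hm0 := P.hm0
  refine ⟨isPreconnected_Om hx hy P.good.conn, ?_, ?_, ?_, ?_, ?_⟩
  · intro p hp
    obtain ⟨n, hn, rfl⟩ := Finset.mem_image.1 hp
    have := P.sidePt_mem_frontier hx hy n (t := 0) (by simp)
    rwa [P.sidePt_zero] at this
  · obtain ⟨κ, h1, h2, h3⟩ := P.half_uniform hx hy
    exact ⟨κ, h1, h2, fun n hn t ht => ⟨udir (P.side n).2, norm_udir _, udir_sq_im _,
      h3 n hn t ht⟩⟩
  · intro p hp
    obtain ⟨n, hn, rfl⟩ := Finset.mem_image.1 hp
    rw [Finset.mem_range] at hn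
    obtain ⟨n', hn', e⟩ := P.exists_pred hn
    simp only [e]
    obtain ⟨r, hr, h1, h2⟩ := P.sector hx hy n'
    refine ⟨r, (P.side (n' + 1)).2 * (Real.pi / 2), (P.side n').2 * (Real.pi / 2) + Real.pi,
      hr, ?_, ?_, h2⟩
    · have hpi := Real.pi_pos
      have h3 : ((P.side n').2 : ℝ) ≤ (P.side (n' + 1)).2 + 1 := by
        have := P.turn n'
        have h4 : (P.side n').2 ≤ (P.side (n' + 1)).2 + 1 := by omega
        exact_mod_cast h4
      nlinarith
    · intro s hs
      refine ⟨(h1 s hs).1, ?_⟩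
      rw [(h1 s hs).2.1]
      apply P.sidePt_mem_frontier hx hy
      exact ⟨div_nonneg hs.1.le (side_len_pos hx hy _).le, (h1 s hs).2.2.1.le⟩
  · intro z hz hzv
    exact P.frontier_open hx hy hz hzv
  · refine ⟨P.arc x y 0 P.m, P.arc x y P.m P.N, P.arc_preconnected _ _, P.arc_preconnected _ _,
      ?_, ?_, ?_⟩
    · intro z hz
      unfold PType.arc at hz
      simp only [mem_iUnion, exists_prop] at hz
      obtain ⟨n, ⟨-, hn⟩, t, ⟨ht, h0, h1⟩, rfl⟩ := hz
      refine ⟨P.sidePt_mem_frontier hx hy n ht, ?_⟩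
      apply P.not_mem_marks hx hy (by omega) ht
      · rintro rfl
        refine ⟨fun h => ?_, by omega⟩
        exact lt_irrefl _ (h0 h)
      · rintro rfl
        refine ⟨by omega, fun h => ?_⟩
        exact lt_irrefl _ (h1 h)
    · intro z hz
      unfold PType.arc at hz
      simp only [mem_iUnion, exists_prop] at hz
      obtain ⟨n, ⟨hn', hn⟩, t, ⟨ht, h0, h1⟩, rfl⟩ := hz
      refine ⟨P.sidePt_mem_frontier hx hy n ht, ?_⟩
      apply P.not_mem_marks hx hy (by omega) ht
      · rintro rfl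
        refine ⟨by omega, fun h => ?_⟩
        exact lt_irrefl _ (h0 h)
      · rintro rfl
        refine ⟨fun h => ?_, by omega⟩
        exact lt_irrefl _ (h1 h)
    · intro z hz
      obtain ⟨n, hn, t, ht, rfl⟩ := P.frontier_cover hx hy hz
      by_cases hmk : P.sidePt x y n t ∈ (P.marks x y : Set ℂ)
      · exact Or.inr hmk
      · left
        have k0 : n = 0 → 0 < t := by
          rintro rfl
          refine lt_of_le_of_ne ht.1 ?_
          rintro rfl
          apply hmk
          rw [P.sidePt_zero]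
          simp [PType.marks]
        have km : n = P.m → 0 < t := by
          intro h
          refine lt_of_le_of_ne ht.1 ?_
          rintro rfl
          apply hmk
          rw [P.sidePt_zero, h]
          simp [PType.marks]
        have k1 : n + 1 = P.m → t < 1 := by
          intro h
          refine lt_of_le_of_ne ht.2 ?_
          rintro rfl
          apply hmk
          rw [P.sidePt_one, h]
          simp [PType.marks]
        have kN : n + 1 = P.N → t < 1 := by
          intro h
          refine lt_of_le_of_ne ht.2 ?_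
          rintro rfl
          apply hmk
          rw [P.sidePt_one, h, P.vert_N]
          simp [PType.marks]
        unfold PType.arc
        rcases lt_or_ge n P.m with h | h
        · left
          simp only [mem_iUnion, exists_prop]
          exact ⟨n, ⟨Nat.zero_le _, h⟩, t, ⟨ht, k0, k1⟩, rfl⟩
        · right
          simp only [mem_iUnion, exists_prop]
          exact ⟨n, ⟨h, hn⟩, t, ⟨ht, km, kN⟩, rfl⟩

/-- **Uniqueness of the limits.** -/
theorem LimitData.uniq {P : PType} (hx : StrictMono x) (hy : StrictMono y) {h₁ h₂ : ℂ → ℂ}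
    (H₁ : LimitData P x y h₁) (H₂ : LimitData P x y h₂)
    (hn : ∃ z ∈ Om P.Q x y, deriv h₁ z ≠ 0) :
    ∃ lam : ℝ, ∀ z ∈ Reg P.Q x y, ∀ w ∈ Reg P.Q x y, h₂ z - h₂ w = lam * (h₁ z - h₁ w) :=
  LimitData.uniq_geo hx hy (P.geoHyp hx hy) H₁ H₂ hn

end Pool.Agent.Q1.M4
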