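import Mathlib
import Pool.Agent.Q1.M4.Data
import Pool.Agent.Q1.Freeze

set_option autoImplicit false
open Finset Filter Topology

/-! The two inputs of M4 from M6: the a priori bound `AP` and the statement `N1` (the primitive `H` of
the parafermionic observable is asymptotically discrete holomorphic), for a class `K` of natural
environments. -/

namespace Pool.Agent.Q1

open Pool.Agent.H75.Perc Pool.Agent.H75.TwoArm Pool.Agent.H99.NC

/-- `p` is in the quarter of the box of half-size `n` with centre `a` (one coordinate). -/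
def Qt (a : ℤ) (n : ℕ) (p : ℤ) : Prop := 4 * |p - a| ≤ (n : ℤ)

/-- **A priori bound.** -/
def AP (K : Env → Prop) : Prop := ∃ C : ℝ, 0 < C ∧ ∀ X, K X → ∀ (a b : ℤ) (N : ℕ),
  Bx (a - N) (a + N) (b - N) (b + N) ⊆ X.E → ∀ Hv Hf,
  X.Prim (a - N) (a + N) (b - N) (b + N) Hv Hf → ∀ u v : ℤ × ℤ, Qt a N u.1 → Qt b N u.2 →
  Qt a N v.1 → Qt b N v.2 → ‖Hv u - Hv v‖ ≤ C * (N : ℝ) ^ (2 / 3 : ℝ)

/-- **N1**, displacement form: for the diagonal displacements `(n,n)` and `(n,-n)` from the centre of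
the box of half-size `N`, `ρ₁ N ≤ n ≤ ρ₀ N`, uniformly in the environment. -/
def N1 (K : Env → Prop) : Prop := ∀ ε : ℝ, 0 < ε → ∃ ρ0 : ℝ, 0 < ρ0 ∧ ∀ ρ1 : ℝ, 0 < ρ1 →
  ∃ N0 : ℕ, ∀ N n : ℕ, N0 ≤ N → ρ1 * N ≤ n → (n : ℝ) ≤ ρ0 * N → ∀ X, K X → ∀ (a b : ℤ),
  Bx (a - N) (a + N) (b - N) (b + N) ⊆ X.E → ∀ Hv Hf,
  X.Prim (a - N) (a + N) (b - N) (b + N) Hv Hf →
  ‖(Hv (a + n, b + n) - Hv (a, b)) - Complex.I * (Hv (a + n, b - n) - Hv (a, b))‖ ≤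
    ε * n * (N : ℝ) ^ (-(1 / 3) : ℝ)

lemma Env.inc_norm_le_one (X : Env) (c : ℤ × ℤ) : ‖X.inc c‖ ≤ 1 :=
  (X.inc_norm c).trans (PrP_le_one (Pb.const (by norm_num) (by norm_num)) _ _)

lemma Qt.bounds {a : ℤ} {n : ℕ} {p : ℤ} (h : Qt a n p) :
    -(n : ℤ) ≤ 4 * (p - a) ∧ 4 * (p - a) ≤ (n : ℤ) := by
  unfold Qt at h
  have h1 := neg_abs_le (p - a)
  have h2 := le_abs_self (p - a)
  constructor <;> linarith

end Pool.Agent.Q1
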