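import Mathlib
import Pool.Agent.Q1.M4.LocHol

set_option autoImplicit false
open Set Filter Topology

/-! Module M4, limit passage, part 6: holomorphy of the limit and the main theorem. -/

namespace Pool.Agent.Q1.M4

open Pool.Agent.H75.Perc (dir dir_cases)

variable {P : PType} {x y : ℤ → ℝ} {R : ℕ → ℝ} {X Y : ℕ → ℤ → ℤ} {H : ℕ → ℤ × ℤ → ℂ}

/-- Displaced approximants. -/
lemma Appr.displace (hx : StrictMono x) (hy : StrictMono y) (hA : Approx x y R X Y) {F : Filter ℕ}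
    (hF : F ≤ atTop) {z : ℂ} {v : ℕ → ℤ × ℤ} (hv : Appr P R X Y F z v) {t : ℝ} (ht : 0 ≤ t)
    {a b : ℤ} (hz : z + t * ((a : ℂ) + b * Complex.I) ∈ Om P.Q x y) :
    Appr P R X Y F (z + t * ((a : ℂ) + b * Complex.I))
      (fun j => ((v j).1 + a * (⌊t * R j⌋₊ : ℕ), (v j).2 + b * (⌊t * R j⌋₊ : ℕ))) := by
  have hRF : Tendsto R F atTop := hA.R_top.mono_left hF
  have h1 : Tendsto (fun j => lat (v j) / (R j : ℂ) +
      ((((⌊t * R j⌋₊ : ℕ) : ℝ) / R j : ℝ) : ℂ) * ((a : ℂ) + b * Complex.I)) F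
      (𝓝 (z + t * ((a : ℂ) + b * Complex.I))) := by
    refine hv.2.add ?_
    exact ((Complex.continuous_ofReal.tendsto _).comp (nat_floor_tendsto hRF ht)).mul_const _
  have h2 : Tendsto (fun j => lat ((v j).1 + a * (⌊t * R j⌋₊ : ℕ), (v j).2 + b * (⌊t * R j⌋₊ : ℕ)) /
      (R j : ℂ)) F (𝓝 (z + t * ((a : ℂ) + b * Complex.I))) := by
    refine h1.congr ?_
    intro j
    apply Complex.ext
    · simp [lat, Complex.div_ofReal_re, add_div]
      ring
    · simp [lat, Complex.div_ofReal_im, add_div]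
      ring
  refine ⟨?_, h2⟩
  obtain ⟨r, hr, hnear⟩ := near_inV hx hy hA hz
  have h3 : Tendsto (fun j => ‖lat ((v j).1 + a * (⌊t * R j⌋₊ : ℕ), (v j).2 +
      b * (⌊t * R j⌋₊ : ℕ)) / (R j : ℂ) - (z + t * ((a : ℂ) + b * Complex.I))‖) F (𝓝 0) := by
    have := (h2.sub_const (z + t * ((a : ℂ) + b * Complex.I))).norm
    simpa using this
  filter_upwards [hF hnear, h3.eventually_lt_const hr] with j h4 h5
  exact h4 _ h5

/-- **Limit passage.** Along every ultrafilter the functions `H j` converge to a function with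
the properties `LimitData`. -/
theorem DiscData.limit (D : DiscData P x y R X Y H) (hx : StrictMono x) (hy : StrictMono y)
    (U : Ultrafilter ℕ) (hU : (U : Filter ℕ) ≤ atTop) :
    ∃ h : ℂ → ℂ, LimitData P x y h ∧ ∀ z ∈ Reg P.Q x y, IsLim P R X Y H U z (h z) := by
  classical
  have h0 : ∀ z : ℂ, ∃ a, z ∈ Reg P.Q x y → IsLim P R X Y H U z a := by
    intro z
    by_cases hz : z ∈ Reg P.Q x y
    · obtain ⟨a, ha⟩ := D.exists_isLim hx hy U hU hz
      exact ⟨a, fun _ => ha⟩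
    · exact ⟨0, fun h => absurd h hz⟩
  choose h hh using h0
  refine ⟨h, ⟨?_, ?_, ?_, ?_, ?_⟩, hh⟩
  · obtain ⟨C, hC, r0, hr0, hold⟩ := D.hold_lim hx hy hU hh
    exact continuousOn_of_hold hr0 hold
  · exact holo_of_CRA hx hy D.approx D.cr U hU hh
  · intro n hn t t' h1 h2 h3
    exact D.side_lim hx hy hU hh hn h1 h2 h3
  · exact D.hold_lim hx hy hU hh
  · exact D.corner_lim hx hy hU hh

end Pool.Agent.Q1.M4
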