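import Pool.Agent.Q1.M4.Data

set_option autoImplicit false

/-! Module M4: the dyadic chain.  An interior bound `‖H u - H v‖ ≤ A r^(2/3)` on boxes `B(v,r)`
contained in one cell, together with a bound for the increments along edges, gives the Hölder bound
`‖H u - H v‖ ≤ C A ρ^(2/3)` up to the boundary of the cell, and of the whole region. -/

namespace Pool.Agent.Q1.M4

/-- `v` lies in the closed lattice rectangle `[a,b] × [c,d]` at depth at least `t`. -/
def Deep (a b c d t : ℤ) (v : ℤ × ℤ) : Prop :=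
  (a + t ≤ v.1 ∧ v.1 + t ≤ b) ∧ (c + t ≤ v.2 ∧ v.2 + t ≤ d)

/-- `|u - v| ≤ t` in the sup norm. -/
def Near (t : ℤ) (u v : ℤ × ℤ) : Prop := |u.1 - v.1| ≤ t ∧ |u.2 - v.2| ≤ t

/-- The point of the inner rectangle at depth `t` nearest to `u`. -/
def clampR (a b c d t : ℤ) (u : ℤ × ℤ) : ℤ × ℤ :=
  (max (a + t) (min u.1 (b - t)), max (c + t) (min u.2 (d - t)))

section chain

variable {a b c d : ℤ} {u v p : ℤ × ℤ}

lemma clampR_zero (h : Deep a b c d 0 u) : clampR a b c d 0 u = u := by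
  unfold Deep at h
  unfold clampR
  ext <;> simp only <;> omega

lemma clampR_deep {t : ℤ} (h1 : 2 * t ≤ b - a) (h2 : 2 * t ≤ d - c) :
    Deep a b c d t (clampR a b c d t u) := by
  unfold Deep clampR
  simp only
  omega

lemma clampR_near {t t' : ℤ} (h : t ≤ t') (h1 : 2 * t' ≤ b - a) (h2 : 2 * t' ≤ d - c) :
    Near (t' - t) (clampR a b c d t' u) (clampR a b c d t u) := by
  unfold Near clampR
  simp only [abs_le]
  omega

lemma clampR_lip {t r : ℤ} (h : Near r u v) :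
    Near r (clampR a b c d t u) (clampR a b c d t v) := by
  unfold Near at h ⊢
  unfold clampR
  simp only [abs_le] at h ⊢
  omega

lemma Near.trans {s t : ℤ} {w : ℤ × ℤ} (h1 : Near s u v) (h2 : Near t v w) :
    Near (s + t) u w := by
  unfold Near at *
  simp only [abs_le] at *
  omega

lemma Near.symm {s : ℤ} (h1 : Near s u v) : Near s v u := by
  unfold Near at *
  simp only [abs_le] at *
  omega

lemma Near.mono {s t : ℤ} (h1 : Near s u v) (h : s ≤ t) : Near t u v := by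
  unfold Near at *
  simp only [abs_le] at *
  omega

/-- Interior bound and edge bound on the rectangle `[a,b] × [c,d]`, at distance `≤ L` of `p`. -/
structure IntBound (a b c d L : ℤ) (p : ℤ × ℤ) (A : ℝ) (H : ℤ × ℤ → ℂ) : Prop where
  box : ∀ v r, 1 ≤ r → Deep a b c d r v → Near (L - r) v p → ∀ u, 4 * |u.1 - v.1| ≤ r →
    4 * |u.2 - v.2| ≤ r → ‖H u - H v‖ ≤ A * (r : ℝ) ^ (2 / 3 : ℝ)
  hor : ∀ v, Deep a b c d 0 v → Deep a b c d 0 (v + (1, 0)) → Near L v p →
    ‖H (v + (1, 0)) - H v‖ ≤ A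
  ver : ∀ v, Deep a b c d 0 v → Deep a b c d 0 (v + (0, 1)) → Near L v p →
    ‖H (v + (0, 1)) - H v‖ ≤ A

variable {A : ℝ} {H : ℤ × ℤ → ℂ} {L : ℤ}

/-- One unit step of the clamp. -/
lemma IntBound.step (hB : IntBound a b c d L p A H) (hA : 0 ≤ A) {t : ℤ} (ht : 0 ≤ t)
    (h1 : 2 * (t + 1) ≤ b - a) (h2 : 2 * (t + 1) ≤ d - c)
    (hp : Near (L - (t + 1)) u p) (hu : Deep a b c d 0 u) :
    ‖H (clampR a b c d (t + 1) u) - H (clampR a b c d t u)‖ ≤ 2 * A := by
  set z := clampR a b c d t u with hz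
  set z' := clampR a b c d (t + 1) u with hz'
  have hd : Deep a b c d t z := clampR_deep (by omega) (by omega)
  have hd' : Deep a b c d (t + 1) z' := clampR_deep h1 h2
  have hn : Near 1 z' z := by
    have := clampR_near (u := u) (a := a) (b := b) (c := c) (d := d) (t := t) (t' := t + 1)
      (by omega) h1 h2
    simpa using this
  have hzu : Near t z u := by
    have := clampR_near (u := u) (a := a) (b := b) (c := c) (d := d) (t := 0) (t' := t)
      ht (by omega) (by omega)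
    rw [clampR_zero hu] at this
    simpa using this
  have hzp : Near (L - 1) z p := (hzu.trans hp).mono (by omega)
  clear_value z z'
  -- horizontal move
  have hh : ‖H (z'.1, z.2) - H z‖ ≤ A := by
    obtain ⟨x, y⟩ := z
    obtain ⟨x', y'⟩ := z'
    unfold Near at hn hzp
    unfold Deep at hd hd'
    simp only [abs_le] at hn hzp hd hd' ⊢
    have : x' = x ∨ x' = x + 1 ∨ x = x' + 1 := by omega
    rcases this with rfl | rfl | rfl
    · simpa using hA
    · have := hB.hor (x, y) (by unfold Deep; simp only; omega)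
        (by unfold Deep; simp only [Prod.fst_add, Prod.snd_add]; omega)
        (by unfold Near; simp only [abs_le]; omega)
      simpa using this
    · have := hB.hor (x', y) (by unfold Deep; simp only; omega)
        (by unfold Deep; simp only [Prod.fst_add, Prod.snd_add]; omega)
        (by unfold Near; simp only [abs_le]; omega)
      rw [norm_sub_rev]
      simpa using this
  have hv : ‖H z' - H (z'.1, z.2)‖ ≤ A := by
    obtain ⟨x, y⟩ := z
    obtain ⟨x', y'⟩ := z'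
    unfold Near at hn hzp
    unfold Deep at hd hd'
    simp only [abs_le] at hn hzp hd hd' ⊢
    have : y' = y ∨ y' = y + 1 ∨ y = y' + 1 := by omega
    rcases this with rfl | rfl | rfl
    · simpa using hA
    · have := hB.ver (x', y) (by unfold Deep; simp only; omega)
        (by unfold Deep; simp only [Prod.fst_add, Prod.snd_add]; omega)
        (by unfold Near; simp only [abs_le]; omega)
      simpa using this
    · have := hB.ver (x', y') (by unfold Deep; simp only; omega)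
        (by unfold Deep; simp only [Prod.fst_add, Prod.snd_add]; omega)
        (by unfold Near; simp only [abs_le]; omega)
      rw [norm_sub_rev]
      simpa using this
  calc ‖H z' - H z‖ = ‖(H z' - H (z'.1, z.2)) + (H (z'.1, z.2) - H z)‖ := by congr 1; ring
    _ ≤ ‖H z' - H (z'.1, z.2)‖ + ‖H (z'.1, z.2) - H z‖ := norm_add_le _ _
    _ ≤ 2 * A := by linarith

lemma IntBound.small (hB : IntBound a b c d L p A H) (hA : 0 ≤ A) (hu : Deep a b c d 0 u) :
    ∀ T : ℕ, 2 * (T : ℤ) ≤ b - a → 2 * (T : ℤ) ≤ d - c → Near (L - T) u p →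
      ‖H (clampR a b c d T u) - H u‖ ≤ 2 * A * T := by
  intro T
  induction T with
  | zero => intro _ _ _; simp [clampR_zero hu]
  | succ T ih =>
    intro h1 h2 hp
    push_cast at h1 h2 hp ⊢
    have h3 := hB.step hA (t := T) (by omega) h1 h2 hp hu
    have h4 := ih (by omega) (by omega) (hp.mono (by omega))
    calc ‖H (clampR a b c d (T + 1) u) - H u‖
        = ‖(H (clampR a b c d (T + 1) u) - H (clampR a b c d T u)) +
          (H (clampR a b c d T u) - H u)‖ := by congr 1; ring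
      _ ≤ _ := norm_add_le _ _
      _ ≤ 2 * A + 2 * A * T := add_le_add h3 h4
      _ = _ := by ring

lemma nine_tenths : (9 / 10 : ℝ) ^ (2 / 3 : ℝ) ≤ 94 / 100 := by
  have h : ((9 / 10 : ℝ) ^ (2 / 3 : ℝ)) ^ 3 = (9 / 10) ^ 2 := by
    rw [← Real.rpow_natCast, ← Real.rpow_mul (by norm_num)]
    norm_num
  by_contra hc
  push Not at hc
  have : (94 / 100 : ℝ) ^ 3 < ((9 / 10 : ℝ) ^ (2 / 3 : ℝ)) ^ 3 :=
    pow_lt_pow_left₀ hc (by norm_num) (by norm_num)
  rw [h] at this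
  norm_num at this

/-- The chain towards the inside. -/
lemma IntBound.chain (hB : IntBound a b c d L p A H) (hA : 0 ≤ A) (hu : Deep a b c d 0 u) :
    ∀ T : ℕ, 2 * (T : ℤ) ≤ b - a → 2 * (T : ℤ) ≤ d - c → Near (L - 2 * T) u p →
      ‖H (clampR a b c d T u) - H u‖ ≤ 20 * A * (T : ℝ) ^ (2 / 3 : ℝ) := by
  intro T
  induction T using Nat.strong_induction_on with
  | _ T ih =>
    intro h1 h2 hp
    by_cases hT : T < 10
    · have h3 := hB.small hA hu T h1 h2 (hp.mono (by omega))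
      refine h3.trans ?_
      rcases Nat.eq_zero_or_pos T with rfl | hpos
      · simp
      · have hT1 : (1 : ℝ) ≤ T := by exact_mod_cast hpos
        have h4 : (T : ℝ) ≤ 10 * (T : ℝ) ^ (2 / 3 : ℝ) := by
          have h5 : (1 : ℝ) ≤ (T : ℝ) ^ (2 / 3 : ℝ) := Real.one_le_rpow hT1 (by norm_num)
          have h6 : (T : ℝ) ≤ 10 := by exact_mod_cast hT.le
          nlinarith
        nlinarith
    · push Not at hT
      set t : ℕ := T - T / 5 with ht
      have ht1 : t < T := by omega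
      have ht2 : 1 ≤ t := by omega
      have h3 := ih t ht1 (by omega) (by omega) (hp.mono (by omega))
      have hd : Deep a b c d t (clampR a b c d t u) := clampR_deep (by omega) (by omega)
      have hn := clampR_near (u := u) (a := a) (b := b) (c := c) (d := d) (t := t) (t' := T)
        (by omega) h1 h2
      have hzu : Near t (clampR a b c d t u) u := by
        have := clampR_near (u := u) (a := a) (b := b) (c := c) (d := d) (t := 0) (t' := (t : ℤ))
          (by omega) (by omega) (by omega)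
        rw [clampR_zero hu] at this
        simpa using this
      have hzp : Near (L - t) (clampR a b c d t u) p := (hzu.trans hp).mono (by omega)
      have h4 := hB.box (clampR a b c d t u) t (by omega) hd hzp (clampR a b c d T u)
        (by unfold Near at hn; omega) (by unfold Near at hn; omega)
      have h5 : (t : ℝ) ^ (2 / 3 : ℝ) ≤ 94 / 100 * (T : ℝ) ^ (2 / 3 : ℝ) := by
        have h6 : (t : ℝ) ≤ 9 / 10 * T := by
          have : 10 * t ≤ 9 * T := by omega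
          have h7 : (10 : ℝ) * t ≤ 9 * T := by exact_mod_cast this
          linarith
        calc (t : ℝ) ^ (2 / 3 : ℝ) ≤ (9 / 10 * T : ℝ) ^ (2 / 3 : ℝ) :=
              Real.rpow_le_rpow (by positivity) h6 (by norm_num)
          _ = (9 / 10 : ℝ) ^ (2 / 3 : ℝ) * (T : ℝ) ^ (2 / 3 : ℝ) :=
              Real.mul_rpow (by norm_num) (by positivity)
          _ ≤ _ := mul_le_mul_of_nonneg_right nine_tenths (by positivity)
      push_cast at h4
      calc ‖H (clampR a b c d T u) - H u‖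
          = ‖(H (clampR a b c d T u) - H (clampR a b c d t u)) +
            (H (clampR a b c d t u) - H u)‖ := by congr 1; ring
        _ ≤ _ := norm_add_le _ _
        _ ≤ A * (t : ℝ) ^ (2 / 3 : ℝ) + 20 * A * (t : ℝ) ^ (2 / 3 : ℝ) := add_le_add h4 h3
        _ = 21 * A * (t : ℝ) ^ (2 / 3 : ℝ) := by ring
        _ ≤ 21 * A * (94 / 100 * (T : ℝ) ^ (2 / 3 : ℝ)) :=
            mul_le_mul_of_nonneg_left h5 (by positivity)
        _ ≤ 20 * A * (T : ℝ) ^ (2 / 3 : ℝ) := by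
            have : 0 ≤ A * (T : ℝ) ^ (2 / 3 : ℝ) := by positivity
            nlinarith

lemma four_rpow : (4 : ℝ) ^ (2 / 3 : ℝ) ≤ 26 / 10 := by
  have h : ((4 : ℝ) ^ (2 / 3 : ℝ)) ^ 3 = 16 := by
    rw [← Real.rpow_natCast, ← Real.rpow_mul (by norm_num)]
    norm_num
  by_contra hc
  push Not at hc
  have : (26 / 10 : ℝ) ^ 3 < ((4 : ℝ) ^ (2 / 3 : ℝ)) ^ 3 :=
    pow_lt_pow_left₀ hc (by norm_num) (by norm_num)
  rw [h] at this
  norm_num at this

/-- Hölder bound up to the boundary of one rectangle. -/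
theorem IntBound.holder (hB : IntBound a b c d L p A H) (hA : 0 ≤ A) {ρ : ℕ}
    (hu : Deep a b c d 0 u) (hv : Deep a b c d 0 v) (huv : Near ρ u v)
    (h1 : 8 * (ρ : ℤ) ≤ b - a) (h2 : 8 * (ρ : ℤ) ≤ d - c) (hup : Near (L - 8 * ρ) u p)
    (hvp : Near (L - 8 * ρ) v p) : ‖H u - H v‖ ≤ 110 * A * (ρ : ℝ) ^ (2 / 3 : ℝ) := by
  rcases Nat.eq_zero_or_pos ρ with rfl | hρ
  · have : u = v := by
      unfold Near at huv
      simp only [abs_le] at huv
      ext <;> omega
    rw [this]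
    simp
  · set T : ℕ := 4 * ρ with hT
    have e1 := hB.chain hA hu T (by omega) (by omega) (hup.mono (by omega))
    have e2 := hB.chain hA hv T (by omega) (by omega) (hvp.mono (by omega))
    have hd : Deep a b c d T (clampR a b c d T v) := clampR_deep (by omega) (by omega)
    have hn := clampR_lip (a := a) (b := b) (c := c) (d := d) (t := T) huv
    have hzv : Near T (clampR a b c d T v) v := by
      have := clampR_near (u := v) (a := a) (b := b) (c := c) (d := d) (t := 0) (t' := (T : ℤ))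
        (by omega) (by omega) (by omega)
      rw [clampR_zero hv] at this
      simpa using this
    have hzp : Near (L - T) (clampR a b c d T v) p := (hzv.trans hvp).mono (by omega)
    have e3 := hB.box (clampR a b c d T v) T (by omega) hd hzp (clampR a b c d T u)
      (by unfold Near at hn; omega) (by unfold Near at hn; omega)
    have e4 : (T : ℝ) ^ (2 / 3 : ℝ) ≤ 26 / 10 * (ρ : ℝ) ^ (2 / 3 : ℝ) := by
      rw [hT]
      push_cast
      rw [Real.mul_rpow (by norm_num) (by positivity)]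
      exact mul_le_mul_of_nonneg_right four_rpow (by positivity)
    push_cast at e3
    calc ‖H u - H v‖ = ‖-(H (clampR a b c d T u) - H u) +
          (H (clampR a b c d T u) - H (clampR a b c d T v)) +
          (H (clampR a b c d T v) - H v)‖ := by congr 1; ring
      _ ≤ ‖-(H (clampR a b c d T u) - H u)‖ +
          ‖H (clampR a b c d T u) - H (clampR a b c d T v)‖ +
          ‖H (clampR a b c d T v) - H v‖ := norm_add₃_le
      _ ≤ 20 * A * (T : ℝ) ^ (2 / 3 : ℝ) + A * (T : ℝ) ^ (2 / 3 : ℝ) +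
          20 * A * (T : ℝ) ^ (2 / 3 : ℝ) := by
          rw [norm_neg]
          exact add_le_add (add_le_add e1 e3) e2
      _ = 41 * A * (T : ℝ) ^ (2 / 3 : ℝ) := by ring
      _ ≤ 41 * A * (26 / 10 * (ρ : ℝ) ^ (2 / 3 : ℝ)) :=
          mul_le_mul_of_nonneg_left e4 (by positivity)
      _ ≤ _ := by
          have : 0 ≤ A * (ρ : ℝ) ^ (2 / 3 : ℝ) := by positivity
          nlinarith

end chain

/-! ### The whole region -/

/-- All columns and rows between cells of `Q` have width at least `w`. -/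
def Wide (Q : Finset Cell) (X Y : ℤ → ℤ) (w : ℤ) : Prop :=
  (∀ i, (∃ c ∈ Q, c.1 ≤ i) → (∃ c ∈ Q, i ≤ c.1) → w ≤ X (i + 1) - X i) ∧
  (∀ k, (∃ c ∈ Q, c.2 ≤ k) → (∃ c ∈ Q, k ≤ c.2) → w ≤ Y (k + 1) - Y k)

/-- Interior bound and edge bound in all cells of `Q`. -/
def RegBound (Q : Finset Cell) (X Y : ℤ → ℤ) (L : ℤ) (p : ℤ × ℤ) (A : ℝ)
    (H : ℤ × ℤ → ℂ) : Prop :=
  ∀ c ∈ Q, IntBound (X c.1) (X (c.1 + 1)) (Y c.2) (Y (c.2 + 1)) L p A H

lemma inRect_iff_deep {X Y : ℤ → ℤ} {c : Cell} {v : ℤ × ℤ} :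
    inRect X Y c v ↔ Deep (X c.1) (X (c.1 + 1)) (Y c.2) (Y (c.2 + 1)) 0 v := by
  unfold inRect Deep
  simp

/-- One coordinate of the intermediate point. -/
lemma mid_coord {X : ℤ → ℤ} {w ρ i i' s s' : ℤ} (hρ : 0 ≤ ρ) (hw : ρ < w)
    (hW : ∀ l, min i i' ≤ l → l ≤ max i i' → w ≤ X (l + 1) - X l)
    (h1 : X i ≤ s) (h2 : s ≤ X (i + 1)) (h1' : X i' ≤ s') (h2' : s' ≤ X (i' + 1))
    (hs : |s - s'| ≤ ρ) : ∃ t, (X i ≤ t ∧ t ≤ X (i + 1)) ∧ (X i' ≤ t ∧ t ≤ X (i' + 1)) ∧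
      |s - t| ≤ ρ ∧ |t - s'| ≤ ρ := by
  rw [abs_le] at hs
  -- monotonicity on the range
  have hmono : ∀ n : ℕ, ∀ l, min i i' ≤ l → l + n ≤ max i i' + 1 → X l ≤ X (l + n) := by
    intro n
    induction n with
    | zero => intro l _ _; simp
    | succ n ih =>
      intro l h3 h4
      push_cast at h4 ⊢
      have h5 := ih l h3 (by omega)
      have h6 := hW (l + n) (by omega) (by omega)
      have h7 : l + (n + 1 : ℤ) = l + n + 1 := by ring
      rw [h7]
      omega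
  rcases lt_trichotomy i i' with h | h | h
  · have h3 : i' = i + 1 := by
      by_contra hne
      have h4 := hW (i + 1) (by omega) (by omega)
      have h5 := hmono (i' - (i + 2)).toNat (i + 2) (by omega) (by omega)
      have h6 : (i + 2 : ℤ) + ((i' - (i + 2)).toNat : ℤ) = i' := by omega
      rw [h6] at h5
      have h7 : (i + 1 + 1 : ℤ) = i + 2 := by ring
      rw [h7] at h4
      omega
    subst h3
    refine ⟨X (i + 1), ⟨by omega, le_rfl⟩, ⟨le_rfl, by omega⟩, ?_, ?_⟩ <;> rw [abs_le] <;>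
      constructor <;> omega
  · subst h
    exact ⟨s, ⟨h1, h2⟩, ⟨h1, h2⟩, by simpa using hρ, by rw [abs_le]; exact hs⟩
  · have h3 : i = i' + 1 := by
      by_contra hne
      have h4 := hW (i' + 1) (by omega) (by omega)
      have h5 := hmono (i - (i' + 2)).toNat (i' + 2) (by omega) (by omega)
      have h6 : (i' + 2 : ℤ) + ((i - (i' + 2)).toNat : ℤ) = i := by omega
      rw [h6] at h5
      have h7 : (i' + 1 + 1 : ℤ) = i' + 2 := by ring
      rw [h7] at h4
      omega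
    subst h3
    refine ⟨X (i' + 1), ⟨le_rfl, by omega⟩, ⟨by omega, le_rfl⟩, ?_, ?_⟩ <;> rw [abs_le] <;>
      constructor <;> omega

/-- **Hölder bound up to the boundary of the region.** -/
theorem RegBound.holder {Q : Finset Cell} {X Y : ℤ → ℤ} {L : ℤ} {p : ℤ × ℤ} {A : ℝ}
    {H : ℤ × ℤ → ℂ} (hB : RegBound Q X Y L p A H) (hA : 0 ≤ A) {ρ : ℕ} (hρ : 1 ≤ ρ)
    (hW : Wide Q X Y (8 * ρ)) {u v : ℤ × ℤ} (hu : inV Q X Y u) (hv : inV Q X Y v)
    (huv : Near ρ u v) (hup : Near (L - 9 * ρ) u p) :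
    ‖H u - H v‖ ≤ 220 * A * (ρ : ℝ) ^ (2 / 3 : ℝ) := by
  obtain ⟨c, hc, hcu⟩ := hu
  obtain ⟨c', hc', hcv⟩ := hv
  obtain ⟨t1, ha1, hb1, hc1, hd1⟩ := mid_coord (X := X) (w := 8 * ρ) (ρ := ρ) (i := c.1)
    (i' := c'.1) (by omega) (by omega) (fun l h1 h2 => by
      refine hW.1 l ?_ ?_
      · rcases min_choice c.1 c'.1 with h | h <;> rw [h] at h1
        exacts [⟨c, hc, h1⟩, ⟨c', hc', h1⟩]
      · rcases max_choice c.1 c'.1 with h | h <;> rw [h] at h2
        exacts [⟨c, hc, h2⟩, ⟨c', hc', h2⟩]) hcu.1.1 hcu.1.2 hcv.1.1 hcv.1.2 huv.1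
  obtain ⟨t2, ha2, hb2, hc2, hd2⟩ := mid_coord (X := Y) (w := 8 * ρ) (ρ := ρ) (i := c.2)
    (i' := c'.2) (by omega) (by omega) (fun l h1 h2 => by
      refine hW.2 l ?_ ?_
      · rcases min_choice c.2 c'.2 with h | h <;> rw [h] at h1
        exacts [⟨c, hc, h1⟩, ⟨c', hc', h1⟩]
      · rcases max_choice c.2 c'.2 with h | h <;> rw [h] at h2
        exacts [⟨c, hc, h2⟩, ⟨c', hc', h2⟩]) hcu.2.1 hcu.2.2 hcv.2.1 hcv.2.2 huv.2
  have huw : Near ρ u (t1, t2) := ⟨hc1, hc2⟩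
  have hwv : Near ρ (t1, t2) v := ⟨hd1, hd2⟩
  have hwp : Near (L - 8 * ρ) (t1, t2) p := (huw.symm.trans hup).mono (by omega)
  have hvp : Near (L - 8 * ρ) v p := (huv.symm.trans hup).mono (by omega)
  have e1 := (hB c hc).holder hA (inRect_iff_deep.1 hcu)
    (inRect_iff_deep.1 (show inRect X Y c (t1, t2) from ⟨ha1, ha2⟩)) huw
    (hW.1 c.1 ⟨c, hc, le_rfl⟩ ⟨c, hc, le_rfl⟩) (hW.2 c.2 ⟨c, hc, le_rfl⟩ ⟨c, hc, le_rfl⟩)
    (hup.mono (by omega)) hwp
  have e2 := (hB c' hc').holder hA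
    (inRect_iff_deep.1 (show inRect X Y c' (t1, t2) from ⟨hb1, hb2⟩)) (inRect_iff_deep.1 hcv) hwv
    (hW.1 c'.1 ⟨c', hc', le_rfl⟩ ⟨c', hc', le_rfl⟩)
    (hW.2 c'.2 ⟨c', hc', le_rfl⟩ ⟨c', hc', le_rfl⟩) hwp hvp
  calc ‖H u - H v‖ = ‖(H u - H (t1, t2)) + (H (t1, t2) - H v)‖ := by congr 1; ring
    _ ≤ ‖H u - H (t1, t2)‖ + ‖H (t1, t2) - H v‖ := norm_add_le _ _
    _ ≤ 110 * A * (ρ : ℝ) ^ (2 / 3 : ℝ) + 110 * A * (ρ : ℝ) ^ (2 / 3 : ℝ) := add_le_add e1 e2
    _ = _ := by ring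

/-- The same with Euclidean distances. -/
theorem RegBound.holder' {Q : Finset Cell} {X Y : ℤ → ℤ} {L : ℤ} {p : ℤ × ℤ} {A : ℝ}
    {H : ℤ × ℤ → ℂ} (hB : RegBound Q X Y L p A H) (hA : 0 ≤ A) {ρ : ℕ}
    (hW : Wide Q X Y (8 * ρ)) {u v : ℤ × ℤ} (hu : inV Q X Y u) (hv : inV Q X Y v)
    (huv : Near ρ u v) (hup : Near (L - 9 * ρ) u p) :
    ‖H u - H v‖ ≤ 220 * A * ‖lat u - lat v‖ ^ (2 / 3 : ℝ) := by
  -- sup norm
  set σ : ℕ := max (u.1 - v.1).natAbs (u.2 - v.2).natAbs with hσ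
  have hσρ : σ ≤ ρ := by
    obtain ⟨h1, h2⟩ := huv
    rw [abs_le] at h1 h2
    omega
  rcases Nat.eq_zero_or_pos σ with h0 | hpos
  · have : u = v := by ext <;> omega
    rw [this]
    simp only [sub_self, norm_zero]
    positivity
  · have hn : Near σ u v := by
      constructor <;> rw [abs_le] <;> constructor <;> omega
    have h1 := hB.holder hA hpos (by
      constructor
      · intro i hi hi'
        have := hW.1 i hi hi'
        omega
      · intro i hi hi'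
        have := hW.2 i hi hi'
        omega) hu hv hn (hup.mono (by omega))
    refine h1.trans (mul_le_mul_of_nonneg_left ?_ (by positivity))
    refine Real.rpow_le_rpow (by positivity) ?_ (by norm_num)
    have e1 : |(u.1 : ℝ) - v.1| ≤ ‖lat u - lat v‖ := by
      have := Complex.abs_re_le_norm (lat u - lat v)
      simpa [lat] using this
    have e2 : |(u.2 : ℝ) - v.2| ≤ ‖lat u - lat v‖ := by
      have := Complex.abs_im_le_norm (lat u - lat v)
      simpa [lat] using this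
    have f1 : (((u.1 - v.1).natAbs : ℕ) : ℝ) = |(u.1 : ℝ) - v.1| := by
      rw [Nat.cast_natAbs]; push_cast; rfl
    have f2 : (((u.2 - v.2).natAbs : ℕ) : ℝ) = |(u.2 : ℝ) - v.2| := by
      rw [Nat.cast_natAbs]; push_cast; rfl
    rw [hσ]
    push_cast
    rw [f1, f2]
    exact max_le e1 e2

/-! ### Approximating sequences -/

open Filter Topology

lemma eventually_width {x : ℤ → ℝ} (hx : StrictMono x) {R : ℕ → ℝ} {X : ℕ → ℤ → ℤ}
    (hR : Tendsto R atTop atTop) (hX : ∀ i, Tendsto (fun j => (X j i : ℝ) / R j) atTop (𝓝 (x i)))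
    (F : Finset ℤ) : ∃ δ > 0, ∀ᶠ j in atTop, ∀ i ∈ F,
      δ * R j ≤ ((X j (i + 1) - X j i : ℤ) : ℝ) := by
  have h1 : ∃ δ > 0, ∀ i ∈ F, 2 * δ ≤ x (i + 1) - x i := by
    induction F using Finset.induction_on with
    | empty => exact ⟨1, one_pos, by simp⟩
    | insert a F _ ih =>
      obtain ⟨δ, hδ, h⟩ := ih
      have ha : 0 < x (a + 1) - x a := by
        have := hx (show a < a + 1 by omega)
        linarith
      refine ⟨min δ ((x (a + 1) - x a) / 2), lt_min hδ (by linarith), ?_⟩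
      intro i hi
      rcases Finset.mem_insert.1 hi with rfl | hi
      · have := min_le_right δ ((x (i + 1) - x i) / 2)
        linarith
      · have := min_le_left δ ((x (a + 1) - x a) / 2)
        have := h i hi
        linarith
  obtain ⟨δ, hδ, h⟩ := h1
  refine ⟨δ, hδ, ?_⟩
  have h2 : ∀ i ∈ F, ∀ᶠ j in atTop, δ * R j ≤ ((X j (i + 1) - X j i : ℤ) : ℝ) := by
    intro i hi
    have h3 : Tendsto (fun j => (X j (i + 1) : ℝ) / R j - (X j i : ℝ) / R j) atTop
        (𝓝 (x (i + 1) - x i)) := (hX (i + 1)).sub (hX i)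
    have h4 : δ < x (i + 1) - x i := by
      have := h i hi
      linarith
    filter_upwards [h3.eventually (lt_mem_nhds h4), hR.eventually_gt_atTop 0] with j h5 h6
    rw [← sub_div, lt_div_iff₀ h6] at h5
    push_cast
    exact h5.le
  exact (Filter.eventually_all_finset F).2 h2

lemma Approx.eventually_wide {Q : Finset Cell} {x y : ℤ → ℝ} (hx : StrictMono x)
    (hy : StrictMono y) {R : ℕ → ℝ} {X Y : ℕ → ℤ → ℤ} (ha : Approx x y R X Y) :
    ∃ δ > 0, ∀ᶠ j in atTop, ∀ w : ℤ, (w : ℝ) ≤ δ * R j → Wide Q (X j) (Y j) w := by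
  obtain ⟨hi1, hhi1⟩ := (Q.image Prod.fst).exists_le
  obtain ⟨hi2, hhi2⟩ := (Q.image Prod.snd).exists_le
  obtain ⟨lo1, hlo1⟩ := (Q.image fun p => -p.1).exists_le
  obtain ⟨lo2, hlo2⟩ := (Q.image fun p => -p.2).exists_le
  obtain ⟨δ1, hδ1, h1⟩ := eventually_width hx ha.R_top ha.X_lim (Finset.Icc (-lo1) hi1)
  obtain ⟨δ2, hδ2, h2⟩ := eventually_width hy ha.R_top ha.Y_lim (Finset.Icc (-lo2) hi2)
  refine ⟨min δ1 δ2, lt_min hδ1 hδ2, ?_⟩
  filter_upwards [h1, h2, ha.R_top.eventually_gt_atTop 0] with j h3 h4 h5 w hw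
  constructor
  · rintro i ⟨c, hc, hci⟩ ⟨c', hc', hci'⟩
    have e1 := hhi1 c'.1 (Finset.mem_image_of_mem _ hc')
    have e2 := hlo1 (-c.1) (Finset.mem_image_of_mem (fun p : Cell => -p.1) hc)
    have e3 := h3 i (Finset.mem_Icc.2 ⟨by omega, by omega⟩)
    have e4 : (w : ℝ) ≤ ((X j (i + 1) - X j i : ℤ) : ℝ) :=
      hw.trans ((mul_le_mul_of_nonneg_right (min_le_left _ _) h5.le).trans e3)
    exact_mod_cast e4
  · rintro i ⟨c, hc, hci⟩ ⟨c', hc', hci'⟩
    have e1 := hhi2 c'.2 (Finset.mem_image_of_mem _ hc')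
    have e2 := hlo2 (-c.2) (Finset.mem_image_of_mem (fun p : Cell => -p.2) hc)
    have e3 := h4 i (Finset.mem_Icc.2 ⟨by omega, by omega⟩)
    have e4 : (w : ℝ) ≤ ((Y j (i + 1) - Y j i : ℤ) : ℝ) :=
      hw.trans ((mul_le_mul_of_nonneg_right (min_le_right _ _) h5.le).trans e3)
    exact_mod_cast e4

lemma near_of_norm {u v : ℤ × ℤ} {t : ℝ} (h : ‖lat u - lat v‖ ≤ t) : Near ⌈t⌉ u v := by
  have e1 : |(u.1 : ℝ) - v.1| ≤ ⌈t⌉ := by
    have := Complex.abs_re_le_norm (lat u - lat v)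
    have h2 : |(u.1 : ℝ) - v.1| ≤ ‖lat u - lat v‖ := by simpa [lat] using this
    exact (h2.trans h).trans (Int.le_ceil t)
  have e2 : |(u.2 : ℝ) - v.2| ≤ ⌈t⌉ := by
    have := Complex.abs_im_le_norm (lat u - lat v)
    have h2 : |(u.2 : ℝ) - v.2| ≤ ‖lat u - lat v‖ := by simpa [lat] using this
    exact (h2.trans h).trans (Int.le_ceil t)
  exact ⟨by exact_mod_cast e1, by exact_mod_cast e2⟩

/-- `DiscData.hold` from the interior bound with constant `A R^(-2/3)`. -/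
theorem hold_of_regBound {Q : Finset Cell} {x y : ℤ → ℝ} (hx : StrictMono x)
    (hy : StrictMono y) {R : ℕ → ℝ} {X Y : ℕ → ℤ → ℤ} (ha : Approx x y R X Y)
    {H : ℕ → ℤ × ℤ → ℂ} {A : ℝ} (hA : 0 ≤ A)
    (hB : ∀ᶠ j in atTop, ∀ L p, RegBound Q (X j) (Y j) L p (A * R j ^ (-(2 / 3) : ℝ)) (H j)) :
    ∃ C > 0, ∃ δ > 0, ∀ᶠ j in atTop, ∀ v v', inV Q (X j) (Y j) v → inV Q (X j) (Y j) v' →
      ‖lat v - lat v'‖ ≤ δ * R j →
      ‖H j v - H j v'‖ ≤ C * (‖lat v - lat v'‖ / R j) ^ (2 / 3 : ℝ) := by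
  obtain ⟨δ, hδ, hW⟩ := ha.eventually_wide (Q := Q) hx hy
  refine ⟨220 * A + 1, by positivity, δ / 16, by positivity, ?_⟩
  filter_upwards [hB, hW, ha.R_top.eventually_gt_atTop (32 / δ)] with j h1 h2 h3 v v' hv hv' hvv
  have hR0 : 0 < R j := lt_trans (by positivity) h3
  have hδR : 32 < δ * R j := by
    rw [div_lt_iff₀ hδ] at h3
    linarith
  set ρ : ℕ := ⌈δ / 16 * R j⌉.toNat with hρ
  have hc0 : (0 : ℤ) ≤ ⌈δ / 16 * R j⌉ := Int.ceil_nonneg (by positivity)
  have hρ' : (ρ : ℤ) = ⌈δ / 16 * R j⌉ := by rw [hρ]; exact Int.toNat_of_nonneg hc0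
  have hρR : (ρ : ℝ) ≤ δ / 16 * R j + 1 := by
    have := Int.ceil_lt_add_one (δ / 16 * R j)
    have h4 : ((ρ : ℤ) : ℝ) = (⌈δ / 16 * R j⌉ : ℝ) := by rw [hρ']
    push_cast at h4
    rw [h4]
    exact this.le
  have hn : Near ρ v v' := by
    have := near_of_norm hvv
    rwa [← hρ'] at this
  have hw : Wide Q (X j) (Y j) (8 * ρ) := by
    apply h2
    push_cast
    linarith
  have h5 := (h1 (9 * ρ) v).holder' (by positivity) hw hv hv' hn (by
    simp [Near])
  refine h5.trans ?_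
  rw [Real.div_rpow (norm_nonneg _) hR0.le, Real.rpow_neg hR0.le]
  have h6 : 0 ≤ ‖lat v - lat v'‖ ^ (2 / 3 : ℝ) / R j ^ (2 / 3 : ℝ) := by positivity
  calc 220 * (A * (R j ^ (2 / 3 : ℝ))⁻¹) * ‖lat v - lat v'‖ ^ (2 / 3 : ℝ)
      = 220 * A * (‖lat v - lat v'‖ ^ (2 / 3 : ℝ) / R j ^ (2 / 3 : ℝ)) := by
        rw [div_eq_mul_inv]; ring
    _ ≤ _ := mul_le_mul_of_nonneg_right (by linarith) h6

/-- `DiscData.corner` at one point `q` from the interior bound near `q` with the additional factor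
`ρ ^ c`. -/
theorem corner_of_regBound {Q : Finset Cell} {x y : ℤ → ℝ} (hx : StrictMono x)
    (hy : StrictMono y) {R : ℕ → ℝ} {X Y : ℕ → ℤ → ℤ} (ha : Approx x y R X Y)
    {H : ℕ → ℤ × ℤ → ℂ} {A c r : ℝ} (hA : 0 ≤ A) (hr : 0 < r) {q : ℕ → ℤ × ℤ}
    (hq : ∀ᶠ j in atTop, inV Q (X j) (Y j) (q j))
    (hB : ∀ ρ > 0, ρ ≤ r → ∀ᶠ j in atTop,
      RegBound Q (X j) (Y j) ⌈20 * ρ * R j⌉ (q j) (A * ρ ^ c * R j ^ (-(2 / 3) : ℝ)) (H j)) :
    ∃ C > 0, ∃ r > 0, ∀ ρ > 0, ρ ≤ r → ∀ᶠ j in atTop, ∀ v, inV Q (X j) (Y j) v →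
      ‖lat v - lat (q j)‖ ≤ ρ * R j →
      ‖H j v - H j (q j)‖ ≤ C * ρ ^ (2 / 3 + c : ℝ) := by
  obtain ⟨δ, hδ, hW⟩ := ha.eventually_wide (Q := Q) hx hy
  refine ⟨220 * A + 1, by positivity, min r (δ / 16), lt_min hr (by positivity), ?_⟩
  intro ρ hρ0 hρr
  have hρ1 : ρ ≤ r := hρr.trans (min_le_left _ _)
  have hρ2 : ρ ≤ δ / 16 := hρr.trans (min_le_right _ _)
  filter_upwards [hB ρ hρ0 hρ1, hW, hq, ha.R_top.eventually_gt_atTop (32 / δ),
    ha.R_top.eventually_gt_atTop (20 / ρ)] with j h1 h2 h3 h4 h4' v hv hvv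
  have hR0 : 0 < R j := lt_trans (by positivity) h4
  have hδR : 32 < δ * R j := by
    rw [div_lt_iff₀ hδ] at h4
    linarith
  have hρR' : 20 < ρ * R j := by
    rw [div_lt_iff₀ hρ0] at h4'
    linarith
  set s : ℕ := ⌈ρ * R j⌉.toNat with hs
  have hc0 : (0 : ℤ) ≤ ⌈ρ * R j⌉ := Int.ceil_nonneg (by positivity)
  have hs' : (s : ℤ) = ⌈ρ * R j⌉ := by rw [hs]; exact Int.toNat_of_nonneg hc0
  have hsR : (s : ℝ) ≤ ρ * R j + 1 := by
    have := Int.ceil_lt_add_one (ρ * R j)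
    have h4 : ((s : ℤ) : ℝ) = (⌈ρ * R j⌉ : ℝ) := by rw [hs']
    push_cast at h4
    rw [h4]
    exact this.le
  have hn : Near s v (q j) := by
    have := near_of_norm hvv
    rwa [← hs'] at this
  have hδρ : ρ * R j ≤ δ / 16 * R j := mul_le_mul_of_nonneg_right hρ2 hR0.le
  have hw : Wide Q (X j) (Y j) (8 * s) := by
    apply h2
    push_cast
    linarith
  have hL : (10 * s : ℤ) ≤ ⌈20 * ρ * R j⌉ := by
    have h5 : ((10 * s : ℤ) : ℝ) ≤ (⌈20 * ρ * R j⌉ : ℝ) := by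
      refine le_trans ?_ (Int.le_ceil _)
      push_cast
      linarith
    exact_mod_cast h5
  have h5 := h1.holder' (by positivity) hw hv h3 hn (hn.mono (by omega))
  refine h5.trans ?_
  have h6 : ‖lat v - lat (q j)‖ ^ (2 / 3 : ℝ) ≤ (ρ * R j) ^ (2 / 3 : ℝ) :=
    Real.rpow_le_rpow (norm_nonneg _) hvv (by norm_num)
  rw [Real.mul_rpow hρ0.le hR0.le] at h6
  rw [Real.rpow_neg hR0.le, Real.rpow_add hρ0]
  have h7 : (R j ^ (2 / 3 : ℝ))⁻¹ * R j ^ (2 / 3 : ℝ) = 1 :=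
    inv_mul_cancel₀ (by positivity)
  have h8 : 0 ≤ ρ ^ (2 / 3 : ℝ) * ρ ^ c := by positivity
  calc 220 * (A * ρ ^ c * (R j ^ (2 / 3 : ℝ))⁻¹) * ‖lat v - lat (q j)‖ ^ (2 / 3 : ℝ)
      ≤ 220 * (A * ρ ^ c * (R j ^ (2 / 3 : ℝ))⁻¹) * (ρ ^ (2 / 3 : ℝ) * R j ^ (2 / 3 : ℝ)) :=
        mul_le_mul_of_nonneg_left h6 (by positivity)
    _ = 220 * A * (ρ ^ (2 / 3 : ℝ) * ρ ^ c) * ((R j ^ (2 / 3 : ℝ))⁻¹ * R j ^ (2 / 3 : ℝ)) := by
        ring
    _ = 220 * A * (ρ ^ (2 / 3 : ℝ) * ρ ^ c) := by rw [h7, mul_one]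
    _ ≤ _ := mul_le_mul_of_nonneg_right (by linarith) h8

end Pool.Agent.Q1.M4
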