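import Mathlib
import Pool.Agent.Q1.M4.Inputs
import Pool.Agent.Q1.M4.Limit6

set_option autoImplicit false
open Finset Filter Topology

/-! From `N1` to the field `cr` of `DiscData`. -/

namespace Pool.Agent.Q1.M4

open Pool.Agent.H75.Perc Pool.Agent.H75.TwoArm

variable {P : PType} {x y : ℤ → ℝ} {R : ℕ → ℝ} {H : ℕ → ℤ × ℤ → ℂ}

/-- In boxes of half-size `N ≤ ρ R` around the lattice points near an interior point, `H j` is a
multiple `α` of a primitive of an environment of the class `K`, with `‖α‖ ≤ A R^(-2/3)`. -/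
def LocPrim (P : PType) (x y : ℤ → ℝ) (R : ℕ → ℝ) (H : ℕ → ℤ × ℤ → ℂ) (K : Env → Prop) : Prop :=
  ∃ A > 0, ∀ z ∈ Om P.Q x y, ∃ ρ > 0, ∀ᶠ j in atTop, ∀ v : ℤ × ℤ,
    ‖lat v / (R j : ℂ) - z‖ < ρ → ∀ N : ℕ, (N : ℝ) ≤ ρ * R j → ∃ E : Env, K E ∧
    Bx (v.1 - N) (v.1 + N) (v.2 - N) (v.2 + N) ⊆ E.E ∧ ∃ Hv Hf : ℤ × ℤ → ℂ,
    E.Prim (v.1 - N) (v.1 + N) (v.2 - N) (v.2 + N) Hv Hf ∧
    ∃ α : ℂ, ‖α‖ ≤ A * R j ^ (-(2 / 3) : ℝ) ∧
    ∀ w : ℤ × ℤ, v.1 - N ≤ w.1 → w.1 ≤ v.1 + N → v.2 - N ≤ w.2 → w.2 ≤ v.2 + N →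
      H j w = α * Hv w

/-- `CRA` from the weak Cauchy-Riemann relation of the functions themselves. -/
theorem CRA_of_cr {X Y : ℕ → ℤ → ℤ} (hx : StrictMono x) (hy : StrictMono y)
    (hA : Approx x y R X Y)
    (hold : ∃ C > 0, ∃ δ > 0, ∀ᶠ j in atTop, ∀ v v', inV P.Q (X j) (Y j) v →
      inV P.Q (X j) (Y j) v' → ‖lat v - lat v'‖ ≤ δ * R j →
      ‖H j v - H j v'‖ ≤ C * (‖lat v - lat v'‖ / R j) ^ (2 / 3 : ℝ))
    (hcr : ∀ z ∈ Om P.Q x y, ∃ r > 0, ∀ ε > 0, ∃ ρ0 > 0, ∀ ρ : ℝ, 0 < ρ → ρ < ρ0 → ∀ᶠ j in atTop,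
      ∀ v : ℤ × ℤ, ‖lat v / (R j : ℂ) - z‖ < r →
      ‖(H j (v.1 + ⌊ρ * R j⌋₊, v.2 + ⌊ρ * R j⌋₊) - H j v) -
        Complex.I * (H j (v.1 + ⌊ρ * R j⌋₊, v.2 - ⌊ρ * R j⌋₊) - H j v)‖ ≤ ε * ρ) :
    CRA P x y R H := by
  intro U hU z hz
  obtain ⟨r1, hr1, hcr⟩ := hcr z hz
  obtain ⟨r2, hr2, hnear⟩ := near_inV hx hy hA hz
  obtain ⟨C, hC, δ, hδ, hold⟩ := hold
  have hr : 0 < min (min r1 r2) (δ / 2) := lt_min (lt_min hr1 hr2) (by positivity)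
  refine ⟨min (min r1 r2) (δ / 2), hr, fun ε hε =>
    ⟨H, LocHol.locLim hA.R_top hU hr ⟨⟨C, hC, ?_⟩, fun ε' hε' => ?_⟩, ?_⟩⟩
  · filter_upwards [hU hold, hU hnear, hU (hA.R_top.eventually_gt_atTop 0)] with j h1 h2 h3 v w hv hw
    rw [lt_min_iff, lt_min_iff] at hv hw
    refine h1 v w (h2 v hv.1.2) (h2 w hw.1.2) ?_
    rw [← div_le_iff₀ h3, ← dist_div h3]
    have e : lat v / (R j : ℂ) - lat w / (R j : ℂ) =
      (lat v / (R j : ℂ) - z) - (lat w / (R j : ℂ) - z) := by ring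
    rw [e]
    refine (norm_sub_le _ _).trans ?_
    linarith [hv.2, hw.2]
  · obtain ⟨ρ0, hρ0, h⟩ := hcr ε' hε'
    refine ⟨ρ0, hρ0, fun ρ h1 h2 => ?_⟩
    filter_upwards [hU (h ρ h1 h2)] with j hj v hv
    rw [lt_min_iff, lt_min_iff] at hv
    exact hj v hv.1.1
  · refine Eventually.of_forall fun j v w _ _ => ?_
    rw [sub_self, norm_zero]
    exact hε.le

/-- `LocLim` is stable under bounded factors. -/
lemma LocLim.mul (hR : Tendsto R atTop atTop) (U : Ultrafilter ℕ) (hU : (U : Filter ℕ) ≤ atTop)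
    {G : ℕ → ℤ × ℤ → ℂ} {z : ℂ} {r A : ℝ} (hr : 0 < r) (hA : 0 < A) {α : ℕ → ℂ}
    (hα : ∀ᶠ j in (U : Filter ℕ), ‖α j‖ ≤ A) (h : LocLim R U G z r) :
    LocLim R U (fun j v => α j * G j v) z r where
  hold := by
    obtain ⟨C, hC, h⟩ := h.hold
    refine ⟨A * C, by positivity, ?_⟩
    filter_upwards [h, hα] with j h1 h2 v w hv hw
    rw [← mul_sub, norm_mul, mul_assoc]
    exact mul_le_mul h2 (h1 v w hv hw) (norm_nonneg _) hA.le
  hol := by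
    intro g' hg'
    obtain ⟨g, hg⟩ := exists_gLim hR U hU hr h.hold
    obtain ⟨a, ha⟩ := exists_lim U hα
    have e : ∀ w ∈ Metric.ball z r, g' w = a * g w := by
      intro w hw
      have hv := (fl_tendsto hR w).mono_left hU
      refine tendsto_nhds_unique (hg' w hw _ hv) ?_
      refine (ha.mul (hg w hw _ hv)).congr fun j => ?_
      ring
    exact ((h.hol g hg).const_mul a).congr e

/-- `CRA` is stable under bounded factors and constants. -/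
lemma CRA.mul (hR : Tendsto R atTop atTop) {H' : ℕ → ℤ × ℤ → ℂ} {A : ℝ} (hA : 0 < A) {α : ℕ → ℂ}
    (hα : ∀ᶠ j in atTop, ‖α j‖ ≤ A) (h : CRA P x y R H)
    (hH : ∀ᶠ j in atTop, ∀ v w, H' j v - H' j w = α j * (H j v - H j w)) : CRA P x y R H' := by
  intro U hU z hz
  obtain ⟨r, hr, h⟩ := h U hU z hz
  refine ⟨r, hr, fun ε hε => ?_⟩
  obtain ⟨G, hG, hcl⟩ := h (ε / A) (by positivity)
  refine ⟨fun j v => α j * G j v, hG.mul hR U hU hr hA (hU hα), ?_⟩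
  filter_upwards [hcl, hU hα, hU hH] with j h1 h2 h3 v w hv hw
  have e : H' j v - H' j w - (α j * G j v - α j * G j w) =
      α j * ((H j v - H j w) - (G j v - G j w)) := by rw [h3]; ring
  rw [e, norm_mul]
  calc _ ≤ A * (ε / A) := mul_le_mul h2 (h1 v w hv hw) (norm_nonneg _) hA.le
    _ = ε := by field_simp

/-- The primitives at the scale `R ^ (2/3)`. -/
noncomputable def scl (R : ℕ → ℝ) (Hv : ℕ → ℤ × ℤ → ℂ) (j : ℕ) (v : ℤ × ℤ) : ℂ :=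
  ((R j ^ (-(2 / 3) : ℝ) : ℝ) : ℂ) * Hv j v

theorem cr_of_N1 {K : Env → Prop} (hN : N1 K) (hR : Tendsto R atTop atTop)
    (hL : LocPrim P x y R H K) :
    ∀ z ∈ Om P.Q x y, ∃ r > 0, ∀ ε > 0, ∃ ρ0 > 0, ∀ ρ : ℝ, 0 < ρ → ρ < ρ0 → ∀ᶠ j in atTop,
    ∀ v : ℤ × ℤ, ‖lat v / (R j : ℂ) - z‖ < r →
    ‖(H j (v.1 + ⌊ρ * R j⌋₊, v.2 + ⌊ρ * R j⌋₊) - H j v) -
      Complex.I * (H j (v.1 + ⌊ρ * R j⌋₊, v.2 - ⌊ρ * R j⌋₊) - H j v)‖ ≤ ε * ρ := by
  intro z hz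
  obtain ⟨A, hA, hL⟩ := hL
  obtain ⟨r, hr, h⟩ := hL z hz
  refine ⟨r, hr, fun ε hε => ?_⟩
  -- constants
  have hr3 : 0 < r ^ (-(1 / 3) : ℝ) := by positivity
  obtain ⟨ρ0, hρ0, hN⟩ := hN (ε / (2 * A * r ^ (-(1 / 3) : ℝ))) (by positivity)
  refine ⟨min (ρ0 * r / 2) (r / 2), by positivity, fun ρ hρ hρ2 => ?_⟩
  rw [lt_min_iff] at hρ2
  obtain ⟨N0, hN0⟩ := hN (ρ / (2 * r)) (by positivity)
  filter_upwards [h, hR.eventually_gt_atTop 0, hR.eventually_gt_atTop (((N0 : ℝ) + 1) / r),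
    hR.eventually_gt_atTop (2 / r), hR.eventually_gt_atTop (2 / ρ)] with j hj h0 h1 h2 h3 v hv
  rw [div_lt_iff₀ hr] at h1 h2
  rw [div_lt_iff₀ hρ] at h3
  set N := ⌊r * R j⌋₊ with hNdef
  set n := ⌊ρ * R j⌋₊ with hndef
  have a1 : (N : ℝ) ≤ r * R j := Nat.floor_le (by positivity)
  have a2 : r * R j < N + 1 := Nat.lt_floor_add_one _
  have b1 : (n : ℝ) ≤ ρ * R j := Nat.floor_le (by positivity)
  have b2 : ρ * R j < n + 1 := Nat.lt_floor_add_one _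
  obtain ⟨E, hE, hBx, Hv, Hf, hP, α, hα, heq⟩ := hj v hv N a1
  have hNN0 : N0 ≤ N := by
    apply Nat.le_floor
    linarith
  have hNhalf : r * R j / 2 ≤ N := by linarith
  have hnlow : ρ / (2 * r) * N ≤ n := by
    have e1 : ρ / (2 * r) * N ≤ ρ / (2 * r) * (r * R j) :=
      mul_le_mul_of_nonneg_left a1 (by positivity)
    have e2 : ρ / (2 * r) * (r * R j) = ρ * R j / 2 := by field_simp
    linarith
  have hnup : (n : ℝ) ≤ ρ0 * N := by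
    have e1 : ρ * R j ≤ ρ0 * r / 2 * R j := mul_le_mul_of_nonneg_right hρ2.1.le h0.le
    have e2 : ρ0 * (r * R j / 2) ≤ ρ0 * N := mul_le_mul_of_nonneg_left hNhalf hρ0.le
    linarith
  have hnN : (n : ℤ) ≤ (N : ℤ) := by
    have : (n : ℝ) ≤ N := by
      have e1 : ρ * R j ≤ r / 2 * R j := mul_le_mul_of_nonneg_right hρ2.2.le h0.le
      linarith
    exact_mod_cast this
  have key := hN0 N n hNN0 hnlow hnup E hE v.1 v.2 hBx Hv Hf hP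
  have g0 := heq v (by omega) (by omega) (by omega) (by omega)
  have g1 := heq (v.1 + n, v.2 + n) (by simp only; omega) (by simp only; omega)
    (by simp only; omega) (by simp only; omega)
  have g2 := heq (v.1 + n, v.2 - n) (by simp only; omega) (by simp only; omega)
    (by simp only; omega) (by simp only; omega)
  rw [g0, g1, g2]
  have e1 : α * Hv (v.1 + n, v.2 + n) - α * Hv v -
      Complex.I * (α * Hv (v.1 + n, v.2 - n) - α * Hv v) =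
      α * ((Hv (v.1 + n, v.2 + n) - Hv (v.1, v.2)) -
        Complex.I * (Hv (v.1 + n, v.2 - n) - Hv (v.1, v.2))) := by ring
  rw [e1, norm_mul]
  have hNpow : (N : ℝ) ^ (-(1 / 3) : ℝ) ≤ 2 * (r ^ (-(1 / 3) : ℝ) * R j ^ (-(1 / 3) : ℝ)) := by
    have e2 : (N : ℝ) ^ (-(1 / 3) : ℝ) ≤ (r * R j / 2) ^ (-(1 / 3) : ℝ) :=
      Real.rpow_le_rpow_of_nonpos (by positivity) hNhalf (by norm_num)
    refine e2.trans ?_
    rw [Real.div_rpow (by positivity) (by norm_num), Real.mul_rpow hr.le h0.le]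
    have e3 : (1 / 2 : ℝ) ≤ (2 : ℝ) ^ (-(1 / 3) : ℝ) := by
      rw [show (1 / 2 : ℝ) = (2 : ℝ) ^ (-1 : ℝ) by rw [Real.rpow_neg_one]; norm_num]
      exact Real.rpow_le_rpow_of_exponent_le (by norm_num) (by norm_num)
    rw [div_le_iff₀ (by positivity)]
    have e4 : 0 ≤ r ^ (-(1 / 3) : ℝ) * R j ^ (-(1 / 3) : ℝ) := by positivity
    nlinarith
  calc ‖α‖ * ‖(Hv (v.1 + n, v.2 + n) - Hv (v.1, v.2)) -
        Complex.I * (Hv (v.1 + n, v.2 - n) - Hv (v.1, v.2))‖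
      ≤ (A * R j ^ (-(2 / 3) : ℝ)) * (ε / (2 * A * r ^ (-(1 / 3) : ℝ)) * (ρ * R j) *
          (2 * (r ^ (-(1 / 3) : ℝ) * R j ^ (-(1 / 3) : ℝ)))) := by
        apply mul_le_mul hα _ (norm_nonneg _) (by positivity)
        refine key.trans ?_
        apply mul_le_mul _ hNpow (by positivity) (by positivity)
        exact mul_le_mul_of_nonneg_left b1 (by positivity)
    _ = ε * ρ := by
      have e3 : R j ^ (-(2 / 3) : ℝ) * R j ^ (-(1 / 3) : ℝ) = (R j)⁻¹ := by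
        rw [← Real.rpow_add h0]; norm_num
        rw [Real.rpow_neg_one]
      have e5 : R j ≠ 0 := h0.ne'
      calc (A * R j ^ (-(2 / 3) : ℝ)) * (ε / (2 * A * r ^ (-(1 / 3) : ℝ)) * (ρ * R j) *
          (2 * (r ^ (-(1 / 3) : ℝ) * R j ^ (-(1 / 3) : ℝ))))
          = ε * ρ * R j * (R j ^ (-(2 / 3) : ℝ) * R j ^ (-(1 / 3) : ℝ)) := by field_simp
        _ = ε * ρ := by rw [e3]; field_simp

end Pool.Agent.Q1.M4
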