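import Mathlib
import Pool.Agent.Q1.M4.CR
import Pool.Agent.Q1.M4.Global
import Pool.Agent.Q1.M5.Defs

set_option autoImplicit false
open Finset Filter Topology

/-! The field `cr` of `DiscData` for the percolation functions: interior boxes lie in the random
region, and the global primitive is a primitive of the environment there. -/

namespace Pool.Agent.Q1.M4

open Pool.Agent.H75.Perc Pool.Agent.H75.TwoArm Pool.Agent.H49.Q1 Pool.Agent.Q1.M5

variable {P : PType} {x y : ℤ → ℝ} {R : ℕ → ℝ} {X Y : ℕ → ℤ → ℤ}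

/-! ### Faces near an interior point -/

lemma line_near_Ioc {x : ℤ → ℝ} (hx : StrictMono x) {R : ℕ → ℝ} {X : ℕ → ℤ → ℤ}
    (hR : Tendsto R atTop atTop) (hX : ∀ i, Tendsto (fun j => (X j i : ℝ) / R j) atTop (𝓝 (x i)))
    {i : ℤ} {s : ℝ} (h1 : x i ≤ s) (h2 : s ≤ x (i + 1)) : ∃ r > 0, ∀ᶠ j in atTop, ∀ m : ℤ,
      |(m : ℝ) / R j - s| < r → ∃ k, (x k ≤ s ∧ s ≤ x (k + 1)) ∧ (X j k < m ∧ m ≤ X j (k + 1)) := by
  have hi0 : x (i - 1) < x i := hx (by omega)
  have hi1 : x i < x (i + 1) := hx (by omega)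
  have hi2 : x (i + 1) < x (i + 1 + 1) := hx (by omega)
  have conv : ∀ {j : ℕ} {a b : ℤ}, 0 < R j → (a : ℝ) / R j < (b : ℝ) / R j → a < b := by
    intro j a b hR hab
    rw [div_lt_div_iff_of_pos_right hR] at hab
    exact_mod_cast hab
  rcases eq_or_lt_of_le h1 with e1 | e1
  · refine ⟨min (x i - x (i - 1)) (x (i + 1) - x i) / 2, by
      have := lt_min (sub_pos.2 hi0) (sub_pos.2 hi1); linarith, ?_⟩
    have a1 : x (i - 1) < x i - min (x i - x (i - 1)) (x (i + 1) - x i) / 2 := by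
      have := min_le_left (x i - x (i - 1)) (x (i + 1) - x i); linarith
    have a2 : x i + min (x i - x (i - 1)) (x (i + 1) - x i) / 2 < x (i + 1) := by
      have := min_le_right (x i - x (i - 1)) (x (i + 1) - x i); linarith
    filter_upwards [(hX (i - 1)).eventually_lt_const a1, (hX (i + 1)).eventually_const_lt a2,
      hR.eventually_gt_atTop 0] with j b1 b2 b3 m hm
    rw [abs_lt] at hm
    rcases lt_or_ge (X j i) m with h | h
    · exact ⟨i, ⟨h1, h2⟩, h, (conv b3 (by linarith [hm.2])).le⟩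
    · refine ⟨i - 1, ⟨by linarith, by rw [sub_add_cancel]; linarith⟩, conv b3 (by linarith [hm.1]), ?_⟩
      rw [sub_add_cancel]; exact h
  · rcases eq_or_lt_of_le h2 with e2 | e2
    · refine ⟨min (x (i + 1) - x i) (x (i + 1 + 1) - x (i + 1)) / 2, by
        have := lt_min (sub_pos.2 hi1) (sub_pos.2 hi2); linarith, ?_⟩
      have a1 : x i < x (i + 1) - min (x (i + 1) - x i) (x (i + 1 + 1) - x (i + 1)) / 2 := by
        have := min_le_left (x (i + 1) - x i) (x (i + 1 + 1) - x (i + 1)); linarith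
      have a2 : x (i + 1) + min (x (i + 1) - x i) (x (i + 1 + 1) - x (i + 1)) / 2 < x (i + 1 + 1) := by
        have := min_le_right (x (i + 1) - x i) (x (i + 1 + 1) - x (i + 1)); linarith
      filter_upwards [(hX i).eventually_lt_const a1, (hX (i + 1 + 1)).eventually_const_lt a2,
        hR.eventually_gt_atTop 0] with j b1 b2 b3 m hm
      rw [abs_lt] at hm
      rcases le_or_gt m (X j (i + 1)) with h | h
      · exact ⟨i, ⟨h1, h2⟩, conv b3 (by linarith [hm.1]), h⟩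
      · exact ⟨i + 1, ⟨by linarith, by linarith⟩, h, (conv b3 (by linarith [hm.2])).le⟩
    · refine ⟨min (s - x i) (x (i + 1) - s) / 2, by
        have := lt_min (sub_pos.2 e1) (sub_pos.2 e2); linarith, ?_⟩
      have a1 : x i < s - min (s - x i) (x (i + 1) - s) / 2 := by
        have := min_le_left (s - x i) (x (i + 1) - s); linarith
      have a2 : s + min (s - x i) (x (i + 1) - s) / 2 < x (i + 1) := by
        have := min_le_right (s - x i) (x (i + 1) - s); linarith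
      filter_upwards [(hX i).eventually_lt_const a1, (hX (i + 1)).eventually_const_lt a2,
        hR.eventually_gt_atTop 0] with j b1 b2 b3 m hm
      rw [abs_lt] at hm
      exact ⟨i, ⟨h1, h2⟩, conv b3 (by linarith [hm.1]), (conv b3 (by linarith [hm.2])).le⟩

lemma near_FQ {Q : Finset Cell} (hx : StrictMono x) (hy : StrictMono y) (hA : Approx x y R X Y)
    {z : ℂ} (hz : z ∈ Om Q x y) :
    ∃ r > 0, ∀ᶠ j in atTop, ∀ v, ‖lat v / (R j : ℂ) - z‖ < r → v ∈ FQ Q (X j) (Y j) := by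
  rw [mem_Om hx hy] at hz
  obtain ⟨⟨c, hc, hzc⟩, hall⟩ := hz
  obtain ⟨r1, hr1, h1⟩ := line_near_Ioc hx hA.R_top hA.X_lim hzc.1.1 hzc.1.2
  obtain ⟨r2, hr2, h2⟩ := line_near_Ioc hy hA.R_top hA.Y_lim hzc.2.1 hzc.2.2
  refine ⟨min r1 r2, lt_min hr1 hr2, ?_⟩
  filter_upwards [h1, h2] with j hj1 hj2 v hv
  rw [lt_min_iff] at hv
  obtain ⟨i, hi, hi'⟩ := hj1 v.1 (by
    have := Complex.abs_re_le_norm (lat v / (R j : ℂ) - z)
    rw [Complex.sub_re, Complex.div_ofReal_re] at this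
    exact lt_of_le_of_lt this hv.1)
  obtain ⟨k, hk, hk'⟩ := hj2 v.2 (by
    have := Complex.abs_im_le_norm (lat v / (R j : ℂ) - z)
    rw [Complex.sub_im, Complex.div_ofReal_im] at this
    exact lt_of_le_of_lt this hv.2)
  exact mem_FQ.2 ⟨(i, k), hall (i, k) ⟨hi, hk⟩, hi', hk'⟩

/-! ### Interior labels -/

/-- A label on a boundary side has a face outside the domain. -/
lemma side_face {Q : Finset Cell} {X Y : ℤ → ℤ} (hX : StrictMono X) (hY : StrictMono Y)
    {s : Cell × ℤ} (hs : IsSide Q s) {e : ℤ × ℤ} (he : e ∈ M5.sL X Y s) :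
    fi (in1 e) ∉ FQ Q X Y ∨ fi (nxC (in1 e)) ∉ FQ Q X Y := by
  obtain ⟨⟨a, b⟩, k⟩ := s
  obtain ⟨-, hs⟩ := hs
  unfold M5.sL gcell at he
  rw [mem_filter, mem_Bx] at he
  simp only at he hs
  have xa : X (a - 1) < X a := hX (by omega)
  have xb : X (a + 1) < X (a + 1 + 1) := hX (by omega)
  have ya : Y (b - 1) < Y b := hY (by omega)
  have yb : Y (b + 1) < Y (b + 1 + 1) := hY (by omega)
  obtain ⟨⟨h1, h2, h3⟩, h4, h5, h6, h7⟩ := he
  obtain ⟨p, q⟩ := e
  simp only at h1 h2 h3 h4 h5 h6 h7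
  rcases dir_cases (k - 1) with ⟨hk, ed⟩ | ⟨hk, ed⟩ | ⟨hk, ed⟩ | ⟨hk, ed⟩ <;> rw [ed] at hs
  · -- k = 1
    have h8 := h5 (by omega)
    right
    rw [mem_FQ_iff hX hY (c := (a, b) + (1, 0))]
    · exact hs
    · unfold RC in1 fi
      simp only [Prod.mk_add_mk, add_zero]
      rw [if_neg (by omega)]
      unfold nxC
      simp only
      rw [if_pos (by omega), if_pos (by omega)]
      simp only
      omega
  · -- k = 2
    have h8 := h6 (by omega)
    right
    rw [mem_FQ_iff hX hY (c := (a, b) + (0, 1))]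
    · exact hs
    · unfold RC in1 fi
      simp only [Prod.mk_add_mk, add_zero]
      rw [if_pos (by omega)]
      unfold nxC
      simp only
      rw [if_pos (by omega), if_neg (by omega)]
      simp only
      omega
  · -- k = 3
    have h8 := h7 (by omega)
    left
    rw [mem_FQ_iff hX hY (c := (a, b) + (-1, 0))]
    · exact hs
    · unfold RC in1 fi
      simp only [Prod.mk_add_mk, add_zero]
      rw [if_neg (by omega), ← sub_eq_add_neg, sub_add_cancel]
      simp only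
      omega
  · -- k = 0
    have h8 := h4 (by omega)
    left
    rw [mem_FQ_iff hX hY (c := (a, b) + (0, -1))]
    · exact hs
    · unfold RC in1 fi
      simp only [Prod.mk_add_mk, add_zero]
      rw [if_pos (by omega), ← sub_eq_add_neg, sub_add_cancel]
      simp only
      omega

/-- A label with a face in the domain is a label of the closed region. -/
lemma mem_gs_of_face {Q : Finset Cell} {X Y : ℤ → ℤ} {e : ℤ × ℤ} (he : (e.1 + e.2) % 2 = 1)
    (h : fi (in1 e) ∈ FQ Q X Y) : e ∈ gs X Y Q := by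
  rw [mem_FQ] at h
  obtain ⟨c, hc, h1, h2⟩ := h
  rw [mem_gs]
  refine ⟨c, hc, ?_⟩
  unfold gcell
  rw [mem_Bx]
  obtain ⟨p, q⟩ := e
  unfold in1 fi at h1 h2
  simp only at he h1 h2 ⊢
  by_cases hq : p % 2 = 1
  · rw [if_pos hq] at h1 h2
    simp only at h1 h2
    omega
  · rw [if_neg hq] at h1 h2
    simp only at h1 h2
    omega

/-- A label with both faces in the domain is random. -/
lemma mem_EL_of_faces (P : PType) {X Y : ℤ → ℤ} (hX : StrictMono X) (hY : StrictMono Y) {e : ℤ × ℤ}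
    (he : (e.1 + e.2) % 2 = 1) (h1 : fi (in1 e) ∈ FQ P.Q X Y)
    (h2 : fi (nxC (in1 e)) ∈ FQ P.Q X Y) : e ∈ M5.EL P X Y := by
  unfold M5.EL
  rw [Finset.mem_sdiff]
  refine ⟨mem_gs_of_face he h1, ?_⟩
  intro h3
  unfold M5.WL at h3
  rw [mem_biUnion] at h3
  obtain ⟨n, -, hn⟩ := h3
  rcases side_face hX hY (PType.isSide P n) hn with h | h
  · exact h h1
  · exact h h2

lemma in1_near (e : ℤ × ℤ) : (e.1 ≤ (in1 e).1 ∧ (in1 e).1 ≤ e.1 + 1) ∧
    (e.2 ≤ (in1 e).2 ∧ (in1 e).2 ≤ e.2 + 1) := by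
  unfold in1; split_ifs <;> omega

lemma in2_near (e : ℤ × ℤ) : (e.1 ≤ (in2 e).1 ∧ (in2 e).1 ≤ e.1 + 1) ∧
    (e.2 ≤ (in2 e).2 ∧ (in2 e).2 ≤ e.2 + 1) := by
  unfold in2; split_ifs <;> omega

lemma nxC_in1_near {e : ℤ × ℤ} (he : (e.1 + e.2) % 2 = 1) :
    (e.1 ≤ (nxC (in1 e)).1 ∧ (nxC (in1 e)).1 ≤ e.1 + 1) ∧
    (e.2 ≤ (nxC (in1 e)).2 ∧ (nxC (in1 e)).2 ≤ e.2 + 1) := by
  by_cases h : e.1 % 2 = 1
  · unfold in1; rw [if_pos h]; unfold nxC; split_ifs <;> simp only <;> omega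
  · unfold in1; rw [if_neg h]; unfold nxC; simp only; split_ifs <;> simp only <;> omega

lemma nxC_in2_near {e : ℤ × ℤ} (he : (e.1 + e.2) % 2 = 1) :
    (e.1 ≤ (nxC (in2 e)).1 ∧ (nxC (in2 e)).1 ≤ e.1 + 1) ∧
    (e.2 ≤ (nxC (in2 e)).2 ∧ (nxC (in2 e)).2 ≤ e.2 + 1) := by
  by_cases h : e.1 % 2 = 1
  · unfold in2; rw [if_pos h]; unfold nxC; simp only; split_ifs <;> simp only <;> omega
  · unfold in2; rw [if_neg h]; unfold nxC; simp only; split_ifs <;> simp only <;> omega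

/-- **The field `cr`, percolation side.** -/
theorem locPrim_of_global {K : Env → Prop} {H : ℕ → ℤ × ℤ → ℂ} (hx : StrictMono x)
    (hy : StrictMono y) (hA : App x y R X Y) {A : ℝ} (hA0 : 0 < A)
    {Ev : ℕ → Env} {Hv Hf : ℕ → ℤ × ℤ → ℂ} {α κ : ℕ → ℂ}
    (hK : ∀ᶠ j in atTop, K (Ev j)) (hE : ∀ᶠ j in atTop, M5.EL P (X j) (Y j) ⊆ (Ev j).E)
    (hprim : ∀ᶠ j in atTop, ∀ c, fi c ∈ FQ P.Q (X j) (Y j) →
      Hv j (vx c) - Hf j (fi c) = (Ev j).inc c)
    (hα : ∀ᶠ j in atTop, ‖α j‖ ≤ A * R j ^ (-(2 / 3) : ℝ))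
    (hH : ∀ᶠ j in atTop, ∀ v, inV P.Q (X j) (Y j) v → H j v = α j * (Hv j v - κ j)) :
    LocPrim P x y R H K := by
  refine ⟨A, hA0, fun z hz => ?_⟩
  obtain ⟨r1, hr1, h1⟩ := near_FQ hx hy hA.app hz
  obtain ⟨r2, hr2, h2⟩ := near_inV hx hy hA.app hz
  refine ⟨min r1 r2 / 8, by positivity, ?_⟩
  filter_upwards [h1, h2, hK, hE, hprim, hα, hH, hA.mono, hA.app.R_top.eventually_gt_atTop 0,
    hA.app.R_top.eventually_gt_atTop (16 / min r1 r2)] with j h1 h2 hK hE hprim hα hH hm hR0 hR1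
    v hv N hN
  have hmin : 0 < min r1 r2 := lt_min hr1 hr2
  rw [div_lt_iff₀ hmin] at hR1
  -- points of the box are near `z`
  have hnear : ∀ w : ℤ × ℤ, |w.1 - v.1| ≤ (N : ℤ) + 1 → |w.2 - v.2| ≤ (N : ℤ) + 1 →
      ‖lat w / (R j : ℂ) - z‖ < min r1 r2 := by
    intro w hw1 hw2
    have e : lat w / (R j : ℂ) - z = (lat w / (R j : ℂ) - lat v / (R j : ℂ)) +
      (lat v / (R j : ℂ) - z) := by ring
    rw [e]
    refine (norm_add_le _ _).trans_lt ?_
    rw [dist_div hR0, lat_sub]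
    have h3 : ‖lat (w - v)‖ ≤ 2 * ((N : ℝ) + 1) := by
      refine (norm_lat_le _).trans ?_
      have a1 : |((w - v).1 : ℝ)| ≤ (N : ℝ) + 1 := by
        have : (|(w - v).1| : ℤ) ≤ (N : ℤ) + 1 := hw1
        exact_mod_cast this
      have a2 : |((w - v).2 : ℝ)| ≤ (N : ℝ) + 1 := by
        have : (|(w - v).2| : ℤ) ≤ (N : ℤ) + 1 := hw2
        exact_mod_cast this
      linarith
    have h4 : ‖lat (w - v)‖ / R j ≤ 3 / 8 * min r1 r2 := by
      rw [div_le_iff₀ hR0]
      refine h3.trans ?_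
      nlinarith
    linarith
  have hface : ∀ e ∈ Bx (v.1 - N) (v.1 + N) (v.2 - N) (v.2 + N), ∀ c : ℤ × ℤ,
      ((e.1 ≤ c.1 ∧ c.1 ≤ e.1 + 1) ∧ (e.2 ≤ c.2 ∧ c.2 ≤ e.2 + 1)) →
      fi c ∈ FQ P.Q (X j) (Y j) := by
    intro e he c hc
    rw [mem_Bx] at he
    apply h1
    refine (hnear (fi c) ?_ ?_).trans_le (min_le_left _ _)
    · unfold fi; simp only; rw [abs_le]; omega
    · unfold fi; simp only; rw [abs_le]; omega
  refine ⟨Ev j, hK, ?_, fun w => Hv j w - κ j, fun w => Hf j w - κ j, ?_, α j, hα, ?_⟩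
  · intro e he
    have hodd := (mem_Bx.1 he).2.2
    exact hE (mem_EL_of_faces P hm.1 hm.2 hodd (hface e he _ (in1_near e))
      (hface e he _ (nxC_in1_near hodd)))
  · intro e he c hc
    have hodd := (mem_Bx.1 he).2.2
    have hf : fi c ∈ FQ P.Q (X j) (Y j) := by
      rcases hc with rfl | rfl | rfl | rfl
      · exact hface e he _ (in1_near e)
      · exact hface e he _ (in2_near e)
      · exact hface e he _ (nxC_in1_near hodd)
      · exact hface e he _ (nxC_in2_near hodd)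
    have := hprim c hf
    simp only
    rw [← this]; ring
  · intro w a1 a2 a3 a4
    apply hH
    apply h2
    refine (hnear w ?_ ?_).trans_le (min_le_right _ _)
    · rw [abs_le]; omega
    · rw [abs_le]; omega

end Pool.Agent.Q1.M4
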