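import Mathlib
import Pool.Agent.Q1.M4.Limit6

set_option autoImplicit false
open Set Filter Topology

/-! Module M4: convergence of ratios (abstract form). -/

namespace Pool.Agent.Q1.M4

open Pool.Agent.H75.Perc (dir dir_cases)

variable {P : PType} {x y : ℤ → ℝ} {R : ℕ → ℝ} {X Y : ℕ → ℤ → ℤ} {H : ℕ → ℤ × ℤ → ℂ}

/-- The increments of `H` at the beginning of the side `n` are `t * w * ph n`, up to a small
relative error. -/
def PointData (P : PType) (X Y : ℕ → ℤ → ℤ) (H : ℕ → ℤ × ℤ → ℂ) (n : ℕ) (w : ℕ → ℝ) : Prop :=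
  ∀ ε > 0, ∃ t0 > 0, ∀ t, 0 < t → t ≤ t0 → ∀ᶠ j in atTop,
    ‖H j (P.spt (X j) (Y j) n t) - H j (lpt (X j) (Y j) (P.vert n)) -
      ((t * w j : ℝ) : ℂ) * P.ph n‖ ≤ ε * t * (1 + w j)

lemma spt_zero (P : PType) (X Y : ℤ → ℤ) (n : ℕ) : P.spt X Y n 0 = lpt X Y (P.vert n) := by
  unfold PType.spt; simp

/-- The weights are bounded. -/
lemma PointData.bound (D : DiscData P x y R X Y H) (hx : StrictMono x) (hy : StrictMono y) {n : ℕ}
    {w : ℕ → ℝ} (hw : ∀ᶠ j in atTop, 0 ≤ w j) (hp : PointData P X Y H n w) :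
    ∃ B, ∀ᶠ j in atTop, ‖w j‖ ≤ B := by
  obtain ⟨B, hB⟩ := D.bound hx hy
  obtain ⟨t0, ht0, h⟩ := hp (1 / 2) (by norm_num)
  set t := min t0 1 with ht
  have htpos : 0 < t := lt_min ht0 one_pos
  have ht1 : t ≤ 1 := min_le_right _ _
  refine ⟨(2 * (2 * B) + t) / t, ?_⟩
  have ha := spt_appr (P := P) hx hy D.approx le_rfl n htpos.le ht1
  filter_upwards [hB, hw, h t htpos (min_le_left _ _), ha.1,
    D.approx.tail_mem hx hy (P.side n)] with j h1 h2 h3 h4 h5
  have h6 := h1 _ h4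
  have h7 := h1 (lpt (X j) (Y j) (P.vert n)) ⟨_, (P.isSide n).1, h5⟩
  have h8 : ‖((t * w j : ℝ) : ℂ) * P.ph n‖ = t * w j := by
    rw [norm_mul, P.norm_ph, mul_one, Complex.norm_real, Real.norm_of_nonneg (by positivity)]
  have h9 : ‖((t * w j : ℝ) : ℂ) * P.ph n‖ ≤
      ‖H j (P.spt (X j) (Y j) n t)‖ + ‖H j (lpt (X j) (Y j) (P.vert n))‖ +
      ‖H j (P.spt (X j) (Y j) n t) - H j (lpt (X j) (Y j) (P.vert n)) -
      ((t * w j : ℝ) : ℂ) * P.ph n‖ := by
    have e : ((t * w j : ℝ) : ℂ) * P.ph n = (H j (P.spt (X j) (Y j) n t) -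
      H j (lpt (X j) (Y j) (P.vert n))) - (H j (P.spt (X j) (Y j) n t) -
      H j (lpt (X j) (Y j) (P.vert n)) - ((t * w j : ℝ) : ℂ) * P.ph n) := by ring
    conv_lhs => rw [e]
    refine (norm_sub_le _ _).trans ?_
    have := norm_sub_le (H j (P.spt (X j) (Y j) n t)) (H j (lpt (X j) (Y j) (P.vert n)))
    linarith
  rw [h8] at h9
  rw [Real.norm_of_nonneg h2, le_div_iff₀ htpos]
  nlinarith

/-- The increments of the limit at the beginning of a side. -/
lemma PointData.lim (D : DiscData P x y R X Y H) (hx : StrictMono x) (hy : StrictMono y)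
    {F : Filter ℕ} [F.NeBot] (hF : F ≤ atTop) {h : ℂ → ℂ}
    (hh : ∀ z ∈ Reg P.Q x y, IsLim P R X Y H F z (h z)) {n : ℕ} {w : ℕ → ℝ}
    (hp : PointData P X Y H n w) {r : ℝ} (hr : Tendsto w F (𝓝 r)) :
    Tendsto (fun t : ℝ => (h (P.sidePt x y n t) - h (P.sidePt x y n 0)) / (t : ℂ)) (𝓝[>] 0)
      (𝓝 ((r : ℂ) * P.ph n)) := by
  rw [Metric.tendsto_nhdsWithin_nhds]
  intro ε hε
  obtain ⟨t0, ht0, h0⟩ := hp (ε / (2 * (1 + |r|))) (by positivity)
  refine ⟨min t0 1, lt_min ht0 one_pos, ?_⟩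
  intro t ht htd
  rw [Real.dist_eq, sub_zero] at htd
  have htpos : 0 < t := ht
  rw [abs_of_pos htpos, lt_min_iff] at htd
  have a1 := spt_appr (P := P) hx hy D.approx hF n htpos.le htd.2.le
  have a2 := spt_appr (P := P) hx hy D.approx hF n (t := 0) le_rfl zero_le_one
  have b1 := hh _ (sidePt_mem hx hy P n htpos.le htd.2.le) _ a1
  have b2 := hh _ (sidePt_mem hx hy P n (t := 0) le_rfl zero_le_one) _ a2
  have b3 : Tendsto (fun j => ((t * w j : ℝ) : ℂ) * P.ph n) F (𝓝 (((t * r : ℝ) : ℂ) * P.ph n)) :=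
    ((Complex.continuous_ofReal.tendsto _).comp (hr.const_mul t)).mul_const _
  have b4 := ((b1.sub b2).sub b3).norm
  have b5 : Tendsto (fun j => ε / (2 * (1 + |r|)) * t * (1 + w j)) F
      (𝓝 (ε / (2 * (1 + |r|)) * t * (1 + r))) := (hr.const_add 1).const_mul _
  have b6 := le_of_tendsto_of_tendsto b4 b5 (by
    filter_upwards [hF (h0 t htpos htd.1.le)] with j hj
    simp only [spt_zero]
    exact hj)
  have htc : (t : ℂ) ≠ 0 := by exact_mod_cast htpos.ne'
  rw [dist_eq_norm]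
  have e : (h (P.sidePt x y n t) - h (P.sidePt x y n 0)) / (t : ℂ) - (r : ℂ) * P.ph n =
    (h (P.sidePt x y n t) - h (P.sidePt x y n 0) - ((t * r : ℝ) : ℂ) * P.ph n) / (t : ℂ) := by
    push_cast
    field_simp
  rw [e, norm_div, Complex.norm_real, Real.norm_of_nonneg htpos.le, div_lt_iff₀ htpos]
  refine b6.trans_lt ?_
  have h1 : ε / (2 * (1 + |r|)) * t * (1 + r) ≤ ε / (2 * (1 + |r|)) * t * (1 + |r|) :=
    mul_le_mul_of_nonneg_left (by linarith [le_abs_self r]) (by positivity)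
  have h2 : ε / (2 * (1 + |r|)) * t * (1 + |r|) = ε / 2 * t := by
    have : (1 + |r|) ≠ 0 := by positivity
    field_simp
  rw [h2] at h1
  have h3 : ε / 2 * t < ε * t := by nlinarith
  linarith

/-- A limit function which is not constant along a side has a nonzero derivative. -/
lemma LimitData.exists_deriv {h : ℂ → ℂ} (hx : StrictMono x) (hy : StrictMono y)
    (L : LimitData P x y h) {n : ℕ} {t : ℝ} (ht0 : 0 ≤ t) (ht1 : t ≤ 1)
    (hne : h (P.sidePt x y n t) ≠ h (P.sidePt x y n 0)) : ∃ z ∈ Om P.Q x y, deriv h z ≠ 0 := by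
  by_contra hcon
  push Not at hcon
  apply hne
  have hc := (P.isSide n).1
  set c := (P.side n).1 with hcdef
  have h1 : x c.1 < x (c.1 + 1) := hx (by omega)
  have h2 : y c.2 < y (c.2 + 1) := hy (by omega)
  -- the open rectangle
  set O : Set ℂ := (Ioo (x c.1) (x (c.1 + 1))) ×ℂ (Ioo (y c.2) (y (c.2 + 1))) with hO
  have hOsub : O ⊆ Om P.Q x y := by
    intro z hz
    rw [hO, Complex.mem_reProdIm] at hz
    rw [mem_Om hx hy]
    refine ⟨⟨c, hc, ⟨hz.1.1.le, hz.1.2.le⟩, hz.2.1.le, hz.2.2.le⟩, ?_⟩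
    intro d hd
    have e1 := line_uniq hx hz.1.1 hz.1.2 hd.1.1 hd.1.2
    have e2 := line_uniq hy hz.2.1 hz.2.2 hd.2.1 hd.2.2
    have : d = c := Prod.ext e1 e2
    rwa [this]
  have hOopen : IsOpen O := isOpen_Ioo.reProdIm isOpen_Ioo
  have hOconv : Convex ℝ O := ((convex_Ioo (x c.1) (x (c.1 + 1))).linear_preimage
    Complex.reLm).inter ((convex_Ioo (y c.2) (y (c.2 + 1))).linear_preimage Complex.imLm)
  have hclos : closure O = rect x y c := by
    rw [hO, Complex.closure_reProdIm, closure_Ioo h1.ne, closure_Ioo h2.ne]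
    ext z
    simp only [Complex.mem_reProdIm, mem_rect, mem_Icc]
  have hone : (O).Nonempty := by
    refine ⟨⟨(x c.1 + x (c.1 + 1)) / 2, (y c.2 + y (c.2 + 1)) / 2⟩, ?_⟩
    rw [hO, Complex.mem_reProdIm]
    refine ⟨⟨?_, ?_⟩, ?_, ?_⟩ <;> simp only <;> linarith
  obtain ⟨z0, hz0⟩ := hone
  have hconst : ∀ z ∈ O, h z = h z0 := by
    intro z hz
    refine hOconv.is_const_of_fderivWithin_eq_zero (𝕜 := ℂ) (L.holo.mono hOsub) ?_ hz hz0
    intro u hu
    rw [fderivWithin_of_isOpen hOopen hu]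
    have := hcon u (hOsub hu)
    ext
    simp [this]
  have hconst' : ∀ z ∈ rect x y c, h z = h z0 := by
    intro z hz
    have hcl : ContinuousOn h (closure O) := by
      rw [hclos]
      exact L.cont.mono (fun w hw => ⟨c, hc, hw⟩)
    have hsub : closure O ⊆ {w | w ∈ closure O → h w = h z0} := by
      intro w hw _
      have hw' : w ∈ closure O := hw
      have h3 : Tendsto h (𝓝[O] w) (𝓝 (h w)) := (hcl w hw').mono_left (nhdsWithin_mono _ subset_closure)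
      have : (𝓝[O] w).NeBot := mem_closure_iff_nhdsWithin_neBot.1 hw'
      refine tendsto_nhds_unique h3 ?_
      refine (tendsto_const_nhds (x := h z0)).congr' ?_
      filter_upwards [self_mem_nhdsWithin] with u hu
      exact (hconst u hu).symm
    have hz' : z ∈ closure O := by rw [hclos]; exact hz
    exact hsub hz' hz'
  rw [hconst' _ (sidePt_mem_rect hx hy P n ht0 ht1),
    hconst' _ (sidePt_mem_rect hx hy P n (t := 0) le_rfl zero_le_one)]

/-- Uniqueness of the limit functions up to a real factor. -/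
def UniqLim (P : PType) (x y : ℤ → ℝ) : Prop :=
  ∀ h1 h2, LimitData P x y h1 → LimitData P x y h2 → (∃ z ∈ Om P.Q x y, deriv h1 z ≠ 0) →
    ∃ lam : ℝ, ∀ z ∈ Reg P.Q x y,
      h2 z - h2 (pt x y (P.vert 0)) = lam * (h1 z - h1 (pt x y (P.vert 0)))

/-- The limits of the weights of two sequences along two ultrafilters agree. -/
lemma compare (hx : StrictMono x) (hy : StrictMono y) (hu : UniqLim P x y)
    {R2 : ℕ → ℝ} {X2 Y2 : ℕ → ℤ → ℤ} {H2 : ℕ → ℤ × ℤ → ℂ}
    (D : DiscData P x y R X Y H) (D2 : DiscData P x y R2 X2 Y2 H2) {n n' : ℕ}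
    {w w' w2 w2' : ℕ → ℝ} (hp : PointData P X Y H n w) (hp' : PointData P X Y H n' w')
    (hp2 : PointData P X2 Y2 H2 n w2) (hp2' : PointData P X2 Y2 H2 n' w2')
    (U U2 : Ultrafilter ℕ) (hU : (U : Filter ℕ) ≤ atTop) (hU2 : (U2 : Filter ℕ) ≤ atTop)
    {r r2 L : ℝ} (hL : L ≠ 0) (hr : Tendsto w U (𝓝 r)) (hr2 : Tendsto w2 U2 (𝓝 r2))
    (hr' : Tendsto w' U (𝓝 L)) (hr2' : Tendsto w2' U2 (𝓝 L)) : r = r2 := by
  obtain ⟨h, hlim, hh⟩ := D.limit hx hy U hU
  obtain ⟨h2, hlim2, hh2⟩ := D2.limit hx hy U2 hU2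
  have a := hp.lim D hx hy hU hh hr
  have a' := hp'.lim D hx hy hU hh hr'
  have a2 := hp2.lim D2 hx hy hU2 hh2 hr2
  have a2' := hp2'.lim D2 hx hy hU2 hh2 hr2'
  have hph : ∀ k, P.ph k ≠ 0 := fun k hk => by
    have := P.norm_ph k; rw [hk, norm_zero] at this; exact zero_ne_one this
  have hLc : (L : ℂ) ≠ 0 := by exact_mod_cast hL
  -- h is not constant on the side n'
  have hnc : ∃ z ∈ Om P.Q x y, deriv h z ≠ 0 := by
    have h1 : ∀ᶠ t : ℝ in 𝓝[>] 0, (h (P.sidePt x y n' t) - h (P.sidePt x y n' 0)) / (t : ℂ) ≠ 0 :=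
      a'.eventually_ne (mul_ne_zero hLc (hph n'))
    have h2 : ∀ᶠ t : ℝ in 𝓝[>] 0, t < 1 :=
      (eventually_lt_nhds one_pos).filter_mono nhdsWithin_le_nhds
    obtain ⟨t, ht1, ht2, ht3⟩ := (h1.and (h2.and
      (self_mem_nhdsWithin : Ioi (0 : ℝ) ∈ 𝓝[>] (0 : ℝ)))).exists
    have ht3 : 0 < t := ht3
    apply hlim.exists_deriv hx hy (n := n') ht3.le ht2.le
    intro he
    rw [he, sub_self, zero_div] at ht1
    exact ht1 rfl
  obtain ⟨lam, hlam⟩ := hu h h2 hlim hlim2 hnc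
  have hinc : ∀ k, ∀ t : ℝ, 0 ≤ t → t ≤ 1 →
      h2 (P.sidePt x y k t) - h2 (P.sidePt x y k 0) =
        lam * (h (P.sidePt x y k t) - h (P.sidePt x y k 0)) := by
    intro k t ht0 ht1
    have e1 := hlam _ (sidePt_mem hx hy P k ht0 ht1)
    have e2 := hlam _ (sidePt_mem hx hy P k (t := 0) le_rfl zero_le_one)
    linear_combination e1 - e2
  have hev : ∀ᶠ t : ℝ in 𝓝[>] 0, 0 ≤ t ∧ t ≤ 1 := by
    have h2 : ∀ᶠ t : ℝ in 𝓝[>] 0, t < 1 :=
      (eventually_lt_nhds one_pos).filter_mono nhdsWithin_le_nhds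
    filter_upwards [h2, self_mem_nhdsWithin] with t h1 h2
    exact ⟨le_of_lt h2, h1.le⟩
  have hcmp : ∀ k (s s2 : ℂ),
      Tendsto (fun t : ℝ => (h (P.sidePt x y k t) - h (P.sidePt x y k 0)) / (t : ℂ)) (𝓝[>] 0)
        (𝓝 (s * P.ph k)) →
      Tendsto (fun t : ℝ => (h2 (P.sidePt x y k t) - h2 (P.sidePt x y k 0)) / (t : ℂ)) (𝓝[>] 0)
        (𝓝 (s2 * P.ph k)) → s2 = lam * s := by
    intro k s s2 h1 h3
    have h4 := h1.const_mul (lam : ℂ)
    have h5 : Tendsto (fun t : ℝ => (h2 (P.sidePt x y k t) - h2 (P.sidePt x y k 0)) / (t : ℂ))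
        (𝓝[>] 0) (𝓝 ((lam : ℂ) * (s * P.ph k))) := by
      refine h4.congr' ?_
      filter_upwards [hev] with t ht
      rw [hinc k t ht.1 ht.2]
      ring
    have h6 := tendsto_nhds_unique h3 h5
    apply mul_right_cancel₀ (hph k)
    rw [h6]; ring
  have e1 := hcmp n' _ _ a' a2'
  have hlam1 : (lam : ℂ) = 1 := by
    apply mul_right_cancel₀ hLc
    rw [← e1, one_mul]
  have e2 := hcmp n _ _ a a2
  rw [hlam1, one_mul] at e2
  exact_mod_cast e2.symm

/-- Data of one approximating sequence with a one-point function `g`. -/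
structure SeqData (P : PType) (x y : ℤ → ℝ) (g : (ℤ → ℤ) → (ℤ → ℤ) → ℤ × ℤ → ℝ) (S : Set ℕ)
    (R : ℕ → ℝ) (X Y : ℕ → ℤ → ℤ) : Prop where
  pos : ∀ n ∈ S, ∀ᶠ j in atTop, 0 < g (X j) (Y j) (lpt (X j) (Y j) (P.vert n))
  data : ∀ n' ∈ S, ∃ H, DiscData P x y R X Y H ∧ ∀ n ∈ S, PointData P X Y H n
    (fun j => (P.slen (X j) (Y j) n : ℝ) / R j * (g (X j) (Y j) (lpt (X j) (Y j) (P.vert n)) /
      g (X j) (Y j) (lpt (X j) (Y j) (P.vert n'))))

/-- Length of a side in the plane. -/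
noncomputable def PType.len (P : PType) (x y : ℤ → ℝ) (n : ℕ) : ℝ :=
  ‖pt x y (P.vert (n + 1)) - pt x y (P.vert n)‖

lemma slen_tendsto (hx : StrictMono x) (hy : StrictMono y) (hA : Approx x y R X Y) (n : ℕ) :
    Tendsto (fun j => (P.slen (X j) (Y j) n : ℝ) / R j) atTop (𝓝 (P.len x y n)) := by
  have h1 := ((lpt_tendsto hA (P.vert (n + 1))).sub (lpt_tendsto hA (P.vert n))).norm
  refine h1.congr' ?_
  filter_upwards [side_vec (P := P) hx hy hA n, hA.R_top.eventually_gt_atTop 0] with j h2 h3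
  rw [← sub_div, h2, norm_div, Complex.norm_real, Real.norm_of_nonneg h3.le, norm_mul]
  have h4 : ‖lat (dir (P.side n).2)‖ = 1 := by
    rcases dir_cases (P.side n).2 with ⟨hk, e⟩ | ⟨hk, e⟩ | ⟨hk, e⟩ | ⟨hk, e⟩ <;> rw [e]
    · have : lat (1, 0) = 1 := by apply Complex.ext <;> simp [lat]
      rw [this]; simp
    · have : lat (0, 1) = Complex.I := by apply Complex.ext <;> simp [lat]
      rw [this]; simp
    · have : lat (-1, 0) = -1 := by apply Complex.ext <;> simp [lat]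
      rw [this]; simp
    · have : lat (0, -1) = -Complex.I := by apply Complex.ext <;> simp [lat]
      rw [this]; simp
  rw [h4, mul_one]
  have h5 : ‖((P.slen (X j) (Y j) n : ℤ) : ℂ)‖ = (P.slen (X j) (Y j) n : ℝ) := by
    rw [Complex.norm_intCast]
    rw [abs_of_nonneg]
    exact_mod_cast slen_nonneg P (X j) (Y j) n
  rw [h5]

lemma len_pos (hx : StrictMono x) (hy : StrictMono y) (P : PType) (n : ℕ) : 0 < P.len x y n := by
  unfold PType.len
  rw [norm_pos_iff, sub_ne_zero, P.vert_succ]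
  intro h
  have h1 := congrArg Complex.re h
  have h2 := congrArg Complex.im h
  simp only [pt] at h1 h2
  have h3 := hx.injective h1
  have h4 := hy.injective h2
  rcases dir_cases (P.side n).2 with ⟨hk, e⟩ | ⟨hk, e⟩ | ⟨hk, e⟩ | ⟨hk, e⟩ <;> rw [e] at h3 h4 <;>
    simp at h3 h4

/-- **Ratio theorem, abstract form**: the ratios of the one-point function converge, and the limit
depends only on `P, x, y`. `K` is the class of approximating sequences. -/
theorem ratio_lim (hx : StrictMono x) (hy : StrictMono y) (hu : UniqLim P x y)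
    (g : (ℤ → ℤ) → (ℤ → ℤ) → ℤ × ℤ → ℝ) (S : Set ℕ)
    (K : (ℕ → ℝ) → (ℕ → ℤ → ℤ) → (ℕ → ℤ → ℤ) → Prop) (hK : ∀ R X Y, K R X Y → Approx x y R X Y)
    (hD : ∀ R X Y, K R X Y → SeqData P x y g S R X Y) {n n' : ℕ} (hn : n ∈ S)
    (hn' : n' ∈ S) : ∃ q > 0, ∀ R X Y, K R X Y →
      Tendsto (fun j => g (X j) (Y j) (lpt (X j) (Y j) (P.vert n)) /
        g (X j) (Y j) (lpt (X j) (Y j) (P.vert n'))) atTop (𝓝 q) := by
  -- weights
  have main : ∀ n n', n ∈ S → n' ∈ S → ∃ q, 0 ≤ q ∧ ∀ R X Y, K R X Y →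
      Tendsto (fun j => g (X j) (Y j) (lpt (X j) (Y j) (P.vert n)) /
        g (X j) (Y j) (lpt (X j) (Y j) (P.vert n'))) atTop (𝓝 q) := by
    intro n n' hn hn'
    by_cases hex : ∃ R X Y, K R X Y
    swap
    · exact ⟨0, le_rfl, fun R X Y h => absurd ⟨R, X, Y, h⟩ hex⟩
    obtain ⟨R0, X0, Y0, hA0⟩ := hex
    -- the weight sequence
    have hself : ∀ R X Y, K R X Y → Tendsto (fun j => (P.slen (X j) (Y j) n' : ℝ) / R j *
        (g (X j) (Y j) (lpt (X j) (Y j) (P.vert n')) /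
        g (X j) (Y j) (lpt (X j) (Y j) (P.vert n')))) atTop (𝓝 (P.len x y n')) := by
      intro R X Y hA
      refine (slen_tendsto (P := P) hx hy (hK _ _ _ hA) n').congr' ?_
      filter_upwards [(hD R X Y hA).pos n' hn'] with j hj
      rw [div_self hj.ne', mul_one]
    have hnn : ∀ R X Y, K R X Y → ∀ᶠ j in atTop, 0 ≤ (P.slen (X j) (Y j) n : ℝ) / R j *
        (g (X j) (Y j) (lpt (X j) (Y j) (P.vert n)) /
        g (X j) (Y j) (lpt (X j) (Y j) (P.vert n'))) := by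
      intro R X Y hA
      filter_upwards [(hD R X Y hA).pos n hn, (hD R X Y hA).pos n' hn',
        (hK _ _ _ hA).R_top.eventually_gt_atTop 0] with j h1 h2 h3
      have h4 : (0 : ℝ) ≤ (P.slen (X j) (Y j) n : ℝ) := by exact_mod_cast slen_nonneg P _ _ n
      positivity
    have hulim : ∀ R X Y, K R X Y → ∀ U : Ultrafilter ℕ, (U : Filter ℕ) ≤ atTop →
        ∃ r, 0 ≤ r ∧ Tendsto (fun j => (P.slen (X j) (Y j) n : ℝ) / R j *
        (g (X j) (Y j) (lpt (X j) (Y j) (P.vert n)) /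
        g (X j) (Y j) (lpt (X j) (Y j) (P.vert n')))) U (𝓝 r) := by
      intro R X Y hA U hU
      obtain ⟨H, hH, hpt⟩ := (hD R X Y hA).data n' hn'
      obtain ⟨B, hB⟩ := (hpt n hn).bound hH hx hy (hnn R X Y hA)
      set w := (fun j => (P.slen (X j) (Y j) n : ℝ) / R j *
        (g (X j) (Y j) (lpt (X j) (Y j) (P.vert n)) /
        g (X j) (Y j) (lpt (X j) (Y j) (P.vert n')))) with hw
      have h1 : Icc 0 B ∈ U.map w := by
        rw [Ultrafilter.mem_map]
        filter_upwards [hU (hnn R X Y hA), hU hB] with j h2 h3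
        refine ⟨h2, ?_⟩
        rw [Real.norm_of_nonneg h2] at h3
        exact h3
      obtain ⟨r, hr, hr'⟩ := isCompact_Icc.ultrafilter_le_nhds' (U.map w) h1
      exact ⟨r, hr.1, hr'⟩
    -- a fixed ultrafilter
    obtain ⟨U0, hU0⟩ : ∃ U : Ultrafilter ℕ, (U : Filter ℕ) ≤ atTop := Ultrafilter.exists_le _
    obtain ⟨r0, hr00, hr0⟩ := hulim R0 X0 Y0 hA0 U0 hU0
    have hall : ∀ R X Y, K R X Y → Tendsto (fun j => (P.slen (X j) (Y j) n : ℝ) / R j *
        (g (X j) (Y j) (lpt (X j) (Y j) (P.vert n)) /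
        g (X j) (Y j) (lpt (X j) (Y j) (P.vert n')))) atTop (𝓝 r0) := by
      intro R X Y hA
      rw [tendsto_iff_ultrafilter]
      intro U hU
      obtain ⟨r, hr, hlim⟩ := hulim R X Y hA U hU
      obtain ⟨H, hH, hpt⟩ := (hD R X Y hA).data n' hn'
      obtain ⟨H0, hH0, hpt0⟩ := (hD R0 X0 Y0 hA0).data n' hn'
      have := compare hx hy hu hH hH0 (hpt n hn) (hpt n' hn') (hpt0 n hn) (hpt0 n' hn') U U0 hU hU0
        (len_pos hx hy P n').ne' hlim hr0 ((hself R X Y hA).mono_left hU)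
        ((hself R0 X0 Y0 hA0).mono_left hU0)
      rw [← this]
      exact hlim
    refine ⟨r0 / P.len x y n, div_nonneg hr00 (len_pos hx hy P n).le, ?_⟩
    intro R X Y hA
    have hl := slen_tendsto (P := P) hx hy (hK _ _ _ hA) n
    have h1 := (hall R X Y hA).div hl (len_pos hx hy P n).ne'
    refine h1.congr' ?_
    filter_upwards [hl.eventually_ne (len_pos hx hy P n).ne'] with j hj
    simp only [Pi.div_apply]
    rw [mul_comm, mul_div_assoc, div_self hj, mul_one]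
  obtain ⟨q, hq, h⟩ := main n n' hn hn'
  obtain ⟨q', hq', h'⟩ := main n' n hn' hn
  by_cases hex : ∃ R X Y, K R X Y
  swap
  · exact ⟨1, one_pos, fun R X Y h => absurd ⟨R, X, Y, h⟩ hex⟩
  obtain ⟨R0, X0, Y0, hA0⟩ := hex
  refine ⟨q, ?_, h⟩
  have h1 := (h R0 X0 Y0 hA0).mul (h' R0 X0 Y0 hA0)
  have h2 : Tendsto (fun _ : ℕ => (1 : ℝ)) atTop (𝓝 (q * q')) := by
    refine h1.congr' ?_
    filter_upwards [(hD R0 X0 Y0 hA0).pos n hn, (hD R0 X0 Y0 hA0).pos n' hn'] with j a b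
    field_simp
  have h3 := tendsto_nhds_unique h2 tendsto_const_nhds
  rcases hq.eq_or_lt with e | e
  · rw [← e, zero_mul] at h3; exact absurd h3 zero_ne_one
  · exact e

end Pool.Agent.Q1.M4
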