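import Mathlib
import Pool.Agent.Q1.M4.Ratio

set_option autoImplicit false
open Set Filter Topology

/-! Module M4, [P]: the fields `side` of `DiscData` and `PointData` from the increments of the
primitive along the sides (`SideInc`) and the regularity of the one-point function (`RatioReg`). -/

namespace Pool.Agent.Q1.M4

open Pool.Agent.H75.Perc (dir dir_cases)

/-- The lattice point number `i` of a side. -/
def PType.lp (P : PType) (X Y : ℤ → ℤ) (n : ℕ) (i : ℕ) : ℤ × ℤ :=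
  lpt X Y (P.vert n) + (i : ℤ) • dir (P.side n).2

lemma PType.lp_zero (P : PType) (X Y : ℤ → ℤ) (n : ℕ) : P.lp X Y n 0 = lpt X Y (P.vert n) := by
  unfold PType.lp; simp

/-- Increments of the primitive `Hv` along the sides: `h` is the one-point function, `u` the global
phase, `C0` the error at the ends. -/
structure SideInc (P : PType) (X Y : ℤ → ℤ) (h : ℤ × ℤ → ℝ) (Hv : ℤ × ℤ → ℂ) (u : ℂ) (C0 : ℝ) :
    Prop where
  gen : ∀ n < P.N, ∀ l l' : ℕ, l ≤ l' → ∀ v v', P.onSide X Y n l v → P.onSide X Y n l' v' →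
    ∃ S : ℝ, 0 ≤ S ∧ ‖Hv v' - Hv v - S * (u * P.ph n)‖ ≤ C0
  free : ∀ n, 0 < n → n < P.m → ∀ l : ℕ, (l : ℤ) < P.slen X Y n →
    ‖Hv (P.lp X Y n l) - Hv (P.lp X Y n 0) -
      ((∑ i ∈ Finset.range l, h (P.lp X Y n (i + 1)) : ℝ) : ℂ) * (u * P.ph n)‖ ≤ C0

/-- The one-point function is regular at the beginning of the side `n`. -/
def RatioReg (P : PType) (R : ℕ → ℝ) (X Y : ℕ → ℤ → ℤ) (h : ℕ → ℤ × ℤ → ℝ) (n : ℕ) : Prop :=
  ∃ C c r0 : ℝ, 0 < C ∧ 0 < c ∧ 0 < r0 ∧ ∀ ρ : ℝ, 0 < ρ → ρ ≤ r0 → ∀ᶠ j in atTop, ∀ i : ℕ,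
    (i : ℝ) ≤ ρ * R j → |h j (P.lp (X j) (Y j) n i) - h j (P.lp (X j) (Y j) n 0)| ≤
      C * ρ ^ c * h j (P.lp (X j) (Y j) n 0)

/-- The normalised primitive. -/
noncomputable def nrm (u : ℂ) (a : ℝ) (Hv : ℤ × ℤ → ℂ) (b v : ℤ × ℤ) : ℂ :=
  (starRingEnd ℂ) u / (a : ℂ) * (Hv v - Hv b)

lemma nrm_base (u : ℂ) (a : ℝ) (Hv : ℤ × ℤ → ℂ) (b : ℤ × ℤ) : nrm u a Hv b b = 0 := by
  unfold nrm; simp

lemma nrm_sub (u : ℂ) (a : ℝ) (Hv : ℤ × ℤ → ℂ) (b v v' : ℤ × ℤ) :
    nrm u a Hv b v' - nrm u a Hv b v = (starRingEnd ℂ) u / (a : ℂ) * (Hv v' - Hv v) := by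
  unfold nrm; ring

lemma conj_mul_self {u : ℂ} (hu : ‖u‖ = 1) : (starRingEnd ℂ) u * u = 1 := by
  rw [mul_comm, Complex.mul_conj, Complex.normSq_eq_norm_sq, hu]; norm_num

/-- Normalised increments. -/
lemma nrm_inc {u : ℂ} (hu : ‖u‖ = 1) {a : ℝ} (ha : 0 < a) {Hv : ℤ × ℤ → ℂ} {b v v' : ℤ × ℤ}
    {S C0 : ℝ} {p : ℂ} (h : ‖Hv v' - Hv v - S * (u * p)‖ ≤ C0) :
    ‖nrm u a Hv b v' - nrm u a Hv b v - ((S / a : ℝ) : ℂ) * p‖ ≤ C0 / a := by
  have ha' : (a : ℂ) ≠ 0 := by exact_mod_cast ha.ne'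
  have e : nrm u a Hv b v' - nrm u a Hv b v - ((S / a : ℝ) : ℂ) * p =
      (starRingEnd ℂ) u / (a : ℂ) * (Hv v' - Hv v - S * (u * p)) := by
    rw [nrm_sub]
    have h1 := conj_mul_self hu
    push_cast
    field_simp
    linear_combination (S * p) * h1
  rw [e, norm_mul, norm_div, RCLike.norm_conj, hu, Complex.norm_real, Real.norm_of_nonneg ha.le,
    div_mul_eq_mul_div, one_mul]
  exact div_le_div_of_nonneg_right h ha.le

variable {P : PType} {x y : ℤ → ℝ} {R : ℕ → ℝ} {X Y : ℕ → ℤ → ℤ}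

/-- The field `side` of `DiscData`. -/
theorem disc_side {u : ℂ} (hu : ‖u‖ = 1) {C0 : ℝ} {a : ℕ → ℝ} (ha : Tendsto a atTop atTop)
    {h : ℕ → ℤ × ℤ → ℝ} {Hv : ℕ → ℤ × ℤ → ℂ} {b : ℕ → ℤ × ℤ}
    (hinc : ∀ᶠ j in atTop, SideInc P (X j) (Y j) (h j) (Hv j) u C0) :
    ∀ n < P.N, ∀ ε > 0, ∀ᶠ j in atTop, ∀ l l' : ℕ, l ≤ l' → ∀ v v',
    P.onSide (X j) (Y j) n l v → P.onSide (X j) (Y j) n l' v' →
    ∃ s : ℝ, 0 ≤ s ∧ ‖nrm u (a j) (Hv j) (b j) v' - nrm u (a j) (Hv j) (b j) v - s * P.ph n‖ ≤ ε := by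
  intro n hn ε hε
  have h1 : Tendsto (fun j => C0 / a j) atTop (𝓝 0) := ha.const_div_atTop C0
  filter_upwards [hinc, ha.eventually_gt_atTop 0, h1.eventually_le_const hε] with j h2 h3 h4
  intro l l' hl v v' hv hv'
  obtain ⟨S, hS, h5⟩ := h2.gen n hn l l' hl v v' hv hv'
  exact ⟨S / a j, by positivity, (nrm_inc hu h3 h5).trans h4⟩

/-- **`PointData`** from the increments and the regularity of the one-point function. -/
theorem pointData_of (hx : StrictMono x) (hy : StrictMono y) (hA : Approx x y R X Y) {u : ℂ}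
    (hu : ‖u‖ = 1) {C0 : ℝ} {g : ℕ → ℝ} (hg : ∀ᶠ j in atTop, 0 < g j)
    (ha : Tendsto (fun j => R j * g j) atTop atTop)
    {h : ℕ → ℤ × ℤ → ℝ} (hh : ∀ j v, 0 ≤ h j v) {Hv : ℕ → ℤ × ℤ → ℂ} {b : ℕ → ℤ × ℤ}
    (hinc : ∀ᶠ j in atTop, SideInc P (X j) (Y j) (h j) (Hv j) u C0) {n : ℕ} (hn0 : 0 < n)
    (hnm : n < P.m) (hr : RatioReg P R X Y h n) :
    PointData P X Y (fun j => nrm u (R j * g j) (Hv j) (b j)) n
      (fun j => (P.slen (X j) (Y j) n : ℝ) / R j *
        (h j (lpt (X j) (Y j) (P.vert n)) / g j)) := by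
  obtain ⟨C, c, r0, hC, hc, hr0, hr⟩ := hr
  intro ε hε
  have hlen := slen_tendsto (P := P) hx hy hA n
  have hlen0 := len_pos hx hy P n
  set B := P.len x y n + 1 with hB
  have hB0 : 0 < B := by linarith
  -- choice of `t0`
  have hlim : Tendsto (fun t : ℝ => C * (t * B) ^ c) (𝓝[>] 0) (𝓝 0) := by
    have h1 : Tendsto (fun t : ℝ => C * (t * B) ^ c) (𝓝 0) (𝓝 (C * (0 * B) ^ c)) := by
      apply Tendsto.const_mul
      have h2 : ContinuousAt (fun s : ℝ => s ^ c) (0 * B) :=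
        Real.continuousAt_rpow_const _ _ (Or.inr hc.le)
      have h3 : Tendsto (fun t : ℝ => t * B) (𝓝 0) (𝓝 (0 * B)) :=
        (continuous_id.mul continuous_const).tendsto 0
      exact h2.tendsto.comp h3
    rw [zero_mul, Real.zero_rpow hc.ne', mul_zero] at h1
    exact h1.mono_left nhdsWithin_le_nhds
  have hlim2 : Tendsto (fun t : ℝ => t * B) (𝓝[>] 0) (𝓝 0) := by
    have h1 : Tendsto (fun t : ℝ => t * B) (𝓝 0) (𝓝 (0 * B)) :=
      (continuous_id.mul continuous_const).tendsto 0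
    rw [zero_mul] at h1
    exact h1.mono_left nhdsWithin_le_nhds
  have hev := (hlim.eventually_le_const (show (0 : ℝ) < ε / 2 by positivity)).and
    ((hlim2.eventually_le_const hr0).and
      ((eventually_lt_nhds (show (0 : ℝ) < 1 by norm_num)).filter_mono nhdsWithin_le_nhds))
  rw [eventually_nhdsWithin_iff, Metric.eventually_nhds_iff] at hev
  obtain ⟨δ, hδ, hev⟩ := hev
  refine ⟨δ / 2, by positivity, ?_⟩
  intro t ht0 htδ
  obtain ⟨t1, t2, t3⟩ := hev (show dist t 0 < δ by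
    rw [Real.dist_eq, sub_zero, abs_of_pos ht0]; linarith) ht0
  have hinv : Tendsto (fun j => C0 / (R j * g j)) atTop (𝓝 0) := ha.const_div_atTop C0
  have hs : Tendsto (fun j => (P.slen (X j) (Y j) n : ℝ)) atTop atTop := by
    have h1 := hlen.pos_mul_atTop hlen0 hA.R_top
    refine h1.congr' ?_
    filter_upwards [hA.R_top.eventually_gt_atTop 0] with j hj
    field_simp
  filter_upwards [hinc, hg, hA.R_top.eventually_gt_atTop 0, hr (t * B) (by positivity) t2,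
    hlen.eventually_lt_const (show P.len x y n < B by simp [hB]),
    hinv.eventually_le_const (show (0 : ℝ) < ε * t by positivity),
    hs.eventually_ge_atTop (2 / (ε * t)), hs.eventually_gt_atTop 0] with j a1 a2 a3 a4 a5 a6 a7 a8
  set s : ℝ := (P.slen (X j) (Y j) n : ℝ) with hsdef
  set L := ⌊t * s⌋₊ with hL
  set h0 := h j (lpt (X j) (Y j) (P.vert n)) with hh0
  have h00 : 0 ≤ h0 := hh j _
  have hRg : 0 < R j * g j := by positivity
  have hsB : s ≤ B * R j := by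
    rw [div_lt_iff₀ a3] at a5; exact a5.le
  have hLle : (L : ℝ) ≤ t * s := Nat.floor_le (by positivity)
  have hLlt : t * s < L + 1 := Nat.lt_floor_add_one _
  have hLs : (L : ℤ) < P.slen (X j) (Y j) n := by
    have h1 : (L : ℝ) < s := by nlinarith
    rw [hsdef] at h1
    exact_mod_cast h1
  have h1 := a1.free n hn0 hnm L hLs
  have h2 := nrm_inc (b := b j) hu hRg h1
  rw [P.lp_zero] at h2
  have hspt : P.spt (X j) (Y j) n t = P.lp (X j) (Y j) n L := rfl
  rw [hspt]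
  -- the sum
  have hsum : |(∑ i ∈ Finset.range L, h j (P.lp (X j) (Y j) n (i + 1))) - L * h0| ≤
      L * (C * (t * B) ^ c * h0) := by
    have e1 : (∑ i ∈ Finset.range L, h j (P.lp (X j) (Y j) n (i + 1))) - L * h0 =
        ∑ i ∈ Finset.range L, (h j (P.lp (X j) (Y j) n (i + 1)) - h0) := by
      rw [Finset.sum_sub_distrib, Finset.sum_const, Finset.card_range, nsmul_eq_mul]
    rw [e1]
    refine (Finset.abs_sum_le_sum_abs _ _).trans ?_
    have e2 : (L : ℝ) * (C * (t * B) ^ c * h0) =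
        ∑ _i ∈ Finset.range L, (C * (t * B) ^ c * h0) := by
      rw [Finset.sum_const, Finset.card_range, nsmul_eq_mul]
    rw [e2]
    apply Finset.sum_le_sum
    intro i hi
    rw [Finset.mem_range] at hi
    have h3 := a4 (i + 1) (by
      have h4 : ((i + 1 : ℕ) : ℝ) ≤ L := by exact_mod_cast hi
      calc ((i + 1 : ℕ) : ℝ) ≤ L := h4
        _ ≤ t * s := hLle
        _ ≤ t * (B * R j) := mul_le_mul_of_nonneg_left hsB ht0.le
        _ = t * B * R j := by ring)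
    rw [P.lp_zero, ← hh0] at h3
    exact h3
  set Sg := ∑ i ∈ Finset.range L, h j (P.lp (X j) (Y j) n (i + 1)) with hSg
  have e : nrm u (R j * g j) (Hv j) (b j) (P.lp (X j) (Y j) n L) -
      nrm u (R j * g j) (Hv j) (b j) (lpt (X j) (Y j) (P.vert n)) -
      ((t * (s / R j * (h0 / g j)) : ℝ) : ℂ) * P.ph n =
      (nrm u (R j * g j) (Hv j) (b j) (P.lp (X j) (Y j) n L) -
      nrm u (R j * g j) (Hv j) (b j) (lpt (X j) (Y j) (P.vert n)) -
        ((Sg / (R j * g j) : ℝ) : ℂ) * P.ph n) +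
      (((Sg / (R j * g j) - t * (s / R j * (h0 / g j)) : ℝ) : ℂ)) * P.ph n := by
    push_cast
    ring
  rw [e]
  refine (norm_add_le _ _).trans ?_
  rw [norm_mul, P.norm_ph, mul_one, Complex.norm_real, Real.norm_eq_abs]
  have h5 : |Sg / (R j * g j) - t * (s / R j * (h0 / g j))| ≤
      (h0 + t * s * (C * (t * B) ^ c * h0)) / (R j * g j) := by
    have e3 : Sg / (R j * g j) - t * (s / R j * (h0 / g j)) =
        (Sg - t * s * h0) / (R j * g j) := by
      field_simp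
    rw [e3, abs_div, abs_of_pos hRg]
    apply div_le_div_of_nonneg_right _ hRg.le
    have e4 : Sg - t * s * h0 = (Sg - L * h0) + (L - t * s) * h0 := by ring
    rw [e4]
    refine (abs_add_le _ _).trans ?_
    have h6 : |((L : ℝ) - t * s) * h0| ≤ h0 := by
      rw [abs_mul, abs_of_nonneg h00]
      have : |(L : ℝ) - t * s| ≤ 1 := by rw [abs_le]; constructor <;> linarith
      nlinarith
    have h7 : (L : ℝ) * (C * (t * B) ^ c * h0) ≤ t * s * (C * (t * B) ^ c * h0) :=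
      mul_le_mul_of_nonneg_right hLle (by positivity)
    linarith
  have h8 : (h0 + t * s * (C * (t * B) ^ c * h0)) / (R j * g j) ≤
      ε * t * (s / R j * (h0 / g j)) := by
    have e5 : ε * t * (s / R j * (h0 / g j)) = (ε * t * s * h0) / (R j * g j) := by
      field_simp
    rw [e5]
    apply div_le_div_of_nonneg_right _ hRg.le
    have h9 : 2 ≤ ε * t * s := by
      rw [div_le_iff₀ (by positivity)] at a7
      linarith
    have h10 : t * s * (C * (t * B) ^ c * h0) ≤ t * s * (ε / 2 * h0) := by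
      apply mul_le_mul_of_nonneg_left _ (by positivity)
      exact mul_le_mul_of_nonneg_right t1 h00
    nlinarith
  have h11 : ε * t * (1 + s / R j * (h0 / g j)) = ε * t + ε * t * (s / R j * (h0 / g j)) := by
    ring
  rw [h11]
  exact add_le_add (h2.trans a6) (h5.trans h8)

end Pool.Agent.Q1.M4
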