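import Mathlib
import Pool.Agent.Q1.M4.Ratio
import Pool.Agent.Q1.M4.LocPrim
import Pool.Agent.Q1.M4.Chain
import Pool.Agent.Q1.M4.Point
import Pool.Agent.Q1.M4.Geo7
import Pool.Agent.H52.Q1.SideEv

set_option autoImplicit false
open Finset Filter Topology

/-! Module M4, assembly: `StA` (convergence of the ratios of the one-point function) from the properties
of the percolation functions of the lattice domains. -/

namespace Pool.Agent.Q1.M4

open Pool.Agent.H75.Perc Pool.Agent.H75.TwoArm Pool.Agent.H49.Q1 Pool.Agent.H52.Q1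
  Pool.Agent.Q1.M5

/-- The percolation functions of the lattice domain of type `P` with lattice lines `X`, `Y`. -/
structure PH (K : Env → Prop) (P : PType) (X Y : ℤ → ℤ) (E : Env) (Hv Hf : ℤ × ℤ → ℂ) (u : ℂ)
    (C0 : ℝ) : Prop where
  mem : K E
  sub : M5.EL P X Y ⊆ E.E
  prim : ∀ c, fi c ∈ FQ P.Q X Y → Hv (vx c) - Hf (fi c) = E.inc c
  side : SideInc P X Y (M5.hh P X Y) Hv u C0

/-- Regularity of the percolation functions (from `AP` and arm bounds). -/
structure PReg (P : PType) (R : ℕ → ℝ) (X Y : ℕ → ℤ → ℤ) (Hv : ℕ → ℤ × ℤ → ℂ) : Prop where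
  all : ∃ A : ℝ, 0 ≤ A ∧ ∀ᶠ j in atTop, ∀ L p, RegBound P.Q (X j) (Y j) L p A (Hv j)
  corner : ∀ n < P.N, n ≠ 0 → n ≠ P.m → ∃ A c r : ℝ, 0 ≤ A ∧ 0 < c ∧ 0 < r ∧ ∀ ρ > 0, ρ ≤ r →
    ∀ᶠ j in atTop, RegBound P.Q (X j) (Y j) ⌈20 * ρ * R j⌉ (lpt (X j) (Y j) (P.vert n))
      (A * ρ ^ c) (Hv j)

lemma IntBound.mono {a b c d L : ℤ} {p : ℤ × ℤ} {A B : ℝ} {H : ℤ × ℤ → ℂ}
    (h : IntBound a b c d L p A H) (hAB : A ≤ B) : IntBound a b c d L p B H where
  box := fun v r h1 h2 h3 u h4 h5 => (h.box v r h1 h2 h3 u h4 h5).trans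
    (mul_le_mul_of_nonneg_right hAB (by
      have : (0 : ℝ) ≤ (r : ℝ) := by exact_mod_cast (by omega : (0 : ℤ) ≤ r)
      positivity))
  hor := fun v h1 h2 h3 => (h.hor v h1 h2 h3).trans hAB
  ver := fun v h1 h2 h3 => (h.ver v h1 h2 h3).trans hAB

lemma norm_nrm_sub {u : ℂ} (hu : ‖u‖ = 1) {a : ℝ} (ha : 0 < a) (Hv : ℤ × ℤ → ℂ)
    (b v v' : ℤ × ℤ) : ‖nrm u a Hv b v' - nrm u a Hv b v‖ = ‖Hv v' - Hv v‖ / a := by
  rw [nrm_sub, norm_mul, norm_div, RCLike.norm_conj, hu, Complex.norm_real,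
    Real.norm_of_nonneg ha.le, div_mul_eq_mul_div, one_mul]

lemma IntBound.nrm {a b c d L : ℤ} {p : ℤ × ℤ} {A : ℝ} {Hv : ℤ × ℤ → ℂ}
    (h : IntBound a b c d L p A Hv) {u : ℂ} (hu : ‖u‖ = 1) {s : ℝ} (hs : 0 < s) (q : ℤ × ℤ) :
    IntBound a b c d L p (A / s) (nrm u s Hv q) where
  box := fun v r h1 h2 h3 w h4 h5 => by
    rw [norm_nrm_sub hu hs, div_mul_eq_mul_div, div_le_div_iff_of_pos_right hs]
    exact h.box v r h1 h2 h3 w h4 h5
  hor := fun v h1 h2 h3 => by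
    rw [norm_nrm_sub hu hs, div_le_div_iff_of_pos_right hs]
    exact h.hor v h1 h2 h3
  ver := fun v h1 h2 h3 => by
    rw [norm_nrm_sub hu hs, div_le_div_iff_of_pos_right hs]
    exact h.ver v h1 h2 h3

lemma RegBound.nrm {Q : Finset Cell} {X Y : ℤ → ℤ} {L : ℤ} {p : ℤ × ℤ} {A : ℝ}
    {Hv : ℤ × ℤ → ℂ} (h : RegBound Q X Y L p A Hv) {u : ℂ} (hu : ‖u‖ = 1) {s : ℝ} (hs : 0 < s)
    (q : ℤ × ℤ) : RegBound Q X Y L p (A / s) (nrm u s Hv q) :=
  fun c hc => (h c hc).nrm hu hs q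

lemma RegBound.mono {Q : Finset Cell} {X Y : ℤ → ℤ} {L : ℤ} {p : ℤ × ℤ} {A B : ℝ}
    {H : ℤ × ℤ → ℂ} (h : RegBound Q X Y L p A H) (hAB : A ≤ B) : RegBound Q X Y L p B H :=
  fun c hc => (h c hc).mono hAB

variable {P : PType} {x y : ℤ → ℝ} {R : ℕ → ℝ} {X Y : ℕ → ℤ → ℤ}

/-- Lower bound of the normalisation. -/
lemma norm_lower (P : PType) (hx : StrictMono x) (hy : StrictMono y) {n : ℕ} (hn : FlatV P n) :
    ∃ c : ℝ, 0 < c ∧ ∀ (R : ℕ → ℝ) (X Y : ℕ → ℤ → ℤ), App x y R X Y → ∀ᶠ j in atTop,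
      0 < R j ∧ 0 < hh P (X j) (Y j) (lv P (X j) (Y j) n) ∧
      c * R j ^ (2 / 3 : ℝ) ≤ R j * hh P (X j) (Y j) (lv P (X j) (Y j) n) := by
  obtain ⟨c, hc, h⟩ := hh_lower P hx hy hn
  refine ⟨c, hc, fun R X Y hA => ?_⟩
  filter_upwards [h R X Y hA, hA.app.R_top.eventually_gt_atTop 0] with j h1 h2
  refine ⟨h2, lt_of_lt_of_le (by positivity) h1, ?_⟩
  have e : R j ^ (2 / 3 : ℝ) = R j * R j ^ (-(1 / 3) : ℝ) := by
    rw [show (2 / 3 : ℝ) = 1 + -(1 / 3) by norm_num, Real.rpow_add h2, Real.rpow_one]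
  rw [e]
  nlinarith

/-- **All data of one approximating sequence.** -/
theorem seqData_of {K : Env → Prop} (hx : StrictMono x) (hy : StrictMono y)
    (hA : App x y R X Y) {u : ℂ} (hu : ‖u‖ = 1) {C0 : ℝ} {Ev : ℕ → Env}
    {Hv Hf : ℕ → ℤ × ℤ → ℂ}
    (hP : ∀ᶠ j in atTop, PH K P (X j) (Y j) (Ev j) (Hv j) (Hf j) u C0)
    (hR : PReg P R X Y Hv) (hC : CRA P x y R (scl R Hv)) :
    SeqData P x y (hh P) {n | FlatV P n} R X Y := by
  refine ⟨?_, ?_⟩
  · intro n hn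
    obtain ⟨c, hc, h⟩ := norm_lower P hx hy hn
    filter_upwards [h R X Y hA] with j hj
    exact hj.2.1
  · intro n' hn'
    obtain ⟨c, hc, hlow⟩ := norm_lower P hx hy hn'
    have hlow := hlow R X Y hA
    set g : ℕ → ℝ := fun j => hh P (X j) (Y j) (lv P (X j) (Y j) n') with hg
    set H : ℕ → ℤ × ℤ → ℂ := fun j => nrm u (R j * g j) (Hv j) (lpt (X j) (Y j) (P.vert 0)) with hH
    have hgpos : ∀ᶠ j in atTop, 0 < g j := hlow.mono fun j hj => hj.2.1
    have ha : Tendsto (fun j => R j * g j) atTop atTop := by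
      have h1 : Tendsto (fun j => c * R j ^ (2 / 3 : ℝ)) atTop atTop :=
        ((tendsto_rpow_atTop (by norm_num)).comp hA.app.R_top).const_mul_atTop hc
      exact tendsto_atTop_mono' _ (hlow.mono fun j hj => hj.2.2) h1
    have hinc : ∀ᶠ j in atTop, SideInc P (X j) (Y j) (hh P (X j) (Y j)) (Hv j) u C0 :=
      hP.mono fun j hj => hj.side
    -- the factor
    have hfac : ∀ᶠ j in atTop, 0 < R j * g j ∧ 1 / (R j * g j) ≤ (1 / c) * R j ^ (-(2 / 3) : ℝ) := by
      filter_upwards [hlow] with j hj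
      have h1 : 0 < R j * g j := mul_pos hj.1 hj.2.1
      refine ⟨h1, ?_⟩
      have h2 : 0 < R j ^ (2 / 3 : ℝ) := Real.rpow_pos_of_pos hj.1 _
      have h3 := one_div_le_one_div_of_le (by positivity) hj.2.2
      refine h3.trans (le_of_eq ?_)
      rw [Real.rpow_neg hj.1.le]
      field_simp
    refine ⟨H, ⟨hA.app, fun j => nrm_base _ _ _ _, ?_, ?_, ?_, ?_⟩, ?_⟩
    · -- hold
      obtain ⟨A, hA0, hreg⟩ := hR.all
      refine hold_of_regBound hx hy hA.app (A := A / c) (by positivity) ?_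
      filter_upwards [hreg, hfac] with j h1 h2 L p
      refine ((h1 L p).nrm hu h2.1 _).mono ?_
      rw [div_eq_mul_one_div]
      calc A * (1 / (R j * g j)) ≤ A * ((1 / c) * R j ^ (-(2 / 3) : ℝ)) :=
            mul_le_mul_of_nonneg_left h2.2 hA0
        _ = A / c * R j ^ (-(2 / 3) : ℝ) := by ring
    · -- cr
      have hRpos : ∀ᶠ j in atTop, 0 < R j := hA.app.R_top.eventually_gt_atTop 0
      refine hC.mul hA.app.R_top (A := 1 / c) (by positivity)
        (α := fun j => (starRingEnd ℂ) u / ((R j * g j : ℝ) : ℂ) * ((R j ^ (2 / 3 : ℝ) : ℝ) : ℂ))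
        ?_ ?_
      · filter_upwards [hfac, hRpos] with j h2 h3
        rw [norm_mul, norm_div, RCLike.norm_conj, hu, Complex.norm_real,
          Real.norm_of_nonneg h2.1.le, Complex.norm_real, Real.norm_of_nonneg (by positivity)]
        calc 1 / (R j * g j) * R j ^ (2 / 3 : ℝ) ≤
              (1 / c) * R j ^ (-(2 / 3) : ℝ) * R j ^ (2 / 3 : ℝ) :=
            mul_le_mul_of_nonneg_right h2.2 (by positivity)
          _ = 1 / c := by
            rw [mul_assoc, ← Real.rpow_add h3]; norm_num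
      · filter_upwards [hRpos] with j h3 v w
        have e : ((R j ^ (2 / 3 : ℝ) : ℝ) : ℂ) * ((R j ^ (-(2 / 3) : ℝ) : ℝ) : ℂ) = 1 := by
          rw [← Complex.ofReal_mul, ← Real.rpow_add h3]; norm_num
        rw [hH]
        simp only
        rw [nrm_sub]
        unfold scl
        rw [← mul_sub, mul_assoc, ← mul_assoc _ _ (Hv j v - Hv j w), e, one_mul]
    · -- side
      exact disc_side hu ha hinc
    · -- corner
      have hone : ∀ n < P.N, n ≠ 0 → n ≠ P.m → ∃ C c r : ℝ, 0 < C ∧ 0 < c ∧ 0 < r ∧ ∀ ρ > 0,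
          ρ ≤ r → ∀ᶠ j in atTop, ∀ v, inV P.Q (X j) (Y j) v →
          ‖lat v - lat (lpt (X j) (Y j) (P.vert n))‖ ≤ ρ * R j →
          ‖H j v - H j (lpt (X j) (Y j) (P.vert n))‖ ≤ C * ρ ^ (2 / 3 + c : ℝ) := by
        intro n hn hn0 hnm
        obtain ⟨A, c1, r, hA0, hc1, hr, h1⟩ := hR.corner n hn hn0 hnm
        obtain ⟨C, hC, r', hr', h2⟩ := corner_of_regBound hx hy hA.app (H := H) (A := A / c)
          (c := c1) (r := r) (by positivity) hr (q := fun j => lpt (X j) (Y j) (P.vert n)) (by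
            filter_upwards [hA.app.tail_mem hx hy (P.side n)] with j hj
            exact ⟨_, (P.isSide n).1, hj⟩) (by
            intro ρ hρ hρr
            filter_upwards [h1 ρ hρ hρr, hfac] with j h3 h2
            refine (h3.nrm hu h2.1 _).mono ?_
            rw [div_eq_mul_one_div]
            calc A * ρ ^ c1 * (1 / (R j * g j)) ≤ A * ρ ^ c1 * ((1 / c) * R j ^ (-(2 / 3) : ℝ)) :=
                  mul_le_mul_of_nonneg_left h2.2 (by positivity)
              _ = A / c * ρ ^ c1 * R j ^ (-(2 / 3) : ℝ) := by ring)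
        exact ⟨C, c1, r', hC, hc1, hr', h2⟩
      have htot : ∀ n : ℕ, ∃ C c r : ℝ, 0 < C ∧ 0 < c ∧ 0 < r ∧ (n < P.N → n ≠ 0 → n ≠ P.m →
          ∀ ρ > 0, ρ ≤ r → ∀ᶠ j in atTop, ∀ v, inV P.Q (X j) (Y j) v →
          ‖lat v - lat (lpt (X j) (Y j) (P.vert n))‖ ≤ ρ * R j →
          ‖H j v - H j (lpt (X j) (Y j) (P.vert n))‖ ≤ C * ρ ^ (2 / 3 + c : ℝ)) := by
        intro n
        by_cases h : n < P.N ∧ n ≠ 0 ∧ n ≠ P.m
        · obtain ⟨C, c, r, h1, h2, h3, h4⟩ := hone n h.1 h.2.1 h.2.2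
          exact ⟨C, c, r, h1, h2, h3, fun _ _ _ => h4⟩
        · exact ⟨1, 1, 1, one_pos, one_pos, one_pos, fun a b c => absurd ⟨a, b, c⟩ h⟩
      choose CC cc rr hCC hcc hrr hcor using htot
      have hne : (Finset.range (P.N + 1)).Nonempty := ⟨0, by simp⟩
      refine ⟨∑ n ∈ Finset.range (P.N + 1), CC n, Finset.sum_pos (fun n _ => hCC n) hne,
        (Finset.range (P.N + 1)).inf' hne cc, ?_,
        min 1 ((Finset.range (P.N + 1)).inf' hne rr), ?_, ?_⟩
      · rw [gt_iff_lt, Finset.lt_inf'_iff]; exact fun n _ => hcc n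
      · apply lt_min one_pos
        rw [Finset.lt_inf'_iff]; exact fun n _ => hrr n
      · intro n hn hn0 hnm ρ hρ hρr
        rw [le_min_iff] at hρr
        have hmem : n ∈ Finset.range (P.N + 1) := Finset.mem_range.2 (by omega)
        filter_upwards [hcor n hn hn0 hnm ρ hρ (hρr.2.trans (Finset.inf'_le _ hmem))] with j hj
          v hv hvv
        refine (hj v hv hvv).trans ?_
        apply mul_le_mul
        · exact Finset.single_le_sum (fun n _ => (hCC n).le) hmem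
        · apply Real.rpow_le_rpow_of_exponent_ge hρ hρr.1
          have := Finset.inf'_le cc hmem
          linarith
        · positivity
        · exact Finset.sum_nonneg (fun n _ => (hCC n).le)
    · intro n hn
      refine pointData_of hx hy hA.app hu hgpos ha (h := fun j => hh P (X j) (Y j)) ?_ hinc
        hn.1 hn.2.1 ?_
      · intro j v
        exact Pr_nonneg _ _
      · obtain ⟨C, c1, r0, hC, hc1, hr0, h⟩ := hh_ratio P hx hy hn
        refine ⟨C, c1, r0, hC, hc1, hr0, fun ρ hρ hρr => ?_⟩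
        filter_upwards [h R X Y hA ρ hρ hρr] with j hj i hi
        have := hj i (by rw [abs_of_nonneg (by positivity)]; exact_mod_cast hi)
        simp only [PType.lp_zero]
        exact this

/-- `CRA` from `N1`. -/
theorem CRA_of_N1 {K : Env → Prop} (hN1 : N1 K) (hx : StrictMono x) (hy : StrictMono y)
    (hA : App x y R X Y) {u : ℂ} {C0 : ℝ} {Ev : ℕ → Env} {Hv Hf : ℕ → ℤ × ℤ → ℂ}
    (hP : ∀ᶠ j in atTop, PH K P (X j) (Y j) (Ev j) (Hv j) (Hf j) u C0)
    (hR : PReg P R X Y Hv) : CRA P x y R (scl R Hv) := by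
  have hRpos : ∀ᶠ j in atTop, 0 < R j := hA.app.R_top.eventually_gt_atTop 0
  refine CRA_of_cr hx hy hA.app ?_ ?_
  · obtain ⟨A, hA0, hreg⟩ := hR.all
    refine hold_of_regBound hx hy hA.app (A := A) hA0 ?_
    filter_upwards [hreg, hRpos] with j h1 h2 L p
    have h3 := (h1 L p).nrm (u := 1) (by simp) (s := R j ^ (2 / 3 : ℝ)) (by positivity) (0, 0)
    have e : A / R j ^ (2 / 3 : ℝ) = A * R j ^ (-(2 / 3) : ℝ) := by
      rw [Real.rpow_neg h2.le]; rfl
    rw [e] at h3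
    intro c hc
    have h4 := h3 c hc
    have e2 : ∀ v w : ℤ × ℤ, scl R Hv j w - scl R Hv j v =
        nrm 1 (R j ^ (2 / 3 : ℝ)) (Hv j) (0, 0) w - nrm 1 (R j ^ (2 / 3 : ℝ)) (Hv j) (0, 0) v := by
      intro v w
      rw [nrm_sub]
      unfold scl
      rw [map_one, Real.rpow_neg h2.le]
      push_cast
      ring
    exact ⟨fun v r a b c u d e => by rw [e2]; exact h4.box v r a b c u d e,
      fun v a b c => by rw [e2]; exact h4.hor v a b c,
      fun v a b c => by rw [e2]; exact h4.ver v a b c⟩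
  · apply cr_of_N1 hN1 hA.app.R_top
    refine locPrim_of_global (K := K) hx hy hA (A := 1) one_pos (Ev := Ev) (Hv := Hv)
      (Hf := Hf) (α := fun j => ((R j ^ (-(2 / 3) : ℝ) : ℝ) : ℂ)) (κ := fun _ => 0)
      (hP.mono fun j hj => hj.mem) (hP.mono fun j hj => hj.sub) (hP.mono fun j hj => hj.prim) ?_ ?_
    · filter_upwards [hRpos] with j h2
      rw [Complex.norm_real, Real.norm_of_nonneg (by positivity), one_mul]
    · exact Eventually.of_forall fun j v _ => by simp [scl]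

/-- **(A)** from the percolation functions. -/
theorem StA_of {K : Env → Prop} {u : ℂ} (hu : ‖u‖ = 1) {C0 : ℝ}
    (h : ∀ (P : PType) (x y : ℤ → ℝ), StrictMono x → StrictMono y → ∀ R X Y, App x y R X Y →
      ∃ (Ev : ℕ → Env) (Hv Hf : ℕ → ℤ × ℤ → ℂ),
        (∀ᶠ j in atTop, PH K P (X j) (Y j) (Ev j) (Hv j) (Hf j) u C0) ∧ PReg P R X Y Hv ∧
        CRA P x y R (scl R Hv)) :
    StA := by
  intro P x y hx hy n n' hn hn'
  refine ratio_lim hx hy ?_ (hh P) {n | FlatV P n} (App x y) (fun R X Y hA => hA.app) ?_ hn hn'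
  · intro h1 h2 H1 H2 hne
    obtain ⟨lam, hlam⟩ := LimitData.uniq hx hy H1 H2 hne
    refine ⟨lam, fun z hz => hlam z hz _ ?_⟩
    have := sidePt_mem hx hy P 0 le_rfl zero_le_one
    unfold PType.sidePt at this
    simpa using this
  · intro R X Y hA
    obtain ⟨Ev, Hv, Hf, hP, hR, hC⟩ := h P x y hx hy R X Y hA
    exact seqData_of hx hy hA hu hP hR hC

end Pool.Agent.Q1.M4
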