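import Mathlib
import Pool.Agent.Q1.M4.Dob
import Pool.Agent.Q1.M4.Final
import Pool.Agent.H5.Q1.GridEq

set_option autoImplicit false
open Finset

/-! Module M4, [D]: the percolation functions of the lattice domain of a type (`PH` of `Final.lean`). -/

namespace Pool.Agent.Q1.Dob

open Pool.Agent.H75.Perc hiding WL CT hh
open Pool.Agent.H75.TwoArm Pool.Agent.H5.Q1
open Pool.Agent.Q1.M4 (Cell Good IsSide nextSide tail head PType FQ lpt SideInc PH)
open Pool.Agent.Q1.M5 (sL sV WL EL TV CT hh)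

variable {P : PType} {X Y : ℤ → ℤ}

lemma phase_eq (k e : ℤ) : M4.phase k e = ph (k + e) := by
  unfold M4.phase ph
  rw [w6_exp, ← Complex.exp_int_mul]
  congr 1
  push_cast
  ring

lemma ph_side_free {n : ℕ} (hn : n < P.m) : P.ph n = ph (P.side n).2 := by
  unfold PType.ph
  rw [if_pos hn, phase_eq, add_zero]

lemma ph_side_wired {n : ℕ} (hn : P.m ≤ n) : P.ph n = ph ((P.side n).2 + 1) := by
  unfold PType.ph
  rw [if_neg (by omega), phase_eq]

lemma hh_nonneg (v : ℤ × ℤ) : 0 ≤ hh P X Y v := Pr_nonneg _ _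
lemma hh_le_one (v : ℤ × ℤ) : hh P X Y v ≤ 1 := Pr_le_one _ _

lemma hh_diff (v w : ℤ × ℤ) : ‖(hh P X Y v : ℂ) - (hh P X Y w : ℂ)‖ ≤ 1 := by
  rw [← Complex.ofReal_sub, Complex.norm_real, Real.norm_eq_abs, abs_le]
  constructor <;> linarith [hh_nonneg (P := P) (X := X) (Y := Y) v,
    hh_nonneg (P := P) (X := X) (Y := Y) w, hh_le_one (P := P) (X := X) (Y := Y) v,
    hh_le_one (P := P) (X := X) (Y := Y) w]

/-- **Side increments of the primitive.** -/
theorem sideInc (hX : StrictMono X) (hY : StrictMono Y) {Hv Hf : ℤ × ℤ → ℂ}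
    (hH : ∀ c, fi c ∈ LF P.Q X Y → Hv (vx c) - Hf (fi c) = (dob P hX hY).inc c) :
    SideInc P X Y (hh P X Y) Hv (ph (-1)) 2 where
  gen := by
    intro n hn l l' hl v v' hv hv'
    rw [onSide_iff hX hY] at hv hv'
    obtain ⟨g1, rfl⟩ := hv
    obtain ⟨g2, rfl⟩ := hv'
    by_cases h : n < P.m
    · refine ⟨∑ j ∈ Ico l l', hh P X Y (sp X Y (P.side n) j),
        Finset.sum_nonneg fun j _ => hh_nonneg _, ?_⟩
      rw [free_sum hH h hl g2, ph_side_free h, ← ph_add, neg_add_eq_sub]
      push_cast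
      rw [add_sub_right_comm, mul_comm (ph _) (∑ _ ∈ _, _), sub_self, zero_add, norm_mul, ph_norm,
        one_mul]
      exact (hh_diff _ _).trans (by norm_num)
    · push Not at h
      refine ⟨∑ j ∈ Ico l l', Pr (EL P X Y) (On P X Y (oc (sp X Y (P.side n) (j + 1))
        ((P.side n).2 + 3))), Finset.sum_nonneg fun j _ => Pr_nonneg _ _, ?_⟩
      rw [wired_sum hH h hn hl g2, ph_side_wired h, ← ph_add,
        show -1 + ((P.side n).2 + 1) = (P.side n).2 by ring, mul_comm, sub_self, norm_zero]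
      norm_num
  free := by
    intro n _ hn l hl
    have key : ∀ i ≤ l, P.onSide X Y n i (P.lp X Y n i) := by
      intro i hi
      refine ⟨rfl, ?_⟩
      unfold PType.slen at hl
      omega
    have hsp : ∀ i ≤ l, i ≤ slen X Y (P.side n) ∧ P.lp X Y n i = sp X Y (P.side n) i :=
      fun i hi => (onSide_iff hX hY P).1 (key i hi)
    have e0 := (hsp 0 (Nat.zero_le _)).2
    obtain ⟨g2, el⟩ := hsp l le_rfl
    have es : ∑ i ∈ range l, hh P X Y (P.lp X Y n (i + 1)) =
        ∑ j ∈ Ico 0 l, hh P X Y (sp X Y (P.side n) j) +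
          (hh P X Y (sp X Y (P.side n) l) - hh P X Y (sp X Y (P.side n) 0)) := by
      have h1 : ∑ i ∈ range l, hh P X Y (P.lp X Y n (i + 1)) =
          ∑ i ∈ range l, hh P X Y (sp X Y (P.side n) (i + 1)) := by
        apply Finset.sum_congr rfl
        intro i hi
        rw [mem_range] at hi
        rw [(hsp (i + 1) (by omega)).2]
      rw [h1, ← Finset.range_eq_Ico]
      have h2 := Finset.sum_range_succ (fun i => hh P X Y (sp X Y (P.side n) i)) l
      have h3 := Finset.sum_range_succ' (fun i => hh P X Y (sp X Y (P.side n) i)) l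
      linarith
    rw [es, e0, el, free_sum hH hn (Nat.zero_le _) g2, ph_side_free hn, ← ph_add, neg_add_eq_sub]
    push_cast
    have e : ∀ (A B p q : ℂ), p * A + q * B - (A + B) * p = (q - p) * B := by
      intro A B p q; ring
    rw [e, norm_mul]
    have h1 : ‖ph (P.side n).2 - ph ((P.side n).2 - 1)‖ ≤ 2 := by
      refine (norm_sub_le _ _).trans ?_
      rw [ph_norm, ph_norm]; norm_num
    calc _ ≤ 2 * 1 := mul_le_mul h1 (hh_diff _ _) (norm_nonneg _) (by norm_num)
      _ = 2 := by norm_num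

/-- **The percolation functions of the lattice domain of a type.** -/
theorem exists_PH {K : Env → Prop} (P : PType) {X Y : ℤ → ℤ} (hX : StrictMono X)
    (hY : StrictMono Y) (hK : K (dob P hX hY)) :
    ∃ Hv Hf : ℤ × ℤ → ℂ, PH K P X Y (dob P hX hY) Hv Hf (ph (-1)) 2 := by
  obtain ⟨Hv, Hf, hH⟩ := exists_H P hX hY
  refine ⟨Hv, Hf, hK, ?_, ?_, sideInc hX hY hH⟩
  · rw [dob_E]
  · rw [FQ_eq]; exact hH

end Pool.Agent.Q1.Dob
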