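import Mathlib
import Pool.Agent.H69.Q1.Orbit
import Pool.Agent.H65.Dom.Dec

set_option autoImplicit false
open Finset

/-! Module M4: the exploration path of a Dobrushin domain visits the neighbourhood of a boundary
point `p` which is not a mark only if there is an arm: an open one if the wired labels `W` are far
from `p`, a dual one if the free arc is far from `p`. -/

namespace Pool.Agent.Q1.M4

open Pool.Agent.H75.Perc Pool.Agent.H75.TwoArm Pool.Agent.H69.Q1 Pool.Agent.H65.Dom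
open Pool.Agent.H99.NC

/-- `u` has sup distance at least `t` from `p`. -/
def Far (t : ℤ) (u p : ℤ × ℤ) : Prop := t ≤ |u.1 - p.1| ∨ t ≤ |u.2 - p.2|

/-- `u` has sup distance at most `t` from `p`. -/
def Cls (t : ℤ) (u p : ℤ × ℤ) : Prop := |u.1 - p.1| ≤ t ∧ |u.2 - p.2| ≤ t

/-- An open path in `ω ∪ W` from `u` to a far point contains an open path in `ω` from `u` to a far
point, if all edges of `W` have far ends. -/
lemma co_far {ω W : Finset (ℤ × ℤ)} {p : ℤ × ℤ} {t : ℤ}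
    (hW : ∀ u v : ℤ × ℤ, IsUnit4 (v - u) → u + v ∈ W → Far t u p) {u v : ℤ × ℤ}
    (h : Co (ω ∪ W) u v) (hv : Far t v p) : ∃ v', Far t v' p ∧ Co ω u v' := by
  induction h using Relation.ReflTransGen.head_induction_on with
  | refl => exact ⟨v, hv, Co.refl _ _⟩
  | @head a b hab _ ih =>
    obtain ⟨h1, h2⟩ := hab
    rcases mem_union.1 h2 with h3 | h3
    · obtain ⟨v', h4, h5⟩ := ih
      exact ⟨v', h4, Relation.ReflTransGen.head ⟨h1, h3⟩ h5⟩
    · exact ⟨a, hW a b h1 h3, Co.refl _ _⟩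

/-- The dual version: `F` is the set of the faces of the domain. -/
lemma dual_far {B E ω W F : Finset (ℤ × ℤ)} {p : ℤ × ℤ} {t : ℤ}
    (h1 : ∀ f g : ℤ × ℤ, IsUnit4 (g - f) → f ∈ F → g ∈ F → f + g - (1, 1) ∈ E ∪ W)
    (h2 : ∀ f g : ℤ × ℤ, IsUnit4 (g - f) → f ∈ F → g ∉ F → f + g - (1, 1) ∈ W ∨ Far t f p)
    {f g : ℤ × ℤ} (h : Co (du B (ω ∪ W)) f g) (hf : f ∈ F) (hg : g ∉ F) :
    ∃ g', Far t g' p ∧ Co (du E ω) f g' := by
  induction h using Relation.ReflTransGen.head_induction_on with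
  | refl => exact absurd hf hg
  | @head a b hab _ ih =>
    obtain ⟨h3, h4⟩ := hab
    obtain ⟨h5, h6⟩ := mem_du_iff'.1 h4
    rw [mem_union, not_or] at h6
    by_cases hb : b ∈ F
    · obtain ⟨g', h7, h8⟩ := ih hb
      refine ⟨g', h7, Relation.ReflTransGen.head ⟨h3, ?_⟩ h8⟩
      rw [mem_du_iff']
      refine ⟨?_, h6.1⟩
      rcases mem_union.1 (h1 a b h3 hf hb) with h9 | h9
      · exact h9
      · exact absurd h9 h6.2
    · rcases h2 a b h3 hf hb with h9 | h9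
      · exact absurd h9 h6.2
      · exact ⟨a, h9, Co.refl _ _⟩

/-- A loop visiting the neighbourhood of `p` forces an open arm. -/
lemma visit_open {ω W : Finset (ℤ × ℤ)} {p c0 c : ℤ × ℤ} {ρ t : ℤ}
    (hW : ∀ u v : ℤ × ℤ, IsUnit4 (v - u) → u + v ∈ W → Far t u p) (h0 : Far t (vx c0) p)
    (hc : InOrb (nx (ω ∪ W)) c0 c) (hcp : Cls ρ (vx c) p) : Arm p ρ t ω := by
  obtain ⟨i, rfl⟩ := hc
  obtain ⟨v', h1, h2⟩ := co_far hW (co_orb (ω ∪ W) c0 i).symm h0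
  exact ⟨_, v', hcp.1, hcp.2, h1, h2⟩

/-- A loop visiting a face of the domain in the neighbourhood of `p` forces a dual arm. -/
lemma visit_dual {E ω W F : Finset (ℤ × ℤ)} {p c0 c : ℤ × ℤ} {ρ t : ℤ}
    (h1 : ∀ f g : ℤ × ℤ, IsUnit4 (g - f) → f ∈ F → g ∈ F → f + g - (1, 1) ∈ E ∪ W)
    (h2 : ∀ f g : ℤ × ℤ, IsUnit4 (g - f) → f ∈ F → g ∉ F → f + g - (1, 1) ∈ W ∨ Far t f p)
    (h0 : fi c0 ∉ F) (hc : InOrb (nx (ω ∪ W)) c0 c) (hcF : fi c ∈ F) (hcp : Cls ρ (fi c) p) :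
    Arm p ρ t (du E ω) := by
  classical
  obtain ⟨S, hS0, hS⟩ := exists_closed (ω ∪ W) c0
  have hmem : ∀ i, (nx (ω ∪ W))^[i] c0 ∈ S := by
    intro i
    induction i with
    | zero => exact hS0
    | succ i ih => rw [Function.iterate_succ_apply']; exact hS _ ih
  obtain ⟨i, rfl⟩ := hc
  have h3 := dual_orb (w := ω ∪ W) (E := S.image lab) (c := c0)
    (fun i => mem_image_of_mem _ (hmem i)) i
  obtain ⟨g', h4, h5⟩ := dual_far (E := E) h1 h2 h3.symm hcF h0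
  exact ⟨_, g', hcp.1, hcp.2, h4, h5⟩

/-- Decay of the probability that the exploration path comes near a point of the open free arc
(`δ` universal), and near a point of the open wired arc. -/
theorem visit_decay : ∃ δ : ℝ, 0 < δ ∧ δ < 1 ∧ ∀ (E W : Finset (ℤ × ℤ)),
    (∀ e ∈ E, (e.1 + e.2) % 2 = 1) → ∀ (p c0 : ℤ × ℤ) (ρ : ℤ), 1 ≤ ρ → ∀ k : ℕ,
    ((∀ u v : ℤ × ℤ, IsUnit4 (v - u) → u + v ∈ W → Far (4 ^ k * ρ) u p) →
      Far (4 ^ k * ρ) (vx c0) p →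
      Pr E (fun ω => ∃ c, InOrb (nx (ω ∪ W)) c0 c ∧ Cls ρ (vx c) p) ≤ (1 - δ) ^ k) ∧
    (∀ F : Finset (ℤ × ℤ),
      (∀ f g : ℤ × ℤ, IsUnit4 (g - f) → f ∈ F → g ∈ F → f + g - (1, 1) ∈ E ∪ W) →
      (∀ f g : ℤ × ℤ, IsUnit4 (g - f) → f ∈ F → g ∉ F →
        f + g - (1, 1) ∈ W ∨ Far (4 ^ k * ρ) f p) →
      fi c0 ∉ F →
      Pr E (fun ω => ∃ c, InOrb (nx (ω ∪ W)) c0 c ∧ fi c ∈ F ∧ Cls ρ (fi c) p) ≤
        (1 - δ) ^ k) := by
  obtain ⟨δ, hδ⟩ := dec_half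
  obtain ⟨_, h0, h1, _⟩ := hδ 0
  refine ⟨δ, h0, h1, ?_⟩
  intro E W hE p c0 ρ hρ k
  obtain ⟨_, _, _, h⟩ := hδ (4 ^ k * ρ)
  obtain ⟨hd1, hd2⟩ := h E hE p ρ hρ k le_rfl
  rw [PrP_half] at hd1 hd2
  constructor
  · intro hW hc0
    refine (Pr_mono ?_).trans hd1
    rintro ω _ ⟨c, hc, hcp⟩
    exact visit_open hW hc0 hc hcp
  · intro F h2 h3 hc0
    refine (Pr_mono ?_).trans hd2
    rintro ω _ ⟨c, hc, hcF, hcp⟩
    exact visit_dual h2 h3 hc0 hc hcF hcp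

/-- From powers to a power law. -/
lemma pow_decay {δ : ℝ} (h0 : 0 < δ) (h1 : δ < 1) : ∃ c : ℝ, 0 < c ∧ ∃ C : ℝ, 0 < C ∧ ∀ (ρ R : ℝ), 0 < ρ →
    ρ ≤ R → ∃ k : ℕ, (4 : ℝ) ^ k * ρ ≤ R ∧ (1 - δ) ^ k ≤ C * (ρ / R) ^ c := by
  have hq0 : 0 < 1 - δ := by linarith
  have hq1 : 1 - δ < 1 := by linarith
  have hlog : Real.log (1 - δ) < 0 := Real.log_neg hq0 hq1
  have hlog4 : 0 < Real.log 4 := Real.log_pos (by norm_num)
  set c : ℝ := -Real.log (1 - δ) / Real.log 4 with hc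
  have hc0 : 0 < c := div_pos (by linarith) hlog4
  refine ⟨c, hc0, (1 - δ)⁻¹, inv_pos.2 hq0, ?_⟩
  intro ρ R hρ hR
  have hR0 : 0 < R := lt_of_lt_of_le hρ hR
  have hx : 1 ≤ R / ρ := by rwa [one_le_div hρ]
  set k : ℕ := ⌊Real.log (R / ρ) / Real.log 4⌋₊ with hk
  have hl0 : 0 ≤ Real.log (R / ρ) / Real.log 4 := div_nonneg (Real.log_nonneg hx) hlog4.le
  have hk1 : (k : ℝ) ≤ Real.log (R / ρ) / Real.log 4 := Nat.floor_le hl0
  have hk2 : Real.log (R / ρ) / Real.log 4 < k + 1 := Nat.lt_floor_add_one _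
  refine ⟨k, ?_, ?_⟩
  · have : (4 : ℝ) ^ k ≤ R / ρ := by
      rw [le_div_iff₀ hlog4] at hk1
      have h3 : Real.log ((4 : ℝ) ^ k) ≤ Real.log (R / ρ) := by
        rw [Real.log_pow]; exact hk1
      exact (Real.log_le_log_iff (by positivity) (by positivity)).1 h3
    calc (4 : ℝ) ^ k * ρ ≤ R / ρ * ρ := mul_le_mul_of_nonneg_right this hρ.le
      _ = R := by field_simp
  · have h4 : (1 - δ) ^ (k + 1) ≤ (ρ / R) ^ c := by
      have h5 : Real.log ((1 - δ) ^ (k + 1)) ≤ Real.log ((ρ / R) ^ c) := by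
        rw [Real.log_pow, Real.log_rpow (by positivity)]
        have h6 : Real.log (ρ / R) = -Real.log (R / ρ) := by
          rw [← Real.log_inv, inv_div]
        rw [h6, hc]
        push_cast
        have h7 : -Real.log (1 - δ) / Real.log 4 * -Real.log (R / ρ) =
            Real.log (1 - δ) * (Real.log (R / ρ) / Real.log 4) := by ring
        rw [h7]
        nlinarith
      exact (Real.log_le_log_iff (by positivity) (by positivity)).1 h5
    rw [pow_succ] at h4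
    rw [inv_mul_eq_div, le_div_iff₀ hq0]
    exact h4

end Pool.Agent.Q1.M4
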