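import Mathlib
import Pool.Agent.Q1.M4.Final
import Pool.Agent.Q1.M4.Vis
import Pool.Agent.Q1.M4.Arm

set_option autoImplicit false
open Finset Filter Topology

/-! Module M4: the regularity statement `PReg` of `Final.lean` from the a priori bound `AP`. -/

namespace Pool.Agent.Q1.M4

open Pool.Agent.H75.Perc Pool.Agent.H75.TwoArm Pool.Agent.H49.Q1 Pool.Agent.H52.Q1
  Pool.Agent.H99.NC Pool.Agent.Q1.M5

/-- The path of the environment visits a corner of the domain at distance at most `t` from `p`. -/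
def VN (Q : Finset Cell) (X Y : ℤ → ℤ) (E : Env) (t : ℤ) (p : ℤ × ℤ)
    (ω : Finset (ℤ × ℤ)) : Prop :=
  ∃ i < E.len ω, fi (E.z ω i) ∈ FQ Q X Y ∧ Cls t (fi (E.z ω i)) p ∧ Cls t (vx (E.z ω i)) p

variable {K : Env → Prop} {P : PType} {X Y : ℤ → ℤ} {E : Env} {Hv Hf : ℤ × ℤ → ℂ} {L : ℤ}
  {p : ℤ × ℤ} {η C : ℝ}

/-- Increments at the corners near `p`. -/
lemma inc_le (hη : PrP (fun _ => 1 / 2) E.E (VN P.Q X Y E (L + 2) p) ≤ η) {c : ℤ × ℤ}
    (h1 : fi c ∈ FQ P.Q X Y) (h2 : Cls (L + 2) (fi c) p) (h3 : Cls (L + 2) (vx c) p) :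
    ‖E.inc c‖ ≤ η := by
  refine (E.inc_norm c).trans (le_trans ?_ hη)
  refine PrP_mono (Pb.const (by norm_num) (by norm_num)) ?_
  rintro ω _ ⟨i, hi, rfl⟩
  exact ⟨i, hi, h1, h2, h3⟩

/-- The increment of the primitive between two neighbours of a common face. -/
lemma face_diff (hprim : ∀ c, fi c ∈ FQ P.Q X Y → Hv (vx c) - Hf (fi c) = E.inc c)
    (hη : PrP (fun _ => 1 / 2) E.E (VN P.Q X Y E (L + 2) p) ≤ η) {f v w : ℤ × ℤ}
    (hf : f ∈ FQ P.Q X Y) (hfp : Cls (L + 2) f p) (hv1 : v.1 = f.1 ∨ v.1 = f.1 - 1)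
    (hv2 : v.2 = f.2 ∨ v.2 = f.2 - 1) (hw1 : w.1 = f.1 ∨ w.1 = f.1 - 1)
    (hw2 : w.2 = f.2 ∨ w.2 = f.2 - 1) (hvp : Cls (L + 2) v p) (hwp : Cls (L + 2) w p) :
    ‖Hv w - Hv v‖ ≤ 2 * η := by
  have key : ∀ u : ℤ × ℤ, (u.1 = f.1 ∨ u.1 = f.1 - 1) → (u.2 = f.2 ∨ u.2 = f.2 - 1) →
      vx (u + f) = u ∧ fi (u + f) = f := by
    rintro ⟨u1, u2⟩ h1 h2
    obtain ⟨f1, f2⟩ := f
    simp only at h1 h2
    unfold vx fi
    constructor <;> ext <;> simp only [Prod.mk_add_mk] <;> omega
  obtain ⟨a1, a2⟩ := key v hv1 hv2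
  obtain ⟨b1, b2⟩ := key w hw1 hw2
  have k1 := hprim (v + f) (by rw [a2]; exact hf)
  have k2 := hprim (w + f) (by rw [b2]; exact hf)
  rw [a1, a2] at k1
  rw [b1, b2] at k2
  have e : Hv w - Hv v = E.inc (w + f) - E.inc (v + f) := by linear_combination k2 - k1
  rw [e]
  have n1 := inc_le hη (c := v + f) (by rw [a2]; exact hf) (by rw [a2]; exact hfp)
    (by rw [a1]; exact hvp)
  have n2 := inc_le hη (c := w + f) (by rw [b2]; exact hf) (by rw [b2]; exact hfp)
    (by rw [b1]; exact hwp)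
  calc ‖E.inc (w + f) - E.inc (v + f)‖ ≤ ‖E.inc (w + f)‖ + ‖E.inc (v + f)‖ := norm_sub_le _ _
    _ ≤ 2 * η := by linarith

lemma Cls.of_near {t s : ℤ} {u v q : ℤ × ℤ} (h : Near t u v) (hs : Near s v q) {r : ℤ}
    (hr : t + s ≤ r) : Cls r u q := by
  unfold Near at h hs
  unfold Cls
  simp only [abs_le] at *
  omega

/-- **Interior and edge bounds from the visit probability.** -/
theorem regBound_of_visit (hX : StrictMono X) (hY : StrictMono Y) (hC : 0 ≤ C)
    (hAP : ∀ Z, K Z → ∀ (a b : ℤ) (N : ℕ), Bx (a - N) (a + N) (b - N) (b + N) ⊆ Z.E →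
      ∀ Hv Hf, Z.Prim (a - N) (a + N) (b - N) (b + N) Hv Hf → ∀ u v : ℤ × ℤ, Qt a N u.1 →
      Qt b N u.2 → Qt a N v.1 → Qt b N v.2 → ‖Hv u - Hv v‖ ≤ C * (N : ℝ) ^ (2 / 3 : ℝ))
    (hfr : ∀ Z, K Z → ∀ a b c d : ℤ, ∀ ω1 ⊆ Z.E \ Bx a b c d, K (Z.freeze (Bx a b c d) ω1))
    (hmem : K E) (hsub : M5.EL P X Y ⊆ E.E)
    (hprim : ∀ c, fi c ∈ FQ P.Q X Y → Hv (vx c) - Hf (fi c) = E.inc c)
    (hη : PrP (fun _ => 1 / 2) E.E (VN P.Q X Y E (L + 2) p) ≤ η) :
    RegBound P.Q X Y L p ((C + 4) * η) Hv := by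
  have hη0 : 0 ≤ η := (PrP_nonneg (Pb.const (by norm_num) (by norm_num)) _ _).trans hη
  rintro ⟨i, k⟩ hc
  have hXi : X i < X (i + 1) := hX (by omega)
  have hYk : Y k < Y (k + 1) := hY (by omega)
  have hRC : ∀ f : ℤ × ℤ, X i < f.1 → f.1 ≤ X (i + 1) → Y k < f.2 → f.2 ≤ Y (k + 1) →
      f ∈ FQ P.Q X Y := fun f h1 h2 h3 h4 => mem_FQ.2 ⟨(i, k), hc, ⟨h1, h2⟩, h3, h4⟩
  -- edges
  have hhor : ∀ v, Deep (X i) (X (i + 1)) (Y k) (Y (k + 1)) 0 v →
      Deep (X i) (X (i + 1)) (Y k) (Y (k + 1)) 0 (v + (1, 0)) → Near (L + 1) v p →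
      ‖Hv (v + (1, 0)) - Hv v‖ ≤ 2 * η := by
    rintro ⟨a, b⟩ h1 h2 h3
    unfold Deep at h1 h2
    simp only [Prod.mk_add_mk, add_zero] at h1 h2 ⊢
    unfold Near at h3
    simp only [abs_le] at h3
    by_cases hb : b < Y (k + 1)
    · refine face_diff hprim hη (f := (a + 1, b + 1)) (hRC _ ?_ ?_ ?_ ?_) ?_ ?_ ?_ ?_ ?_ ?_ ?_ <;>
      first | omega | (unfold Cls; simp only [abs_le]; omega)
    · refine face_diff hprim hη (f := (a + 1, b)) (hRC _ ?_ ?_ ?_ ?_) ?_ ?_ ?_ ?_ ?_ ?_ ?_ <;>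
      first | omega | (unfold Cls; simp only [abs_le]; omega)
  have hver : ∀ v, Deep (X i) (X (i + 1)) (Y k) (Y (k + 1)) 0 v →
      Deep (X i) (X (i + 1)) (Y k) (Y (k + 1)) 0 (v + (0, 1)) → Near (L + 1) v p →
      ‖Hv (v + (0, 1)) - Hv v‖ ≤ 2 * η := by
    rintro ⟨a, b⟩ h1 h2 h3
    unfold Deep at h1 h2
    simp only [Prod.mk_add_mk, add_zero] at h1 h2 ⊢
    unfold Near at h3
    simp only [abs_le] at h3
    by_cases hb : a < X (i + 1)
    · refine face_diff hprim hη (f := (a + 1, b + 1)) (hRC _ ?_ ?_ ?_ ?_) ?_ ?_ ?_ ?_ ?_ ?_ ?_ <;>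
      first | omega | (unfold Cls; simp only [abs_le]; omega)
    · refine face_diff hprim hη (f := (a, b + 1)) (hRC _ ?_ ?_ ?_ ?_) ?_ ?_ ?_ ?_ ?_ ?_ ?_ <;>
      first | omega | (unfold Cls; simp only [abs_le]; omega)
  refine ⟨?_, ?_, ?_⟩
  · -- box
    intro v r hr hd hn u hu1 hu2
    simp only at hd
    by_cases hr1 : r = 1
    · subst hr1
      have : u = v := by
        ext
        · have := abs_nonneg (u.1 - v.1)
          have h0 : |u.1 - v.1| = 0 := by omega
          have := abs_eq_zero.1 h0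
          omega
        · have := abs_nonneg (u.2 - v.2)
          have h0 : |u.2 - v.2| = 0 := by omega
          have := abs_eq_zero.1 h0
          omega
      rw [this]
      simp only [sub_self, norm_zero]
      positivity
    · obtain ⟨N, hN⟩ := Int.eq_ofNat_of_zero_le (show 0 ≤ r - 1 by omega)
      have hrN : r = (N : ℤ) + 1 := by omega
      have hN1 : 1 ≤ N := by omega
      obtain ⟨v1, v2⟩ := v
      obtain ⟨u1, u2⟩ := u
      unfold Deep at hd
      unfold Near at hn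
      simp only [abs_le] at hd hn
      simp only at hu1 hu2
      have hu1' : -r ≤ 4 * (u1 - v1) ∧ 4 * (u1 - v1) ≤ r := by
        have a1 := neg_abs_le (u1 - v1)
        have a2 := le_abs_self (u1 - v1)
        omega
      have hu2' : -r ≤ 4 * (u2 - v2) ∧ 4 * (u2 - v2) ≤ r := by
        have a1 := neg_abs_le (u2 - v2)
        have a2 := le_abs_self (u2 - v2)
        omega
      -- one unit towards `v`
      obtain ⟨w1, hw1, hw1'⟩ : ∃ w1, (w1 = u1 ∨ w1 = u1 + 1 ∨ u1 = w1 + 1) ∧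
          4 * |w1 - v1| ≤ (N : ℤ) ∧ min u1 v1 ≤ w1 ∧ w1 ≤ max u1 v1 := by
        rcases lt_trichotomy u1 v1 with h | h | h
        · exact ⟨u1 + 1, by omega, by rw [abs_of_nonpos (by omega)]; omega, by omega, by omega⟩
        · exact ⟨u1, by omega, by rw [h]; simp, by omega, by omega⟩
        · exact ⟨u1 - 1, by omega, by rw [abs_of_nonneg (by omega)]; omega, by omega, by omega⟩
      obtain ⟨w2, hw2, hw2'⟩ : ∃ w2, (w2 = u2 ∨ w2 = u2 + 1 ∨ u2 = w2 + 1) ∧
          4 * |w2 - v2| ≤ (N : ℤ) ∧ min u2 v2 ≤ w2 ∧ w2 ≤ max u2 v2 := by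
        rcases lt_trichotomy u2 v2 with h | h | h
        · exact ⟨u2 + 1, by omega, by rw [abs_of_nonpos (by omega)]; omega, by omega, by omega⟩
        · exact ⟨u2, by omega, by rw [h]; simp, by omega, by omega⟩
        · exact ⟨u2 - 1, by omega, by rw [abs_of_nonneg (by omega)]; omega, by omega, by omega⟩
      have s1 : ‖Hv (w1, u2) - Hv (u1, u2)‖ ≤ 2 * η := by
        rcases hw1 with h | h | h
        · rw [h]; simp only [sub_self, norm_zero]; positivity
        · have := hhor (u1, u2) (by unfold Deep; simp only; omega)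
            (by unfold Deep; simp only [Prod.mk_add_mk, add_zero]; omega)
            (by unfold Near; simp only [abs_le]; omega)
          rw [h]
          simpa using this
        · have := hhor (w1, u2) (by unfold Deep; simp only; omega)
            (by unfold Deep; simp only [Prod.mk_add_mk, add_zero]; omega)
            (by unfold Near; simp only [abs_le]; omega)
          rw [h, norm_sub_rev]
          simpa using this
      have s2 : ‖Hv (w1, w2) - Hv (w1, u2)‖ ≤ 2 * η := by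
        rcases hw2 with h | h | h
        · rw [h]; simp only [sub_self, norm_zero]; positivity
        · have := hver (w1, u2) (by unfold Deep; simp only; omega)
            (by unfold Deep; simp only [Prod.mk_add_mk, add_zero]; omega)
            (by unfold Near; simp only [abs_le]; omega)
          rw [h]
          simpa using this
        · have := hver (w1, w2) (by unfold Deep; simp only; omega)
            (by unfold Deep; simp only [Prod.mk_add_mk, add_zero]; omega)
            (by unfold Near; simp only [abs_le]; omega)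
          rw [h, norm_sub_rev]
          simpa using this
      -- the box
      have hface : ∀ e ∈ Bx (v1 - N) (v1 + N) (v2 - N) (v2 + N), ∀ c : ℤ × ℤ,
          ((e.1 ≤ c.1 ∧ c.1 ≤ e.1 + 1) ∧ (e.2 ≤ c.2 ∧ c.2 ≤ e.2 + 1)) →
          fi c ∈ FQ P.Q X Y := by
        intro e he c hc
        rw [mem_Bx] at he
        apply hRC <;> unfold fi <;> simp only <;> omega
      have hBE : Bx (v1 - N) (v1 + N) (v2 - N) (v2 + N) ⊆ E.E := by
        intro e he
        have hodd := (mem_Bx.1 he).2.2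
        exact hsub (mem_EL_of_faces P hX hY hodd (hface e he _ (in1_near e))
          (hface e he _ (nxC_in1_near hodd)))
      have hPr : E.Prim (v1 - N) (v1 + N) (v2 - N) (v2 + N) Hv Hf := by
        intro e he c hc
        have hodd := (mem_Bx.1 he).2.2
        apply hprim
        rcases hc with rfl | rfl | rfl | rfl
        · exact hface e he _ (in1_near e)
        · exact hface e he _ (in2_near e)
        · exact hface e he _ (nxC_in1_near hodd)
        · exact hface e he _ (nxC_in2_near hodd)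
      have hq0 : ∀ a : ℤ, Qt a N a := by
        intro a; unfold Qt; simp
      have hwv1 := hw1'.1
      have hwv2 := hw2'.1
      have w1b : -(N : ℤ) ≤ w1 - v1 ∧ w1 - v1 ≤ N := by
        have a1 := neg_abs_le (w1 - v1)
        have a2 := le_abs_self (w1 - v1)
        omega
      have w2b : -(N : ℤ) ≤ w2 - v2 ∧ w2 - v2 ≤ N := by
        have a1 := neg_abs_le (w2 - v2)
        have a2 := le_abs_self (w2 - v2)
        omega
      have s3 := E.diff_le_visit hBE hPr (B := C * (N : ℝ) ^ (2 / 3 : ℝ)) (u := (w1, w2))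
        (v := (v1, v2)) (by unfold inB; simp only; omega) (by unfold inB; simp only; omega) (by
          intro ω1 hω1 Hv' Hf' hP'
          refine hAP _ (hfr E hmem _ _ _ _ ω1 hω1) v1 v2 N ?_ Hv' Hf' hP' _ _ hwv1 hwv2
            (hq0 _) (hq0 _)
          rw [Env.freeze_E]
          exact subset_inter hBE (Subset.refl _))
      have s4 : PrP (fun _ => 1 / 2) E.E
          (fun ω => E.Vst (v1 - N) (v1 + N) (v2 - N) (v2 + N) ω) ≤ η := by
        refine le_trans (PrP_mono (Pb.const (by norm_num) (by norm_num)) ?_) hη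
        rintro ω _ ⟨i', hi', h1⟩
        refine ⟨i', hi', ?_, ?_, ?_⟩
        · unfold inB vx at h1
          simp only at h1
          apply hRC <;> unfold fi <;> simp only <;> omega
        · unfold inB vx at h1
          simp only at h1
          unfold Cls fi
          simp only [abs_le]
          omega
        · unfold inB at h1
          unfold Cls
          simp only [abs_le]
          omega
      have s5 : ‖Hv (w1, w2) - Hv (v1, v2)‖ ≤ C * (N : ℝ) ^ (2 / 3 : ℝ) * η :=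
        s3.trans (mul_le_mul_of_nonneg_left s4 (by positivity))
      have hr' : (r : ℝ) = N + 1 := by rw [hrN]; push_cast; ring
      have g1 : (N : ℝ) ^ (2 / 3 : ℝ) ≤ (r : ℝ) ^ (2 / 3 : ℝ) :=
        Real.rpow_le_rpow (by positivity) (by rw [hr']; linarith) (by norm_num)
      have g2 : (1 : ℝ) ≤ (r : ℝ) ^ (2 / 3 : ℝ) :=
        Real.one_le_rpow (by rw [hr']; have : (1 : ℝ) ≤ N := by exact_mod_cast hN1
                             linarith) (by norm_num)
      calc ‖Hv (u1, u2) - Hv (v1, v2)‖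
          = ‖(Hv (w1, w2) - Hv (v1, v2)) - (Hv (w1, w2) - Hv (w1, u2)) -
            (Hv (w1, u2) - Hv (u1, u2))‖ := by congr 1; ring
        _ ≤ ‖Hv (w1, w2) - Hv (v1, v2)‖ + ‖Hv (w1, w2) - Hv (w1, u2)‖ +
            ‖Hv (w1, u2) - Hv (u1, u2)‖ :=
            (norm_sub_le _ _).trans (add_le_add_left (norm_sub_le _ _) _)
        _ ≤ C * (N : ℝ) ^ (2 / 3 : ℝ) * η + 2 * η + 2 * η := by linarith
        _ ≤ (C + 4) * η * (r : ℝ) ^ (2 / 3 : ℝ) := by
            have k1 : C * (N : ℝ) ^ (2 / 3 : ℝ) * η ≤ C * (r : ℝ) ^ (2 / 3 : ℝ) * η :=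
              mul_le_mul_of_nonneg_right (mul_le_mul_of_nonneg_left g1 hC) hη0
            have k2 : 4 * η ≤ 4 * η * (r : ℝ) ^ (2 / 3 : ℝ) :=
              le_mul_of_one_le_right (by positivity) g2
            nlinarith
  · intro v h1 h2 h3
    refine (hhor v h1 h2 ?_).trans ?_
    · unfold Near at h3 ⊢; omega
    · nlinarith
  · intro v h1 h2 h3
    refine (hver v h1 h2 ?_).trans ?_
    · unfold Near at h3 ⊢; omega
    · nlinarith

end Pool.Agent.Q1.M4
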