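import Mathlib
import Pool.Agent.Q1.M4.Reg

set_option autoImplicit false
open Finset Filter Topology

/-! Module M4: visits of the path near the boundary vertices which are not marks, and the
regularity statement `PReg`. -/

namespace Pool.Agent.Q1.M4

open Pool.Agent.H75.Perc Pool.Agent.H75.TwoArm Pool.Agent.H49.Q1 Pool.Agent.H52.Q1
  Pool.Agent.H99.NC Pool.Agent.Q1.M5 Pool.Agent.H69.Q1

/-- What is needed about the path of the environment of the type `P`: it is the exploration path of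
the configuration with the wired labels added; its root corner `c0` lies on the wired arc, on the outer
side. -/
structure PV (P : PType) (X Y : ℤ → ℤ) (E : Env) (c0 : ℤ × ℤ) : Prop where
  eqE : E.E = M5.EL P X Y
  z : ∀ ω ⊆ E.E, ∀ i, E.z ω i = (nx (ω ∪ M5.WL P X Y))^[i] c0
  tv : M5.TV P X Y (vx c0)
  out : fi c0 ∉ FQ P.Q X Y

variable {P : PType} {X Y : ℤ → ℤ}

/-- A grid vertex which is no end point of a side is far from the side. -/
lemma seg_far (hX : StrictMono X) (hY : StrictMono Y) {s : Cell × ℤ} {p : ℤ × ℤ} {r : ℤ}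
    (hs : Small X Y p r) (h1 : p ≠ tail s) (h2 : p ≠ head s) {e : ℤ × ℤ} (he : onSeg X Y s e) :
    ¬ ((2 * (X p.1 - r) ≤ e.1 ∧ e.1 ≤ 2 * (X p.1 + r)) ∧
      (2 * (Y p.2 - r) ≤ e.2 ∧ e.2 ≤ 2 * (Y p.2 + r))) := by
  rintro ⟨⟨a1, a2⟩, a3, a4⟩
  obtain ⟨⟨i, k⟩, d⟩ := s
  obtain ⟨a, b⟩ := p
  obtain ⟨⟨e1, e2⟩, ⟨e3, e4⟩, e5, e6, e7, e8⟩ := he
  simp only at e1 e2 e3 e4 e5 e6 e7 e8 a1 a2 a3 a4
  have hn := near_cell hX hY hs (d := (i, k)) e1 e2 e3 e4 a1 a2 a3 a4
  obtain ⟨⟨s1, s2⟩, s3, s4⟩ := hs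
  simp only at s1 s2 s3 s4 hn
  have hX1 : X (a - 1) < X a := hX (by omega)
  have hX2 : X a < X (a + 1) := hX (by omega)
  have hY1 : Y (b - 1) < Y b := hY (by omega)
  have hY2 : Y b < Y (b + 1) := hY (by omega)
  have hsub1 : a - 1 + 1 = a := by ring
  have hsub2 : b - 1 + 1 = b := by ring
  obtain ⟨hn1, hn2⟩ := hn
  unfold tail at h1
  unfold head tail at h2
  simp only at h1 h2
  have hk4 : d % 4 = 0 ∨ d % 4 = 1 ∨ d % 4 = 2 ∨ d % 4 = 3 := by omega
  rcases hk4 with hk | hk | hk | hk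
  · have h5 := e5 hk
    rw [if_pos hk] at h1 h2
    rw [dir0 hk] at h2
    rcases hn1 with rfl | rfl <;> rcases hn2 with rfl | rfl <;>
    simp only [hsub1, hsub2, Prod.mk_add_mk, add_zero, ne_eq, not_true_eq_false] at h1 h2 h5 e2 e4 <;> omega
  · have h6 := e6 hk
    rw [if_neg (by omega), if_pos hk] at h1 h2
    rw [dir1 hk] at h2
    rcases hn1 with rfl | rfl <;> rcases hn2 with rfl | rfl <;>
    simp only [hsub1, hsub2, Prod.mk_add_mk, add_zero, ne_eq, not_true_eq_false] at h1 h2 h6 e2 e4 <;> omega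
  · have h7 := e7 hk
    rw [if_neg (by omega), if_neg (by omega), if_pos hk] at h1 h2
    rw [dir2 hk] at h2
    rcases hn1 with rfl | rfl <;> rcases hn2 with rfl | rfl <;>
    simp only [hsub1, hsub2, Prod.mk_add_mk, add_zero, ne_eq, not_true_eq_false, add_neg_cancel_right] at h1 h2 h7 e2 e4 <;> omega
  · have h8 := e8 hk
    rw [if_neg (by omega), if_neg (by omega), if_neg (by omega)] at h1 h2
    rw [dir3 hk] at h2
    rcases hn1 with rfl | rfl <;> rcases hn2 with rfl | rfl <;>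
    simp only [hsub1, hsub2, Prod.mk_add_mk, add_zero, ne_eq, not_true_eq_false, add_neg_cancel_right] at h1 h2 h8 e2 e4 <;> omega

/-- The sides of the other arc are far from a boundary vertex which is not a mark. -/
lemma other_arc (P : PType) (hX : StrictMono X) (hY : StrictMono Y) {n n' : ℕ} (hn : n < P.N)
    (hn' : n' < P.N) (h0 : n ≠ 0) (hm : n ≠ P.m) (hnn : n < P.m ↔ P.m ≤ n') {r : ℤ}
    (hs : Small X Y (P.vert n) r) {e : ℤ × ℤ} (he : onSeg X Y (P.side n') e) :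
    ¬ ((2 * (X (P.vert n).1 - r) ≤ e.1 ∧ e.1 ≤ 2 * (X (P.vert n).1 + r)) ∧
      (2 * (Y (P.vert n).2 - r) ≤ e.2 ∧ e.2 ≤ 2 * (Y (P.vert n).2 + r))) := by
  refine seg_far hX hY hs ?_ ?_ he
  · intro h
    have := P.vert_inj hn hn' h
    omega
  · intro h
    rw [← P.vert_head] at h
    rcases Nat.lt_or_ge (n' + 1) P.N with h1 | h1
    · have := P.vert_inj hn h1 h
      omega
    · have h2 : n' + 1 = P.N := by omega
      rw [h2, P.vert_N] at h
      have := P.vert_inj hn (by omega) h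
      omega

/-- A label between a face of the domain and a face outside lies on a boundary side. -/
lemma side_of_faces {Q : Finset Cell} (hX : StrictMono X) (hY : StrictMono Y) {f g : ℤ × ℤ}
    (hfg : IsUnit4 (g - f)) (hf : f ∈ FQ Q X Y) (hg : g ∉ FQ Q X Y) :
    ∃ s : Cell × ℤ, IsSide Q s ∧ f + g - (1, 1) ∈ M5.sL X Y s := by
  obtain ⟨⟨i, k⟩, hc, ⟨h1, h2⟩, h3, h4⟩ := mem_FQ.1 hf
  obtain ⟨f1, f2⟩ := f
  obtain ⟨g1, g2⟩ := g
  simp only at h1 h2 h3 h4
  have hX0 : X (i - 1) < X i := hX (by omega)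
  have hX2 : X (i + 1) < X (i + 1 + 1) := hX (by omega)
  have hY0 : Y (k - 1) < Y k := hY (by omega)
  have hY2 : Y (k + 1) < Y (k + 1 + 1) := hY (by omega)
  unfold IsUnit4 at hfg
  simp only [Prod.mk_sub_mk, Prod.mk.injEq] at hfg
  have key : ∀ c : Cell, RC X Y c (g1, g2) → c ∉ Q := fun c h hc' => hg (mem_FQ.2 ⟨c, hc', h⟩)
  rcases hfg with ⟨h, h'⟩ | ⟨h, h'⟩ | ⟨h, h'⟩ | ⟨h, h'⟩
  · -- right
    have e1 : X (i + 1) < g1 := by
      by_contra hh
      exact key (i, k) ⟨⟨by simp only; omega, by simp only; omega⟩, by simp only; omega,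
        by simp only; omega⟩ hc
    refine ⟨((i, k), 1), ⟨hc, ?_⟩, ?_⟩
    · have : dir ((1 : ℤ) - 1) = (1, 0) := dir0 (by norm_num)
      simp only
      rw [this]
      exact key _ ⟨⟨by simp only [Prod.mk_add_mk]; omega, by simp only [Prod.mk_add_mk]; omega⟩,
        by simp only [Prod.mk_add_mk, add_zero]; omega,
        by simp only [Prod.mk_add_mk, add_zero]; omega⟩
    · unfold M5.sL gcell
      rw [mem_filter, mem_Bx]
      simp only [Prod.mk_add_mk, Prod.mk_sub_mk]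
      refine ⟨⟨by omega, by omega, by omega⟩, by omega, by omega, by omega, by omega⟩
  · -- up
    have e1 : Y (k + 1) < g2 := by
      by_contra hh
      exact key (i, k) ⟨⟨by simp only; omega, by simp only; omega⟩, by simp only; omega,
        by simp only; omega⟩ hc
    refine ⟨((i, k), 2), ⟨hc, ?_⟩, ?_⟩
    · have : dir ((2 : ℤ) - 1) = (0, 1) := dir1 (by norm_num)
      simp only
      rw [this]
      exact key _ ⟨⟨by simp only [Prod.mk_add_mk, add_zero]; omega,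
        by simp only [Prod.mk_add_mk, add_zero]; omega⟩,
        by simp only [Prod.mk_add_mk]; omega, by simp only [Prod.mk_add_mk]; omega⟩
    · unfold M5.sL gcell
      rw [mem_filter, mem_Bx]
      simp only [Prod.mk_add_mk, Prod.mk_sub_mk]
      refine ⟨⟨by omega, by omega, by omega⟩, by omega, by omega, by omega, by omega⟩
  · -- left
    have e1 : g1 ≤ X i := by
      by_contra hh
      exact key (i, k) ⟨⟨by simp only; omega, by simp only; omega⟩, by simp only; omega,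
        by simp only; omega⟩ hc
    refine ⟨((i, k), 3), ⟨hc, ?_⟩, ?_⟩
    · have : dir ((3 : ℤ) - 1) = (-1, 0) := dir2 (by norm_num)
      simp only
      rw [this]
      refine key _ ⟨⟨?_, ?_⟩, ?_, ?_⟩ <;>
      simp only [Prod.mk_add_mk, add_zero, ← sub_eq_add_neg, sub_add_cancel] <;> omega
    · unfold M5.sL gcell
      rw [mem_filter, mem_Bx]
      simp only [Prod.mk_add_mk, Prod.mk_sub_mk]
      refine ⟨⟨by omega, by omega, by omega⟩, by omega, by omega, by omega, by omega⟩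
  · -- down
    have e1 : g2 ≤ Y k := by
      by_contra hh
      exact key (i, k) ⟨⟨by simp only; omega, by simp only; omega⟩, by simp only; omega,
        by simp only; omega⟩ hc
    refine ⟨((i, k), 4), ⟨hc, ?_⟩, ?_⟩
    · have : dir ((4 : ℤ) - 1) = (0, -1) := dir3 (by norm_num)
      simp only
      rw [this]
      refine key _ ⟨⟨?_, ?_⟩, ?_, ?_⟩ <;>
      simp only [Prod.mk_add_mk, add_zero, ← sub_eq_add_neg, sub_add_cancel] <;> omega
    · unfold M5.sL gcell
      rw [mem_filter, mem_Bx]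
      simp only [Prod.mk_add_mk, Prod.mk_sub_mk]
      refine ⟨⟨by omega, by omega, by omega⟩, by omega, by omega, by omega, by omega⟩

lemma sL_eqv {s t : Cell × ℤ} (h : Eqv s t) : M5.sL X Y s = M5.sL X Y t := by
  obtain ⟨h1, h2⟩ := h
  unfold M5.sL
  rw [h1]
  have h3 : s.2 % 4 = t.2 % 4 := by omega
  rw [h3]

/-- the distance of the wired labels and of the root from the vertices of the open free arc -/
lemma free_far (P : PType) (hX : StrictMono X) (hY : StrictMono Y) {n : ℕ} (h0 : n ≠ 0)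
    (hm : n < P.m) {r : ℤ} (hs : Small X Y (P.vert n) r) :
    (∀ u v : ℤ × ℤ, IsUnit4 (v - u) → u + v ∈ M5.WL P X Y → Far r u (lpt X Y (P.vert n))) ∧
      ∀ v, M5.TV P X Y v → Far r v (lpt X Y (P.vert n)) := by
  constructor
  · rintro ⟨u1, u2⟩ ⟨v1, v2⟩ hu hW
    unfold M5.WL at hW
    rw [mem_biUnion] at hW
    obtain ⟨n', hn', h1⟩ := hW
    rw [mem_Ico] at hn'
    have h2 := other_arc P hX hY (by have := P.hmN; omega) hn'.2 h0 (by omega)
      (n' := n') (by omega) hs (onSeg_of_sL h1)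
    unfold IsUnit4 at hu
    simp only [Prod.mk_sub_mk, Prod.mk.injEq] at hu
    unfold Far lpt
    simp only [Prod.mk_add_mk] at h2 ⊢
    by_contra hc
    rw [not_or, not_le, not_le, abs_lt, abs_lt] at hc
    apply h2
    omega
  · intro v hv
    obtain ⟨n', h1, h2, h3⟩ := hv
    have h4 := other_arc P hX hY (by have := P.hmN; omega) h2 h0 (by omega)
      (n' := n') (by omega) hs (onSeg_of_sV h3)
    unfold Far lpt
    unfold H52.Q1.dbl at h4
    simp only at h4 ⊢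
    by_contra hc
    rw [not_or, not_le, not_le, abs_lt, abs_lt] at hc
    apply h4
    omega

/-- the boundary labels near the vertices of the open wired arc are wired -/
lemma wired_near (P : PType) (hX : StrictMono X) (hY : StrictMono Y) {n : ℕ} (hm : P.m < n)
    (hn : n < P.N) {r : ℤ} (hs : Small X Y (P.vert n) r) {f g : ℤ × ℤ} (hfg : IsUnit4 (g - f))
    (hf : f ∈ FQ P.Q X Y) (hg : g ∉ FQ P.Q X Y) :
    f + g - (1, 1) ∈ M5.WL P X Y ∨ Far r f (lpt X Y (P.vert n)) := by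
  obtain ⟨s, hs1, hs2⟩ := side_of_faces hX hY hfg hf hg
  obtain ⟨n', hn', he⟩ := P.exists_side hs1
  by_cases h1 : P.m ≤ n'
  · left
    unfold M5.WL
    rw [mem_biUnion]
    refine ⟨n', mem_Ico.2 ⟨h1, hn'⟩, ?_⟩
    rw [sL_eqv he]; exact hs2
  · right
    have h2 := other_arc P hX hY hn hn' (by omega) (by omega) (by omega) hs
      (e := f + g - (1, 1)) (onSeg_of_sL (by rw [sL_eqv he]; exact hs2))
    obtain ⟨f1, f2⟩ := f
    obtain ⟨g1, g2⟩ := g
    unfold IsUnit4 at hfg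
    simp only [Prod.mk_sub_mk, Prod.mk.injEq] at hfg
    unfold Far lpt
    simp only [Prod.mk_add_mk, Prod.mk_sub_mk] at h2 ⊢
    by_contra hc
    rw [not_or, not_le, not_le, abs_lt, abs_lt] at hc
    apply h2
    omega

/-- **Visits near a boundary vertex which is not a mark.** -/
theorem visit_near : ∃ δ : ℝ, 0 < δ ∧ δ < 1 ∧ ∀ (P : PType) (X Y : ℤ → ℤ), StrictMono X →
    StrictMono Y → ∀ (E : Env) (c0 : ℤ × ℤ), PV P X Y E c0 → ∀ n < P.N, n ≠ 0 → n ≠ P.m →
    ∀ (ρ : ℤ) (k : ℕ), 1 ≤ ρ → Small X Y (P.vert n) (4 ^ k * ρ) →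
    PrP (fun _ => 1 / 2) E.E (VN P.Q X Y E ρ (lpt X Y (P.vert n))) ≤ (1 - δ) ^ k := by
  obtain ⟨δ, h0, h1, h⟩ := visit_decay
  refine ⟨δ, h0, h1, ?_⟩
  intro P X Y hX hY E c0 hV n hn hn0 hnm ρ k hρ hs
  obtain ⟨ha, hb⟩ := h E.E (M5.WL P X Y) E.odd (lpt X Y (P.vert n)) c0 ρ hρ k
  have hz : ∀ ω ⊆ E.E, ∀ i, InOrb (nx (ω ∪ M5.WL P X Y)) c0 (E.z ω i) :=
    fun ω hω i => ⟨i, (hV.z ω hω i).symm⟩
  rw [PrP_half]
  rcases lt_or_gt_of_ne hnm with hm | hm
  · obtain ⟨f1, f2⟩ := free_far P hX hY hn0 hm hs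
    refine le_trans (Pr_mono ?_) (ha f1 (f2 _ hV.tv))
    rintro ω hω ⟨i, -, -, -, h5⟩
    exact ⟨_, hz ω hω i, h5⟩
  · refine le_trans (Pr_mono ?_) (hb (FQ P.Q X Y) ?_ ?_ hV.out)
    · rintro ω hω ⟨i, -, h4, h5, -⟩
      exact ⟨_, hz ω hω i, h4, h5⟩
    · intro f g hfg hf hg
      rw [hV.eqE, EL_union]
      obtain ⟨c, hc, ⟨h1, h2⟩, h3, h4⟩ := mem_FQ.1 hf
      rw [mem_gs]
      refine ⟨c, hc, ?_⟩
      unfold gcell
      rw [mem_Bx]
      obtain ⟨f1, f2⟩ := f
      obtain ⟨g1, g2⟩ := g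
      unfold IsUnit4 at hfg
      simp only [Prod.mk_sub_mk, Prod.mk.injEq] at hfg
      simp only [Prod.mk_add_mk, Prod.mk_sub_mk] at h1 h2 h3 h4 ⊢
      omega
    · intro f g hfg hf hg
      exact wired_near P hX hY hm hn hs hfg hf hg

/-- **The regularity statement** from the a priori bound. -/
theorem pReg_of {K : Env → Prop} (hAP : AP K)
    (hfr : ∀ Z, K Z → ∀ a b c d : ℤ, ∀ ω1 ⊆ Z.E \ Bx a b c d, K (Z.freeze (Bx a b c d) ω1))
    {P : PType} {x y : ℤ → ℝ} (hx : StrictMono x) (hy : StrictMono y) {R : ℕ → ℝ}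
    {X Y : ℕ → ℤ → ℤ} (hA : App x y R X Y) {Ev : ℕ → Env} {Hv Hf : ℕ → ℤ × ℤ → ℂ} {u : ℂ} {C0 : ℝ}
    (hP : ∀ᶠ j in atTop, PH K P (X j) (Y j) (Ev j) (Hv j) (Hf j) u C0)
    (hV : ∀ᶠ j in atTop, ∃ c0, PV P (X j) (Y j) (Ev j) c0) : PReg P R X Y Hv := by
  obtain ⟨C, hC, hAP⟩ := hAP
  refine ⟨⟨C + 4, by positivity, ?_⟩, ?_⟩
  · filter_upwards [hP, hA.mono] with j hj hm L p
    have := regBound_of_visit (L := L) (p := p) (η := 1) hm.1 hm.2 hC.le hAP hfr hj.mem hj.sub
      hj.prim (PrP_le_one (Pb.const (by norm_num) (by norm_num)) _ _)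
    rwa [mul_one] at this
  · obtain ⟨δ, hδ0, hδ1, hvis⟩ := visit_near
    obtain ⟨c1, hc1, C1, hC1, hpow⟩ := pow_decay hδ0 hδ1
    intro n hn hn0 hnm
    obtain ⟨c0, hc0, hsm⟩ := small_ev hx hy (P.vert n)
    refine ⟨(C + 4) * (C1 * (40 / c0) ^ c1), c1, c0 / 40, by positivity, hc1, by positivity, ?_⟩
    intro ρ hρ hρr
    filter_upwards [hP, hV, hA.mono, hsm R X Y hA.app, hA.app.R_top.eventually_gt_atTop 0,
      hA.app.R_top.eventually_gt_atTop (3 / (20 * ρ))] with j hj hVj hm hs hR0 hR1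
    obtain ⟨cr, hcr⟩ := hVj
    rw [div_lt_iff₀ (by positivity)] at hR1
    set L : ℤ := ⌈20 * ρ * R j⌉ with hL
    have hL1 : (L : ℝ) < 20 * ρ * R j + 1 := Int.ceil_lt_add_one _
    have hL0 : 20 * ρ * R j ≤ L := Int.le_ceil _
    have hpos : 0 < 20 * ρ * R j := by positivity
    have hLpos : 0 < L := by
      have : (0 : ℝ) < L := lt_of_lt_of_le hpos hL0
      exact_mod_cast this
    have hL2 : ((L + 2 : ℤ) : ℝ) ≤ 40 * ρ * R j := by
      push_cast
      nlinarith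
    have hL3 : (0 : ℝ) < ((L + 2 : ℤ) : ℝ) := by
      have : (0 : ℤ) < L + 2 := by omega
      exact_mod_cast this
    have hL4 : ((L + 2 : ℤ) : ℝ) ≤ c0 * R j := by
      refine hL2.trans ?_
      have : 40 * ρ ≤ c0 := by linarith
      exact mul_le_mul_of_nonneg_right this hR0.le
    obtain ⟨k, hk1, hk2⟩ := hpow ((L + 2 : ℤ) : ℝ) (c0 * R j) hL3 hL4
    have hsk : Small (X j) (Y j) (P.vert n) (4 ^ k * (L + 2)) := by
      apply hs
      refine le_trans (le_of_eq ?_) hk1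
      push_cast
      ring
    have h1 := hvis P (X j) (Y j) hm.1 hm.2 (Ev j) cr hcr n hn hn0 hnm (L + 2) k (by omega) hsk
    have h2 := regBound_of_visit (L := L) (p := lpt (X j) (Y j) (P.vert n)) hm.1 hm.2 hC.le hAP
      hfr hj.mem hj.sub hj.prim (h1.trans hk2)
    refine h2.mono ?_
    rw [mul_assoc, mul_assoc]
    refine mul_le_mul_of_nonneg_left ?_ (by positivity)
    refine mul_le_mul_of_nonneg_left ?_ hC1.le
    rw [← Real.mul_rpow (by positivity) hρ.le]
    refine Real.rpow_le_rpow (by positivity) ?_ hc1.le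
    rw [div_le_iff₀ (by positivity)]
    have : 40 / c0 * ρ * (c0 * R j) = 40 * ρ * R j := by field_simp
    rw [this]; exact hL2

end Pool.Agent.Q1.M4
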