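import Mathlib
import Pool.Agent.Q1.M4.RegC
import Pool.Agent.Q1.M4.Dob

set_option autoImplicit false
open Finset Filter Topology

/-! Module M4: `PReg` for the Dobrushin environment `dob` of `Dob.lean`. -/

namespace Pool.Agent.Q1.M4

open Pool.Agent.H75.Perc Pool.Agent.H75.TwoArm Pool.Agent.Q1.M5 Pool.Agent.H5.Q1
  Pool.Agent.H99.NC Pool.Agent.Q1.Dob

/-- The path of `dob` is the exploration path with the wired labels added. -/
lemma pv_dob (P : PType) {X Y : ℤ → ℤ} (hX : StrictMono X) (hY : StrictMono Y) :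
    PV P X Y (dob P hX hY) (sc X Y P.s0) where
  eqE := rfl
  z := fun _ hω i => dob_z hω i
  tv := TV_root hX hY
  out := by rw [FQ_eq]; exact fi_sc P hX hY

end Pool.Agent.Q1.M4
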