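import Mathlib
import Pool.Agent.Q1.M4.RegD
import Pool.Agent.Q1.M4.DobPH

set_option autoImplicit false
open Finset Filter Topology

/-! Module M4, main theorem: `StA` from the a priori bound `AP` and the holomorphy of the limits. -/

namespace Pool.Agent.Q1.M4

open Pool.Agent.H75.Perc hiding WL CT hh
open Pool.Agent.H75.TwoArm Pool.Agent.H99.NC Pool.Agent.Q1.Dob
open Pool.Agent.Q1.M5 (StA App)

/-- `Hv, Hf` is a primitive of the parafermion of the lattice domain of type `P`. -/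
def IsPrim (P : PType) (X Y : ℤ → ℤ) (Hv Hf : ℤ × ℤ → ℂ) : Prop :=
  ∃ (hX : StrictMono X) (hY : StrictMono Y), ∀ c, fi c ∈ FQ P.Q X Y →
    Hv (vx c) - Hf (fi c) = (dob P hX hY).inc c

/-- The primitives of the lattice domains, at the scale `R ^ (2/3)`, have the approximation property
`CRA` (so their limits are holomorphic). -/
def HolDob : Prop := ∀ (P : PType) (x y : ℤ → ℝ), StrictMono x → StrictMono y →
  ∀ (R : ℕ → ℝ) (X Y : ℕ → ℤ → ℤ), App x y R X Y → ∀ Hv Hf : ℕ → ℤ × ℤ → ℂ,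
  (∀ᶠ j in atTop, IsPrim P (X j) (Y j) (Hv j) (Hf j)) → CRA P x y R (scl R Hv)

/-- **(A)** from the a priori bound and the holomorphy of the limits. -/
theorem StA_of_HolDob {K : Env → Prop} (hAP : AP K)
    (hfr : ∀ Z, K Z → ∀ a b c d : ℤ, ∀ ω1 ⊆ Z.E \ Bx a b c d, K (Z.freeze (Bx a b c d) ω1))
    (hK : ∀ (P : PType) (X Y : ℤ → ℤ) (hX : StrictMono X) (hY : StrictMono Y), K (dob P hX hY))
    (hH : HolDob) : StA := by
  refine StA_of (K := K) (u := ph (-1)) (ph_norm _) (C0 := 2) ?_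
  intro P x y hx hy R X Y hA
  have key : ∀ j, ∃ (E : Env) (Hv Hf : ℤ × ℤ → ℂ), StrictMono (X j) → StrictMono (Y j) →
      PH K P (X j) (Y j) E Hv Hf (ph (-1)) 2 ∧ IsPrim P (X j) (Y j) Hv Hf ∧
      ∃ c0, PV P (X j) (Y j) E c0 := by
    intro j
    by_cases h : StrictMono (X j) ∧ StrictMono (Y j)
    · obtain ⟨Hv, Hf, hP⟩ := exists_PH (K := K) P h.1 h.2 (hK P _ _ h.1 h.2)
      exact ⟨_, Hv, Hf, fun hX hY => ⟨hP, ⟨hX, hY, hP.prim⟩, _, pv_dob P h.1 h.2⟩⟩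
    · exact ⟨dob P (X := fun i => i) (Y := fun i => i) strictMono_id strictMono_id, 0, 0,
        fun hX hY => absurd ⟨hX, hY⟩ h⟩
  choose Ev Hv Hf hk using key
  have hX : ∀ᶠ j in atTop, StrictMono (X j) ∧ StrictMono (Y j) := hA.mono
  have hPH : ∀ᶠ j in atTop, PH K P (X j) (Y j) (Ev j) (Hv j) (Hf j) (ph (-1)) 2 :=
    hX.mono fun j hj => (hk j hj.1 hj.2).1
  refine ⟨Ev, Hv, Hf, hPH, ?_, ?_⟩
  · exact pReg_of hAP hfr hx hy hA hPH (hX.mono fun j hj => (hk j hj.1 hj.2).2.2)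
  · exact hH P x y hx hy R X Y hA Hv Hf (hX.mono fun j hj => (hk j hj.1 hj.2).2.1)

/-- A primitive of the parafermion of the lattice domain satisfies `PH`. -/
lemma IsPrim.pH {K : Env → Prop}
    (hK : ∀ (P : PType) (X Y : ℤ → ℤ) (hX : StrictMono X) (hY : StrictMono Y), K (dob P hX hY))
    {P : PType} {X Y : ℤ → ℤ} {Hv Hf : ℤ × ℤ → ℂ} (h : IsPrim P X Y Hv Hf) :
    ∃ E, PH K P X Y E Hv Hf (ph (-1)) 2 ∧ ∃ c0, PV P X Y E c0 := by
  obtain ⟨hX, hY, hH⟩ := h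
  refine ⟨dob P hX hY, ⟨hK _ _ _ _ _, ?_, hH, sideInc hX hY (Hf := Hf) ?_⟩, _, pv_dob P hX hY⟩
  · rw [dob_E]
  · rw [FQ_eq] at hH; exact hH

/-- `HolDob` from `N1`. -/
theorem HolDob_of_N1 {K : Env → Prop} (hAP : AP K)
    (hfr : ∀ Z, K Z → ∀ a b c d : ℤ, ∀ ω1 ⊆ Z.E \ Bx a b c d, K (Z.freeze (Bx a b c d) ω1))
    (hK : ∀ (P : PType) (X Y : ℤ → ℤ) (hX : StrictMono X) (hY : StrictMono Y), K (dob P hX hY))
    (hN1 : N1 K) : HolDob := by
  intro P x y hx hy R X Y hA Hv Hf hp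
  have key : ∀ j, ∃ E : Env, IsPrim P (X j) (Y j) (Hv j) (Hf j) →
      PH K P (X j) (Y j) E (Hv j) (Hf j) (ph (-1)) 2 ∧ ∃ c0, PV P (X j) (Y j) E c0 := by
    intro j
    by_cases h : IsPrim P (X j) (Y j) (Hv j) (Hf j)
    · obtain ⟨E, hE⟩ := h.pH hK
      exact ⟨E, fun _ => hE⟩
    · exact ⟨dob P (X := fun i => i) (Y := fun i => i) strictMono_id strictMono_id,
        fun h' => absurd h' h⟩
  choose Ev hk using key
  have hPH := hp.mono fun j hj => (hk j hj).1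
  exact CRA_of_N1 hN1 hx hy hA hPH
    (pReg_of hAP hfr hx hy hA hPH (hp.mono fun j hj => (hk j hj).2))

end Pool.Agent.Q1.M4
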