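import Mathlib
import Pool.Agent.Q1.M4.Main

set_option autoImplicit false
open Finset Filter Topology

/-! Module M4, [D]: `StA` from `N1` and `AP`. -/

namespace Pool.Agent.Q1.Dob

open Pool.Agent.H75.Perc hiding WL CT hh
open Pool.Agent.H75.TwoArm Pool.Agent.H99.NC
open Pool.Agent.Q1.M4 (PType StA_of_HolDob HolDob_of_N1)
open Pool.Agent.Q1.M5 (StA)

/-- **(A) from `N1` and `AP`** for a class of environments which contains the environments of the
lattice domains and is closed under freezing. -/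
theorem stA_of {K : Env → Prop} (hN1 : N1 K) (hAP : AP K)
    (hfr : ∀ Z, K Z → ∀ a b c d : ℤ, ∀ ω1 ⊆ Z.E \ Bx a b c d, K (Z.freeze (Bx a b c d) ω1))
    (hK : ∀ (P : PType) (X Y : ℤ → ℤ) (hX : StrictMono X) (hY : StrictMono Y), K (dob P hX hY)) :
    StA :=
  StA_of_HolDob hAP hfr hK (HolDob_of_N1 hAP hfr hK hN1)

end Pool.Agent.Q1.Dob
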