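import Pool.Agent.H33.Q1.Refl

/-!
# Local analysis of `Im Φ` at a straight side (module M4, assembly of UNIQ)
-/

open Complex Metric Set Topology Filter

namespace Q1

/-- In a half disc neighbourhood, a point of the frontier lies on the diameter. -/
theorem frontier_half {P : Set ℂ} (hPo : IsOpen P) {x u : ℂ} {r : ℝ} (hu : ‖u‖ = 1)
    (hP : ∀ z ∈ ball x r, z ∈ P ↔ 0 < ((z - x) / u).im) {z : ℂ} (hz : z ∈ ball x r)
    (hzf : z ∈ frontier P) : ((z - x) / u).im = 0 := by
  rw [hPo.frontier_eq] at hzf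
  have h1 := (H33.Q1.mem_closure_half hu hP hz).1 hzf.1
  have h2 : ¬ 0 < ((z - x) / u).im := fun h => hzf.2 ((hP z hz).2 h)
  exact le_antisymm (not_lt.1 h2) h1

/-- Points of the diameter lie in the frontier. -/
theorem half_frontier {P : Set ℂ} (hPo : IsOpen P) {x u : ℂ} {r : ℝ} (hu : ‖u‖ = 1)
    (hP : ∀ z ∈ ball x r, z ∈ P ↔ 0 < ((z - x) / u).im) {z : ℂ} (hz : z ∈ ball x r)
    (hzf : ((z - x) / u).im = 0) : z ∈ frontier P := by
  rw [hPo.frontier_eq]
  refine ⟨(H33.Q1.mem_closure_half hu hP hz).2 hzf.ge, fun h => ?_⟩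
  have := (hP z hz).1 h
  rw [hzf] at this
  exact lt_irrefl _ this

/-- At a straight side `Im Φ` has a limit, constant along the side. -/
theorem side_limit {P : Set ℂ} (hPo : IsOpen P) {h₁ h₂ Φ : ℂ → ℂ} {c : ℂ}
    (hc₁ : ContinuousOn h₁ (closure P)) (hd₁ : DifferentiableOn ℂ h₁ P)
    (hc₂ : ContinuousOn h₂ (closure P)) (hd₂ : DifferentiableOn ℂ h₂ P)
    (hΦ : ∀ z ∈ P, HasDerivAt Φ (c * (deriv h₁ z ^ 2 * deriv h₂ z)) z)
    {x u w : ℂ} {r : ℝ} (hr : 0 < r) (hu : ‖u‖ = 1) (hw : ‖w‖ = 1)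
    (hcuw : (c / (w ^ 3 * u ^ 2)).im = 0)
    (hP : ∀ z ∈ ball x r, z ∈ P ↔ 0 < ((z - x) / u).im)
    (hl₁ : ∀ z ∈ ball x r, ((z - x) / u).im = 0 → (w * (h₁ z - h₁ x)).im = 0)
    (hl₂ : ∀ z ∈ ball x r, ((z - x) / u).im = 0 → (w * (h₂ z - h₂ x)).im = 0) :
    ∃ k : ℝ, ∀ y ∈ ball x r, ((y - x) / u).im = 0 →
      Tendsto (fun z => (Φ z).im) (𝓝[P] y) (𝓝 k) := by
  have hu0 : u ≠ 0 := by
    intro h0
    simp [h0] at hu
  have hw0 : w ≠ 0 := by
    intro h0
    simp [h0] at hw
  have hclo : ∀ y ∈ ball x r, 0 ≤ ((y - x) / u).im → y ∈ closure P := fun y hy him =>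
    (H33.Q1.mem_closure_half hu hP hy).2 him
  obtain ⟨g₁, a1, a2, a3, -⟩ := H33.Q1.reflect (x := x) (u := u) (w := w) (r := r) hu hw (h := h₁)
    (hc₁.mono fun y hy => hclo y hy.1 hy.2)
    (fun y hy him => hd₁.differentiableAt (hPo.mem_nhds ((hP y hy).2 him))) hl₁
  obtain ⟨g₂, b1, b2, b3, -⟩ := H33.Q1.reflect (x := x) (u := u) (w := w) (r := r) hu hw (h := h₂)
    (hc₂.mono fun y hy => hclo y hy.1 hy.2)
    (fun y hy him => hd₂.differentiableAt (hPo.mem_nhds ((hP y hy).2 him))) hl₂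
  -- the holomorphic extension of the integrand and its primitive
  have hF : DifferentiableOn ℂ (fun z => c * (deriv g₁ z ^ 2 * deriv g₂ z)) (ball x r) := by
    have e1 := a1.deriv isOpen_ball
    have e2 := b1.deriv isOpen_ball
    exact ((e1.pow 2).mul e2).const_mul c
  obtain ⟨Ψ, hΨ⟩ := hF.isExactOn_ball
  set D : Set ℂ := {z | z ∈ ball x r ∧ 0 < ((z - x) / u).im} with hD
  have hDP : D ⊆ P := fun z hz => (hP z hz.1).2 hz.2
  have him : Continuous fun y : ℂ => ((y - x) / u).im := by fun_prop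
  have hDo : IsOpen D := isOpen_ball.inter (isOpen_lt continuous_const him)
  have hDc : Convex ℝ D := by
    have h0 : Convex ℝ {z : ℂ | 0 < ((z - x) / u).im} := by
      have : {z : ℂ | 0 < ((z - x) / u).im} = (fun z : ℂ => (z / u).im) ⁻¹' Ioi ((x / u).im) := by
        ext z
        simp [sub_div]
      rw [this]
      refine (convex_Ioi _).is_linear_preimage (f := fun z : ℂ => (z / u).im) ?_
      constructor
      · intro a b
        simp [add_div]
      · intro t a
        have : (t • a) / u = t • (a / u) := by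
          simp [Complex.real_smul, mul_div_assoc]
        simp only [this]
        simp
    exact (convex_ball x r).inter h0
  have hconst : ∀ z ∈ D, ∀ z' ∈ D, Φ z - Ψ z = Φ z' - Ψ z' := by
    intro z hz z' hz'
    have hder : ∀ y ∈ D, HasDerivAt (fun y => Φ y - Ψ y) 0 y := by
      intro y hy
      have h1 := (hΦ y (hDP hy)).sub (hΨ y hy.1)
      have e1 : deriv g₁ y = deriv h₁ y := by
        apply EventuallyEq.deriv_eq
        filter_upwards [hDo.mem_nhds hy] with t ht
        exact a2 t ht.1 ht.2.le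
      have e2 : deriv g₂ y = deriv h₂ y := by
        apply EventuallyEq.deriv_eq
        filter_upwards [hDo.mem_nhds hy] with t ht
        exact b2 t ht.1 ht.2.le
      simp only [e1, e2, sub_self] at h1
      exact h1
    exact hDo.is_const_of_deriv_eq_zero hDc.isPreconnected
      (fun y hy => (hder y hy).differentiableAt.differentiableWithinAt)
      (fun y hy => (hder y hy).deriv) hz hz'
  -- the imaginary part of the primitive is constant on the diameter
  have hdiam : ∀ y ∈ ball x r, ((y - x) / u).im = 0 → (Ψ y).im = (Ψ x).im := by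
    intro y hy hy0
    set t₀ : ℝ := ((y - x) / u).re with ht₀
    have hyt : y = x + u * t₀ := by
      have : (y - x) / u = t₀ := by
        apply Complex.ext <;> simp [ht₀, hy0]
      field_simp at this
      rw [← this]
      ring
    have hball : ∀ t : ℝ, |t| < r → x + u * t ∈ ball x r := by
      intro t ht
      rw [mem_ball, dist_eq_norm]
      simpa [hu] using ht
    have ht0 : |t₀| < r := by
      rw [hyt, mem_ball, dist_eq_norm] at hy
      simpa [hu] using hy
    have hderiv : ∀ t ∈ Ioo (-r) r, HasDerivAt (fun t : ℝ => (Ψ (x + u * t)).im) 0 t := by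
      intro t ht
      have hb := hball t (abs_lt.2 ⟨ht.1, ht.2⟩)
      have h1 := hΨ _ hb
      have hin : HasDerivAt (fun t : ℝ => x + u * (t : ℂ)) u t := by
        have := ((Complex.ofRealCLM.hasDerivAt (x := t)).const_mul u).const_add x
        simpa using this
      have h2 : HasDerivAt (fun t : ℝ => Ψ (x + u * t)) _ t := h1.comp t hin
      have h3 := Complex.imCLM.hasFDerivAt.comp_hasDerivAt t h2
      have hq : ((x + u * (t:ℂ) - x) / u).im = 0 := by
        have : (x + u * (t:ℂ) - x) / u = t := by field_simp; ring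
        rw [this]; simp
      have i1 := a3 _ hb hq
      have i2 := b3 _ hb hq
      have e : c * (deriv g₁ (x + u * t) ^ 2 * deriv g₂ (x + u * t)) * u =
          (c / (w ^ 3 * u ^ 2)) * ((w * u * deriv g₁ (x + u * t)) ^ 2 *
            (w * u * deriv g₂ (x + u * t))) := by
        field_simp
      have h4 : (c * (deriv g₁ (x + u * t) ^ 2 * deriv g₂ (x + u * t)) * u).im = 0 := by
        have real_of : ∀ v : ℂ, v.im = 0 → v = (v.re : ℂ) := fun v hv =>
          Complex.ext (by simp) (by simp [hv])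
        rw [e, real_of _ hcuw, real_of _ i1, real_of _ i2, ← ofReal_pow, ← ofReal_mul,
          ← ofReal_mul, ofReal_im]
      have h5 : HasDerivAt (fun t : ℝ => (Ψ (x + u * t)).im)
          ((c * (deriv g₁ (x + u * t) ^ 2 * deriv g₂ (x + u * t)) * u).im) t := by
        simpa [Function.comp_def] using h3
      rwa [h4] at h5
    have h6 := (isOpen_Ioo (a := -r) (b := r)).is_const_of_deriv_eq_zero isPreconnected_Ioo
      (fun t ht => (hderiv t ht).differentiableAt.differentiableWithinAt)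
      (fun t ht => (hderiv t ht).deriv) (x := t₀) (y := 0)
      ⟨(abs_lt.1 ht0).1, (abs_lt.1 ht0).2⟩ ⟨by linarith, hr⟩
    simp only [ofReal_zero, mul_zero, add_zero] at h6
    rw [hyt]
    exact h6
  -- a point of the half disc
  obtain ⟨z₀, hz₀⟩ : D.Nonempty := by
    have : (x : ℂ) ∈ closure P := (H33.Q1.mem_closure_half hu hP (mem_ball_self hr)).2 (by simp)
    obtain ⟨y, hy1, hy2⟩ := mem_closure_iff_nhds.1 this _ (ball_mem_nhds x hr)
    exact ⟨y, hy1, (hP y hy1).1 hy2⟩
  refine ⟨(Ψ x).im + (Φ z₀ - Ψ z₀).im, ?_⟩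
  intro y hy hy0
  rw [← hdiam y hy hy0]
  have h7 : Tendsto (fun z => (Ψ z).im + (Φ z₀ - Ψ z₀).im) (𝓝[P] y)
      (𝓝 ((Ψ y).im + (Φ z₀ - Ψ z₀).im)) := by
    have h8 : ContinuousAt (fun z => (Ψ z).im) y :=
      Complex.continuous_im.continuousAt.comp (hΨ y hy).continuousAt
    exact (h8.tendsto.mono_left nhdsWithin_le_nhds).add_const _
  refine h7.congr' ?_
  have h9 : ∀ᶠ z in 𝓝[P] y, z ∈ ball x r := mem_nhdsWithin_of_mem_nhds (isOpen_ball.mem_nhds hy)
  filter_upwards [h9, self_mem_nhdsWithin] with z hz hzP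
  have h10 := hconst z ⟨hz, (hP z hz).1 hzP⟩ z₀ hz₀
  rw [← h10]
  simp

end Q1
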